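import Pool.Agent.Lib.MP_5a0708_an.Nil.SpecD

/-!
# MP_5a0708_an, package Nil : the main theorem (module FIN)
-/

set_option autoImplicit false

namespace Pool.MP_5a0708_an.Nil

theorem FIN_comm {α : Equiv.Perm Pt} (hα : α ∈ Au) (k : ℤ) (x : Pt) :
    α (tr k x) = tr k (α x) := by
  obtain ⟨r, hr⟩ := hα
  exact hr.comm k x

theorem FIN_rr (hRR : SRR) {α : Equiv.Perm Pt} {N : ℕ} (hα : α ∈ Au)
    (h : ∀ (x : Pt) (n : ℕ), LP n x → n < N → Orb (rr n) x ∨ α x = x) {n : ℕ} (hn : 1 ≤ n)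
    (hnN : n < N) : ∃ k : ℤ, α (rr n) = tr k (rr n) := by
  have h1 := hRR.1 n hn
  rcases h (α (rr n)) n (h1.image hα) hnN with h2 | h2
  · obtain ⟨k, hk⟩ := h2
    exact ⟨k, hk⟩
  · refine ⟨0, ?_⟩
    rw [tr_zero]
    exact α.injective h2

/-- on every point of least period `m < N` both automorphisms act as translations -/
theorem FIN_tr (hRR : SRR) {α β : Equiv.Perm Pt} {N : ℕ} (hα : α ∈ Au) (hβ : β ∈ Au)
    (h : ∀ (x : Pt) (n : ℕ), LP n x → n < N → Orb (rr n) x ∨ α x = x)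
    (h' : ∀ (x : Pt) (n : ℕ), LP n x → n < N → Orb (rr n) x ∨ β x = x) {m : ℕ} {x : Pt}
    (hm : m < N) (hx : LP m x) : ∃ a b : ℤ, α x = tr a x ∧ β x = tr b x := by
  by_cases ho : Orb (rr m) x
  · obtain ⟨j, rfl⟩ := ho
    obtain ⟨a, ha⟩ := FIN_rr hRR hα h hx.1 hm
    obtain ⟨b, hb⟩ := FIN_rr hRR hβ h' hx.1 hm
    refine ⟨a, b, ?_, ?_⟩
    · rw [FIN_comm hα, ha, tr_tr, tr_tr, add_comm]
    · rw [FIN_comm hβ, hb, tr_tr, tr_tr, add_comm]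
  · refine ⟨0, 0, ?_, ?_⟩
    · rw [tr_zero]
      exact (h x m hx hm).resolve_left ho
    · rw [tr_zero]
      exact (h' x m hx hm).resolve_left ho

theorem FIN_inv_tr {α : Equiv.Perm Pt} (hα : α ∈ Au) {x : Pt} {a : ℤ} (h : α x = tr a x) :
    α⁻¹ x = tr (-a) x := by
  have h1 : α (tr (-a) x) = x := by
    rw [FIN_comm hα, h, tr_tr, neg_add_cancel, tr_zero]
  rw [← h1, inv_ap, h1]

theorem FIN_cm {α β : Equiv.Perm Pt} (hα : α ∈ Au) (hβ : β ∈ Au) {x : Pt} {a b : ℤ}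
    (h : α x = tr a x) (h' : β x = tr b x) : cm α β x = x := by
  have hαi := Au.inv_mem hα
  change α (β (α⁻¹ (β⁻¹ x))) = x
  rw [FIN_inv_tr hβ h', FIN_comm hαi, FIN_inv_tr hα h, FIN_comm hβ, FIN_comm hβ, h', FIN_comm hα,
    FIN_comm hα, FIN_comm hα, h, tr_tr, tr_tr, tr_tr]
  have : -b + -a + b + a = 0 := by ring
  rw [this, tr_zero]

theorem FIN_pow {α : Equiv.Perm Pt} (hα : α ∈ Au) {x : Pt} {a : ℤ} (h : α x = tr a x) (e : ℕ) :
    (α ^ e) x = tr (e * a) x := by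
  induction e with
  | zero => simp [tr_zero]
  | succ e ih =>
    rw [pow_succ', Equiv.Perm.mul_apply, ih, FIN_comm hα, h, tr_tr]
    congr 1
    push_cast
    ring

theorem tFIN (hA : SCAOF) (hPC : SPC) (hRR : SRR) (hT : STHT) (hC : SCNG) (hN : SNRM)
    (hQ : SQUO) : SFIN := by
  have base : ∀ α β : Equiv.Perm Pt, α ∈ Au → β ∈ Au → ∀ δ : Equiv.Perm Pt, δ ∈ Au →
      cm δ (cm α β) ∈ G ∧ ∃ e : ℕ, 0 < e ∧ cm (α ^ e) β ∈ G := by
    intro α β hα hβ δ hδ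
    obtain ⟨ψ1, hψ1, L1, h1⟩ := hA α hα
    obtain ⟨ψ2, hψ2, L2, h2⟩ := hA β hβ
    obtain ⟨ψ3, hψ3, L3, h3⟩ := hA δ hδ
    set L := max 2 (max L1 (max L2 L3)) with hLdef
    have hL2 : 2 ≤ L := le_max_left _ _
    have c1 : CA L (ψ1 * α) := h1 L (by simp [hLdef])
    have c2 : CA L (ψ2 * β) := h2 L (by simp [hLdef])
    have c3 : CA L (ψ3 * δ) := h3 L (by simp [hLdef])
    obtain ⟨N, hTN⟩ := hT L (by omega)
    obtain ⟨ρ1, hρ1, hρ1c, hp1⟩ := hPC L N (ψ1 * α) hL2 c1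
    obtain ⟨ρ2, hρ2, hρ2c, hp2⟩ := hPC L N (ψ2 * β) hL2 c2
    have d1 : CA L (ρ1 * (ψ1 * α)) := hρ1c.mul c1
    have d2 : CA L (ρ2 * (ψ2 * β)) := hρ2c.mul c2
    have a1G : ρ1 * (ψ1 * α) * α⁻¹ ∈ G := by
      have : ρ1 * (ψ1 * α) * α⁻¹ = ρ1 * ψ1 := by group
      rw [this]; exact G.mul_mem hρ1 hψ1
    have b1G : ρ2 * (ψ2 * β) * β⁻¹ ∈ G := by
      have : ρ2 * (ψ2 * β) * β⁻¹ = ρ2 * ψ2 := by group
      rw [this]; exact G.mul_mem hρ2 hψ2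
    have d0G : ψ3 * δ * δ⁻¹ ∈ G := by
      have : ψ3 * δ * δ⁻¹ = ψ3 := by group
      rw [this]; exact hψ3
    have key := fun {m : ℕ} {x : Pt} (hm : m < N) (hx : LP m x) =>
      FIN_tr hRR d1.mem d2.mem hp1 hp2 hm hx
    have hcmA : cm α β ∈ Au := Au.mul_mem (Au.mul_mem (Au.mul_mem hα hβ) (Au.inv_mem hα)) (Au.inv_mem hβ)
    constructor
    · have hfix : ∀ (n : ℕ) (x : Pt), 0 < n → n < N → Per n x →
          cm (ρ1 * (ψ1 * α)) (ρ2 * (ψ2 * β)) x = x := by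
        intro n x hn hnN hx
        obtain ⟨m, hm, hmx⟩ := exists_lp hn hx
        obtain ⟨a, b, ha, hb⟩ := key (lt_of_le_of_lt hm hnN) hmx
        exact FIN_cm d1.mem d2.mem ha hb
      have e1 := hTN (ψ3 * δ) _ c3 (d1.commutator d2) hfix
      have e2 := hC α _ β _ hα d1.mem hβ d2.mem a1G b1G
      have e3 := hC δ _ (cm α β) _ hδ c3.mem hcmA (d1.commutator d2).mem d0G e2
      have e4 : cm δ (cm α β) = (cm (ψ3 * δ) (cm (ρ1 * (ψ1 * α)) (ρ2 * (ψ2 * β))) *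
          (cm δ (cm α β))⁻¹)⁻¹ * cm (ψ3 * δ) (cm (ρ1 * (ψ1 * α)) (ρ2 * (ψ2 * β))) := by group
      rw [e4]
      exact G.mul_mem (G.inv_mem e3) e1
    · refine ⟨N.factorial, Nat.factorial_pos N, ?_⟩
      have hfix : ∀ (n : ℕ) (x : Pt), 0 < n → n < N → Per n x →
          ((ρ1 * (ψ1 * α)) ^ N.factorial) x = x := by
        intro n x hn hnN hx
        obtain ⟨m, hm, hmx⟩ := exists_lp hn hx
        obtain ⟨a, b, ha, -⟩ := key (lt_of_le_of_lt hm hnN) hmx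
        rw [FIN_pow d1.mem ha]
        obtain ⟨q, hq⟩ := Nat.dvd_factorial hmx.1 (le_of_lt (lt_of_le_of_lt hm hnN))
        funext i
        rw [tr_apply]
        have := hmx.2.1.int_mul (q * a) i
        rw [← this]
        congr 1
        rw [hq]
        push_cast
        ring
      have e1 := hTN (ρ2 * (ψ2 * β)) _ d2 (d1.pow N.factorial) hfix
      have e1' : cm ((ρ1 * (ψ1 * α)) ^ N.factorial) (ρ2 * (ψ2 * β)) ∈ G := by
        have : cm ((ρ1 * (ψ1 * α)) ^ N.factorial) (ρ2 * (ψ2 * β)) =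
          (cm (ρ2 * (ψ2 * β)) ((ρ1 * (ψ1 * α)) ^ N.factorial))⁻¹ := by
          unfold cm
          group
        rw [this]
        exact G.inv_mem e1
      have hpw : ∀ e : ℕ, (ρ1 * (ψ1 * α)) ^ e * (α ^ e)⁻¹ ∈ G := by
        intro e
        induction e with
        | zero => simp [G.one_mem]
        | succ e ih =>
          have : (ρ1 * (ψ1 * α)) ^ (e + 1) * (α ^ (e + 1))⁻¹ =
            (ρ1 * (ψ1 * α)) * ((ρ1 * (ψ1 * α)) ^ e * (α ^ e)⁻¹) * (ρ1 * (ψ1 * α))⁻¹ *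
              (ρ1 * (ψ1 * α) * α⁻¹) := by
            rw [pow_succ' (ρ1 * (ψ1 * α)), pow_succ' α, mul_inv_rev]
            group
          rw [this]
          exact G.mul_mem (hN _ _ d1.mem ih) a1G
      have e2 := hC (α ^ N.factorial) _ β _ (Au.pow_mem hα _) (d1.pow N.factorial).mem hβ d2.mem
        (hpw _) b1G
      have e4 : cm (α ^ N.factorial) β = (cm ((ρ1 * (ψ1 * α)) ^ N.factorial) (ρ2 * (ψ2 * β)) *
          (cm (α ^ N.factorial) β)⁻¹)⁻¹ *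
          cm ((ρ1 * (ψ1 * α)) ^ N.factorial) (ρ2 * (ψ2 * β)) := by group
      rw [e4]
      exact G.mul_mem (G.inv_mem e2) e1'
  have hnormal : (G.subgroupOf Au).Normal := by
    constructor
    intro n hn g
    rw [Subgroup.mem_subgroupOf] at hn ⊢
    exact hN g n g.2 hn
  have hmk : ∀ a : Au, (QuotientGroup.mk a : Au ⧸ G.subgroupOf Au) = 1 ↔ (a : Equiv.Perm Pt) ∈ G := by
    intro a
    rw [QuotientGroup.eq_one_iff, Subgroup.mem_subgroupOf]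
  have htriple : ∀ d a b : Au ⧸ G.subgroupOf Au,
      d * (a * b * a⁻¹ * b⁻¹) * d⁻¹ * (a * b * a⁻¹ * b⁻¹)⁻¹ = 1 := by
    intro d a b
    induction d using QuotientGroup.induction_on with
    | H d =>
    induction a using QuotientGroup.induction_on with
    | H a =>
    induction b using QuotientGroup.induction_on with
    | H b =>
    have := (hmk (d * (a * b * a⁻¹ * b⁻¹) * d⁻¹ * (a * b * a⁻¹ * b⁻¹)⁻¹)).2
      (base a b a.2 b.2 d d.2).1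
    exact this
  intro α β δ hα hβ hδ
  refine ⟨(base α β hα hβ δ hδ).1, ?_⟩
  obtain ⟨e, he, h1⟩ := (base α β hα hβ δ hδ).2
  refine ⟨e, he, ?_⟩
  have h2 := hQ (Au ⧸ G.subgroupOf Au) htriple (QuotientGroup.mk ⟨α, hα⟩) (QuotientGroup.mk ⟨β, hβ⟩) e
  have h3 : (QuotientGroup.mk ((⟨α, hα⟩ : Au) ^ e * ⟨β, hβ⟩ * ((⟨α, hα⟩ : Au) ^ e)⁻¹ *
      (⟨β, hβ⟩ : Au)⁻¹) : Au ⧸ G.subgroupOf Au) = 1 := by
    rw [hmk]
    exact h1
  have h4 : (QuotientGroup.mk (((⟨α, hα⟩ : Au) * ⟨β, hβ⟩ * (⟨α, hα⟩ : Au)⁻¹ *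
      (⟨β, hβ⟩ : Au)⁻¹) ^ e) : Au ⧸ G.subgroupOf Au) = 1 := by
    exact h2.symm.trans h3
  rw [hmk] at h4
  exact h4

end Pool.MP_5a0708_an.Nil
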