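import Pool.Agent.Lib.MP_5a0708_an.Nil.SpecC

/-!
# MP_5a0708_an, package Nil : the modules, part D (the commutator, the final theorem)
-/

set_option autoImplicit false

namespace Pool.MP_5a0708_an.Nil

/-! ## 9. The commutator of `α` and `γ` -/

/-- the data: `α` is a cut-off of `δ` at `a`, `γ` is trivial at distance more than `ρ` from the
blocks -/
structure ED (L a ca ρ rα rγ rδ : ℕ) (α γ δ : Equiv.Perm Pt) : Prop where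
  hL : 1 ≤ L
  caα : CA L α
  autα : IsAut rα α
  autγ : IsAut rγ γ
  autδ : IsAut rδ δ
  a1 : ∀ (x : Pt) (i : ℤ), α x i ≠ x i → NoZ L x (i - a) (i + 1 + a)
  a1' : ∀ (x : Pt) (i : ℤ), α.symm x i ≠ x i → NoZ L x (i - a) (i + 1 + a)
  a2 : ∀ (x : Pt) (i : ℤ), NoZ L x (i - ca) (i + 1 + ca) → α x i = δ x i
  a2' : ∀ (x : Pt) (i : ℤ), NoZ L x (i - ca) (i + 1 + ca) → α.symm x i = δ.symm x i
  g1 : ∀ (x : Pt) (i : ℤ), NoZ L x (i - ρ) (i + 1 + ρ) → γ x i = x i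
  g1' : ∀ (x : Pt) (i : ℤ), NoZ L x (i - ρ) (i + 1 + ρ) → γ.symm x i = x i
  ha : 2 * rγ + 2 * ρ + 3 * L + 2 ≤ a

/-- `η = γ α⁻¹ γ⁻¹` -/
def eta (α γ : Equiv.Perm Pt) : Equiv.Perm Pt := γ * α⁻¹ * γ⁻¹

/-- **ETA**.  Let `x1 = γ⁻¹ x`, `x2 = α⁻¹ x1`, `x3 = η x = γ x2`.  `ZEq x2 x1` (`CA.inv`).
(1) `ZEq x3 x`.  Let `J = [b, b+L)`.  Case I: `x1` has a block inside `[b - ρ, b + L + ρ)`.  Then for
`j ∈ [b - rγ, b + L + rγ)` this block is inside `[j - a, j + 1 + a)` (`a ≥ ρ + L + rγ`), so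
`x2 j = x1 j` by `a1'`; so `x3 = γ x2 = γ x1 = x` on `J` (radius `rγ`).  Case II:
`NoZ x1 (b-ρ) (b+L+ρ)`: then for `j ∈ J`: `NoZ x1 (j-ρ) (j+1+ρ)`, so `x j = γ x1 j = x1 j`, and as
`ZEq x2 x1` also `x3 j = γ x2 j = x2 j`.  So `ZOn x3 J ↔ ZOn x2 J ↔ ZOn x1 J ↔ ZOn x J`.
(2) Let `x3 i ≠ x i`.  Then there is no block of `x1` inside `[i - a + rγ, i + 1 + a - rγ)`: otherwise
for `j ∈ [i-rγ, i+rγ]` it is inside `[j-a, j+1+a)`, so `x2 = x1` on `[i-rγ, i+rγ]` and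
`x3 i = γ x1 i = x i`.  So for `j` with `i - a + rγ + ρ ≤ j` and `j + 1 + ρ ≤ i + 1 + a - rγ`:
`x j = γ x1 j = x1 j`.  Hence `NoZ x (i - a + rγ + ρ) (i + 1 + a - rγ - ρ)`. -/
def SETA : Prop := ∀ (L a ca ρ rα rγ rδ : ℕ) (α γ δ : Equiv.Perm Pt),
  ED L a ca ρ rα rγ rδ α γ δ → (∀ x : Pt, ZEq L (eta α γ x) x) ∧
  ∀ (x : Pt) (i : ℤ), eta α γ x i ≠ x i →
    NoZ L x (i - (a : ℤ) + rγ + ρ) (i + 1 + (a : ℤ) - rγ - ρ)

/-- **ETB** (uses `SETA`).  `ε = α * η = cm α γ` (as `cm α γ = α γ α⁻¹ γ⁻¹`).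
(1) `ZEq (ε x) x`: `SETA` and `zp` for `α`.
(2) Let `ε x i ≠ x i`.  If `η x i ≠ x i`: (2) of `SETA`.  Otherwise `α (η x) i ≠ η x i`, so
`NoZ (η x) (i-a) (i+1+a)` and (by `ZEq`) `NoZ x (i-a) (i+1+a)`.  In both cases
`NoZ x (i - A - L + 1) (i + A + L)` with `A = a - rγ - ρ - L`.
(3) If `NoZ x (i - B1) (i + 1 + B1)`, `B1 = 2ρ + ca + rδ + a`, then `ε x i = x i`: with
`x1, x2, x3` as in `SETA`: `x1 = x` on `[i - B1 + ρ, i + 1 + B1 - ρ)` (`g1'`), so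
`NoZ x1 (i - B1 + ρ) (i + 1 + B1 - ρ)`, and the same for `x2` (`ZEq x2 x1`).  For `|j - i| ≤ rδ`:
`x2 j = δ⁻¹ x1 j` (`a2'`) and `x3 j = x2 j` (`g1`).
`NoZ x3 (i - B1) (i + 1 + B1)` by `ZEq x3 x`, so
`ε x i = α x3 i = δ x3 i = δ (δ⁻¹ x1) i = x1 i = x i`. -/
def SETB : Prop := ∀ (L a ca ρ rα rγ rδ : ℕ) (α γ δ : Equiv.Perm Pt),
  ED L a ca ρ rα rγ rδ α γ δ → (∀ x : Pt, ZEq L (cm α γ x) x) ∧
  (∀ (x : Pt) (i : ℤ), cm α γ x i ≠ x i →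
    NoZ L x (i - ((a : ℤ) - rγ - ρ - L) - L + 1) (i + ((a : ℤ) - rγ - ρ - L) + L)) ∧
  ∀ (x : Pt) (i : ℤ),
    NoZ L x (i - (2 * ρ + ca + rδ + a : ℕ)) (i + 1 + (2 * ρ + ca + rδ + a : ℕ)) →
    cm α γ x i = x i

/-- **ETC** (uses `SETA`).  Dependence of `ε = cm α γ` at a left end.  `Co = L + ρ + rγ`.
Let `LEnd x s`, `LEnd y s`, `Agr x y (s - Co) b`.  Then `Agr (ε x) (ε y) s (b - 2rα - 2rγ)`.
Proof: letters as in `SETA`, `y1, y2, y3` for `y`.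
(i) For `j ∈ [s, s + ρ + rγ)`: `x3 j = x j` by (2) of `SETA`, since the block `[s-L, s)` of `x` is
inside `[j - a + rγ + ρ, j + 1 + a - rγ - ρ)` (`ha`); the same for `y`; so `x3 j = y3 j` if `j < b`.
(ii) If `b ≤ s + ρ + rγ`, then `x3`, `y3` agree on `[s, b)`.
(iii) Let `b > s + ρ + rγ`.  `x1`, `y1` agree on `[s - Co + rγ, b - rγ) = [s - L - ρ, b - rγ)`, which
contains `[s - L - ρ, s + ρ)`.  `x1` has a block inside `[s - L - ρ, s + ρ)`: otherwise for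
`j ∈ [s-L, s)`: `NoZ x1 (j-ρ) (j+1+ρ)`, `x j = γ x1 j = x1 j`, so `[s-L, s)` is a block of `x1`,
impossible.  Let it be `[s1 - L, s1)`, `s - ρ ≤ s1 ≤ s + ρ`; it is a block of `y1` too.  `CA.agrL` for
`α⁻¹` (`CA.inv`, `IsAut.inv`): `x2`, `y2` agree on `[s1, b - rγ - rα)`.  So `x3 = γ x2`, `y3` agree on
`[s1 + rγ, b - 2rγ - rα)`, which contains `[s + ρ + rγ, b - 2rγ - rα)`.  With (i): `x3`, `y3` agree on
`[s, b - 2rγ - rα)`.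
(iv) In both cases `x3`, `y3` have the block `[s-L, s)` (`ZEq x3 x`); `CA.agrL` for `α`:
`ε x = α x3` and `ε y = α y3` agree on `[s, b - 2rγ - 2rα)`. -/
def SETC : Prop := ∀ (L a ca ρ rα rγ rδ : ℕ) (α γ δ : Equiv.Perm Pt),
  ED L a ca ρ rα rγ rδ α γ δ → ∀ (x y : Pt) (s b : ℤ), LEnd L x s → LEnd L y s →
  Agr x y (s - (L + ρ + rγ : ℕ)) b →
  Agr (cm α γ x) (cm α γ y) s (b - 2 * rα - 2 * rγ)

/-- **ETD** (uses `SETC`).  The mirror image: apply `SETC` to the mirror images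
`mirE * α * mirE` etc.: they satisfy `ED` with the same numbers (`CA.mir`, `isAut_mir`;
`NoZ (mirE x) (-i - a) (-i + 1 + a) ↔ NoZ x (i - a) (i + 1 + a)` by `noz_mir`), and `cm` of the
mirror images is the mirror image of `cm α γ` (`mirE_mul_self`).  `REnd L x t ↔ LEnd L (mirE x) (1-t)`
(`lend_mir`), `agr_mir`.  Or repeat the proof of `SETC` with `CA.agrR`. -/
def SETD : Prop := ∀ (L a ca ρ rα rγ rδ : ℕ) (α γ δ : Equiv.Perm Pt),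
  ED L a ca ρ rα rγ rδ α γ δ → ∀ (x y : Pt) (t b : ℤ), REnd L x t → REnd L y t →
  Agr x y b (t + (L + ρ + rγ : ℕ)) →
  Agr (cm α γ x) (cm α γ y) (b + 2 * rα + 2 * rγ) t

/-- **ETE** (uses `SETA`).  Dependence on a whole cluster.  Letters as in `SETC`.  Let
`Agr x y (s - Co) (t + Co)`, clusters `[s,t)` of both.  Then `Agr (ε x) (ε y) s t`.
If `t - s ≤ 2ρ + 2rγ`: for `i ∈ [s,t)` one of the blocks `[s-L,s)`, `[t,t+L)` of `x` is inside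
`[i - a + rγ + ρ, i + 1 + a - rγ - ρ)` (`a` is large: `ha`), so `η x i = x i`, `η y i = y i`.
Otherwise, as in `SETC`, there are blocks `[s1-L, s1)` and `[t1, t1+L)` of `x1` and `y1` with
`s - ρ ≤ s1 ≤ s + ρ`, `t - ρ ≤ t1 ≤ t + ρ` (the second inside `[t - ρ, t + L + ρ)`), `s1 ≤ t1`;
`CA.agrLR`: `x2`, `y2` agree on `[s1, t1)`, `x3`, `y3` on `[s1 + rγ, t1 - rγ)`, which contains
`[s + ρ + rγ, t - ρ - rγ)`; on the rest of `[s,t)`: `x3 j = x j`, `y3 j = y j` as in `SETC`.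
So in both cases `η x`, `η y` agree on `[s,t)` and have the blocks `[s-L,s)`, `[t,t+L)`; `CA.agrLR`
for `α`. -/
def SETE : Prop := ∀ (L a ca ρ rα rγ rδ : ℕ) (α γ δ : Equiv.Perm Pt),
  ED L a ca ρ rα rγ rδ α γ δ → ∀ (x y : Pt) (s t : ℤ), Clu L x s t → Clu L y s t →
  Agr x y (s - (L + ρ + rγ : ℕ)) (t + (L + ρ + rγ : ℕ)) →
  Agr (cm α γ x) (cm α γ y) s t

/-- **EPS** (uses `SEW`, `SETB`, `SETC`, `SETD`, `SETE`).  Apply `SEW` to `ε = cm α γ`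
(an automorphism) with `A = a - rγ - ρ - L` (natural number), `Co = L + ρ + rγ`
(`Co ≤ A + L` by `ha`), `B1 = 2ρ + ca + rδ + a`, `B = B1 + 2rα + 2rγ + 1`,
`H = 2B + A + Co + L + B1`.  First hypothesis: (2) of `SETB`, and (3) of `SETB` for `¬ NoZ`
(`B ≥ B1`).  Second hypothesis: `SETC` with `b = s + B`: agreement on `[s, s + B - 2rα - 2rγ)`; for
`i ∈ [s + B - 2rα - 2rγ, s + B)`: `i - B1 ≥ s`, `i + B1 ≤ s + H`, so both values are `x i = y i` by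
(3) of `SETB`.  Third: the mirror image with `SETD`.  Fourth: `SETE`. -/
def SEPS : Prop := ∀ (L a ca ρ rα rγ rδ : ℕ) (α γ δ : Equiv.Perm Pt),
  ED L a ca ρ rα rγ rδ α γ δ → cm α γ ∈ G

/-! ## 10. The main theorems -/

/-- **THT** (uses `SGK`, `SEF`, `SBET`, `SCLA`, `SCUT`, `SCutQ`, `SENDT`, `SEPS`, `SCNG`,
`SNRM`).  The core theorem.  `N` from `SGK`.  Let `ρ0 ∈ G` from `SEF`, `c' = ρ0 * c` (`CA L`), `r` a
radius of `c'`, `K = r + 2N + L + 1`; `g`, `W` from `SGK`; `g ∈ G`, `g` has a radius `ρg`;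
`R = K + L + W + 2r + 2`; `β` from `SBET`.  `γ = g * β * g⁻¹` (`g⁻¹ = g` as functions), `rγ` a radius.
By `SCLA` for `β` and `β.symm`: `γ`, `γ.symm` satisfy `g1`, `g1'` with `ρ = W + ρg`.
`γ * c⁻¹ ∈ G`: `γ * β⁻¹ = g * (β * g⁻¹ * β⁻¹) ∈ G` (`SNRM`), `β * c'⁻¹ ∈ G`, `c' * c⁻¹ = ρ0 ∈ G`.
Let `rδ` be a radius of `δ`, `a = 2rγ + 2ρ + 3L + 2 + 2rδ + 1 + L`, `α` from `SCUT` (for `δ` at `a`),
`ca = 2a + 2L + rδ`: `ED` by `SCutQ` for `δ` and `δ.symm`.  `α * δ⁻¹ ∈ G` by `SENDT` as in `SBET`.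
`SEPS`: `cm α γ ∈ G`.  `SCNG`: `cm α γ * (cm δ c)⁻¹ ∈ G`, so `cm δ c ∈ G`. -/
def STHT : Prop := ∀ L : ℕ, 1 ≤ L → ∃ N : ℕ, ∀ δ c : Equiv.Perm Pt, CA L δ → CA L c →
  (∀ (n : ℕ) (x : Pt), 0 < n → n < N → Per n x → c x = x) → cm δ c ∈ G

/-- **FIN** (uses `SCAOF`, `SPC`, `SRR`, `STHT`, `SCNG`, `SNRM`, `SQUO`).  The main theorem.
Choose `ψ1, ψ2, ψ3 ∈ G` and `L ≥ 2` with `CA L` for `α0 = ψ1 α`, `β0 = ψ2 β`, `δ0 = ψ3 δ` (`SCAOF`), `N` from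
`STHT`, `ρ1, ρ2 ∈ G` from `SPC` for `α0`, `β0`; `α1 = ρ1 α0`, `β1 = ρ2 β0`, `c = cm α1 β1`.
(1) `α1 (rr n) = tr k (rr n)` for some `k` (`0 < n < N`): `α1 (rr n)` has least period `n` (`SRR`,
`LP.image`); if it were not in the orbit of `rr n`, `α1 (α1 (rr n)) = α1 (rr n)`, so
`α1 (rr n) = rr n`.  The same for `β1`.  (2) `c x = x` for `Per n x`, `0 < n < N`: let `LP m x`, `m ≤ n`
(`exists_lp`).  If `x` is not in the orbit of `rr m`: `α1 x = x`, `β1 x = x`.  If it is, `α1`, `β1` act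
on the orbit as translations, which commute.  (3) `STHT`: `cm δ0 c ∈ G`; by `SCNG` (twice)
`cm δ (cm α β) ∈ G`.  This holds for all `α, β, δ ∈ Au`.
(4) `e = N !` (factorial).  `α1^e` fixes all `x` with `Per n x`, `0 < n < N`: with `m` as in (2) and
`x = tr j (rr m)`: `α1^e x = tr (e k) x = x` since `m ∣ e`.  So `cm β1 (α1^e) ∈ G`, hence
`cm (α1^e) β1 ∈ G` (its inverse) and `cm (α^e) β ∈ G` by `SCNG` (`α1^e` and `α^e` are congruent mod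
`G`: powers in the quotient).  In the quotient of `Au` by `G` all triple commutators are trivial by
(3), so by `SQUO` `(cm α β)^e ≡ cm (α^e) β ≡ 1`. -/
def SFIN : Prop := ∀ α β δ : Equiv.Perm Pt, α ∈ Au → β ∈ Au → δ ∈ Au →
  cm δ (cm α β) ∈ G ∧ ∃ e : ℕ, 0 < e ∧ (cm α β) ^ e ∈ G

end Pool.MP_5a0708_an.Nil
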