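import Pool.Agent.Lib.MP_5a0708_an.Nil.SpecA

/-!
# MP_5a0708_an, package Nil : the window lemma
-/

set_option autoImplicit false

namespace Pool.MP_5a0708_an.Nil

namespace WIN

variable {L C M : ℕ} {T : Pt → ℤ → ℕ → Prop}

/-- the hypotheses of the window lemma -/
structure Hyp (L C : ℕ) (T : Pt → ℤ → ℕ → Prop) (ε : Equiv.Perm Pt) : Prop where
  aut : ∃ r : ℕ, IsAut r ε
  ze : ∀ x : Pt, ZEq L (ε x) x
  W : ∀ (x y : Pt) (c : ℤ) (h : ℕ), T x c h → T y c h → Agr x y (c - C) (c + h + C) →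
    Agr (ε x) (ε y) c (c + h)
  E : ∀ (x : Pt) (i : ℤ), ε x i ≠ x i → ∃ (c : ℤ) (h : ℕ), T x c h ∧ c ≤ i ∧ i < c + h

/-- the context of a window meets no other window -/
theorem same (hT : WinData L C M T) {x : Pt} {c c' i : ℤ} {h h' : ℕ} (h1 : T x c h)
    (h2 : T x c' h') (h3 : c - C ≤ i) (h4 : i < c + h + C) (h5 : c' ≤ i) (h6 : i < c' + h') :
    c' = c ∧ h' = h := by
  rcases lt_trichotomy c c' with h7 | h7 | h7
  · have := hT.sep x c c' h h' h1 h2 h7
    omega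
  · subst h7
    exact ⟨rfl, hT.uniq x c h' h h2 h1⟩
  · have := hT.sep x c' c h' h h2 h1 h7
    omega

theorem Hyp.ctx (hT : WinData L C M T) {ε : Equiv.Perm Pt} (hε : Hyp L C T ε) {x : Pt} {c : ℤ}
    {h : ℕ} (h1 : T x c h) {i : ℤ} (h3 : c - C ≤ i) (h4 : i < c + h + C)
    (h5 : ¬ (c ≤ i ∧ i < c + h)) : ε x i = x i := by
  by_contra hne
  obtain ⟨c', h', h6, h7, h8⟩ := hε.E x i hne
  obtain ⟨rfl, rfl⟩ := same hT h1 h6 h3 h4 h7 h8
  exact h5 ⟨h7, h8⟩

theorem Hyp.agr (hT : WinData L C M T) {ε : Equiv.Perm Pt} (hε : Hyp L C T ε) {x y : Pt} {c : ℤ}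
    {h : ℕ} (h1 : T x c h) (h2 : T y c h) (h3 : Agr x y (c - C) (c + h + C)) :
    Agr (ε x) (ε y) (c - C) (c + h + C) := by
  intro i h4 h5
  by_cases h6 : c ≤ i ∧ i < c + h
  · exact hε.W x y c h h1 h2 h3 i h6.1 h6.2
  · rw [hε.ctx hT h1 h4 h5 h6, hε.ctx hT h2 h4 h5 h6]
    exact h3 i h4 h5

theorem Hyp.win (hT : WinData L C M T) {ε : Equiv.Perm Pt} (hε : Hyp L C T ε) {x : Pt} {c : ℤ}
    {h : ℕ} : T (ε x) c h ↔ T x c h :=
  ⟨hT.zeq _ _ c h (hε.ze x), hT.zeq _ _ c h (hε.ze x).symm⟩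

theorem Hyp.mul (hT : WinData L C M T) {ι ε : Equiv.Perm Pt} (hι : Hyp L C T ι)
    (hε : Hyp L C T ε) : Hyp L C T (ι * ε) := by
  refine ⟨Au.mul_mem hι.aut hε.aut, fun x => (hι.ze _).trans (hε.ze x), ?_, ?_⟩
  · intro x y c h h1 h2 h3
    exact hι.W _ _ c h ((hε.win hT).2 h1) ((hε.win hT).2 h2) (hε.agr hT h1 h2 h3)
  · intro x i hne
    by_cases h1 : ε x i = x i
    · have h2 : ι (ε x) i ≠ ε x i := by
        rw [h1]
        exact hne
      obtain ⟨c, h, h3, h4, h5⟩ := hι.E _ i h2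
      exact ⟨c, h, (hε.win hT).1 h3, h4, h5⟩
    · exact hε.E x i h1

/-- the involution of the swap lemma satisfies the hypotheses -/
theorem hyp_swap (hT : WinData L C M T) {h : ℕ} {z z' : Pt} {ι : Equiv.Perm Pt}
    (a1 : ∃ r : ℕ, IsAut r ι) (a2 : ∀ x : Pt, ZEq L (ι x) x)
    (a3 : ∀ (x : Pt) (c : ℤ), T x c h → RP C h z x c → RP C h z' (ι x) c)
    (a4 : ∀ (x : Pt) (c : ℤ), T x c h → RP C h z' x c → RP C h z (ι x) c)
    (a5 : ∀ (x : Pt) (i : ℤ), ι x i ≠ x i →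
      ∃ c : ℤ, T x c h ∧ (RP C h z x c ∨ RP C h z' x c) ∧ c ≤ i ∧ i < c + h) :
    Hyp L C T ι := by
  have rp : ∀ {x y v : Pt} {c : ℤ}, Agr x y (c - C) (c + h + C) → RP C h v x c →
      RP C h v y c := by
    intro x y v c h1 h2 j h3 h4
    rw [← h1 (c + j) (by omega) (by omega)]
    exact h2 j h3 h4
  have key : ∀ (x y : Pt) (c : ℤ) (h' : ℕ), T x c h' → T y c h' →
      Agr x y (c - C) (c + h' + C) → ∀ i : ℤ, c ≤ i → i < c + h' → ι x i ≠ x i →
      ι x i = ι y i := by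
    intro x y c h' h1 h2 h3 i h4 h5 hne
    obtain ⟨c2, h6, h7, h8, h9⟩ := a5 x i hne
    obtain ⟨rfl, rfl⟩ := same hT h1 h6 (by omega) (by omega) h8 h9
    have e : c2 + (i - c2) = i := by ring
    rcases h7 with h7 | h7
    · have b1 := a3 x c2 h6 h7 (i - c2) (by omega) (by omega)
      have b2 := a3 y c2 h2 (rp h3 h7) (i - c2) (by omega) (by omega)
      rw [e] at b1 b2
      rw [b1, b2]
    · have b1 := a4 x c2 h6 h7 (i - c2) (by omega) (by omega)
      have b2 := a4 y c2 h2 (rp h3 h7) (i - c2) (by omega) (by omega)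
      rw [e] at b1 b2
      rw [b1, b2]
  refine ⟨a1, a2, ?_, ?_⟩
  · intro x y c h' h1 h2 h3 i h4 h5
    by_cases h6 : ι x i = x i
    · by_cases h7 : ι y i = y i
      · rw [h6, h7]
        exact h3 i (by omega) (by omega)
      · exact (key y x c h' h2 h1 h3.symm i h4 h5 h7).symm
    · exact key x y c h' h1 h2 h3 i h4 h5 h6
  · intro x i hne
    obtain ⟨c, h1, -, h2, h3⟩ := a5 x i hne
    exact ⟨c, h, h1, h2, h3⟩

/-- the patterns: a window length and the letters on the window and its contexts -/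
abbrev Pat (C M : ℕ) : Type := Fin (M + 1) × (Fin (M + 2 * C) → Bool)

/-- `x` reads the pattern `p` at the window at `0` -/
def Rd (p : Pat C M) (x : Pt) : Prop :=
  ∀ k : Fin (M + 2 * C), (k : ℕ) < (p.1 : ℕ) + 2 * C → x ((k : ℤ) - C) = p.2 k

theorem Rd.agr {p : Pat C M} {x y : Pt} (hx : Rd p x) (hy : Rd p y) :
    Agr x y (0 - C) (0 + (p.1 : ℕ) + C) := by
  intro i h1 h2
  have h3 : (i + C).toNat < M + 2 * C := by
    have := p.1.2
    omega
  have h4 := hx ⟨(i + C).toNat, h3⟩ (by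
    change (i + C).toNat < _
    omega)
  have h5 := hy ⟨(i + C).toNat, h3⟩ (by
    change (i + C).toNat < _
    omega)
  have e : (((⟨(i + C).toNat, h3⟩ : Fin (M + 2 * C)) : ℕ) : ℤ) - C = i := by
    change (((i + C).toNat : ℕ) : ℤ) - C = i
    omega
  rw [e] at h4 h5
  rw [h4, h5]

/-- the pattern `p` is bad for `ε` -/
def Bad (T : Pt → ℤ → ℕ → Prop) (ε : Pt → Pt) (p : Pat C M) : Prop :=
  ∃ x : Pt, T x 0 (p.1 : ℕ) ∧ Rd p x ∧ ∃ k : ℤ, 0 ≤ k ∧ k < (p.1 : ℕ) ∧ ε x k ≠ x k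

theorem eq_one (hT : WinData L C M T) {ε : Equiv.Perm Pt} (hε : Hyp L C T ε)
    (h : ∀ p : Pat C M, ¬ Bad T ε p) : ε = 1 := by
  obtain ⟨r, hr⟩ := hε.aut
  ext x i
  rw [Equiv.Perm.one_apply]
  by_contra hne
  obtain ⟨c, h', h1, h2, h3⟩ := hε.E x i hne
  have hM := hT.bd x c h' h1
  apply h (⟨h', by omega⟩, fun k => tr c x ((k : ℤ) - C))
  refine ⟨tr c x, ?_, fun k _ => rfl, i - c, by omega, ?_, ?_⟩
  · rw [hT.cov, zero_add]
    exact h1
  · change i - c < (h' : ℤ)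
    omega
  · rw [hr.comm, tr_apply, tr_apply, sub_add_cancel]
    exact hne

theorem zon_ite {x v : Pt} {h : ℕ} (hLC : L ≤ C) {z z' : Pt} (hz : ZEq L z z') (h1 : ∀ j : ℤ, -(C : ℤ) ≤ j → j < h + C → v j = z j)
    (h2 : ∀ j : ℤ, -(C : ℤ) ≤ j → j < h + C → x j = z' j)
    (h3 : ∀ j : ℤ, ¬ (0 ≤ j ∧ j < h) → v j = x j) : ZEq L v x := by
  intro i
  by_cases h4 : i + L ≤ 0 ∨ (h : ℤ) ≤ i
  · exact zon_congr fun j h5 h6 => h3 j (by omega)
  · have h5 : ZOn v i (i + L) ↔ ZOn z i (i + L) :=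
      zon_congr fun j h6 h7 => h1 j (by omega) (by omega)
    have h6 : ZOn x i (i + L) ↔ ZOn z' i (i + L) :=
      zon_congr fun j h6 h7 => h2 j (by omega) (by omega)
    rw [h5, h6]
    exact hz i

/-- the main step: one bad pattern less -/
theorem step (hLC : L ≤ C) (hT : WinData L C M T) {ι ε : Equiv.Perm Pt} (hε : Hyp L C T ε)
    {p : Pat C M} {x0 : Pt} (hp1 : T x0 0 (p.1 : ℕ)) (hp2 : Rd p x0)
    (hp3 : ∃ k : ℤ, 0 ≤ k ∧ k < (p.1 : ℕ) ∧ ε x0 k ≠ x0 k)
    (a4 : ∀ (x : Pt) (c : ℤ), T x c (p.1 : ℕ) → RP C (p.1 : ℕ) (ε x0) x c →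
      RP C (p.1 : ℕ) x0 (ι x) c)
    (a5 : ∀ (x : Pt) (i : ℤ), ι x i ≠ x i → ∃ c : ℤ, T x c (p.1 : ℕ) ∧
      (RP C (p.1 : ℕ) x0 x c ∨ RP C (p.1 : ℕ) (ε x0) x c) ∧ c ≤ i ∧ i < c + (p.1 : ℕ)) :
    ¬ Bad T (ι * ε : Equiv.Perm Pt) p ∧
      ∀ q : Pat C M, ¬ Bad T ε q → ¬ Bad T (ι * ε : Equiv.Perm Pt) q := by
  set h : ℕ := (p.1 : ℕ) with hh
  obtain ⟨k0, hk1, hk2, hk3⟩ := hp3
  have ctx0 : ∀ j : ℤ, -(C : ℤ) ≤ j → j < h + C → ¬ (0 ≤ j ∧ j < h) → ε x0 j = x0 j := by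
    intro j h1 h2 h3
    exact hε.ctx hT hp1 (by omega) (by omega) (by rwa [zero_add])
  constructor
  · rintro ⟨x, h1, h2, k, h3, h4, h5⟩
    apply h5
    have h6 : Agr x x0 (0 - C) (0 + h + C) := h2.agr hp2
    have h7 := hε.agr hT h1 hp1 h6
    have h8 : RP C h (ε x0) (ε x) 0 := by
      intro j h9 h10
      rw [zero_add]
      exact h7 j (by omega) (by omega)
    have h9 := a4 (ε x) 0 ((hε.win hT).2 h1) h8 k (by omega) (by omega)
    rw [zero_add] at h9
    rw [Equiv.Perm.mul_apply, h9]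
    exact (h6 k (by omega) (by omega)).symm
  · intro q hq
    rintro ⟨x, h1, h2, k, h3, h4, h5⟩
    have h6 : ∀ j : ℤ, 0 ≤ j → j < (q.1 : ℕ) → ε x j = x j := by
      intro j h7 h8
      by_contra hne
      exact hq ⟨x, h1, h2, j, h7, h8, hne⟩
    have h7 : ι (ε x) k ≠ ε x k := by
      rw [h6 k h3 h4]
      exact h5
    obtain ⟨c2, h8, h9, h10, h11⟩ := a5 (ε x) k h7
    rw [hε.win hT] at h8
    obtain ⟨rfl, hq1⟩ := same hT h1 h8 (by omega) (by omega) h10 h11
    rw [← hq1] at h1 h6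
    -- `ε x = x` around the window
    have h12 : ∀ j : ℤ, -(C : ℤ) ≤ j → j < h + C → ε x j = x j := by
      intro j h13 h14
      by_cases h15 : 0 ≤ j ∧ j < h
      · exact h6 j h15.1 h15.2
      · exact hε.ctx hT h1 (by omega) (by omega) (by rwa [zero_add])
    rcases h9 with h9 | h9
    · have h13 : Agr x x0 (0 - C) (0 + h + C) := by
        intro j h14 h15
        have h16 := h9 j (by omega) (by omega)
        rw [zero_add, h12 j (by omega) (by omega)] at h16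
        exact h16
      have h14 := hε.W x x0 0 h h1 hp1 h13 k0 hk1 (by omega)
      apply hk3
      rw [← h14, h6 k0 hk1 hk2]
      exact h13 k0 (by omega) (by omega)
    · have h13 : ∀ j : ℤ, -(C : ℤ) ≤ j → j < h + C → x j = ε x0 j := by
        intro j h14 h15
        have h16 := h9 j h14 h15
        rw [zero_add, h12 j h14 h15] at h16
        exact h16
      classical
      let w : Pt := fun i => if 0 ≤ i ∧ i < h then x0 i else x i
      have w1 : ∀ i : ℤ, 0 ≤ i → i < h → w i = x0 i := fun i h14 h15 => if_pos ⟨h14, h15⟩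
      have w2 : ∀ i : ℤ, ¬ (0 ≤ i ∧ i < h) → w i = x i := fun i h14 => if_neg h14
      have w3 : ∀ j : ℤ, -(C : ℤ) ≤ j → j < h + C → w j = x0 j := by
        intro j h14 h15
        by_cases h16 : 0 ≤ j ∧ j < h
        · exact w1 j h16.1 h16.2
        · rw [w2 j h16, h13 j h14 h15]
          exact ctx0 j h14 h15 h16
      have w4 : ZEq L w x := zon_ite hLC (hε.ze x0).symm w3 h13 w2
      have wT : ∀ (c : ℤ) (h' : ℕ), T w c h' ↔ T x c h' := fun c h' =>
        ⟨hT.zeq _ _ c h' w4, hT.zeq _ _ c h' w4.symm⟩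
      have w5 : ε w = ε x := by
        funext i
        by_cases h14 : 0 ≤ i ∧ i < h
        · have h15 : Agr w x0 (0 - C) (0 + h + C) := fun j h16 h17 =>
            w3 j (by omega) (by omega)
          have h16 := hε.W w x0 0 h ((wT 0 h).2 h1) hp1 h15 i h14.1 (by omega)
          rw [h16, h6 i h14.1 h14.2]
          exact (h13 i (by omega) (by omega)).symm
        · by_cases h15 : ∃ (c : ℤ) (h' : ℕ), T x c h' ∧ c ≤ i ∧ i < c + h'
          · obtain ⟨c1, h', h16, h17, h18⟩ := h15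
            have h19 : Agr w x (c1 - C) (c1 + h' + C) := by
              intro j h20 h21
              apply w2
              rintro ⟨h22, h23⟩
              obtain ⟨h24, h25⟩ := same hT h16 h1 h20 h21 (by omega) (by omega)
              subst h24
              subst h25
              exact h14 ⟨h17, by omega⟩
            exact hε.W w x c1 h' ((wT c1 h').2 h16) h16 h19 i h17 h18
          · have h16 : ε x i = x i := by
              by_contra hne
              exact h15 (hε.E x i hne)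
            have h17 : ε w i = w i := by
              by_contra hne
              obtain ⟨c, h', h18, h19⟩ := hε.E w i hne
              exact h15 ⟨c, h', (wT c h').1 h18, h19⟩
            rw [h16, h17, w2 i h14]
      have w6 : w = x := ε.injective w5
      apply hk3
      rw [← h13 k0 (by omega) (by omega), ← w6, w1 k0 hk1 hk2]

end WIN

open WIN in
/-- the window lemma -/
theorem tWIN (h1 : SWSwap) : SWIN := by
  classical
  intro L C M r T ε0 hL hLC hT hr0 hz0 hW0 hE0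
  have key : ∀ (n : ℕ) (ε : Equiv.Perm Pt),
      ((Finset.univ : Finset (Pat C M)).filter (Bad T ε)).card = n → Hyp L C T ε → ε ∈ G := by
    intro n
    induction n using Nat.strong_induction_on with
    | _ n ih =>
    intro ε hn hε
    by_cases hbad : ∃ p : Pat C M, Bad T ε p
    · obtain ⟨p, x0, hp1, hp2, hp3⟩ := hbad
      obtain ⟨ι, i1, i2, i3, i4, i5, i6⟩ := h1 L C M (p.1 : ℕ) T x0 (ε x0) hL hLC hT hp1
        ((hε.win hT).2 hp1) (hε.ze x0).symm (by
          intro j h2 h3 h4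
          exact (hε.ctx hT hp1 (by omega) (by omega) (by rwa [zero_add])).symm)
      have hι : Hyp L C T ι := hyp_swap hT i2 i3 i4 i5 i6
      obtain ⟨s1, s2⟩ := step hLC hT hε hp1 hp2 hp3 i5 i6
      have h3 : ((Finset.univ : Finset (Pat C M)).filter
          (Bad T (ι * ε : Equiv.Perm Pt))).card < n := by
        rw [← hn]
        apply Finset.card_lt_card
        rw [Finset.ssubset_iff_of_subset]
        · exact ⟨p, Finset.mem_filter.2 ⟨Finset.mem_univ p, x0, hp1, hp2, hp3⟩,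
            fun h => s1 (Finset.mem_filter.1 h).2⟩
        · intro u hu
          rw [Finset.mem_filter] at hu ⊢
          refine ⟨hu.1, ?_⟩
          by_contra hcon
          exact s2 u hcon hu.2
      have h4 := ih _ h3 (ι * ε) rfl (hι.mul hT hε)
      have h5 : ε = ι⁻¹ * (ι * ε) := by group
      rw [h5]
      exact G.mul_mem (G.inv_mem (isInv_mem_G i1)) h4
    · push Not at hbad
      rw [eq_one hT hε hbad]
      exact G.one_mem
  exact key _ ε0 rfl ⟨⟨r, hr0⟩, hz0, hW0, hE0⟩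

end Pool.MP_5a0708_an.Nil
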