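import Pool.Agent.Lib.MP_5a0708_an.Nil.Pre
import Pool.Agent.Lib.MP_5a0708_an.Nil.WIN

/-!
# MP_5a0708_an, package Nil : the main theorems without hypotheses
-/

set_option autoImplicit false

namespace Pool.MP_5a0708_an.Nil

theorem all_win : SWIN := tWIN tWSwap

theorem all_fin : SFIN := pre_fin all_win

/-- a continuous bijection commuting with the shift is an automorphism -/
theorem mem_Au_of {φ : Equiv.Perm Pt} (hc : Continuous φ)
    (hs : ∀ x : Pt, φ (fun n => x (n + 1)) = fun n => φ x (n + 1)) : φ ∈ Au := by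
  obtain ⟨r, θ, h1, h2⟩ := chl φ hc φ.bijective hs
  have e : θ = φ := by
    ext x : 1
    exact h1 x
  rw [← e]
  exact ⟨r, h2⟩

end Pool.MP_5a0708_an.Nil
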