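import Pool.Agent.Lib.MP_5a0708_an.Nil.SpecB

/-!
# MP_5a0708_an, package Nil, module BET : the cut-off is trivial deep in periodic stretches
-/

set_option autoImplicit false

namespace Pool.MP_5a0708_an.Nil

/-- a point with a local period agrees with a periodic point -/
private theorem BET_per {n : ℕ} (hn : 0 < n) {x : Pt} {a b : ℤ}
    (h : ∀ i : ℤ, a ≤ i → i + n ≤ b → x (i + n) = x i) :
    ∃ p : Pt, Per n p ∧ ∀ i : ℤ, a ≤ i → i ≤ b → p i = x i := by
  have hn' : (0 : ℤ) < n := by exact_mod_cast hn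
  refine ⟨fun i => x (a + (i - a) % n), ?_, ?_⟩
  · intro i
    have e : (i + n - a) % (n : ℤ) = (i - a) % n := by
      have : i + n - a = i - a + n := by ring
      rw [this, Int.add_emod_right]
    simp only [e]
  · intro i h1 h2
    have key : ∀ (m : ℕ) (u : ℤ), a ≤ u → u + m * n ≤ b → x (u + m * n) = x u := by
      intro m
      induction m with
      | zero => intro u _ _; simp
      | succ m ih =>
        intro u hu hub
        push_cast at hub ⊢
        have e : u + ((m : ℤ) + 1) * n = u + m * n + n := by ring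
        have hmn : (0 : ℤ) ≤ m * n := by positivity
        rw [e] at hub ⊢
        rw [h (u + m * n) (by omega) hub]
        exact ih u hu (by omega)
    have h3 : 0 ≤ (i - a) % (n : ℤ) := Int.emod_nonneg _ hn'.ne'
    have h4 : 0 ≤ (i - a) / (n : ℤ) := Int.ediv_nonneg (by omega) hn'.le
    have h5 : (i - a) % (n : ℤ) + n * ((i - a) / n) = i - a := Int.emod_add_mul_ediv _ _
    have h6 : ((((i - a) / (n : ℤ)).toNat : ℕ) : ℤ) = (i - a) / n := Int.toNat_of_nonneg h4
    have h7 : a + (i - a) % (n : ℤ) + (((i - a) / (n : ℤ)).toNat : ℕ) * n = i := by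
      rw [h6]
      linarith [mul_comm (n : ℤ) ((i - a) / n)]
    have h8 := key ((i - a) / (n : ℤ)).toNat (a + (i - a) % n) (by omega) (by rw [h7]; exact h2)
    rw [h7] at h8
    exact h8.symm

private theorem BET_aux (h1 : SCutQ) {L N K R r : ℕ} {f : Pt → Pt} (hL : 1 ≤ L) (hLR : L ≤ R)
    (hrR : 2 * r + 1 ≤ R) (hK : r + 2 * N + L + 1 ≤ K) (hKR : K + L + 1 ≤ R) (hf : Loc r f)
    (fix : ∀ (n : ℕ) (x : Pt), 0 < n → n < N → Per n x → f x = x)
    (fixL : ∀ (n : ℕ) (p : Pt) (k : ℤ), 0 < n → n < N → Per n p → NZ L p → p k = true →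
      f (glue zpt p k) = glue zpt p k)
    (fixR : ∀ (n : ℕ) (p : Pt) (k : ℤ), 0 < n → n < N → Per n p → NZ L p → p k = true →
      f (glue p zpt (k + 1)) = glue p zpt (k + 1)) (x : Pt) (j : ℤ) (hD : Deep N K x j) :
    cutF L R f x j = x j := by
  obtain ⟨n, hn, hnN, hper⟩ := hD
  obtain ⟨p, hp, hpx⟩ := BET_per hn hper
  have hn' : (0 : ℤ) < n := by exact_mod_cast hn
  have hloc : ∀ y : Pt, (∀ i : ℤ, j - r ≤ i → i ≤ j + r → x i = y i) → f x j = f y j :=
    fun y hy => hf x y j hy
  -- moving blocks of `p`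
  have hmove : ∀ (i t : ℤ), ZOn p i (i + L) → ZOn p (i + t * n) (i + t * n + L) := by
    intro i t hi u hu1 hu2
    have e := hp.int_mul t (u - t * n)
    rw [sub_add_cancel] at e
    rw [e]
    exact hi _ (by omega) (by omega)
  rcases (h1 L R r f hL hLR hrR hf).2.2 x j with h | h | ⟨k, k1, k2, k3, k4, k5⟩ |
    ⟨l, l1, l2, l3, l4, l5⟩
  · exact h
  · rw [h]
    have e1 : f x j = f p j := hf x p j fun i hi1 hi2 => (hpx i (by omega) (by omega)).symm
    rw [e1, fix n p hn hnN hp, hpx j (by omega) (by omega)]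
  · have hz : NZ L p := by
      intro i hi
      have m1 : 0 ≤ (i - k) % (n : ℤ) := Int.emod_nonneg _ hn'.ne'
      have m2 : (i - k) % (n : ℤ) < n := Int.emod_lt_of_pos _ hn'
      have m3 : (i - k) % (n : ℤ) + n * ((i - k) / n) = i - k := Int.emod_add_mul_ediv _ _
      have m4 := hmove i (-((i - k) / n)) hi
      have m5 : i + -((i - k) / (n : ℤ)) * n = k + (i - k) % n := by
        linarith [mul_comm (n : ℤ) ((i - k) / n)]
      rw [m5] at m4
      apply k4 (k + (i - k) % n) (by omega) (by omega)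
      intro u hu1 hu2
      rw [← hpx u (by omega) (by omega)]
      exact m4 u hu1 hu2
    have hpk : p k = true := by rw [hpx k (by omega) (by omega)]; exact k3
    rw [k5]
    have e1 : f (glue zpt x k) j = f (glue zpt p k) j := by
      apply hf
      intro i hi1 hi2
      by_cases hik : i < k
      · rw [glue_lt hik, glue_lt hik]
      · rw [glue_ge (not_lt.1 hik), glue_ge (not_lt.1 hik), hpx i (by omega) (by omega)]
    rw [e1, fixL n p k hn hnN hp hz hpk, glue_ge k2, hpx j (by omega) (by omega)]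
  · have hz : NZ L p := by
      intro i hi
      have m1 : 0 ≤ (l + 1 - L - i) % (n : ℤ) := Int.emod_nonneg _ hn'.ne'
      have m2 : (l + 1 - L - i) % (n : ℤ) < n := Int.emod_lt_of_pos _ hn'
      have m3 : (l + 1 - L - i) % (n : ℤ) + n * ((l + 1 - L - i) / n) = l + 1 - L - i :=
        Int.emod_add_mul_ediv _ _
      have m4 := hmove i ((l + 1 - L - i) / n) hi
      have m5 : i + (l + 1 - L - i) / (n : ℤ) * n = l + 1 - L - (l + 1 - L - i) % n := by
        linarith [mul_comm (n : ℤ) ((l + 1 - L - i) / n)]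
      rw [m5] at m4
      apply l4 (l + 1 - L - (l + 1 - L - i) % n) (by omega) (by omega)
      intro u hu1 hu2
      rw [← hpx u (by omega) (by omega)]
      exact m4 u hu1 hu2
    have hpl : p l = true := by rw [hpx l (by omega) (by omega)]; exact l3
    rw [l5]
    have e1 : f (glue x zpt (l + 1)) j = f (glue p zpt (l + 1)) j := by
      apply hf
      intro i hi1 hi2
      by_cases hil : i < l + 1
      · rw [glue_lt hil, glue_lt hil, hpx i (by omega) (by omega)]
      · rw [glue_ge (not_lt.1 hil), glue_ge (not_lt.1 hil)]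
    rw [e1, fixR n p l hn hnN hp hz hpl, glue_lt (by omega), hpx j (by omega) (by omega)]

/-- **BET** -/
theorem tBET (h1 : SCUT) (h2 : SCutQ) (h3 : SENDT) : SBET := by
  intro L N K R r c hL hLR hrR hK hKR hc hr fix fixL fixR
  obtain ⟨β, hβ, b1, b2⟩ := h1 L R c hL hLR hc
  refine ⟨β, hβ, ?_, ?_, ?_⟩
  · refine h3 L (2 * R + 2 * L + r) (β * c⁻¹) hL (hβ.mul hc.inv) ?_
    intro x i hx
    have hx' : NoZ L (c⁻¹ x) (i - (2 * R + 2 * L + r : ℕ)) (i + (2 * R + 2 * L + r : ℕ)) :=
      hx.zeq (hc.inv.zeq x).symm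
    rw [Equiv.Perm.mul_apply, b1, (h2 L R r c hL hLR hrR hr.loc).2.1 _ i hx', ap_inv]
  · intro x j hj
    rw [b1] at hj
    refine ⟨(h2 L R r c hL hLR hrR hr.loc).1 x j hj, fun hD => hj ?_⟩
    exact BET_aux h2 hL hLR hrR hK hKR hr.loc fix fixL fixR x j hD
  · intro x j hj
    rw [b2] at hj
    have hs : ∀ y : Pt, c y = y → c.symm y = y := by
      intro y hy
      conv_lhs => rw [← hy]
      exact c.symm_apply_apply y
    refine ⟨(h2 L R r c.symm hL hLR hrR hr.symm.loc).1 x j hj, fun hD => hj ?_⟩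
    exact BET_aux h2 hL hLR hrR hK hKR hr.symm.loc
      (fun n y hn hnN hy => hs _ (fix n y hn hnN hy))
      (fun n p k hn hnN hp hz hpk => hs _ (fixL n p k hn hnN hp hz hpk))
      (fun n p k hn hnN hp hz hpk => hs _ (fixR n p k hn hnN hp hz hpk)) x j hD

end Pool.MP_5a0708_an.Nil
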