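import Pool.Agent.Lib.MP_5a0708_an.Main

/-!
# MP_5a0708_an, package Nil : definitions and basic lemmas

The package proves: `Aut(X_2)/G` is nilpotent of class at most 2 and its commutators have finite
order (`G` = group generated by the shift and the shift-commuting involutions).
Everything here is proved; all other modules import this file.
-/

set_option autoImplicit false

namespace Pool.MP_5a0708_an.Nil

/-! ### definitions -/

/-- `x` and `y` agree on `[a, b)`. -/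
def Agr (x y : Pt) (a b : ℤ) : Prop := ∀ i : ℤ, a ≤ i → i < b → x i = y i

/-- no block `0^L` of `x` is contained in `[a, b)` -/
def NoZ (L : ℕ) (x : Pt) (a b : ℤ) : Prop := ∀ i : ℤ, a ≤ i → i + L ≤ b → ¬ ZOn x i (i + L)

/-- `x` and `y` have the same blocks `0^L` -/
def ZEq (L : ℕ) (x y : Pt) : Prop := ∀ i : ℤ, ZOn x i (i + L) ↔ ZOn y i (i + L)

/-- `x` has no block `0^L` at all -/
def NZ (L : ℕ) (x : Pt) : Prop := ∀ i : ℤ, ¬ ZOn x i (i + L)

/-- `s` is the left end of a cluster: a block `0^L` ends before `s` and `x s = 1` -/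
def LEnd (L : ℕ) (x : Pt) (s : ℤ) : Prop := ZOn x (s - L) s ∧ x s = true

/-- `t` is the right end of a cluster: a block `0^L` begins at `t` and `x (t-1) = 1` -/
def REnd (L : ℕ) (x : Pt) (t : ℤ) : Prop := ZOn x t (t + L) ∧ x (t - 1) = true

/-- `[s, t)` is a cluster of `x` -/
def Clu (L : ℕ) (x : Pt) (s t : ℤ) : Prop :=
  LEnd L x s ∧ REnd L x t ∧ s < t ∧ NoZ L x s t

/-- cluster automorphisms: the blocks `0^L` are preserved exactly and no information crosses
a block `0^L` -/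
structure CA (L : ℕ) (θ : Equiv.Perm Pt) : Prop where
  aut : ∃ r : ℕ, IsAut r θ
  zp : ∀ (x : Pt) (i : ℤ), ZOn (θ x) i (i + L) ↔ ZOn x i (i + L)
  cl : ∀ (x : Pt) (s : ℤ), ZOn x (s - L) s → θ (glue zpt x s) = glue zpt (θ x) s
  cr : ∀ (x : Pt) (t : ℤ), ZOn x t (t + L) → θ (glue x zpt t) = glue (θ x) zpt t

/-- `θ` is trivial on all cells of length at most `m` -/
def CT (L m : ℕ) (θ : Pt → Pt) : Prop :=
  ∀ (x : Pt) (c : ℤ) (ℓ : ℕ), ℓ ≤ m → CellAt L x c ℓ → ∀ k : ℕ, k < ℓ → θ x (c + k) = x (c + k)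

/-- the group of all automorphisms of the 2-shift -/
def Au : Subgroup (Equiv.Perm Pt) where
  carrier := {θ | ∃ r : ℕ, IsAut r θ}
  mul_mem' := by
    rintro a b ⟨r, hr⟩ ⟨s, hs⟩
    exact ⟨r + s, hr.mul hs⟩
  one_mem' := ⟨0, IsAut.one⟩
  inv_mem' := by
    rintro a ⟨r, hr⟩
    exact ⟨r, hr.inv⟩

/-- period `n` -/
def Per (n : ℕ) (x : Pt) : Prop := ∀ i : ℤ, x (i + n) = x i

/-- least period `n` -/
def LP (n : ℕ) (x : Pt) : Prop := 0 < n ∧ Per n x ∧ ∀ m : ℕ, 0 < m → m < n → ¬ Per m x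

/-- `x` is in the orbit of `p` -/
def Orb (p x : Pt) : Prop := ∃ k : ℤ, x = tr k p

/-- `x` has a period `< N` on `[j - K, j + K]` -/
def Deep (N K : ℕ) (x : Pt) (j : ℤ) : Prop :=
  ∃ n : ℕ, 0 < n ∧ n < N ∧ ∀ i : ℤ, j - K ≤ i → i + n ≤ j + K → x (i + n) = x i

/-! ### membership -/

theorem ap_inv (θ : Equiv.Perm Pt) (x : Pt) : θ (θ⁻¹ x) = x := θ.apply_symm_apply x

theorem inv_ap (θ : Equiv.Perm Pt) (x : Pt) : θ⁻¹ (θ x) = x := θ.symm_apply_apply x

/-- the commutator -/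
def cm (a b : Equiv.Perm Pt) : Equiv.Perm Pt := a * b * a⁻¹ * b⁻¹

theorem mem_Au {θ : Equiv.Perm Pt} : θ ∈ Au ↔ ∃ r : ℕ, IsAut r θ := Iff.rfl

theorem G_le_Au : G ≤ Au := fun _ h => exists_isAut_of_mem_G chl h

theorem CA.mem {L : ℕ} {θ : Equiv.Perm Pt} (h : CA L θ) : θ ∈ Au := h.aut

/-! ### agreement -/

theorem Agr.refl (x : Pt) (a b : ℤ) : Agr x x a b := fun _ _ _ => rfl

theorem Agr.symm {x y : Pt} {a b : ℤ} (h : Agr x y a b) : Agr y x a b :=
  fun i h1 h2 => (h i h1 h2).symm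

theorem Agr.trans {x y z : Pt} {a b : ℤ} (h : Agr x y a b) (h' : Agr y z a b) : Agr x z a b :=
  fun i h1 h2 => (h i h1 h2).trans (h' i h1 h2)

theorem Agr.mono {x y : Pt} {a b c d : ℤ} (h : Agr x y a b) (h1 : a ≤ c) (h2 : d ≤ b) :
    Agr x y c d := fun i h3 h4 => h i (by omega) (by omega)

/-- an automorphism of radius `r` -/
theorem Agr.image {r : ℕ} {f : Pt → Pt} (hf : Loc r f) {x y : Pt} {a b : ℤ}
    (h : Agr x y a b) : Agr (f x) (f y) (a + r) (b - r) := by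
  intro i h1 h2
  apply hf
  intro j h3 h4
  exact h j (by omega) (by omega)

theorem zon_congr {x y : Pt} {a b : ℤ} (h : Agr x y a b) : ZOn x a b ↔ ZOn y a b :=
  ⟨fun h1 i h2 h3 => by rw [← h i h2 h3]; exact h1 i h2 h3,
    fun h1 i h2 h3 => by rw [h i h2 h3]; exact h1 i h2 h3⟩

theorem ZOn.mono {x : Pt} {a b c d : ℤ} (h : ZOn x a b) (h1 : a ≤ c) (h2 : d ≤ b) : ZOn x c d :=
  fun i h3 h4 => h i (by omega) (by omega)

/-- a one inside gives no block -/
theorem zon_one {x : Pt} {a b i : ℤ} (h : ZOn x a b) (hi : x i = true) : i < a ∨ b ≤ i := by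
  by_contra hc
  push Not at hc
  rw [h i hc.1 hc.2] at hi
  cases hi

/-! ### `NoZ` -/

theorem NoZ.mono {L : ℕ} {x : Pt} {a b c d : ℤ} (h : NoZ L x a b) (h1 : a ≤ c) (h2 : d ≤ b) :
    NoZ L x c d := fun i h3 h4 => h i (by omega) (by omega)

theorem NoZ.congr {L : ℕ} {x y : Pt} {a b : ℤ} (h : NoZ L x a b) (hxy : Agr x y a b) :
    NoZ L y a b := fun i h3 h4 h5 => h i h3 h4 ((zon_congr (hxy.mono h3 h4)).2 h5)

/-- two overlapping intervals (overlap at least `L - 1`) -/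
theorem NoZ.merge {L : ℕ} {x : Pt} {a b c d : ℤ} (h : NoZ L x a b) (h' : NoZ L x c d)
    (hcb : c + L ≤ b + 1) : NoZ L x a d := by
  intro i h3 h4
  by_cases h5 : i + L ≤ b
  · exact h i h3 h5
  · exact h' i (by omega) h4

/-- a window of length `L` contains a one -/
theorem NoZ.one {L : ℕ} {x : Pt} {a b : ℤ} (h : NoZ L x a b) {i : ℤ} (h1 : a ≤ i)
    (h2 : i + L ≤ b) : ∃ j : ℤ, i ≤ j ∧ j < i + L ∧ x j = true := by
  by_contra hc
  push Not at hc
  apply h i h1 h2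
  intro j h3 h4
  have := hc j h3 h4
  simpa using this

theorem NZ.noz {L : ℕ} {x : Pt} (h : NZ L x) (a b : ℤ) : NoZ L x a b := fun i _ _ => h i

/-- a block that does not fit -/
theorem NoZ.block {L : ℕ} {x : Pt} {a b i : ℤ} (h : NoZ L x a b) (hi : ZOn x i (i + L)) :
    i < a ∨ b < i + L := by
  by_contra hc
  push Not at hc
  exact h i hc.1 hc.2 hi

theorem not_noz {L : ℕ} {x : Pt} {a b : ℤ} (h : ¬ NoZ L x a b) :
    ∃ i : ℤ, a ≤ i ∧ i + L ≤ b ∧ ZOn x i (i + L) := by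
  unfold NoZ at h
  push Not at h
  exact h

/-! ### `ZEq` -/

theorem ZEq.refl (L : ℕ) (x : Pt) : ZEq L x x := fun _ => Iff.rfl

theorem ZEq.symm {L : ℕ} {x y : Pt} (h : ZEq L x y) : ZEq L y x := fun i => (h i).symm

theorem ZEq.trans {L : ℕ} {x y z : Pt} (h : ZEq L x y) (h' : ZEq L y z) : ZEq L x z :=
  fun i => (h i).trans (h' i)

theorem NoZ.zeq {L : ℕ} {x y : Pt} {a b : ℤ} (h : NoZ L x a b) (hxy : ZEq L x y) :
    NoZ L y a b := fun i h1 h2 h3 => h i h1 h2 ((hxy i).2 h3)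

theorem NZ.zeq {L : ℕ} {x y : Pt} (h : NZ L x) (hxy : ZEq L x y) : NZ L y :=
  fun i h3 => h i ((hxy i).2 h3)

theorem ZEq.zonL {L : ℕ} {x y : Pt} (h : ZEq L x y) {s : ℤ} (hs : ZOn x (s - L) s) :
    ZOn y (s - L) s := by
  have h1 := (h (s - L)).1 (by rw [sub_add_cancel]; exact hs)
  rwa [sub_add_cancel] at h1

theorem ZEq.zonR {L : ℕ} {x y : Pt} (h : ZEq L x y) {s : ℤ} (hs : ZOn x s (s + L)) :
    ZOn y s (s + L) := (h s).1 hs

theorem LEnd.zeq {L : ℕ} (hL : 1 ≤ L) {x y : Pt} {s : ℤ} (h : LEnd L x s) (hxy : ZEq L x y) :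
    LEnd L y s := by
  refine ⟨hxy.zonL h.1, ?_⟩
  by_contra hy
  have hy' : y s = false := by simpa using hy
  have h1 : ZOn y (s + 1 - L) (s + 1 - L + L) := by
    intro i h2 h3
    by_cases h4 : i = s
    · rw [h4]; exact hy'
    · exact hxy.zonL h.1 i (by omega) (by omega)
  have h2 := (hxy _).2 h1
  have h3 := h2 s (by omega) (by omega)
  rw [h.2] at h3
  cases h3

theorem REnd.zeq {L : ℕ} (hL : 1 ≤ L) {x y : Pt} {t : ℤ} (h : REnd L x t) (hxy : ZEq L x y) :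
    REnd L y t := by
  refine ⟨(hxy t).1 h.1, ?_⟩
  by_contra hy
  have hy' : y (t - 1) = false := by simpa using hy
  have h1 : ZOn y (t - 1) (t - 1 + L) := by
    intro i h2 h3
    by_cases h4 : i = t - 1
    · rw [h4]; exact hy'
    · exact (hxy t).1 h.1 i (by omega) (by omega)
  have h2 := (hxy _).2 h1
  have h3 := h2 (t - 1) (by omega) (by omega)
  rw [h.2] at h3
  cases h3

theorem Clu.zeq {L : ℕ} (hL : 1 ≤ L) {x y : Pt} {s t : ℤ} (h : Clu L x s t) (hxy : ZEq L x y) :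
    Clu L y s t := ⟨h.1.zeq hL hxy, h.2.1.zeq hL hxy, h.2.2.1, h.2.2.2.zeq hxy⟩

/-- in a cluster no block begins before the right end -/
theorem Clu.start {L : ℕ} {x : Pt} {s t i : ℤ} (h : Clu L x s t) (hi : ZOn x i (i + L))
    (h1 : s < i + L) : t ≤ i := by
  by_contra hc
  push Not at hc
  have h2 := h.1.2
  have h3 := h.2.1.2
  have h4 := zon_one hi h2
  have h5 := zon_one hi h3
  exact h.2.2.2 i (by omega) (by omega) hi

/-- The last block that ends at or before `i`: the end `s ≤ i` with `LEnd`, if `i` is in no block. -/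
theorem exists_lend {L : ℕ} (hL : 1 ≤ L) {x : Pt} {i b : ℤ} (hb : ZOn x b (b + L))
    (hbi : b + L ≤ i) (hi : ∀ e : ℤ, ZOn x e (e + L) → e + L ≤ i ∨ i < e) :
    ∃ s : ℤ, b + L ≤ s ∧ s ≤ i ∧ LEnd L x s ∧ NoZ L x (s - L + 1) (i + L) := by
  obtain ⟨s, ⟨hs1, hs2⟩, hs3⟩ := Int.exists_greatest_of_bdd
    (P := fun s : ℤ => s ≤ i ∧ ZOn x (s - L) s) ⟨i, fun z hz => hz.1⟩
    ⟨b + L, hbi, by rw [add_sub_cancel_right]; exact hb⟩
  have hbs : b + L ≤ s := hs3 (b + L) ⟨hbi, by rw [add_sub_cancel_right]; exact hb⟩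
  refine ⟨s, hbs, hs1, ⟨hs2, ?_⟩, ?_⟩
  · by_contra hx
    have hx' : x s = false := by simpa using hx
    have h1 : ZOn x (s + 1 - L) (s + 1 - L + L) := by
      intro j h2 h3
      by_cases h4 : j = s
      · rw [h4]; exact hx'
      · exact hs2 j (by omega) (by omega)
    rcases hi _ h1 with h2 | h2
    · have := hs3 (s + 1) ⟨by omega, by
        intro j h3 h4
        exact h1 j (by omega) (by omega)⟩
      omega
    · omega
  · intro e h1 h2 h3
    rcases hi e h3 with h4 | h4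
    · have := hs3 (e + L) ⟨h4, by rw [add_sub_cancel_right]; exact h3⟩
      omega
    · omega

/-- The first block that begins after `i`, if `i` is in no block. -/
theorem exists_rend {L : ℕ} (hL : 1 ≤ L) {x : Pt} {i b : ℤ} (hb : ZOn x b (b + L))
    (hbi : i < b) (hi : ∀ e : ℤ, ZOn x e (e + L) → e + L ≤ i ∨ i < e) :
    ∃ t : ℤ, t ≤ b ∧ i < t ∧ REnd L x t ∧ NoZ L x (i - L + 1) (t + L - 1) := by
  obtain ⟨t, ⟨ht1, ht2⟩, ht3⟩ := Int.exists_least_of_bdd
    (P := fun t : ℤ => i < t ∧ ZOn x t (t + L)) ⟨i, fun z hz => by omega⟩ ⟨b, hbi, hb⟩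
  have hbt : t ≤ b := ht3 b ⟨hbi, hb⟩
  refine ⟨t, hbt, ht1, ⟨ht2, ?_⟩, ?_⟩
  · by_contra hx
    have hx' : x (t - 1) = false := by simpa using hx
    have h1 : ZOn x (t - 1) (t - 1 + L) := by
      intro j h2 h3
      by_cases h4 : j = t - 1
      · rw [h4]; exact hx'
      · exact ht2 j (by omega) (by omega)
    rcases hi _ h1 with h2 | h2
    · omega
    · have := ht3 (t - 1) ⟨h2, h1⟩
      omega
  · intro e h1 h2 h3
    rcases hi e h3 with h4 | h4
    · omega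
    · have := ht3 e ⟨h4, h3⟩
      omega

/-! ### translation and reflection -/

theorem zon_tr {x : Pt} {a b k : ℤ} : ZOn (tr k x) a b ↔ ZOn x (a + k) (b + k) := by
  constructor
  · intro h i h1 h2
    have := h (i - k) (by omega) (by omega)
    rwa [tr_apply, sub_add_cancel] at this
  · intro h i h1 h2
    rw [tr_apply]
    exact h (i + k) (by omega) (by omega)

theorem noz_tr {L : ℕ} {x : Pt} {a b k : ℤ} : NoZ L (tr k x) a b ↔ NoZ L x (a + k) (b + k) := by
  constructor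
  · intro h i h1 h2 h3
    apply h (i - k) (by omega) (by omega)
    rw [zon_tr]
    convert h3 using 1 <;> ring
  · intro h i h1 h2 h3
    apply h (i + k) (by omega) (by omega)
    rw [zon_tr] at h3
    convert h3 using 1; ring

theorem nz_tr {L : ℕ} {x : Pt} {k : ℤ} (h : NZ L x) : NZ L (tr k x) := by
  intro i h1
  rw [zon_tr] at h1
  apply h (i + k)
  convert h1 using 1; ring

theorem lend_tr {L : ℕ} {x : Pt} {s k : ℤ} : LEnd L (tr k x) s ↔ LEnd L x (s + k) := by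
  unfold LEnd
  rw [zon_tr, tr_apply]
  have : s - L + k = s + k - L := by ring
  rw [this]

theorem rend_tr {L : ℕ} {x : Pt} {s k : ℤ} : REnd L (tr k x) s ↔ REnd L x (s + k) := by
  unfold REnd
  rw [zon_tr, tr_apply]
  have h1 : s + L + k = s + k + L := by ring
  have h2 : s - 1 + k = s + k - 1 := by ring
  rw [h1, h2]

theorem clu_tr {L : ℕ} {x : Pt} {s t k : ℤ} : Clu L (tr k x) s t ↔ Clu L x (s + k) (t + k) := by
  unfold Clu
  rw [lend_tr, rend_tr, noz_tr]
  constructor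
  · rintro ⟨h1, h2, h3, h4⟩
    exact ⟨h1, h2, by omega, h4⟩
  · rintro ⟨h1, h2, h3, h4⟩
    exact ⟨h1, h2, by omega, h4⟩

theorem agr_tr {x y : Pt} {a b k : ℤ} : Agr (tr k x) (tr k y) a b ↔ Agr x y (a + k) (b + k) := by
  constructor
  · intro h i h1 h2
    have := h (i - k) (by omega) (by omega)
    rwa [tr_apply, tr_apply, sub_add_cancel] at this
  · intro h i h1 h2
    rw [tr_apply, tr_apply]
    exact h (i + k) (by omega) (by omega)

theorem zon_mir {x : Pt} {a b : ℤ} : ZOn (mirE x) a b ↔ ZOn x (1 - b) (1 - a) := by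
  constructor
  · intro h i h1 h2
    have := h (-i) (by omega) (by omega)
    rwa [mirE_apply, neg_neg] at this
  · intro h i h1 h2
    rw [mirE_apply]
    exact h (-i) (by omega) (by omega)

theorem noz_mir {L : ℕ} {x : Pt} {a b : ℤ} : NoZ L (mirE x) a b ↔ NoZ L x (1 - b) (1 - a) := by
  constructor
  · intro h i h1 h2 h3
    apply h (1 - i - L) (by omega) (by omega)
    rw [zon_mir]
    convert h3 using 1 <;> ring
  · intro h i h1 h2 h3
    apply h (1 - i - L) (by omega) (by omega)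
    rw [zon_mir] at h3
    convert h3 using 1 <;> ring

theorem nz_mir {L : ℕ} {x : Pt} (h : NZ L x) : NZ L (mirE x) := by
  intro i h1
  rw [zon_mir] at h1
  apply h (1 - (i + L))
  convert h1 using 1; ring

theorem zeq_mir {L : ℕ} {x y : Pt} (h : ZEq L x y) : ZEq L (mirE x) (mirE y) := by
  intro i
  rw [zon_mir, zon_mir]
  have := h (1 - (i + L))
  have e : 1 - (i + (L : ℤ)) + L = 1 - i := by ring
  rwa [e] at this

theorem lend_mir {L : ℕ} {x : Pt} {s : ℤ} : LEnd L (mirE x) s ↔ REnd L x (1 - s) := by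
  unfold LEnd REnd
  rw [zon_mir, mirE_apply]
  have h1 : 1 - (s - (L : ℤ)) = 1 - s + L := by ring
  have h2 : 1 - s - 1 = -s := by ring
  rw [h1, h2]

theorem rend_mir {L : ℕ} {x : Pt} {s : ℤ} : REnd L (mirE x) s ↔ LEnd L x (1 - s) := by
  unfold LEnd REnd
  rw [zon_mir, mirE_apply]
  have h1 : 1 - (s + (L : ℤ)) = 1 - s - L := by ring
  have h2 : -(s - 1) = 1 - s := by ring
  rw [h1, h2]

theorem clu_mir {L : ℕ} {x : Pt} {s t : ℤ} : Clu L (mirE x) s t ↔ Clu L x (1 - t) (1 - s) := by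
  unfold Clu
  rw [lend_mir, rend_mir, noz_mir]
  constructor
  · rintro ⟨h1, h2, h3, h4⟩
    exact ⟨h2, h1, by omega, h4⟩
  · rintro ⟨h1, h2, h3, h4⟩
    exact ⟨h2, h1, by omega, h4⟩

theorem agr_mir {x y : Pt} {a b : ℤ} :
    Agr (mirE x) (mirE y) a b ↔ Agr x y (1 - b) (1 - a) := by
  constructor
  · intro h i h1 h2
    have := h (-i) (by omega) (by omega)
    rwa [mirE_apply, mirE_apply, neg_neg] at this
  · intro h i h1 h2
    rw [mirE_apply, mirE_apply]
    exact h (-i) (by omega) (by omega)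

theorem mir_glue_l (x : Pt) (s : ℤ) : mirE (glue zpt x s) = glue (mirE x) zpt (1 - s) := by
  funext i
  rw [mirE_apply]
  by_cases h : -i < s
  · rw [glue_lt h, glue_ge (by omega)]; rfl
  · rw [glue_ge (by omega), glue_lt (by omega), mirE_apply]

theorem mir_glue_r (x : Pt) (s : ℤ) : mirE (glue x zpt s) = glue zpt (mirE x) (1 - s) := by
  funext i
  rw [mirE_apply]
  by_cases h : -i < s
  · rw [glue_lt h, glue_ge (by omega), mirE_apply]
  · rw [glue_ge (by omega), glue_lt (by omega)]; rfl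

theorem tr_glue_l (x : Pt) (s k : ℤ) : tr k (glue zpt x s) = glue zpt (tr k x) (s - k) := by
  funext i
  rw [tr_apply]
  by_cases h : i + k < s
  · rw [glue_lt h, glue_lt (by omega)]; rfl
  · rw [glue_ge (by omega), glue_ge (by omega), tr_apply]

theorem tr_glue_r (x : Pt) (s k : ℤ) : tr k (glue x zpt s) = glue (tr k x) zpt (s - k) := by
  funext i
  rw [tr_apply]
  by_cases h : i + k < s
  · rw [glue_lt h, glue_lt (by omega), tr_apply]
  · rw [glue_ge (by omega), glue_ge (by omega)]; rfl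

/-! ### the group of cluster automorphisms -/

theorem CA.zeq {L : ℕ} {θ : Equiv.Perm Pt} (h : CA L θ) (x : Pt) : ZEq L (θ x) x := h.zp x

theorem CA.one (L : ℕ) : CA L (1 : Equiv.Perm Pt) :=
  ⟨⟨0, IsAut.one⟩, fun _ _ => Iff.rfl, fun _ _ _ => rfl, fun _ _ _ => rfl⟩

theorem CA.mul {L : ℕ} {θ ψ : Equiv.Perm Pt} (h : CA L θ) (h' : CA L ψ) : CA L (θ * ψ) := by
  refine ⟨Au.mul_mem h.aut h'.aut, fun x i => (h.zp _ _).trans (h'.zp _ _), ?_, ?_⟩
  · intro x s hs
    rw [Equiv.Perm.mul_apply, Equiv.Perm.mul_apply, h'.cl x s hs,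
      h.cl (ψ x) s ((h'.zeq x).symm.zonL hs)]
  · intro x t ht
    rw [Equiv.Perm.mul_apply, Equiv.Perm.mul_apply, h'.cr x t ht, h.cr (ψ x) t ((h'.zp x t).2 ht)]

theorem CA.inv {L : ℕ} {θ : Equiv.Perm Pt} (h : CA L θ) : CA L θ⁻¹ := by
  have hz : ∀ x : Pt, ZEq L (θ⁻¹ x) x := by
    intro x i
    have := h.zp (θ⁻¹ x) i
    rw [ap_inv] at this
    exact this.symm
  refine ⟨Au.inv_mem h.aut, hz, ?_, ?_⟩
  · intro x s hs
    have h1 := h.cl (θ⁻¹ x) s ((hz x).symm.zonL hs)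
    rw [ap_inv] at h1
    rw [← h1, inv_ap]
  · intro x t ht
    have h1 := h.cr (θ⁻¹ x) t ((hz x t).2 ht)
    rw [ap_inv] at h1
    rw [← h1, inv_ap]

theorem CA.symm {L : ℕ} {θ : Equiv.Perm Pt} (h : CA L θ) : CA L θ.symm := h.inv

theorem CA.pow {L : ℕ} {θ : Equiv.Perm Pt} (h : CA L θ) (n : ℕ) : CA L (θ ^ n) := by
  induction n with
  | zero => rw [pow_zero]; exact CA.one L
  | succ n ih => rw [pow_succ]; exact ih.mul h

theorem CA.zpow {L : ℕ} {θ : Equiv.Perm Pt} (h : CA L θ) (n : ℤ) : CA L (θ ^ n) := by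
  cases n with
  | ofNat n => rw [Int.ofNat_eq_natCast, zpow_natCast]; exact h.pow n
  | negSucc n => rw [zpow_negSucc]; exact (h.pow _).inv

theorem CA.commutator {L : ℕ} {θ ψ : Equiv.Perm Pt} (h : CA L θ) (h' : CA L ψ) :
    CA L (cm θ ψ) := ((h.mul h').mul h.inv).mul h'.inv

theorem CA.comm {L : ℕ} {θ : Equiv.Perm Pt} (h : CA L θ) (k : ℤ) (x : Pt) :
    θ (tr k x) = tr k (θ x) := by
  obtain ⟨r, hr⟩ := h.aut
  exact hr.comm k x

theorem CA.mir {L : ℕ} {θ : Equiv.Perm Pt} (h : CA L θ) : CA L (mirE * θ * mirE) := by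
  obtain ⟨r, hr⟩ := h.aut
  refine ⟨⟨r, isAut_mir hr⟩, ?_, ?_, ?_⟩
  · intro x
    have h1 := zeq_mir (h.zeq (mirE x))
    rw [mirE_mirE] at h1
    exact h1
  · intro x s hs
    simp only [Equiv.Perm.mul_apply]
    rw [mir_glue_l, h.cr, mir_glue_r, sub_sub_cancel]
    rw [zon_mir]
    convert hs using 1 <;> ring
  · intro x t ht
    simp only [Equiv.Perm.mul_apply]
    rw [mir_glue_r, h.cl, mir_glue_l, sub_sub_cancel]
    rw [zon_mir]
    convert ht using 1 <;> ring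

theorem CA.good {L : ℕ} (hL : 1 ≤ L) {θ : Equiv.Perm Pt} (h : CA L θ) : Good L θ := by
  refine ⟨h.zp, ?_⟩
  have key : ∀ (x : Pt) (c : ℤ) (ℓ : ℕ), CellAt L x c ℓ → ∀ k : ℕ, k < ℓ →
      θ x (c + k) = θ (glue (glue zpt x c) zpt (c + ℓ)) (c + k) := by
    intro x c ℓ hx k hk
    have h1 := h.cl x c hx.1
    have h2 : ZOn (glue zpt x c) (c + ℓ) (c + ℓ + L) := by
      intro i h3 h4
      rw [glue_ge (by omega)]
      exact hx.2.1 i h3 h4
    have h3 := h.cr (glue zpt x c) (c + ℓ) h2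
    rw [h3, glue_lt (by omega), h1, glue_ge (by omega)]
  intro x y c c' ℓ hx hy hxy k hk
  rw [key x c ℓ hx k hk, key y c' ℓ hy k hk]
  have e : glue (glue zpt x c) zpt (c + ℓ) = tr (c' - c) (glue (glue zpt y c') zpt (c' + ℓ)) := by
    rw [tr_glue_r, tr_glue_l]
    have e3 : c' - (c' - c) = c := by ring
    have e4 : c' + (ℓ : ℤ) - (c' - c) = c + ℓ := by ring
    rw [e3, e4]
    funext i
    by_cases h1 : i < c + ℓ
    · rw [glue_lt h1, glue_lt h1]
      by_cases h2 : i < c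
      · rw [glue_lt h2, glue_lt h2]
      · rw [glue_ge (not_lt.1 h2), glue_ge (not_lt.1 h2), tr_apply]
        have h3 := hxy (i - c).toNat (by omega)
        have e1 : c + (((i - c).toNat : ℕ) : ℤ) = i := by omega
        have e2 : c' + (((i - c).toNat : ℕ) : ℤ) = i + (c' - c) := by omega
        rwa [e1, e2] at h3
    · rw [glue_ge (not_lt.1 h1), glue_ge (not_lt.1 h1)]
  rw [e, h.comm, tr_apply]
  congr 1
  ring

/-- the same cells -/
theorem cellAt_zeq {L : ℕ} (hL : 1 ≤ L) {θ : Equiv.Perm Pt} (h : CA L θ) {x : Pt} {c : ℤ} {ℓ : ℕ} :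
    CellAt L (θ x) c ℓ ↔ CellAt L x c ℓ := cellImage L θ hL h.zp x c ℓ

/-- dependence across a block on the left -/
theorem CA.agrL {L r : ℕ} {θ : Equiv.Perm Pt} (h : CA L θ) (hr : IsAut r θ) {x y : Pt} {s b : ℤ}
    (hx : ZOn x (s - L) s) (hy : ZOn y (s - L) s) (hxy : Agr x y s b) :
    Agr (θ x) (θ y) s (b - r) := by
  intro i h1 h2
  have h3 := h.cl x s hx
  have h4 := h.cl y s hy
  have h5 : θ x i = θ (glue zpt x s) i := by rw [h3, glue_ge h1]
  have h6 : θ y i = θ (glue zpt y s) i := by rw [h4, glue_ge h1]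
  rw [h5, h6]
  apply hr.loc
  intro j h7 h8
  by_cases h9 : j < s
  · rw [glue_lt h9, glue_lt h9]
  · rw [glue_ge (by omega), glue_ge (by omega)]
    exact hxy j (by omega) (by omega)

/-- dependence across a block on the right -/
theorem CA.agrR {L r : ℕ} {θ : Equiv.Perm Pt} (h : CA L θ) (hr : IsAut r θ) {x y : Pt} {a t : ℤ}
    (hx : ZOn x t (t + L)) (hy : ZOn y t (t + L)) (hxy : Agr x y a t) :
    Agr (θ x) (θ y) (a + r) t := by
  intro i h1 h2
  have h3 := h.cr x t hx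
  have h4 := h.cr y t hy
  have h5 : θ x i = θ (glue x zpt t) i := by rw [h3, glue_lt h2]
  have h6 : θ y i = θ (glue y zpt t) i := by rw [h4, glue_lt h2]
  rw [h5, h6]
  apply hr.loc
  intro j h7 h8
  by_cases h9 : j < t
  · rw [glue_lt h9, glue_lt h9]
    exact hxy j (by omega) (by omega)
  · rw [glue_ge (by omega), glue_ge (by omega)]

/-- between two blocks -/
theorem CA.agrLR {L : ℕ} {θ : Equiv.Perm Pt} (h : CA L θ) {x y : Pt} {s t : ℤ} (hst : s ≤ t)
    (hx : ZOn x (s - L) s) (hy : ZOn y (s - L) s) (hx' : ZOn x t (t + L))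
    (hy' : ZOn y t (t + L)) (hxy : Agr x y s t) : Agr (θ x) (θ y) s t := by
  have key : ∀ z : Pt, ZOn z (s - L) s → ZOn z t (t + L) → ∀ i : ℤ, s ≤ i → i < t →
      θ z i = θ (glue (glue zpt z s) zpt t) i := by
    intro z hz hz' i h1 h2
    have h3 : ZOn (glue zpt z s) t (t + L) := by
      intro j h4 h5
      rw [glue_ge (by omega)]
      exact hz' j h4 h5
    rw [h.cr _ _ h3, glue_lt h2, h.cl z s hz, glue_ge h1]
  intro i h1 h2
  rw [key x hx hx' i h1 h2, key y hy hy' i h1 h2]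
  have e : glue (glue zpt x s) zpt t = glue (glue zpt y s) zpt t := by
    funext j
    by_cases h3 : j < t
    · rw [glue_lt h3, glue_lt h3]
      by_cases h4 : j < s
      · rw [glue_lt h4, glue_lt h4]
      · rw [glue_ge (by omega), glue_ge (by omega)]
        exact hxy j (by omega) h3
    · rw [glue_ge (by omega), glue_ge (by omega)]
  rw [e]

/-! ### periodic points -/

theorem Per.tr {n : ℕ} {x : Pt} (h : Per n x) (k : ℤ) : Per n (tr k x) := by
  intro i
  rw [tr_apply, tr_apply]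
  have := h (i + k)
  rw [← this]
  congr 1
  ring

theorem Per.tr_eq {n : ℕ} {x : Pt} (h : Per n x) : Pool.MP_5a0708_an.tr (n : ℤ) x = x := by
  funext i
  rw [tr_apply]
  exact h i

theorem per_iff {n : ℕ} {x : Pt} : Per n x ↔ Pool.MP_5a0708_an.tr (n : ℤ) x = x := by
  constructor
  · exact Per.tr_eq
  · intro h i
    have := congrFun h i
    rwa [tr_apply] at this

theorem Per.nat_mul {n : ℕ} {x : Pt} (h : Per n x) (k : ℕ) : Per (k * n) x := by
  induction k with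
  | zero => intro i; simp
  | succ k ih =>
    intro i
    have h1 := ih (i + n)
    rw [h i] at h1
    rw [← h1]
    congr 1
    push_cast
    ring

theorem Per.int_mul {n : ℕ} {x : Pt} (h : Per n x) (k i : ℤ) : x (i + k * n) = x i := by
  rcases le_or_gt 0 k with hk | hk
  · have h1 := h.nat_mul k.toNat i
    have e : ((k.toNat : ℕ) : ℤ) = k := by omega
    push_cast at h1
    rwa [e] at h1
  · have h1 := h.nat_mul (-k).toNat (i + k * n)
    have e : (((-k).toNat : ℕ) : ℤ) = -k := by omega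
    push_cast at h1
    rw [e] at h1
    rw [← h1]
    congr 1
    ring

theorem Per.image {n : ℕ} {x : Pt} (h : Per n x) {f : Pt → Pt}
    (hf : ∀ (k : ℤ) (x : Pt), f (Pool.MP_5a0708_an.tr k x) = Pool.MP_5a0708_an.tr k (f x)) :
    Per n (f x) := by
  rw [per_iff, ← hf, h.tr_eq]

theorem LP.tr {n : ℕ} {x : Pt} (h : LP n x) (k : ℤ) : LP n (Pool.MP_5a0708_an.tr k x) := by
  refine ⟨h.1, h.2.1.tr k, ?_⟩
  intro m h1 h2 h3
  apply h.2.2 m h1 h2
  have h4 := h3.tr (-k)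
  rwa [tr_tr, neg_add_cancel, tr_zero] at h4

theorem LP.image {n : ℕ} {x : Pt} (h : LP n x) {θ : Equiv.Perm Pt} (hθ : θ ∈ Au) :
    LP n (θ x) := by
  obtain ⟨r, hr⟩ := hθ
  refine ⟨h.1, h.2.1.image hr.comm, ?_⟩
  intro m h1 h2 h3
  apply h.2.2 m h1 h2
  have h4 := h3.image hr.symm.comm
  rwa [Equiv.symm_apply_apply] at h4

/-- every point of period `n` has a least period `m ≤ n` -/
theorem exists_lp {n : ℕ} {x : Pt} (hn : 0 < n) (h : Per n x) : ∃ m : ℕ, m ≤ n ∧ LP m x := by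
  classical
  have hex : ∃ m : ℕ, 0 < m ∧ Per m x := ⟨n, hn, h⟩
  refine ⟨Nat.find hex, Nat.find_le ⟨hn, h⟩, (Nat.find_spec hex).1, (Nat.find_spec hex).2, ?_⟩
  intro m h1 h2 h3
  exact Nat.find_min hex h2 ⟨h1, h3⟩

theorem Orb.refl (p : Pt) : Orb p p := ⟨0, (tr_zero p).symm⟩

theorem Orb.symm {p q : Pt} (h : Orb p q) : Orb q p := by
  obtain ⟨k, rfl⟩ := h
  exact ⟨-k, by rw [tr_tr, neg_add_cancel, tr_zero]⟩

theorem Orb.trans {p q r : Pt} (h : Orb p q) (h' : Orb q r) : Orb p r := by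
  obtain ⟨k, rfl⟩ := h
  obtain ⟨l, rfl⟩ := h'
  exact ⟨l + k, by rw [tr_tr]⟩

theorem orb_tr (p : Pt) (k : ℤ) : Orb p (Pool.MP_5a0708_an.tr k p) := ⟨k, rfl⟩

theorem Deep.congr {N K : ℕ} {x y : Pt} {j : ℤ} (h : Deep N K x j)
    (hxy : Agr x y (j - K) (j + K + 1)) : Deep N K y j := by
  obtain ⟨n, h1, h2, h3⟩ := h
  refine ⟨n, h1, h2, ?_⟩
  intro i h4 h5
  rw [← hxy i h4 (by omega), ← hxy (i + n) (by omega) (by omega)]
  exact h3 i h4 h5

end Pool.MP_5a0708_an.Nil
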