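import Pool.Agent.Lib.MP_5a0708_an.Nil.SpecA

/-!
# MP_5a0708_an, package Nil : the module CAOF

Every automorphism is a cluster automorphism modulo `G`.
-/

set_option autoImplicit false

namespace Pool.MP_5a0708_an.Nil

theorem tCAOF : SCAOF := by
  intro θ hθ
  obtain ⟨r0, hr0⟩ := hθ
  obtain ⟨⟨ψ, hψ, L0, hL0⟩, -⟩ := main_both hr0
  obtain ⟨r, hr⟩ := Au.mul_mem (G_le_Au hψ) (⟨r0, hr0⟩ : θ ∈ Au)
  refine ⟨ψ, hψ, max L0 (max r 1), fun L hL => ?_⟩
  have h1 : L0 ≤ L := by omega
  have h2 : r ≤ L := by omega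
  have h3 : 1 ≤ L := by omega
  have zp : ∀ (x : Pt) (i : ℤ), ZOn ((ψ * θ) x) i (i + L) ↔ ZOn x i (i + L) := hL0 L h1
  refine ⟨⟨r, hr⟩, zp, ?_, ?_⟩
  · intro x s hs
    funext i
    by_cases hi : i < s
    · rw [glue_lt hi]
      have hz : ZOn (glue zpt x s) (i + 1 - L) (i + 1 - L + L) := by
        intro j h4 h5
        rw [glue_lt (by omega)]
        rfl
      exact (zp _ _).2 hz i (by omega) (by omega)
    · rw [glue_ge (not_lt.1 hi)]
      apply hr.loc
      intro j h4 h5
      by_cases hj : j < s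
      · rw [glue_lt hj, hs j (by omega) hj]
        rfl
      · rw [glue_ge (not_lt.1 hj)]
  · intro x t ht
    funext i
    by_cases hi : i < t
    · rw [glue_lt hi]
      apply hr.loc
      intro j h4 h5
      by_cases hj : j < t
      · rw [glue_lt hj]
      · rw [glue_ge (not_lt.1 hj), ht j (not_lt.1 hj) (by omega)]
        rfl
    · rw [glue_ge (not_lt.1 hi)]
      have hz : ZOn (glue x zpt t) i (i + L) := by
        intro j h4 h5
        rw [glue_ge (by omega)]
        rfl
      exact (zp _ _).2 hz i (by omega) (by omega)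

end Pool.MP_5a0708_an.Nil
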