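import Pool.Agent.Lib.MP_5a0708_an.Nil.SpecA

/-!
# MP_5a0708_an, package Nil : CELLT
-/

set_option autoImplicit false

namespace Pool.MP_5a0708_an.Nil

theorem tCELLT (h1 : SCUT) (h2 : SCutQ) (h3 : SENDT) : SCELLT := by
  intro L m θ hL hθ
  obtain ⟨r, hr⟩ := hθ.aut
  obtain ⟨R, hR⟩ : ∃ R : ℕ, R = m + L + 2 * r + 1 := ⟨_, rfl⟩
  obtain ⟨θ', hC, hE, _⟩ := h1 L R θ hL (by omega) hθ
  have q := h2 L R r θ hL (by omega) (by omega) hr.loc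
  have hρ : CA L (θ' * θ⁻¹) := hC.mul hθ.inv
  refine ⟨θ' * θ⁻¹, ?_, hρ, ?_⟩
  · apply h3 L (2 * R + 2 * L + r) _ hL hρ
    intro x i hx
    have hx' : NoZ L (θ⁻¹ x) (i - (2 * R + 2 * L + r : ℕ)) (i + (2 * R + 2 * L + r : ℕ)) :=
      hx.zeq (hθ.inv.zeq x).symm
    have e := q.2.1 (θ⁻¹ x) i hx'
    rw [Equiv.Perm.mul_apply, hE, e, ap_inv]
  · intro x c ℓ hl hc k hk
    by_contra hne
    have e : (θ' * θ⁻¹ * θ) = θ' := by group
    rw [e, hE] at hne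
    have h4 := q.1 x (c + k) hne
    refine h4 (c - L) (by push_cast [hR]; omega) (by omega) ?_
    rw [sub_add_cancel]
    exact hc.1

end Pool.MP_5a0708_an.Nil
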