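import Pool.Agent.Lib.MP_5a0708_an.Nil.SpecC

/-!
# MP_5a0708_an, package Nil, module CLA : `g β g` is trivial far from the blocks
-/

set_option autoImplicit false

namespace Pool.MP_5a0708_an.Nil

theorem tCLA : SCLA := by
  intro L N K W R ρ g β hg hρ hWR h1 h2 x i hi
  have hcast : ((W + ρ : ℕ) : ℤ) = W + ρ := by push_cast; ring
  rw [hcast] at hi
  have h3 : ∀ j : ℤ, i - ρ ≤ j → j ≤ i + ρ → β (g x) j = g x j := by
    intro j h4 h5
    by_contra hne
    obtain ⟨h6, h7⟩ := h2 (g x) j hne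
    exact h7 (h1 x j (hi.mono (by omega) (by omega)) (h6.mono (by omega) (by omega)))
  rw [hρ _ _ i h3, hg.2.1]

end Pool.MP_5a0708_an.Nil
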