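import Pool.Agent.Lib.MP_5a0708_an.Nil.SpecA

/-!
# Congruence of commutators modulo `G` (CNG)
-/

set_option autoImplicit false

namespace Pool.MP_5a0708_an.Nil

/-- **CNG.** -/
theorem tCNG (h1 : SNRM) : SCNG := by
  intro a a' b b' ha ha' hb hb' hg hh
  obtain ⟨g, hg'⟩ : ∃ g, g = a' * a⁻¹ := ⟨_, rfl⟩
  obtain ⟨h, hh'⟩ : ∃ h, h = b' * b⁻¹ := ⟨_, rfl⟩
  have ea : a' = g * a := by rw [hg', inv_mul_cancel_right]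
  have eb : b' = h * b := by rw [hh', inv_mul_cancel_right]
  rw [← hg'] at hg
  rw [← hh'] at hh
  have k1 : a * h * a⁻¹ ∈ G := h1 a h ha hh
  have k2 : (a * b * a⁻¹) * g⁻¹ * (a * b * a⁻¹)⁻¹ ∈ G :=
    h1 _ _ (Au.mul_mem (Au.mul_mem ha hb) (Au.inv_mem ha)) (G.inv_mem hg)
  have k3 : (a * b * a⁻¹ * b⁻¹) * h⁻¹ * (a * b * a⁻¹ * b⁻¹)⁻¹ ∈ G :=
    h1 _ _ (Au.mul_mem (Au.mul_mem (Au.mul_mem ha hb) (Au.inv_mem ha)) (Au.inv_mem hb))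
      (G.inv_mem hh)
  have e : cm a' b' * (cm a b)⁻¹ = g * (a * h * a⁻¹) *
      ((a * b * a⁻¹) * g⁻¹ * (a * b * a⁻¹)⁻¹) *
      ((a * b * a⁻¹ * b⁻¹) * h⁻¹ * (a * b * a⁻¹ * b⁻¹)⁻¹) := by
    rw [ea, eb]
    unfold cm
    group
  rw [e]
  exact G.mul_mem (G.mul_mem (G.mul_mem hg k1) k2) k3

end Pool.MP_5a0708_an.Nil
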