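import Pool.Agent.Lib.MP_5a0708_an.Nil.SpecC

/-!
# MP_5a0708_an, package Nil : the number of words without `0^L`
-/

set_option autoImplicit false

namespace Pool.MP_5a0708_an.Nil

namespace CNT

theorem bern (a : ℕ) : ∀ n : ℕ, a ^ (n + 1) + (n + 1) * a ^ n ≤ (a + 1) ^ (n + 1)
  | 0 => by simp
  | n + 1 => by
    have ih := bern a n
    calc a ^ (n + 1 + 1) + (n + 1 + 1) * a ^ (n + 1)
        ≤ (a + 1) * (a ^ (n + 1) + (n + 1) * a ^ n) := by
          have : (a + 1) * (a ^ (n + 1) + (n + 1) * a ^ n) =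
              a ^ (n + 1 + 1) + (n + 1 + 1) * a ^ (n + 1) + (n + 1) * a ^ n := by ring
          rw [this]
          exact Nat.le_add_right _ _
      _ ≤ (a + 1) * (a + 1) ^ (n + 1) := Nat.mul_le_mul_left _ ih
      _ = (a + 1) ^ (n + 1 + 1) := by ring

theorem half {M : ℕ} (hM : 1 ≤ M) : 2 * (M - 1) ^ M ≤ M ^ M := by
  obtain ⟨a, rfl⟩ := Nat.exists_eq_add_of_le hM
  rw [Nat.add_sub_cancel_left, Nat.add_comm 1 a]
  have h := bern a a
  calc 2 * a ^ (a + 1) = a ^ (a + 1) + a * a ^ a := by ring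
    _ ≤ a ^ (a + 1) + (a + 1) * a ^ a := by
        apply Nat.add_le_add_left
        exact Nat.mul_le_mul_right _ (Nat.le_succ a)
    _ ≤ (a + 1) ^ (a + 1) := h

theorem num (L m : ℕ) (hL : 1 ≤ L) : (2 ^ L - 1) ^ (2 ^ L * m) ≤ 2 ^ (L * 2 ^ L * m - m) := by
  have hM : 1 ≤ 2 ^ L := Nat.one_le_two_pow
  have h1 := half hM
  have hLM : 1 ≤ L * 2 ^ L := Nat.mul_pos hL hM
  have h2 : (2 ^ L - 1) ^ 2 ^ L ≤ 2 ^ (L * 2 ^ L - 1) := by
    have h3 : (2 ^ L) ^ 2 ^ L = 2 * 2 ^ (L * 2 ^ L - 1) := by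
      rw [← pow_mul, ← pow_succ', Nat.sub_add_cancel hLM]
    rw [h3] at h1
    exact Nat.le_of_mul_le_mul_left h1 (by norm_num)
  have h4 : L * 2 ^ L * m - m = (L * 2 ^ L - 1) * m := by
    rw [Nat.sub_mul, Nat.one_mul]
  rw [h4, pow_mul, pow_mul]
  exact Nat.pow_le_pow_left h2 m

/-- the nonzero words -/
abbrev U (L : ℕ) : Type := {u : Fin L → Bool // u ≠ fun _ => false}

theorem card_U (L : ℕ) : Nat.card (U L) = 2 ^ L - 1 := by
  classical
  rw [Nat.card_eq_fintype_card, Fintype.card_subtype, Finset.filter_ne', 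
    Finset.card_erase_of_mem (Finset.mem_univ _), Finset.card_univ, Fintype.card_fun,
    Fintype.card_bool, Fintype.card_fin]

end CNT

open CNT in
/-- **CNT** -/
theorem tCNT : SCNT := by
  classical
  intro L m hL
  have hlt : ∀ (j : Fin (2 ^ L * m)) (r : Fin L), j.val * L + r.val < L * 2 ^ L * m := by
    intro j r
    calc j.val * L + r.val < j.val * L + L := Nat.add_lt_add_left r.isLt _
      _ = (j.val + 1) * L := by ring
      _ ≤ (2 ^ L * m) * L := Nat.mul_le_mul_right _ j.isLt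
      _ = L * 2 ^ L * m := by ring
  let φ : {v : Fin (L * 2 ^ L * m) → Bool //
      Raw L (L * 2 ^ L * m) (fun k => if h : k < L * 2 ^ L * m then v ⟨k, h⟩ else false)} →
      Fin (2 ^ L * m) → U L := fun v j => ⟨fun r => v.1 ⟨j.val * L + r.val, hlt j r⟩, by
    intro h0
    have h1 := v.2 (j.val * L) (by
      calc j.val * L + L = (j.val + 1) * L := by ring
        _ ≤ (2 ^ L * m) * L := Nat.mul_le_mul_right _ j.isLt
        _ = L * 2 ^ L * m := by ring)
    obtain ⟨i, h2, h3, h4⟩ := h1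
    have h5 := congrFun h0 ⟨i - j.val * L, by omega⟩
    simp only at h4 h5
    split_ifs at h4 with h6
    have e : j.val * L + (i - j.val * L) = i := by omega
    simp only [e] at h5
    rw [h4] at h5
    cases h5⟩
  have hinj : Function.Injective φ := by
    intro v v' hvv
    apply Subtype.ext
    funext k
    have hL0 : 0 < L := hL
    have hk : k.val / L < 2 ^ L * m := by
      rw [Nat.div_lt_iff_lt_mul hL0]
      calc k.val < L * 2 ^ L * m := k.isLt
        _ = 2 ^ L * m * L := by ring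
    have h1 := congrArg Subtype.val (congrFun hvv ⟨k.val / L, hk⟩)
    have h2 := congrFun h1 ⟨k.val % L, Nat.mod_lt _ hL0⟩
    have e : k.val / L * L + k.val % L = k.val := Nat.div_add_mod' _ _
    simp only [φ, e] at h2
    exact h2
  have h1 := Nat.card_le_card_of_injective φ hinj
  refine h1.trans ?_
  rw [Nat.card_fun, card_U, Nat.card_eq_fintype_card, Fintype.card_fin]
  exact num L m hL

end Pool.MP_5a0708_an.Nil
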