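import Pool.Agent.Lib.MP_5a0708_an.Nil.SpecC

/-!
# MP_5a0708_an, package Nil : COD
-/

set_option autoImplicit false

namespace Pool.MP_5a0708_an.Nil

namespace COD

/-- the word, extended by zero -/
def exw (n : ℕ) (v : Fin n → Bool) : ℕ → Bool := fun k => if h : k < n then v ⟨k, h⟩ else false

open Classical in
/-- the words of length `n` without block -/
noncomputable def RW (L n : ℕ) : Type := {v : Fin n → Bool // Raw L n (exw n v)}

/-- the free places -/
def Fr (Q ℓ : ℕ) : Finset ℕ := (Finset.range ℓ).filter (fun j => ¬ Q ∣ j)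

/-- words on the free places -/
abbrev FT (Q ℓ : ℕ) : Type := {j : ℕ // j ∈ Fr Q ℓ} → Bool

/-- restriction of a word -/
def rs (n : ℕ) (u : ℕ → Bool) : Fin n → Bool := fun k => u k

theorem exw_rs (n : ℕ) (u : ℕ → Bool) {k : ℕ} (hk : k < n) : exw n (rs n u) k = u k := by
  simp [exw, rs, hk]

theorem raw_rs {L n : ℕ} {u : ℕ → Bool} (h : Raw L n u) : Raw L n (exw n (rs n u)) := by
  intro j hj
  obtain ⟨i, h1, h2, h3⟩ := h j hj
  refine ⟨i, h1, h2, ?_⟩
  rw [exw_rs n u (by omega)]
  exact h3

/-- the cardinality of the free places -/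
theorem card_fr (Q ℓ : ℕ) (hQ : 1 ≤ Q) : ℓ ≤ (Fr Q ℓ).card + (ℓ / Q + 1) := by
  have h1 : ((Finset.range ℓ).filter (fun j => Q ∣ j)).card + (Fr Q ℓ).card = ℓ := by
    have := Finset.card_filter_add_card_filter_not (s := Finset.range ℓ) (fun j => Q ∣ j)
    rw [Finset.card_range] at this
    exact this
  have h2 : ((Finset.range ℓ).filter (fun j => Q ∣ j)).card ≤ (Finset.range (ℓ / Q + 1)).card := by
    refine Finset.card_le_card_of_injOn (fun j => j / Q) ?_ ?_
    · intro j hj
      simp only [Finset.coe_filter, Finset.mem_range, Set.mem_setOf_eq] at hj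
      simp only [Finset.coe_range, Set.mem_Iio]
      have := Nat.div_le_div_right (c := Q) hj.1.le
      omega
    · intro a ha b hb hab
      simp only [Finset.coe_filter, Finset.mem_range, Set.mem_setOf_eq] at ha hb
      simp only at hab
      rw [← Nat.div_mul_cancel ha.2, ← Nat.div_mul_cancel hb.2, hab]
  rw [Finset.card_range] at h2
  omega

/-- the inner word: free places by `g`, the others are ones -/
noncomputable def inn (Q ℓ : ℕ) (g : FT Q ℓ) : ℕ → Bool := fun j =>
  if h : j ∈ Fr Q ℓ then g ⟨j, h⟩ else true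

/-- the code word -/
noncomputable def cw (P n : ℕ) (w : ℕ → Bool) : ℕ → Bool := fun j =>
  if j < 2 then true
  else if j < P + 2 then false
  else if j < P + 4 then true
  else if j < n - 3 then w (j - (P + 4))
  else if j = n - 2 then true
  else false

end COD

open COD in
theorem tCOD (h1 : SCNT) : SCOD := by
  classical
  intro L hL
  set A := L * 2 ^ L with hA
  have hA1 : 1 ≤ A := Nat.mul_pos hL (Nat.two_pow_pos L)
  have hA2 : L ≤ A := Nat.le_mul_of_pos_right L (Nat.two_pow_pos L)
  set Q := 2 * A with hQ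
  set P := Q + 1 with hP
  set m := 2 * (P + 8) with hm
  set n := A * m with hn
  have hnm : n = Q * (P + 8) := by rw [hn, hm, hQ]; ring
  have hQP : P + 7 ≤ n := by
    rw [hnm]
    have : 2 * (P + 8) ≤ Q * (P + 8) := Nat.mul_le_mul_right _ (by omega)
    omega
  set ℓ := n - P - 7 with hℓ
  -- number of free places
  have hfr : n - m ≤ (Fr Q ℓ).card := by
    have h2 := card_fr Q ℓ (by omega)
    have h3 : ℓ / Q ≤ P + 8 := by
      apply Nat.div_le_of_le_mul
      rw [← hnm]
      omega
    omega
  have hcard : Nat.card (RW L n) ≤ Nat.card (FT Q ℓ) := by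
    refine le_trans (h1 L m hL) ?_
    rw [Nat.card_eq_fintype_card, Fintype.card_fun, Fintype.card_bool, Fintype.card_coe]
    exact Nat.pow_le_pow_right (by norm_num) hfr
  letI : Fintype (RW L n) := by unfold RW; infer_instance
  have hcard2 : Fintype.card (RW L n) ≤ Fintype.card (FT Q ℓ) := by
    rwa [Nat.card_eq_fintype_card, Nat.card_eq_fintype_card] at hcard
  obtain ⟨f⟩ := Function.Embedding.nonempty_of_card_le hcard2
  let F : (ℕ → Bool) → FT Q ℓ := fun u =>
    if h : Raw L n (exw n (rs n u)) then f ⟨rs n u, h⟩ else fun _ => true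
  let κ : (ℕ → Bool) → ℕ → Bool := fun u => cw P n (inn Q ℓ (F u))
  have hinn : ∀ (g : FT Q ℓ) (j : ℕ), Q ∣ j → inn Q ℓ g j = true := by
    intro g j hj
    unfold inn
    rw [dif_neg]
    intro hc
    rw [Fr, Finset.mem_filter] at hc
    exact hc.2 hj
  have c0 : ∀ (w : ℕ → Bool) (j : ℕ), j < 2 → cw P n w j = true := fun w j hj => if_pos hj
  have c1 : ∀ (w : ℕ → Bool) (j : ℕ), 2 ≤ j → j < P + 2 → cw P n w j = false := by
    intro w j hj hj'
    unfold cw
    rw [if_neg (by omega), if_pos hj']
  have c2 : ∀ (w : ℕ → Bool) (j : ℕ), P + 2 ≤ j → j < P + 4 → cw P n w j = true := by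
    intro w j hj hj'
    unfold cw
    rw [if_neg (by omega), if_neg (by omega), if_pos hj']
  have c3 : ∀ (w : ℕ → Bool) (j : ℕ), P + 4 ≤ j → j < n - 3 →
      cw P n w j = w (j - (P + 4)) := by
    intro w j hj hj'
    unfold cw
    rw [if_neg (by omega), if_neg (by omega), if_neg (by omega), if_pos hj']
  have c4 : ∀ w : ℕ → Bool, cw P n w (n - 2) = true := by
    intro w
    unfold cw
    rw [if_neg (by omega), if_neg (by omega), if_neg (by omega), if_neg (by omega), if_pos rfl]
  have c5 : ∀ w : ℕ → Bool, cw P n w (n - 3) = false := by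
    intro w
    unfold cw
    rw [if_neg (by omega), if_neg (by omega), if_neg (by omega), if_neg (by omega),
      if_neg (by omega)]
  have c6 : ∀ w : ℕ → Bool, cw P n w (n - 1) = false := by
    intro w
    unfold cw
    rw [if_neg (by omega), if_neg (by omega), if_neg (by omega), if_neg (by omega),
      if_neg (by omega)]
  refine ⟨P, n, κ, ?_, hQP, ?_, ?_, ?_⟩
  · omega
  · intro u _
    refine ⟨c0 _ 0 (by omega), c0 _ 1 (by omega), c1 _, c2 _ _ (by omega) (by omega),
      c2 _ _ (by omega) (by omega), ?_, c5 _, c4 _, c6 _⟩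
    intro j hj hz
    by_contra hne
    have key : ∀ i : ℕ, j ≤ i → i < j + P → κ u i = true → False := by
      intro i h2 h3 h4
      rw [hz i h2 h3] at h4
      cases h4
    rcases lt_or_ge j 2 with h2 | h2
    · exact key 1 (by omega) (by omega) (c0 _ 1 (by omega))
    · rcases lt_or_ge j (P + 2) with h3 | h3
      · exact key (P + 2) (by omega) (by omega) (c2 _ _ (by omega) (by omega))
      · rcases lt_or_ge j (P + 4) with h4 | h4
        · exact key j (by omega) (by omega) (c2 _ _ h3 h4)
        · have h5 : j + P ≤ n - 2 := by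
            by_contra hc
            exact key (n - 2) (by omega) (by omega) (c4 _)
          -- a place divisible by `Q`
          obtain ⟨i, h6, h7, h8⟩ : ∃ i : ℕ, j - (P + 4) ≤ i ∧ i < j - (P + 4) + Q ∧ Q ∣ i := by
            refine ⟨(j - (P + 4) + Q - 1) / Q * Q, ?_, ?_, Dvd.intro_left _ rfl⟩
            · have h9 := Nat.div_add_mod (j - (P + 4) + Q - 1) Q
              have h10 := Nat.mod_lt (j - (P + 4) + Q - 1) (show 0 < Q by omega)
              rw [mul_comm] at h9
              omega
            · have h9 := Nat.div_mul_le_self (j - (P + 4) + Q - 1) Q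
              omega
          apply key (i + (P + 4)) (by omega) (by omega)
          show cw P n (inn Q ℓ (F u)) (i + (P + 4)) = true
          rw [c3 _ _ (by omega) (by omega), Nat.add_sub_cancel]
          exact hinn _ i h8
  · intro u u' hu hu' he k hk
    have hR := raw_rs hu
    have hR' := raw_rs hu'
    have hF : F u = F u' := by
      funext ⟨j, hj⟩
      have hj2 : j < ℓ := by
        rw [Fr, Finset.mem_filter, Finset.mem_range] at hj
        exact hj.1
      have h2 := he (j + (P + 4)) (by omega)
      have h3 : ∀ v : ℕ → Bool, κ v (j + (P + 4)) = F v ⟨j, hj⟩ := by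
        intro v
        show cw P n (inn Q ℓ (F v)) (j + (P + 4)) = _
        rw [c3 _ _ (by omega) (by omega), Nat.add_sub_cancel]
        unfold inn
        rw [dif_pos hj]
      rw [h3, h3] at h2
      exact h2
    have e1 : F u = f ⟨rs n u, hR⟩ := dif_pos hR
    have e2 : F u' = f ⟨rs n u', hR'⟩ := dif_pos hR'
    rw [e1, e2] at hF
    have h4 := f.injective hF
    have h5 : rs n u = rs n u' := congrArg Subtype.val h4
    have := congrFun h5 ⟨k, hk⟩
    exact this
  · intro u u' he k _
    have h2 : rs n u = rs n u' := by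
      funext i
      exact he i i.2
    show cw P n (inn Q ℓ (F u)) k = cw P n (inn Q ℓ (F u')) k
    have h3 : F u = F u' := by
      simp only [F]
      rw [h2]
    rw [h3]

end Pool.MP_5a0708_an.Nil
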