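import Pool.Agent.Lib.MP_5a0708_an.Nil.SpecA

/-!
# MP_5a0708_an, package Nil : the cut-off of a cluster automorphism
-/

set_option autoImplicit false

namespace Pool.MP_5a0708_an.Nil

namespace CUT

theorem mid_pos {L R : ℕ} {x : Pt} {i : ℤ} (h : Mid L R x i) : mid L R x i = x i := by
  unfold mid
  rw [if_pos h]

theorem mid_neg {L R : ℕ} {x : Pt} {i : ℤ} (h : ¬ Mid L R x i) : mid L R x i = false := by
  unfold mid
  rw [if_neg h]

theorem cut_pos {L R : ℕ} {f : Pt → Pt} {x : Pt} {i : ℤ} (h : Mid L R x i) :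
    cutF L R f x i = f (mid L R x) i := by
  unfold cutF
  rw [if_pos h]

theorem cut_neg {L R : ℕ} {f : Pt → Pt} {x : Pt} {i : ℤ} (h : ¬ Mid L R x i) :
    cutF L R f x i = x i := by
  unfold cutF
  rw [if_neg h]

theorem inverse (h2 : SMidB) {L R : ℕ} (hL : 1 ≤ L) (hLR : L ≤ R) {θ : Equiv.Perm Pt}
    (h : CA L θ) (x : Pt) : cutF L R ⇑θ.symm (cutF L R ⇑θ x) = x := by
  obtain ⟨-, -, hm, hmid⟩ := h2 L R θ hL hLR h
  funext i
  by_cases hi : Mid L R x i
  · rw [cut_pos ((hm x i).2 hi), hmid, Equiv.symm_apply_apply, mid_pos hi]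
  · rw [cut_neg (fun h' => hi ((hm x i).1 h')), cut_neg hi]

theorem loc_cut (h1 : SMidA) {L R r : ℕ} (hL : 1 ≤ L) (hLR : L ≤ R) {f : Pt → Pt}
    (hf : Loc r f) : Loc (r + (4 * R + 4 * L)) (cutF L R f) := by
  obtain ⟨-, -, -, h4, -, -⟩ := h1 L R hL hLR
  intro x y i hxy
  have key : ∀ j : ℤ, i - r ≤ j → j ≤ i + r → (Mid L R x j ↔ Mid L R y j) := by
    intro j hj1 hj2
    constructor
    · apply h4
      intro k hk1 hk2
      apply hxy k (by push_cast at *; omega) (by push_cast at *; omega)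
    · apply h4
      intro k hk1 hk2
      symm
      apply hxy k (by push_cast at *; omega) (by push_cast at *; omega)
  have hi := key i (by omega) (by omega)
  by_cases hx : Mid L R x i
  · rw [cut_pos hx, cut_pos (hi.1 hx)]
    apply hf
    intro j hj1 hj2
    have hj := key j hj1 hj2
    by_cases hxj : Mid L R x j
    · rw [mid_pos hxj, mid_pos (hj.1 hxj)]
      exact hxy j (by push_cast; omega) (by push_cast; omega)
    · rw [mid_neg hxj, mid_neg (fun h => hxj (hj.2 h))]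
  · rw [cut_neg hx, cut_neg (fun h => hx (hi.2 h))]
    exact hxy i (by push_cast; omega) (by push_cast; omega)

theorem mid_tr (h1 : SMidA) {L R : ℕ} (hL : 1 ≤ L) (hLR : L ≤ R) (k : ℤ) (x : Pt) :
    mid L R (tr k x) = tr k (mid L R x) := by
  obtain ⟨-, -, -, -, h5, -⟩ := h1 L R hL hLR
  funext i
  rw [tr_apply]
  by_cases h : Mid L R x (i + k)
  · rw [mid_pos h, mid_pos ((h5 x i k).2 h), tr_apply]
  · rw [mid_neg h, mid_neg (fun h' => h ((h5 x i k).1 h'))]

theorem cut_tr (h1 : SMidA) {L R : ℕ} (hL : 1 ≤ L) (hLR : L ≤ R) {f : Pt → Pt}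
    (hf : ∀ (k : ℤ) (x : Pt), f (tr k x) = tr k (f x)) (k : ℤ) (x : Pt) :
    cutF L R f (tr k x) = tr k (cutF L R f x) := by
  have h5 := (h1 L R hL hLR).2.2.2.2.1
  funext i
  rw [tr_apply]
  by_cases h : Mid L R x (i + k)
  · rw [cut_pos h, cut_pos ((h5 x i k).2 h), mid_tr h1 hL hLR, hf, tr_apply]
  · rw [cut_neg h, cut_neg (fun h' => h ((h5 x i k).1 h')), tr_apply]

/-! ### blocks on the left -/

theorem mid_gl {L R : ℕ} {x : Pt} {s i : ℤ} (hs : ZOn x (s - L) s) :
    Mid L R (glue zpt x s) i ↔ s ≤ i ∧ Mid L R x i := by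
  have hagr : ∀ b : ℤ, Agr (glue zpt x s) x (s - L) b := by
    intro b j h1 h2
    by_cases h3 : j < s
    · rw [glue_lt h3, hs j h1 h3]; rfl
    · rw [glue_ge (not_lt.1 h3)]
  have hzs : ZOn (glue zpt x s) (s - L) (s - L + L) := by
    intro j _ h2
    rw [glue_lt (by omega)]; rfl
  have hzx : ZOn x (s - L) (s - L + L) := by
    rw [sub_add_cancel]; exact hs
  constructor
  · rintro ⟨k, l, ⟨hk, hk'⟩, ⟨hl, hl'⟩, hki, hil, hkl, hn⟩
    have hks : s ≤ k := by
      by_contra hc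
      rw [glue_lt (not_le.1 hc)] at hk
      exact absurd hk (by simp [zpt])
    have hkR : s - L < k - R := by
      rcases hk'.block hzs with h | h <;> omega
    refine ⟨by omega, k, l, ⟨?_, ?_⟩, ⟨?_, ?_⟩, hki, hil, hkl, ?_⟩
    · rw [glue_ge hks] at hk; exact hk
    · exact hk'.congr ((hagr (k + 1 + R)).mono (by omega) le_rfl)
    · rw [glue_ge (by omega)] at hl; exact hl
    · exact hl'.congr ((hagr (l + 1 + R)).mono (by omega) le_rfl)
    · exact hn.congr ((hagr (l + 1)).mono (by omega) le_rfl)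
  · rintro ⟨hsi, k, l, ⟨hk, hk'⟩, ⟨hl, hl'⟩, hki, hil, hkl, hn⟩
    have hks : s ≤ k := by
      rcases zon_one hs hk with h | h
      · exfalso
        exact hn (s - L) (by omega) (by omega) hzx
      · exact h
    have hkR : s - L < k - R := by
      rcases hk'.block hzx with h | h <;> omega
    refine ⟨k, l, ⟨?_, ?_⟩, ⟨?_, ?_⟩, hki, hil, hkl, ?_⟩
    · rw [glue_ge hks]; exact hk
    · exact hk'.congr ((hagr (k + 1 + R)).symm.mono (by omega) le_rfl)
    · rw [glue_ge (by omega)]; exact hl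
    · exact hl'.congr ((hagr (l + 1 + R)).symm.mono (by omega) le_rfl)
    · exact hn.congr ((hagr (l + 1)).symm.mono (by omega) le_rfl)

theorem cut_gl {L R : ℕ} {θ : Equiv.Perm Pt} (h : CA L θ) (x : Pt) (s : ℤ)
    (hs : ZOn x (s - L) s) :
    cutF L R ⇑θ (glue zpt x s) = glue zpt (cutF L R ⇑θ x) s := by
  have hmid : mid L R (glue zpt x s) = glue zpt (mid L R x) s := by
    funext i
    by_cases hi : i < s
    · rw [glue_lt hi, mid_neg (fun hm => by have := (mid_gl hs).1 hm; omega)]; rfl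
    · rw [glue_ge (not_lt.1 hi)]
      by_cases hx : Mid L R x i
      · rw [mid_pos hx, mid_pos ((mid_gl hs).2 ⟨not_lt.1 hi, hx⟩), glue_ge (not_lt.1 hi)]
      · rw [mid_neg hx, mid_neg (fun hm => hx ((mid_gl hs).1 hm).2)]
  have hz : ZOn (mid L R x) (s - L) s := by
    intro i h1 h2
    by_cases hx : Mid L R x i
    · rw [mid_pos hx]; exact hs i h1 h2
    · exact mid_neg hx
  funext i
  by_cases hi : i < s
  · rw [glue_lt hi, cut_neg (fun hm => by have := (mid_gl hs).1 hm; omega), glue_lt hi]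
  · rw [glue_ge (not_lt.1 hi)]
    by_cases hx : Mid L R x i
    · rw [cut_pos hx, cut_pos ((mid_gl hs).2 ⟨not_lt.1 hi, hx⟩), hmid, h.cl _ s hz,
        glue_ge (not_lt.1 hi)]
    · rw [cut_neg hx, cut_neg (fun hm => hx ((mid_gl hs).1 hm).2), glue_ge (not_lt.1 hi)]

/-! ### blocks on the right -/

theorem mid_gr {L R : ℕ} {x : Pt} {t i : ℤ} (ht : ZOn x t (t + L)) :
    Mid L R (glue x zpt t) i ↔ i < t ∧ Mid L R x i := by
  have hagr : ∀ b : ℤ, Agr (glue x zpt t) x b (t + L) := by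
    intro b j h1 h2
    by_cases h3 : j < t
    · rw [glue_lt h3]
    · rw [glue_ge (not_lt.1 h3), ht j (not_lt.1 h3) h2]; rfl
  have hzt : ZOn (glue x zpt t) t (t + L) := by
    intro j h1 _
    rw [glue_ge h1]; rfl
  constructor
  · rintro ⟨k, l, ⟨hk, hk'⟩, ⟨hl, hl'⟩, hki, hil, hkl, hn⟩
    have hlt : l < t := by
      by_contra hc
      rw [glue_ge (not_lt.1 hc)] at hl
      exact absurd hl (by simp [zpt])
    have hlR : l + 1 + R < t + L := by
      rcases hl'.block hzt with h | h <;> omega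
    refine ⟨by omega, k, l, ⟨?_, ?_⟩, ⟨?_, ?_⟩, hki, hil, hkl, ?_⟩
    · rw [glue_lt (by omega)] at hk; exact hk
    · exact hk'.congr ((hagr (k - R)).mono le_rfl (by omega))
    · rw [glue_lt hlt] at hl; exact hl
    · exact hl'.congr ((hagr (l - R)).mono le_rfl (by omega))
    · exact hn.congr ((hagr k).mono le_rfl (by omega))
  · rintro ⟨hit, k, l, ⟨hk, hk'⟩, ⟨hl, hl'⟩, hki, hil, hkl, hn⟩
    have hlt : l < t := by
      rcases zon_one ht hl with h | h
      · exact h
      · exfalso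
        exact hn t (by omega) (by omega) ht
    have hlR : l + 1 + R < t + L := by
      rcases hl'.block ht with h | h <;> omega
    refine ⟨k, l, ⟨?_, ?_⟩, ⟨?_, ?_⟩, hki, hil, hkl, ?_⟩
    · rw [glue_lt (by omega)]; exact hk
    · exact hk'.congr ((hagr (k - R)).symm.mono le_rfl (by omega))
    · rw [glue_lt hlt]; exact hl
    · exact hl'.congr ((hagr (l - R)).symm.mono le_rfl (by omega))
    · exact hn.congr ((hagr k).symm.mono le_rfl (by omega))

theorem cut_gr {L R : ℕ} {θ : Equiv.Perm Pt} (h : CA L θ) (x : Pt) (t : ℤ)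
    (ht : ZOn x t (t + L)) :
    cutF L R ⇑θ (glue x zpt t) = glue (cutF L R ⇑θ x) zpt t := by
  have hmid : mid L R (glue x zpt t) = glue (mid L R x) zpt t := by
    funext i
    by_cases hi : i < t
    · rw [glue_lt hi]
      by_cases hx : Mid L R x i
      · rw [mid_pos hx, mid_pos ((mid_gr ht).2 ⟨hi, hx⟩), glue_lt hi]
      · rw [mid_neg hx, mid_neg (fun hm => hx ((mid_gr ht).1 hm).2)]
    · rw [glue_ge (not_lt.1 hi), mid_neg (fun hm => hi ((mid_gr ht).1 hm).1)]; rfl
  have hz : ZOn (mid L R x) t (t + L) := by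
    intro i h1 h2
    by_cases hx : Mid L R x i
    · rw [mid_pos hx]; exact ht i h1 h2
    · exact mid_neg hx
  funext i
  by_cases hi : i < t
  · rw [glue_lt hi]
    by_cases hx : Mid L R x i
    · rw [cut_pos hx, cut_pos ((mid_gr ht).2 ⟨hi, hx⟩), hmid, h.cr _ t hz, glue_lt hi]
    · rw [cut_neg hx, cut_neg (fun hm => hx ((mid_gr ht).1 hm).2), glue_lt hi]
  · rw [glue_ge (not_lt.1 hi), cut_neg (fun hm => hi ((mid_gr ht).1 hm).1),
      glue_ge (not_lt.1 hi)]

end CUT

open CUT in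
/-- **CUT**. -/
theorem tCUT (h1 : SMidA) (h2 : SMidB) : SCUT := by
  intro L R θ hL hLR h
  obtain ⟨r, hr⟩ := h.aut
  refine ⟨⟨cutF L R ⇑θ, cutF L R ⇑θ.symm, inverse h2 hL hLR h, ?_⟩, ?_, fun _ => rfl,
    fun _ => rfl⟩
  · intro x
    have := inverse h2 hL hLR h.symm x
    rwa [Equiv.symm_symm] at this
  · refine ⟨⟨r + (4 * R + 4 * L), ?_, ?_, ?_⟩, ?_, ?_, ?_⟩
    · exact loc_cut h1 hL hLR hr.loc
    · exact loc_cut h1 hL hLR hr.locSymm
    · intro k x
      exact cut_tr h1 hL hLR hr.comm k x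
    · intro x
      exact (h2 L R θ hL hLR h).2.1 x
    · intro x s hs
      exact cut_gl h x s hs
    · intro x t ht
      exact cut_gr h x t ht

end Pool.MP_5a0708_an.Nil
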