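import Pool.Agent.Lib.MP_5a0708_an.Nil.SpecA

/-!
# MP_5a0708_an, package Nil, module CutQ : properties of the cut-off
-/

set_option autoImplicit false

namespace Pool.MP_5a0708_an.Nil

theorem CutQ_pos {L R : ℕ} {θ : Pt → Pt} {x : Pt} {i : ℤ} (h : Mid L R x i) :
    cutF L R θ x i = θ (mid L R x) i := by
  unfold cutF
  exact if_pos h

theorem CutQ_neg {L R : ℕ} {θ : Pt → Pt} {x : Pt} {i : ℤ} (h : ¬ Mid L R x i) :
    cutF L R θ x i = x i := by
  unfold cutF
  exact if_neg h

theorem CutQ_mid_pos {L R : ℕ} {x : Pt} {i : ℤ} (h : Mid L R x i) : mid L R x i = x i := by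
  unfold mid
  exact if_pos h

theorem CutQ_mid_neg {L R : ℕ} {x : Pt} {i : ℤ} (h : ¬ Mid L R x i) : mid L R x i = false := by
  unfold mid
  exact if_neg h

theorem tCutQ (h1 : SMidA) : SCutQ := by
  intro L R r θ hL hLR hr hθ
  obtain ⟨A1, A2, A3, -, -, A6⟩ := h1 L R hL hLR
  refine ⟨?_, ?_, ?_⟩
  · intro x i hi
    by_cases hM : Mid L R x i
    · exact A1 x i hM
    · exact absurd (CutQ_neg hM) hi
  · intro x i hi
    have hall : ∀ j : ℤ, i - r ≤ j → j ≤ i + r → Mid L R x j := by
      intro j h2 h3
      apply A6
      apply hi.mono
      · push_cast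
        omega
      · push_cast
        omega
    rw [CutQ_pos (hall i (by omega) (by omega))]
    apply hθ
    intro j h2 h3
    exact CutQ_mid_pos (hall j h2 h3)
  · intro x i
    by_cases hM : Mid L R x i
    · rw [CutQ_pos hM]
      right
      by_cases hl : ∃ j : ℤ, i - r ≤ j ∧ j < i ∧ ¬ Mid L R x j
      · obtain ⟨j, hj1, hj2, hj3⟩ := hl
        right
        left
        obtain ⟨k, ⟨hk1, hk2⟩, hk3⟩ := Int.exists_least_of_bdd
          (P := fun k : ℤ => k ≤ i ∧ ∀ m : ℤ, k ≤ m → m ≤ i → Mid L R x m)
          ⟨j, fun z hz => by
            by_contra hc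
            push Not at hc
            exact hj3 (hz.2 j (by omega) (by omega))⟩
          ⟨i, le_refl i, fun m h2 h3 => by
            have : m = i := by omega
            rw [this]
            exact hM⟩
        have hkj : j < k := by
          by_contra hc
          push Not at hc
          exact hj3 (hk2 j hc (by omega))
        have hkM : Mid L R x k := hk2 k (le_refl k) hk1
        have hkN : ¬ Mid L R x (k - 1) := by
          intro hc
          have := hk3 (k - 1) ⟨by omega, fun m h2 h3 => by
            by_cases h4 : m = k - 1
            · rw [h4]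
              exact hc
            · exact hk2 m (by omega) h3⟩
          omega
        obtain ⟨hG, hR, hLft⟩ := A2 x k hkM hkN
        refine ⟨k, by omega, hk1, hG.1, hG.2, ?_⟩
        apply hθ
        intro m h2 h3
        by_cases h4 : m < k
        · rw [glue_lt h4, CutQ_mid_neg (hLft m (by omega) h4)]
          rfl
        · rw [glue_ge (by omega), CutQ_mid_pos (hR m (by omega) (by omega))]
      · push Not at hl
        by_cases hr' : ∃ j : ℤ, i < j ∧ j ≤ i + r ∧ ¬ Mid L R x j
        · obtain ⟨j, hj1, hj2, hj3⟩ := hr'
          right
          right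
          obtain ⟨l, ⟨hk1, hk2⟩, hk3⟩ := Int.exists_greatest_of_bdd
            (P := fun k : ℤ => i ≤ k ∧ ∀ m : ℤ, i ≤ m → m ≤ k → Mid L R x m)
            ⟨j, fun z hz => by
              by_contra hc
              push Not at hc
              exact hj3 (hz.2 j (by omega) (by omega))⟩
            ⟨i, le_refl i, fun m h2 h3 => by
              have : m = i := by omega
              rw [this]
              exact hM⟩
          have hkj : l < j := by
            by_contra hc
            push Not at hc
            exact hj3 (hk2 j (by omega) hc)
          have hkM : Mid L R x l := hk2 l hk1 (le_refl l)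
          have hkN : ¬ Mid L R x (l + 1) := by
            intro hc
            have := hk3 (l + 1) ⟨by omega, fun m h2 h3 => by
              by_cases h4 : m = l + 1
              · rw [h4]
                exact hc
              · exact hk2 m h2 (by omega)⟩
            omega
          obtain ⟨hG, hR, hRgt⟩ := A3 x l hkM hkN
          refine ⟨l, hk1, by omega, hG.1, hG.2, ?_⟩
          apply hθ
          intro m h2 h3
          by_cases h4 : m < l + 1
          · rw [glue_lt h4, CutQ_mid_pos (hR m (by omega) (by omega))]
          · rw [glue_ge (by omega), CutQ_mid_neg (hRgt m (by omega) (by omega))]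
            rfl
        · push Not at hr'
          left
          apply hθ
          intro j h2 h3
          apply CutQ_mid_pos
          rcases lt_trichotomy j i with h4 | h4 | h4
          · exact hl j h2 h4
          · rw [h4]
            exact hM
          · exact hr' j h4 h3
    · left
      exact CutQ_neg hM

end Pool.MP_5a0708_an.Nil
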