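import Pool.Agent.Lib.MP_5a0708_an.Nil.SpecC

/-!
# MP_5a0708_an, package Nil : decoding
-/

set_option autoImplicit false

namespace Pool.MP_5a0708_an.Nil

namespace DEC

variable {L P n : ℕ} {κ : (ℕ → Bool) → ℕ → Bool}

theorem rd_at {x : Pt} {e : ℤ} {u : ℕ → Bool} (h : RdC L n κ x e u) {i : ℤ} (h1 : e ≤ i)
    (h2 : i < e + n) : x i = κ u (i - e).toNat := by
  have h3 := h.2 (i - e).toNat (by omega)
  have e1 : e + (((i - e).toNat : ℕ) : ℤ) = i := by omega
  rwa [e1] at h3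

theorem disj (hκ : IsCode L P n κ) {x : Pt} {e e' : ℤ} {u u' : ℕ → Bool}
    (h : RdC L n κ x e u) (h' : RdC L n κ x e' u') (hlt : e < e') : e + n ≤ e' := by
  by_contra hc
  push Not at hc
  obtain ⟨-, -, -, -, -, v6, v7, v8, v9⟩ := hκ.word u h.1
  obtain ⟨w1, w2, w3, -, -, -, -, -, -⟩ := hκ.word u' h'.1
  have hPn := hκ.hPn
  by_cases hA : e' + 2 + P ≤ e + n
  · have h1 := v6 ((e' - e).toNat + 2) (by omega) (by
      intro i h2 h3
      have h4 := rd_at h (i := e + i) (by omega) (by omega)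
      have h5 := rd_at h' (i := e + i) (by omega) (by omega)
      have e1 : (e + (i : ℤ) - e).toNat = i := by omega
      rw [e1] at h4
      rw [← h4, h5]
      exact w3 _ (by omega) (by omega))
    omega
  · have h1 := rd_at h (i := e + n - 2) (by omega) (by omega)
    have e1 : (e + (n : ℤ) - 2 - e).toNat = n - 2 := by omega
    rw [e1, v8] at h1
    have h2 : e + n - 2 < e' + 2 := by
      by_contra h3
      push Not at h3
      have h4 := rd_at h' (i := e + n - 2) (by omega) (by omega)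
      rw [w3 _ (by omega) (by omega), h1] at h4
      cases h4
    have h3 := rd_at h' (i := e') le_rfl (by omega)
    have e2 : (e' - e').toNat = 0 := by omega
    rw [e2, w1] at h3
    have h4 := rd_at h' (i := e' + 1) (by omega) (by omega)
    have e3 : (e' + 1 - e').toNat = 1 := by omega
    rw [e3, w2] at h4
    have h5 : e' = e + n - 3 ∨ e' = e + n - 2 ∨ e' = e + n - 1 := by omega
    rcases h5 with h5 | h5 | h5
    · have h6 := rd_at h (i := e') (by omega) (by omega)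
      have e4 : (e' - e).toNat = n - 3 := by omega
      rw [e4, v7, h3] at h6
      cases h6
    · have h6 := rd_at h (i := e' + 1) (by omega) (by omega)
      have e4 : (e' + 1 - e).toNat = n - 1 := by omega
      rw [e4, v9, h4] at h6
      cases h6
    · have h6 := rd_at h (i := e') (by omega) (by omega)
      have e4 : (e' - e).toNat = n - 1 := by omega
      rw [e4, v9, h3] at h6
      cases h6

/-- the code word that contains `i` is unique -/
theorem unique (hκ : IsCode L P n κ) {x : Pt} {i e e' : ℤ} {u u' : ℕ → Bool}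
    (h : RdC L n κ x e u) (h' : RdC L n κ x e' u') (h1 : e ≤ i) (h2 : i < e + n)
    (h3 : e' ≤ i) (h4 : i < e' + n) : e = e' ∧ ∀ k : ℕ, k < n → u k = u' k := by
  have he : e = e' := by
    rcases lt_trichotomy e e' with h5 | h5 | h5
    · have := disj hκ h h' h5
      omega
    · exact h5
    · have := disj hκ h' h h5
      omega
  subst he
  refine ⟨rfl, hκ.inj u u' h.1 h'.1 ?_⟩
  intro k hk
  rw [← h.2 k hk, ← h'.2 k hk]

theorem dec_rd (hκ : IsCode L P n κ) {x : Pt} {e : ℤ} {u : ℕ → Bool} (h : RdC L n κ x e u)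
    {k : ℕ} (hk : k < n) : dec L n κ x (e + k) = u k := by
  classical
  have h1 : ∃ (e' : ℤ) (u' : ℕ → Bool), RdC L n κ x e' u' ∧ e' ≤ e + k ∧ e + k < e' + n :=
    ⟨e, u, h, by omega, by omega⟩
  unfold dec
  rw [if_pos h1]
  cases hu : u k with
  | true =>
    rw [decide_eq_true_iff]
    refine ⟨e, u, h, by omega, by omega, ?_⟩
    have e1 : (e + (k : ℤ) - e).toNat = k := by omega
    rw [e1, hu]
  | false =>
    rw [decide_eq_false_iff_not]
    rintro ⟨e', u', h2, h3, h4, h5⟩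
    obtain ⟨h6, h7⟩ := unique hκ h h2 (i := e + k) (by omega) (by omega) h3 h4
    subst h6
    have e1 : (e + (k : ℤ) - e).toNat = k := by omega
    rw [e1, ← h7 k hk, hu] at h5
    cases h5

theorem dec_out {x : Pt} {i : ℤ}
    (h : ∀ (e : ℤ) (u : ℕ → Bool), RdC L n κ x e u → ¬ (e ≤ i ∧ i < e + n)) :
    dec L n κ x i = x i := by
  unfold dec
  rw [if_neg]
  rintro ⟨e, u, h1, h2, h3⟩
  exact h e u h1 ⟨h2, h3⟩

theorem rd_congr {x y : Pt} {e : ℤ} {u : ℕ → Bool} (h : Agr x y e (e + n)) :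
    RdC L n κ x e u ↔ RdC L n κ y e u := by
  unfold RdC
  constructor
  · rintro ⟨h1, h2⟩
    refine ⟨h1, fun k hk => ?_⟩
    rw [← h (e + k) (by omega) (by omega)]
    exact h2 k hk
  · rintro ⟨h1, h2⟩
    refine ⟨h1, fun k hk => ?_⟩
    rw [h (e + k) (by omega) (by omega)]
    exact h2 k hk

theorem dec_loc : Loc n (dec L n κ) := by
  intro x y i h
  have h1 : ∀ (e : ℤ) (u : ℕ → Bool), e ≤ i → i < e + n →
      (RdC L n κ x e u ↔ RdC L n κ y e u) := fun e u h2 h3 =>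
    rd_congr fun j h4 h5 => h j (by omega) (by omega)
  have h2 : (∃ (e : ℤ) (u : ℕ → Bool), RdC L n κ x e u ∧ e ≤ i ∧ i < e + n) ↔
      ∃ (e : ℤ) (u : ℕ → Bool), RdC L n κ y e u ∧ e ≤ i ∧ i < e + n := by
    constructor
    · rintro ⟨e, u, h3, h4, h5⟩
      exact ⟨e, u, (h1 e u h4 h5).1 h3, h4, h5⟩
    · rintro ⟨e, u, h3, h4, h5⟩
      exact ⟨e, u, (h1 e u h4 h5).2 h3, h4, h5⟩
  have h3 : (∃ (e : ℤ) (u : ℕ → Bool), RdC L n κ x e u ∧ e ≤ i ∧ i < e + n ∧
        u (i - e).toNat = true) ↔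
      ∃ (e : ℤ) (u : ℕ → Bool), RdC L n κ y e u ∧ e ≤ i ∧ i < e + n ∧
        u (i - e).toNat = true := by
    constructor
    · rintro ⟨e, u, h3, h4, h5, h6⟩
      exact ⟨e, u, (h1 e u h4 h5).1 h3, h4, h5, h6⟩
    · rintro ⟨e, u, h3, h4, h5, h6⟩
      exact ⟨e, u, (h1 e u h4 h5).2 h3, h4, h5, h6⟩
  unfold dec
  by_cases hc : ∃ (e : ℤ) (u : ℕ → Bool), RdC L n κ x e u ∧ e ≤ i ∧ i < e + n
  · rw [if_pos hc, if_pos (h2.1 hc), decide_eq_decide]
    exact h3
  · rw [if_neg hc, if_neg fun h => hc (h2.2 h)]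
    exact h i (by omega) (by omega)

theorem rd_tr {x : Pt} {e k : ℤ} {u : ℕ → Bool} :
    RdC L n κ (tr k x) e u ↔ RdC L n κ x (e + k) u := by
  unfold RdC
  constructor
  · rintro ⟨h1, h2⟩
    refine ⟨h1, fun j hj => ?_⟩
    have h3 := h2 j hj
    rw [tr_apply] at h3
    rw [← h3]
    congr 1
    ring
  · rintro ⟨h1, h2⟩
    refine ⟨h1, fun j hj => ?_⟩
    rw [tr_apply, ← h2 j hj]
    congr 1
    ring

theorem dec_tr (k : ℤ) (x : Pt) : dec L n κ (tr k x) = tr k (dec L n κ x) := by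
  funext i
  rw [tr_apply]
  have h2 : (∃ (e : ℤ) (u : ℕ → Bool), RdC L n κ (tr k x) e u ∧ e ≤ i ∧ i < e + n) ↔
      ∃ (e : ℤ) (u : ℕ → Bool), RdC L n κ x e u ∧ e ≤ i + k ∧ i + k < e + n := by
    constructor
    · rintro ⟨e, u, h3, h4, h5⟩
      exact ⟨e + k, u, rd_tr.1 h3, by omega, by omega⟩
    · rintro ⟨e, u, h3, h4, h5⟩
      refine ⟨e - k, u, rd_tr.2 ?_, by omega, by omega⟩
      rwa [sub_add_cancel]
  have h3 : (∃ (e : ℤ) (u : ℕ → Bool), RdC L n κ (tr k x) e u ∧ e ≤ i ∧ i < e + n ∧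
        u (i - e).toNat = true) ↔
      ∃ (e : ℤ) (u : ℕ → Bool), RdC L n κ x e u ∧ e ≤ i + k ∧ i + k < e + n ∧
        u (i + k - e).toNat = true := by
    constructor
    · rintro ⟨e, u, h3, h4, h5, h6⟩
      refine ⟨e + k, u, rd_tr.1 h3, by omega, by omega, ?_⟩
      have e1 : i + k - (e + k) = i - e := by ring
      rwa [e1]
    · rintro ⟨e, u, h3, h4, h5, h6⟩
      refine ⟨e - k, u, rd_tr.2 ?_, by omega, by omega, ?_⟩
      · rwa [sub_add_cancel]
      · have e1 : i - (e - k) = i + k - e := by ring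
        rwa [e1]
  unfold dec
  by_cases hc : ∃ (e : ℤ) (u : ℕ → Bool), RdC L n κ (tr k x) e u ∧ e ≤ i ∧ i < e + n
  · rw [if_pos hc, if_pos (h2.1 hc), decide_eq_decide]
    exact h3
  · rw [if_neg hc, if_neg fun h => hc (h2.2 h), tr_apply]

theorem rd_zon (hκ : IsCode L P n κ) {x : Pt} {e : ℤ} {u : ℕ → Bool} (h : RdC L n κ x e u) :
    ZOn x (e + 2) (e + 2 + L) := by
  obtain ⟨-, -, w3, -⟩ := hκ.word u h.1
  have hPn := hκ.hPn
  have hLP := hκ.hLP
  intro i h1 h2
  rw [rd_at h (i := i) (by omega) (by omega)]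
  exact w3 _ (by omega) (by omega)

end DEC

/-- decoding -/
theorem tDEC : SDEC := fun _ _ _ _ hκ =>
  ⟨fun _ _ _ _ _ h h' hlt => DEC.disj hκ h h' hlt, fun _ _ _ h _ hk => DEC.dec_rd hκ h hk,
    fun _ _ h => DEC.dec_out h, DEC.dec_loc, DEC.dec_tr, fun _ _ _ h => DEC.rd_zon hκ h⟩

end Pool.MP_5a0708_an.Nil
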