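import Pool.Agent.Lib.MP_5a0708_an.Nil.SpecB

/-! # MP_5a0708_an, package Nil : EF -/

set_option autoImplicit false

namespace Pool.MP_5a0708_an.Nil

theorem EF_per_mir {n : ℕ} {x : Pt} (h : Per n x) : Per n (mirE x) := by
  intro i
  rw [mirE_apply, mirE_apply]
  have h1 := h (-(i + n))
  rw [← h1]
  congr 1
  ring

theorem tEF (h1 : SEFL) : SEF := by
  intro L N c hL hc hfix
  obtain ⟨ρ1, g1, ca1, f1, fr1, fl1⟩ := h1 L N c hL hc hfix
  have hc1 : CA L (ρ1 * c) := ca1.mul hc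
  have hmfix : ∀ (n : ℕ) (x : Pt), 0 < n → n < N → Per n x → (mirE * (ρ1 * c) * mirE) x = x := by
    intro n x hn hnN hx
    simp only [Equiv.Perm.mul_apply]
    rw [hfix n _ hn hnN (EF_per_mir hx), f1 n _ hn hnN (EF_per_mir hx), mirE_mirE]
  obtain ⟨ρ', g', ca', f', fr', fl'⟩ := h1 L N _ hL hc1.mir hmfix
  refine ⟨(mirE * ρ' * mirE) * ρ1, G.mul_mem (mir_mem_G chl g') g1, ca'.mir.mul ca1, ?_, ?_, ?_⟩
  · intro n x hn hnN hx
    simp only [Equiv.Perm.mul_apply]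
    rw [hfix n _ hn hnN hx, f1 n _ hn hnN hx, f' n _ hn hnN (EF_per_mir hx), mirE_mirE]
  · intro n p k hn hnN hp hz hk
    simp only [Equiv.Perm.mul_apply]
    rw [fl1 n p k hn hnN hp hz hk, mir_glue_l, fr' _ _ (nz_mir hz), mir_glue_r, mirE_mirE,
      sub_sub_cancel]
  · intro n p k hn hnN hp hz hk
    have h2 := fl' n (mirE p) (-k) hn hnN (EF_per_mir hp) (nz_mir hz) (by
      rw [mirE_apply, neg_neg]; exact hk)
    simp only [Equiv.Perm.mul_apply] at h2 ⊢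
    rw [mir_glue_l, mirE_mirE] at h2
    have e : 1 - -k = k + 1 := by ring
    rw [e] at h2
    rw [h2, mir_glue_l, mirE_mirE, e]

end Pool.MP_5a0708_an.Nil
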