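import Pool.Agent.Lib.MP_5a0708_an.Nil.SpecB

/-!
# MP_5a0708_an, package Nil, module EFL : left ends of periodic stretches
-/

set_option autoImplicit false

namespace Pool.MP_5a0708_an.Nil

/-- finitely many points of a given period -/
private theorem EFL_fin {m : ℕ} (hm : 0 < m) : {p : Pt | Per m p}.Finite := by
  have hm' : (0 : ℤ) < m := by exact_mod_cast hm
  have key : Set.InjOn (fun (p : Pt) (k : Fin m) => p ((k : ℕ) : ℤ)) {p : Pt | Per m p} := by
    intro p hp q hq hpq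
    have hp' : Per m p := hp
    have hq' : Per m q := hq
    funext i
    have h1 := hp'.int_mul (i / m) (i % m)
    have h2 := hq'.int_mul (i / m) (i % m)
    have e : i % m + i / m * m = i := by
      have := Int.emod_add_mul_ediv i m
      linarith [mul_comm (m : ℤ) (i / m)]
    rw [e] at h1 h2
    rw [h1, h2]
    have h3 : 0 ≤ i % (m : ℤ) := Int.emod_nonneg _ hm'.ne'
    have h4 : i % (m : ℤ) < m := Int.emod_lt_of_pos _ hm'
    have h5 : (i % (m : ℤ)).toNat < m := by omega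
    have h6 := congrFun hpq ⟨(i % (m : ℤ)).toNat, h5⟩
    have h7 : (((i % (m : ℤ)).toNat : ℕ) : ℤ) = i % m := Int.toNat_of_nonneg h3
    simp only at h6
    rw [h7] at h6
    exact h6
  exact Set.Finite.of_injOn (t := Set.univ) (fun _ _ => Set.mem_univ _) key Set.finite_univ

/-- all the points `p` -/
private theorem EFL_finP (L N : ℕ) :
    {p : Pt | (∃ n : ℕ, 0 < n ∧ n < N ∧ Per n p) ∧ NZ L p ∧ p 0 = true}.Finite := by
  refine (EFL_fin (Nat.factorial_pos N)).subset ?_
  rintro p ⟨⟨n, hn, hnN, hp⟩, -, -⟩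
  obtain ⟨k, hk⟩ := Nat.dvd_factorial hn hnN.le
  have h1 := hp.nat_mul k
  rw [mul_comm, ← hk] at h1
  exact h1

private theorem EFL_cons (h1 : SLSW) {L N : ℕ} {c : Equiv.Perm Pt} (hL : 1 ≤ L) (hc : CA L c)
    (hfix : ∀ (n : ℕ) (x : Pt), 0 < n → n < N → Per n x → c x = x) {n : ℕ} {p : Pt} (hn : 0 < n)
    (hnN : n < N) (hp : Per n p) (hz : NZ L p) (hp0 : p 0 = true) :
    ∃ ι : Equiv.Perm Pt, IsInv ι ∧ CA L ι ∧ ι (c (glue zpt p 0)) = glue zpt p 0 ∧
    (∀ (m : ℕ) (x : Pt), 0 < m → m < N → Per m x → ι x = x) ∧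
    (∀ (m : ℕ) (q : Pt), 0 < m → m < N → Per m q → NZ L q → q 0 = true → q ≠ p →
      ι (glue zpt q 0) = glue zpt q 0) ∧
    ∀ (q : Pt) (k : ℤ), NZ L q → ι (glue q zpt k) = glue q zpt k := by
  obtain ⟨r, hr⟩ := hc.aut
  have hzy : ∀ i : ℤ, i < 0 → glue zpt p 0 i = false := fun i hi => by
    rw [glue_lt hi]
    rfl
  have hpy : ∀ i : ℤ, 0 ≤ i → glue zpt p 0 i = p i := fun i hi => glue_ge hi
  have hZ := hc.zeq (glue zpt p 0)
  refine h1 L N (r + 1) n p (c (glue zpt p 0)) hL (by omega) hn hnN hp hz hp0 ?_ ?_ ?_ ?_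
  · have h2 : LEnd L (glue zpt p 0) 0 :=
      ⟨fun i _ hi => hzy i hi, by rw [hpy 0 le_rfl]; exact hp0⟩
    exact (h2.zeq hL hZ.symm).2
  · intro i hi
    have h2 : c (glue zpt p 0) i = c p i := by
      apply hr.loc
      intro j hj1 hj2
      exact hpy j (by push_cast at hi; omega)
    rw [h2, hfix n p hn hnN hp]
  · intro i hi
    have h2 : ZOn (glue zpt p 0) (i + 1 - L) (i + 1 - L + L) := by
      intro j hj1 hj2
      exact hzy j (by omega)
    exact ((hZ _).2 h2) i (by omega) (by omega)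
  · intro i hi h2
    have h3 := (hZ i).1 h2
    apply hz i
    intro j hj1 hj2
    rw [← hpy j (by omega)]
    exact h3 j hj1 hj2

/-- **EFL** -/
theorem tEFL (h1 : SLSW) : SEFL := by
  classical
  intro L N c hL hc hfix
  set P := (EFL_finP L N).toFinset with hP
  have hmemP : ∀ p, p ∈ P ↔ (∃ n : ℕ, 0 < n ∧ n < N ∧ Per n p) ∧ NZ L p ∧ p 0 = true := by
    intro p
    rw [hP, Set.Finite.mem_toFinset]
    rfl
  have key : ∀ (b : ℕ) (c : Equiv.Perm Pt), CA L c →
      (∀ (n : ℕ) (x : Pt), 0 < n → n < N → Per n x → c x = x) →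
      (P.filter fun p => c (glue zpt p 0) ≠ glue zpt p 0).card = b →
      ∃ ρ : Equiv.Perm Pt, ρ ∈ G ∧ CA L ρ ∧
        (∀ (n : ℕ) (x : Pt), 0 < n → n < N → Per n x → ρ x = x) ∧
        (∀ (q : Pt) (k : ℤ), NZ L q → ρ (glue q zpt k) = glue q zpt k) ∧
        ∀ p ∈ P, ρ (c (glue zpt p 0)) = glue zpt p 0 := by
    intro b
    induction b using Nat.strong_induction_on with
    | _ b ih =>
      intro c hc hfix hb
      by_cases hall : ∀ p ∈ P, c (glue zpt p 0) = glue zpt p 0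
      · exact ⟨1, G.one_mem, CA.one L, fun _ _ _ _ _ => rfl, fun _ _ _ => rfl,
          fun p hp => hall p hp⟩
      · push Not at hall
        obtain ⟨p, hpP, hbad⟩ := hall
        obtain ⟨⟨n, hn, hnN, hper⟩, hz, hp0⟩ := (hmemP p).1 hpP
        obtain ⟨ι, i1, i2, i3, i4, i5, i6⟩ := EFL_cons h1 hL hc hfix hn hnN hper hz hp0
        have hc' : CA L (ι * c) := i2.mul hc
        have hfix' : ∀ (n : ℕ) (x : Pt), 0 < n → n < N → Per n x → (ι * c) x = x := by
          intro m x hm hmN hx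
          rw [Equiv.Perm.mul_apply, hfix m x hm hmN hx, i4 m x hm hmN hx]
        have hlt : (P.filter fun q => (ι * c) (glue zpt q 0) ≠ glue zpt q 0).card < b := by
          rw [← hb]
          apply Finset.card_lt_card
          rw [Finset.ssubset_iff_of_subset]
          · refine ⟨p, Finset.mem_filter.2 ⟨hpP, hbad⟩, fun h => ?_⟩
            exact (Finset.mem_filter.1 h).2 i3
          · intro q hq
            rw [Finset.mem_filter] at hq ⊢
            refine ⟨hq.1, fun hqc => hq.2 ?_⟩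
            obtain ⟨⟨m, hm, hmN, hqper⟩, hqz, hq0⟩ := (hmemP q).1 hq.1
            have hqp : q ≠ p := by
              rintro rfl
              exact hbad hqc
            rw [Equiv.Perm.mul_apply, hqc]
            exact i5 m q hm hmN hqper hqz hq0 hqp
        obtain ⟨ρ, r1, r2, r3, r4, r5⟩ := ih _ hlt (ι * c) hc' hfix' rfl
        refine ⟨ρ * ι, G.mul_mem r1 (isInv_mem_G i1), r2.mul i2, ?_, ?_, ?_⟩
        · intro m x hm hmN hx
          rw [Equiv.Perm.mul_apply, i4 m x hm hmN hx, r3 m x hm hmN hx]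
        · intro q k hq
          rw [Equiv.Perm.mul_apply, i6 q k hq, r4 q k hq]
        · intro q hq
          exact r5 q hq
  obtain ⟨ρ, r1, r2, r3, r4, r5⟩ := key _ c hc hfix rfl
  refine ⟨ρ, r1, r2, r3, r4, ?_⟩
  intro n p k hn hnN hp hz hpk
  have h2 : tr k p ∈ P := by
    rw [hmemP]
    refine ⟨⟨n, hn, hnN, hp.tr k⟩, nz_tr hz, ?_⟩
    rw [tr_apply, zero_add]
    exact hpk
  have h3 := r5 _ h2
  have h4 : tr k (glue zpt p k) = glue zpt (tr k p) 0 := by
    rw [tr_glue_l, sub_self]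
  have h5 : glue zpt p k = tr (-k) (glue zpt (tr k p) 0) := by
    rw [← h4, tr_tr, neg_add_cancel, tr_zero]
  rw [h5, hc.comm, r2.comm, h3]

end Pool.MP_5a0708_an.Nil
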