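import Pool.Agent.Lib.MP_5a0708_an.Nil.SpecA

/-!
# MP_5a0708_an, package Nil : ENDT

A cluster automorphism that is trivial far from all blocks is in `G`.
-/

set_option autoImplicit false

namespace Pool.MP_5a0708_an.Nil

theorem tENDT (h1 : SEW) : SENDT := by
  intro L H0 ε hL hε htr
  obtain ⟨r, hr⟩ := hε.aut
  refine h1 L 0 (H0 + r + 1) L (2 * (H0 + r + 1) + 2 * L + H0) r ε hL le_rfl (by omega)
    (by omega) (by omega) hr hε.zeq ?_ ?_ ?_ ?_
  · intro x i hi
    constructor
    · intro e h2 h3 h4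
      apply hi
      have h5 := h4 i (by omega) (by omega)
      have h6 := ((hε.zp x e).2 h4) i (by omega) (by omega)
      rw [h5, h6]
    · intro h2
      exact hi (htr x i (h2.mono (by omega) (by omega)))
  · intro x y s hx hy hx' hy' hxy i h2 h3
    by_cases h4 : i < s + ((H0 + r + 1 : ℕ) : ℤ) - r
    · exact hε.agrL (b := s + ((H0 + r + 1 : ℕ) : ℤ)) hr hx.1 hy.1
        (hxy.mono (by omega) le_rfl) i (by omega) h4
    · rw [htr x i (hx'.mono (by omega) (by omega)), htr y i (hy'.mono (by omega) (by omega))]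
      exact hxy i (by omega) h3
  · intro x y t hx hy hx' hy' hxy i h2 h3
    by_cases h4 : t - ((H0 + r + 1 : ℕ) : ℤ) + r ≤ i
    · exact hε.agrR (a := t - ((H0 + r + 1 : ℕ) : ℤ)) hr hx.1 hy.1
        (hxy.mono le_rfl (by omega)) i h4 (by omega)
    · rw [htr x i (hx'.mono (by omega) (by omega)), htr y i (hy'.mono (by omega) (by omega))]
      exact hxy i h2 (by omega)
  · intro x y s t hx hy _ hxy i h2 h3
    exact hε.agrLR hx.2.2.1.le hx.1.1 hy.1.1 hx.2.1.1 hy.2.1.1
      (hxy.mono (by omega) (by omega)) i (by omega) (by omega)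

end Pool.MP_5a0708_an.Nil
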