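import Pool.Agent.Lib.MP_5a0708_an.Nil.SpecD

/-!
# MP_5a0708_an, package Nil : module EPS
-/

set_option autoImplicit false

namespace Pool.MP_5a0708_an.Nil

/-- **EPS.**  The commutator of `α` and `γ` is in `G`. -/
theorem tEPS (h1 : SEW) (h2 : SETB) (h3 : SETC) (h4 : SETD) (h5 : SETE) : SEPS := by
  intro L a ca ρ rα rγ rδ α γ δ hED
  obtain ⟨b1, b2, b3⟩ := h2 L a ca ρ rα rγ rδ α γ δ hED
  have hC := h3 L a ca ρ rα rγ rδ α γ δ hED
  have hD := h4 L a ca ρ rα rγ rδ α γ δ hED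
  have hE := h5 L a ca ρ rα rγ rδ α γ δ hED
  have ha := hED.ha
  have hL := hED.hL
  have mα : α ∈ Au := ⟨rα, hED.autα⟩
  have mγ : γ ∈ Au := ⟨rγ, hED.autγ⟩
  have mε : cm α γ ∈ Au :=
    Au.mul_mem (Au.mul_mem (Au.mul_mem mα mγ) (Au.inv_mem mα)) (Au.inv_mem mγ)
  obtain ⟨r, hr⟩ := mε
  obtain ⟨A, hA⟩ : ∃ A : ℕ, A + rγ + ρ + L = a := ⟨a - rγ - ρ - L, by omega⟩
  obtain ⟨B1, hB1⟩ : ∃ B1 : ℕ, B1 = 2 * ρ + ca + rδ + a := ⟨_, rfl⟩
  rw [← hB1] at b3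
  refine h1 L A (B1 + 2 * rα + 2 * rγ + 1) (L + ρ + rγ)
    (2 * (B1 + 2 * rα + 2 * rγ + 1) + A + (L + ρ + rγ) + L + B1) r (cm α γ) hL (by omega)
    (by omega) (by omega) (by omega) hr b1 ?_ ?_ ?_ ?_
  · intro x i hi
    refine ⟨(b2 x i hi).mono (by omega) (by omega), fun hN => ?_⟩
    exact hi (b3 x i (hN.mono (by omega) (by omega)))
  · intro x y s hx hy nx ny hxy i hi1 hi2
    by_cases hi : i < s + (B1 + 2 * rα + 2 * rγ + 1 : ℕ) - 2 * rα - 2 * rγ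
    · exact hC x y s (s + (B1 + 2 * rα + 2 * rγ + 1 : ℕ)) hx hy hxy i (by omega) hi
    · rw [b3 x i (nx.mono (by omega) (by omega)), b3 y i (ny.mono (by omega) (by omega))]
      exact hxy i (by omega) (by omega)
  · intro x y t hx hy nx ny hxy i hi1 hi2
    by_cases hi : t - (B1 + 2 * rα + 2 * rγ + 1 : ℕ) + 2 * rα + 2 * rγ ≤ i
    · exact hD x y t (t - (B1 + 2 * rα + 2 * rγ + 1 : ℕ)) hx hy hxy i hi (by omega)
    · rw [b3 x i (nx.mono (by omega) (by omega)), b3 y i (ny.mono (by omega) (by omega))]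
      exact hxy i (by omega) (by omega)
  · intro x y s t hx hy _ hxy
    exact (hE x y s t hx hy hxy).mono (by omega) (by omega)

end Pool.MP_5a0708_an.Nil
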