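import Pool.Agent.Lib.MP_5a0708_an.Nil.SpecD

/-!
# MP_5a0708_an, package Nil, module ETA : the conjugate `η`
-/

set_option autoImplicit false

namespace Pool.MP_5a0708_an.Nil

theorem ETA_stab {L a ca ρ rα rγ rδ : ℕ} {α γ δ : Equiv.Perm Pt}
    (h : ED L a ca ρ rα rγ rδ α γ δ) (x : Pt) (b c : ℤ) (i : ℤ)
    (hb : ZOn (γ⁻¹ x) b (b + L)) (h1 : i - a + rγ ≤ b) (h2 : b + L ≤ i + 1 + a - rγ)
    (hc : c = i) : eta α γ x c = x c := by
  subst hc
  change γ (α⁻¹ (γ⁻¹ x)) c = x c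
  have hx : γ (γ⁻¹ x) = x := ap_inv γ x
  conv_rhs => rw [← hx]
  apply h.autγ.loc
  intro j h3 h4
  by_contra hne
  have h5 := h.a1' (γ⁻¹ x) j hne
  exact h5 b (by omega) (by omega) hb

theorem ETA_far {L a ca ρ rα rγ rδ : ℕ} {α γ δ : Equiv.Perm Pt}
    (h : ED L a ca ρ rα rγ rδ α γ δ) (x : Pt) (j : ℤ)
    (hj : NoZ L (γ⁻¹ x) (j - ρ) (j + 1 + ρ)) : x j = γ⁻¹ x j := by
  have h1 := h.g1 (γ⁻¹ x) j hj
  rw [ap_inv] at h1
  exact h1

theorem tETA : SETA := by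
  intro L a ca ρ rα rγ rδ α γ δ h
  have ha := h.ha
  have hL := h.hL
  have hz : ∀ z : Pt, ZEq L (α⁻¹ z) z := fun z => h.caα.inv.zeq z
  refine ⟨?_, ?_⟩
  · intro x b
    by_cases hN : NoZ L (γ⁻¹ x) (b - ρ) (b + L + ρ)
    · -- Case II
      have hN2 : NoZ L (α⁻¹ (γ⁻¹ x)) (b - ρ) (b + L + ρ) := hN.zeq (hz _).symm
      have e1 : Agr x (γ⁻¹ x) b (b + L) := by
        intro j h1 h2
        exact ETA_far h x j (hN.mono (by omega) (by omega))
      have e2 : Agr (eta α γ x) (α⁻¹ (γ⁻¹ x)) b (b + L) := by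
        intro j h1 h2
        exact h.g1 (α⁻¹ (γ⁻¹ x)) j (hN2.mono (by omega) (by omega))
      rw [zon_congr e2, zon_congr e1]
      exact hz _ b
    · -- Case I
      obtain ⟨e, he1, he2, he3⟩ := not_noz hN
      have e1 : Agr (eta α γ x) x b (b + L) := by
        intro j h1 h2
        exact ETA_stab h x e j j he3 (by omega) (by omega) rfl
      exact zon_congr e1
  · intro x i hi
    have hN : NoZ L (γ⁻¹ x) (i - a + rγ) (i + 1 + a - rγ) := by
      by_contra hc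
      obtain ⟨e, he1, he2, he3⟩ := not_noz hc
      exact hi (ETA_stab h x e i i he3 he1 he2 rfl)
    have e1 : Agr (γ⁻¹ x) x (i - a + rγ + ρ) (i + 1 + a - rγ - ρ) := by
      intro j h1 h2
      exact (ETA_far h x j (hN.mono (by omega) (by omega))).symm
    exact (hN.mono (by omega) (by omega)).congr e1

end Pool.MP_5a0708_an.Nil
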