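import Pool.Agent.Lib.MP_5a0708_an.Nil.SpecD

/-!
# MP_5a0708_an, package Nil, module ETB : the commutator near and far from the blocks
-/

set_option autoImplicit false

namespace Pool.MP_5a0708_an.Nil

theorem ETB_cm (α γ : Equiv.Perm Pt) (x : Pt) : cm α γ x = α (eta α γ x) := rfl

theorem tETB (h1 : SETA) : SETB := by
  intro L a ca ρ rα rγ rδ α γ δ h
  obtain ⟨hE1, hE2⟩ := h1 L a ca ρ rα rγ rδ α γ δ h
  have ha := h.ha
  have hL := h.hL
  have hz : ∀ z : Pt, ZEq L (α⁻¹ z) z := fun z => h.caα.inv.zeq z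
  have hcm : ∀ x : Pt, ZEq L (cm α γ x) x := by
    intro x
    rw [ETB_cm]
    exact (h.caα.zeq _).trans (hE1 x)
  refine ⟨hcm, ?_, ?_⟩
  · intro x i hi
    by_cases he : eta α γ x i = x i
    · have h2 : α (eta α γ x) i ≠ eta α γ x i := by
        rw [he]
        exact hi
      have h3 := (h.a1 (eta α γ x) i h2).zeq (hE1 x)
      exact h3.mono (by omega) (by omega)
    · have h3 := hE2 x i he
      exact h3.mono (by omega) (by omega)
  · intro x i hi
    have hcast : ((2 * ρ + ca + rδ + a : ℕ) : ℤ) = 2 * ρ + ca + rδ + a := by push_cast; ring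
    rw [hcast] at hi
    have e1 : Agr (γ⁻¹ x) x (i - (ρ + ca + rδ + a)) (i + 1 + (ρ + ca + rδ + a)) := by
      intro j h2 h3
      exact h.g1' x j (hi.mono (by omega) (by omega))
    have n1 : NoZ L (γ⁻¹ x) (i - (ρ + ca + rδ + a)) (i + 1 + (ρ + ca + rδ + a)) :=
      (hi.mono (by omega) (by omega)).congr e1.symm
    have n2 : NoZ L (α⁻¹ (γ⁻¹ x)) (i - (ρ + ca + rδ + a)) (i + 1 + (ρ + ca + rδ + a)) :=
      n1.zeq (hz _).symm
    have n3 : NoZ L (eta α γ x) (i - (2 * ρ + ca + rδ + a)) (i + 1 + (2 * ρ + ca + rδ + a)) :=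
      hi.zeq (hE1 x).symm
    have e2 : ∀ j : ℤ, i - rδ ≤ j → j ≤ i + rδ → eta α γ x j = δ.symm (γ⁻¹ x) j := by
      intro j h2 h3
      have h4 : eta α γ x j = α⁻¹ (γ⁻¹ x) j :=
        h.g1 (α⁻¹ (γ⁻¹ x)) j (n2.mono (by omega) (by omega))
      rw [h4]
      exact h.a2' (γ⁻¹ x) j (n1.mono (by omega) (by omega))
    rw [ETB_cm, h.a2 (eta α γ x) i (n3.mono (by omega) (by omega)),
      h.autδ.loc (eta α γ x) (δ.symm (γ⁻¹ x)) i e2, Equiv.apply_symm_apply]
    exact e1 i (by omega) (by omega)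

end Pool.MP_5a0708_an.Nil
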