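import Pool.Agent.Lib.MP_5a0708_an.Nil.SpecD

/-!
# MP_5a0708_an, package Nil : dependence of the commutator at a left end
-/

set_option autoImplicit false

namespace Pool.MP_5a0708_an.Nil

namespace ETC

variable {L a ca ρ rα rγ rδ : ℕ} {α γ δ : Equiv.Perm Pt}

/-- near a left end `η` is the identity -/
theorem near (h1 : SETA) (E : ED L a ca ρ rα rγ rδ α γ δ) {x : Pt} {s : ℤ} (hx : LEnd L x s) {j : ℤ}
    (hj : s ≤ j) (hj' : j < s + ρ + rγ) : eta α γ x j = x j := by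
  by_contra hc
  have hn := (h1 L a ca ρ rα rγ rδ α γ δ E).2 x j hc
  have ha := E.ha
  refine hn (s - L) (by omega) (by omega) ?_
  have := hx.1
  rwa [show s - (L : ℤ) + L = s by ring]

/-- a block of `γ⁻¹ x` near the left end -/
theorem block (E : ED L a ca ρ rα rγ rδ α γ δ) {x : Pt} {s : ℤ} (hx : LEnd L x s) :
    ∃ i : ℤ, s - L - ρ ≤ i ∧ i + L ≤ s + ρ ∧ ZOn (γ⁻¹ x) i (i + L) := by
  refine not_noz fun hn => ?_
  have hz : ZOn (γ⁻¹ x) (s - L) (s - L + L) := by
    intro j hj1 hj2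
    have h2 := E.g1 (γ⁻¹ x) j (hn.mono (by omega) (by omega))
    rw [ap_inv] at h2
    rw [← h2]
    exact hx.1 j hj1 (by omega)
  exact hn (s - L) (by omega) (by omega) hz

end ETC

theorem tETC (h1 : SETA) : SETC := by
  intro L a ca ρ rα rγ rδ α γ δ E x y s b hx hy hxy
  have hγ' : IsAut rγ γ⁻¹ := E.autγ.inv
  have hα' : IsAut rα α⁻¹ := E.autα.inv
  have key : Agr (eta α γ x) (eta α γ y) s (b - 2 * rγ - rα) := by
    intro j hj1 hj2
    by_cases hj : j < s + ρ + rγ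
    · rw [ETC.near h1 E hx hj1 hj, ETC.near h1 E hy hj1 hj]
      exact hxy j (by push_cast; omega) (by omega)
    · have e1 : Agr (γ⁻¹ x) (γ⁻¹ y) (s - L - ρ) (b - rγ) :=
        (Agr.image hγ'.loc hxy).mono (by push_cast; omega) le_rfl
      obtain ⟨i, hi1, hi2, hi3⟩ := ETC.block E hx
      have hi4 : ZOn (γ⁻¹ y) i (i + L) := (zon_congr (e1.mono hi1 (by omega))).1 hi3
      have e2 := E.caα.inv.agrL hα' (x := γ⁻¹ x) (y := γ⁻¹ y) (s := i + L) (b := b - rγ)
        (by rwa [add_sub_cancel_right]) (by rwa [add_sub_cancel_right])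
        (e1.mono (by omega) le_rfl)
      have e3 := Agr.image E.autγ.loc e2
      exact e3 j (by omega) (by omega)
  have hx3 : ZOn (eta α γ x) (s - L) s :=
    ((h1 L a ca ρ rα rγ rδ α γ δ E).1 x).symm.zonL hx.1
  have hy3 : ZOn (eta α γ y) (s - L) s :=
    ((h1 L a ca ρ rα rγ rδ α γ δ E).1 y).symm.zonL hy.1
  have e4 := E.caα.agrL E.autα hx3 hy3 key
  exact e4.mono le_rfl (by omega)

end Pool.MP_5a0708_an.Nil
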