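import Pool.Agent.Lib.MP_5a0708_an.Nil.SpecD

/-!
# MP_5a0708_an, package Nil, module ETD : dependence of the commutator at a right end
-/

set_option autoImplicit false

namespace Pool.MP_5a0708_an.Nil

theorem ETD_ap (θ : Equiv.Perm Pt) (x : Pt) : (mirE * θ * mirE) x = mirE (θ (mirE x)) := rfl

theorem ETD_symm (θ : Equiv.Perm Pt) (x : Pt) :
    (mirE * θ * mirE).symm x = mirE (θ.symm (mirE x)) := rfl

theorem ETD_cm (α γ : Equiv.Perm Pt) (x : Pt) :
    cm (mirE * α * mirE) (mirE * γ * mirE) (mirE x) = mirE (cm α γ x) := by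
  change (mirE * α * mirE) ((mirE * γ * mirE) ((mirE * α * mirE).symm
    ((mirE * γ * mirE).symm (mirE x)))) = mirE (α (γ (α.symm (γ.symm x))))
  rw [ETD_symm, ETD_symm, ETD_ap, ETD_ap, mirE_mirE, mirE_mirE, mirE_mirE, mirE_mirE]

/-- the mirror image of a property of the form (far from or near the blocks) -/
theorem ETD_noz {L : ℕ} {x : Pt} {i a : ℤ} :
    NoZ L (mirE x) (-i - a) (-i + 1 + a) ↔ NoZ L x (i - a) (i + 1 + a) := by
  rw [noz_mir]
  have e1 : 1 - (-i + 1 + a) = i - a := by ring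
  have e2 : 1 - (-i - a) = i + 1 + a := by ring
  rw [e1, e2]

theorem ETD_near {L : ℕ} {a : ℤ} {f : Pt → Pt}
    (h : ∀ (x : Pt) (i : ℤ), f x i ≠ x i → NoZ L x (i - a) (i + 1 + a)) (x : Pt) (i : ℤ)
    (hi : mirE (f (mirE x)) i ≠ x i) : NoZ L x (i - a) (i + 1 + a) := by
  rw [← ETD_noz]
  apply h (mirE x) (-i)
  rw [mirE_apply] at hi
  rw [mirE_apply, neg_neg]
  exact hi

theorem ETD_far {L : ℕ} {a : ℤ} {f g : Pt → Pt}
    (h : ∀ (x : Pt) (i : ℤ), NoZ L x (i - a) (i + 1 + a) → f x i = g x i) (x : Pt) (i : ℤ)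
    (hi : NoZ L x (i - a) (i + 1 + a)) : mirE (f (mirE x)) i = mirE (g (mirE x)) i := by
  rw [mirE_apply, mirE_apply]
  exact h (mirE x) (-i) (ETD_noz.2 hi)

theorem ETD_ed {L a ca ρ rα rγ rδ : ℕ} {α γ δ : Equiv.Perm Pt}
    (h : ED L a ca ρ rα rγ rδ α γ δ) :
    ED L a ca ρ rα rγ rδ (mirE * α * mirE) (mirE * γ * mirE) (mirE * δ * mirE) where
  hL := h.hL
  caα := h.caα.mir
  autα := isAut_mir h.autα
  autγ := isAut_mir h.autγ
  autδ := isAut_mir h.autδ
  a1 := ETD_near h.a1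
  a1' := ETD_near h.a1'
  a2 := ETD_far h.a2
  a2' := ETD_far h.a2'
  g1 := fun x i hi => by
    have h1 := ETD_far (f := γ) (g := id) h.g1 x i hi
    rw [ETD_ap, h1]
    exact congrFun (mirE_mirE x) i
  g1' := fun x i hi => by
    have h1 := ETD_far (f := γ.symm) (g := id) h.g1' x i hi
    rw [ETD_symm, h1]
    exact congrFun (mirE_mirE x) i
  ha := h.ha

theorem tETD (h1 : SETC) : SETD := by
  intro L a ca ρ rα rγ rδ α γ δ h x y t b hx hy hA
  have hcast : ((L + ρ + rγ : ℕ) : ℤ) = L + ρ + rγ := by push_cast; ring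
  have e1 : (1 : ℤ) - (1 - t) = t := by ring
  have hx' : LEnd L (mirE x) (1 - t) := by
    rw [lend_mir, e1]
    exact hx
  have hy' : LEnd L (mirE y) (1 - t) := by
    rw [lend_mir, e1]
    exact hy
  have hA' : Agr (mirE x) (mirE y) (1 - t - (L + ρ + rγ : ℕ)) (1 - b) := by
    rw [agr_mir]
    rw [hcast] at hA ⊢
    exact hA.mono (by omega) (by omega)
  have h2 := h1 L a ca ρ rα rγ rδ _ _ _ (ETD_ed h) (mirE x) (mirE y) (1 - t) (1 - b) hx' hy' hA'
  rw [ETD_cm, ETD_cm, agr_mir] at h2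
  exact h2.mono (by omega) (by omega)

end Pool.MP_5a0708_an.Nil
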