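import Pool.Agent.Lib.MP_5a0708_an.Nil.SpecD

/-! # MP_5a0708_an, package Nil : ETE -/

set_option autoImplicit false

namespace Pool.MP_5a0708_an.Nil

/-- a block of `γ⁻¹ x` near the block `[b, b+L)` of `x` -/
theorem ETE_block {L a ca ρ rα rγ rδ : ℕ} {α γ δ : Equiv.Perm Pt}
    (h : ED L a ca ρ rα rγ rδ α γ δ) {x : Pt} {b : ℤ} (hb : ZOn x b (b + L)) :
    ∃ e : ℤ, b - ρ ≤ e ∧ e ≤ b + ρ ∧ ZOn (γ⁻¹ x) e (e + L) := by
  have hN : ¬ NoZ L (γ⁻¹ x) (b - ρ) (b + L + ρ) := by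
    intro hn
    apply hn b (by omega) (by omega)
    intro j h1 h2
    have h3 : NoZ L (γ⁻¹ x) (j - ρ) (j + 1 + ρ) := hn.mono (by omega) (by omega)
    have h4 := h.g1 _ _ h3
    rw [ap_inv] at h4
    rw [← h4]
    exact hb j h1 h2
  obtain ⟨e, h1, h2, h3⟩ := not_noz hN
  exact ⟨e, h1, by omega, h3⟩

theorem tETE (h1 : SETA) : SETE := by
  intro L a ca ρ rα rγ rδ α γ δ hE x y s t hx hy hxy
  obtain ⟨hz, ha⟩ := h1 L a ca ρ rα rγ rδ α γ δ hE
  have hED := hE.ha
  have hL := hE.hL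
  -- near the ends nothing changes
  have hF : ∀ z : Pt, Clu L z s t → ∀ i : ℤ, s ≤ i → i < t → (i ≤ s + ρ + rγ ∨ t - ρ - rγ ≤ i) →
      eta α γ z i = z i := by
    intro z hc i h2 h3 h4
    by_contra hne
    have h5 := ha z i hne
    rcases h4 with h4 | h4
    · apply h5 (s - L) (by omega) (by omega)
      rw [sub_add_cancel]
      exact hc.1.1
    · exact h5 t (by omega) (by omega) hc.2.1.1
  have h3 : Agr (eta α γ x) (eta α γ y) s t := by
    intro i h2 h3
    by_cases h4 : i ≤ s + ρ + rγ ∨ t - ρ - rγ ≤ i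
    · rw [hF x hx i h2 h3 h4, hF y hy i h2 h3 h4]
      exact hxy i (by push_cast; omega) (by push_cast; omega)
    · push Not at h4
      obtain ⟨h4, h5⟩ := h4
      have hA1 : Agr (γ⁻¹ x) (γ⁻¹ y) (s - L - ρ) (t + L + ρ) := by
        refine (hxy.image hE.autγ.locSymm).mono ?_ ?_ <;> push_cast <;> omega
      have hbx : ZOn x (s - L) (s - L + L) := by
        rw [sub_add_cancel]
        exact hx.1.1
      obtain ⟨e1, h6, h7, h8⟩ := ETE_block hE hbx
      obtain ⟨e2, h9, h10, h11⟩ := ETE_block hE hx.2.1.1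
      have h8' : ZOn (γ⁻¹ y) e1 (e1 + L) := (zon_congr (hA1.mono (by omega) (by omega))).1 h8
      have h11' : ZOn (γ⁻¹ y) e2 (e2 + L) := (zon_congr (hA1.mono (by omega) (by omega))).1 h11
      have hA2 : Agr (α⁻¹ (γ⁻¹ x)) (α⁻¹ (γ⁻¹ y)) (e1 + L) e2 := by
        apply hE.caα.inv.agrLR (by omega)
        · rw [add_sub_cancel_right]; exact h8
        · rw [add_sub_cancel_right]; exact h8'
        · exact h11
        · exact h11'
        · exact hA1.mono (by omega) (by omega)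
      have hA3 := hA2.image hE.autγ.loc
      have h12 := hA3 i (by omega) (by omega)
      exact h12
  have hax : ∀ z : Pt, cm α γ z = α (eta α γ z) := by
    intro z
    rfl
  rw [hax, hax]
  apply hE.caα.agrLR (by have := hx.2.2.1; omega)
  · exact (hz x).symm.zonL hx.1.1
  · exact (hz y).symm.zonL hy.1.1
  · exact (hz x).symm.zonR hx.2.1.1
  · exact (hz y).symm.zonR hy.2.1.1
  · exact h3

end Pool.MP_5a0708_an.Nil
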