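import Pool.Agent.Lib.MP_5a0708_an.Nil.SpecA

/-!
# MP_5a0708_an, package Nil : module EW

The end windows.
-/

set_option autoImplicit false

namespace Pool.MP_5a0708_an.Nil

theorem EW_blockL {L : ℕ} {x y : Pt} {s a b : ℤ} (h : LEnd L x s) (hxy : Agr x y a b)
    (h1 : a ≤ s - L) (h2 : s ≤ b) : ZOn y (s - L) (s - L + L) := by
  rw [sub_add_cancel]
  exact (zon_congr (hxy.mono h1 h2)).1 h.1

theorem EW_blockR {L : ℕ} {x y : Pt} {t a b : ℤ} (h : REnd L x t) (hxy : Agr x y a b)
    (h1 : a ≤ t) (h2 : t + L ≤ b) : ZOn y t (t + L) :=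
  (zon_congr (hxy.mono h1 h2)).1 h.1

theorem tEW (h1 : SWIN) (h2 : STWD) : SEW := by
  intro L A B Co H r ε hL hLC hCo hAB hH hε hz hE hl hr hc
  apply h1 L (A + Co) H r (TW L A B H) ε hL (by omega) (h2 L A B Co H hL hLC hCo hAB hH) hε hz
  · -- (W)
    intro x y c h hx hy hxy
    -- incompatible types
    have ab : ∀ (x y : Pt), Agr x y (c - (A + Co : ℕ)) (c + h + (A + Co : ℕ)) →
        ((h : ℤ) = B - A ∧ LEnd L x (c - A) ∧ NoZ L x (c - A) (c - A + H)) →
        ((h : ℤ) = B - A ∧ REnd L y (c + h + A) ∧ NoZ L y (c + h + A - H) (c + h + A)) →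
        False := by
      rintro x y hxy ⟨a1, a2, a3⟩ ⟨b1, b2, b3⟩
      have z := EW_blockL a2 hxy (by push_cast; omega) (by push_cast; omega)
      exact b3 _ (by omega) (by omega) z
    have ac : ∀ (x y : Pt), Agr x y (c - (A + Co : ℕ)) (c + h + (A + Co : ℕ)) →
        ((h : ℤ) = B - A ∧ LEnd L x (c - A) ∧ NoZ L x (c - A) (c - A + H)) →
        (0 < h ∧ h + 2 * A + L ≤ H ∧ Clu L y (c - A) (c + h + A)) → False := by
      rintro x y hxy ⟨a1, a2, a3⟩ ⟨b1, b2, b3⟩
      have z := EW_blockR b3.2.1 hxy.symm (by push_cast; omega) (by push_cast; omega)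
      exact a3 _ (by omega) (by omega) z
    have bc : ∀ (x y : Pt), Agr x y (c - (A + Co : ℕ)) (c + h + (A + Co : ℕ)) →
        ((h : ℤ) = B - A ∧ REnd L x (c + h + A) ∧ NoZ L x (c + h + A - H) (c + h + A)) →
        (0 < h ∧ h + 2 * A + L ≤ H ∧ Clu L y (c - A) (c + h + A)) → False := by
      rintro x y hxy ⟨a1, a2, a3⟩ ⟨b1, b2, b3⟩
      have z := EW_blockL b3.1 hxy.symm (by push_cast; omega) (by push_cast; omega)
      exact a3 _ (by omega) (by omega) z
    rcases hx with hx | hx | hx
    · rcases hy with hy | hy | hy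
      · have e := hl x y (c - A) hx.2.1 hy.2.1 hx.2.2 hy.2.2
          (hxy.mono (by push_cast; omega) (by push_cast; omega))
        exact e.mono (by omega) (by omega)
      · exact (ab x y hxy hx hy).elim
      · exact (ac x y hxy hx hy).elim
    · rcases hy with hy | hy | hy
      · exact (ab y x hxy.symm hy hx).elim
      · have e := hr x y (c + h + A) hx.2.1 hy.2.1 hx.2.2 hy.2.2
          (hxy.mono (by push_cast; omega) (by push_cast; omega))
        exact e.mono (by omega) (by omega)
      · exact (bc x y hxy hx hy).elim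
    · rcases hy with hy | hy | hy
      · exact (ac y x hxy.symm hy hx).elim
      · exact (bc y x hxy.symm hy hx).elim
      · have e := hc x y (c - A) (c + h + A) hx.2.2 hy.2.2 (by omega)
          (hxy.mono (by push_cast; omega) (by push_cast; omega))
        exact e.mono (by omega) (by omega)
  · -- (E)
    intro x i hi
    obtain ⟨N, nb⟩ := hE x i hi
    obtain ⟨b, hb1, hb2, hb3⟩ := not_noz nb
    have bl : ∀ e : ℤ, ZOn x e (e + L) → e + L ≤ i ∨ i < e := by
      intro e he
      by_contra hcc
      push Not at hcc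
      exact N e (by omega) (by omega) he
    -- a window of type (c)
    have tc : ∀ s t : ℤ, s ≤ i → i < t → LEnd L x s → REnd L x t → t + L ≤ s + H →
        NoZ L x (s - L + 1) (i + L) → NoZ L x (i - L + 1) (t + L - 1) →
        ∃ (c : ℤ) (h : ℕ), TW L A B H x c h ∧ c ≤ i ∧ i < c + h := by
      intro s t hs ht ls rt hst n1 n2
      have n3 : NoZ L x (s - L + 1) (t + L - 1) := NoZ.merge n1 n2 (by omega)
      have s1 : s ≤ i - A := by
        by_contra hcc
        exact N (s - L) (by omega) (by omega) (by rw [sub_add_cancel]; exact ls.1)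
      have t1 : i < t - A := by
        by_contra hcc
        exact N t (by omega) (by omega) rt.1
      refine ⟨s + A, (t - 2 * A - s).toNat, Or.inr (Or.inr ⟨by omega, by omega, ?_⟩), by omega,
        by omega⟩
      have e1 : s + (A : ℤ) - A = s := by ring
      have e2 : s + (A : ℤ) + ((t - 2 * A - s).toNat : ℕ) + A = t := by omega
      rw [e1, e2]
      exact ⟨ls, rt, by omega, n3.mono (by omega) (by omega)⟩
    rcases bl b hb3 with hbi | hbi
    · obtain ⟨s, s1, s2, s3, s4⟩ := exists_lend hL hb3 hbi bl
      have s5 : s ≤ i - A := by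
        by_contra hcc
        exact N (s - L) (by omega) (by omega) (by rw [sub_add_cancel]; exact s3.1)
      by_cases hn : NoZ L x s (s + H)
      · refine ⟨s + A, B - A, Or.inl ⟨by omega, ?_, ?_⟩, by omega, by omega⟩
        · have e1 : s + (A : ℤ) - A = s := by ring
          rw [e1]
          exact s3
        · have e1 : s + (A : ℤ) - A = s := by ring
          rw [e1]
          exact hn
      · obtain ⟨b', b1, b2, b3⟩ := not_noz hn
        have hib : i < b' := by
          rcases bl b' b3 with h | h
          · exact (s4 b' (by omega) (by omega) b3).elim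
          · exact h
        obtain ⟨t, t1, t2, t3, t4⟩ := exists_rend hL b3 hib bl
        exact tc s t s2 t2 s3 t3 (by omega) s4 t4
    · obtain ⟨t, t1, t2, t3, t4⟩ := exists_rend hL hb3 hbi bl
      have t5 : i < t - A := by
        by_contra hcc
        exact N t (by omega) (by omega) t3.1
      by_cases hn : NoZ L x (t - H) t
      · have e1 : t - (B : ℤ) + ((B - A : ℕ) : ℤ) + A = t := by omega
        refine ⟨t - B, B - A, Or.inr (Or.inl ⟨by omega, ?_, ?_⟩), by omega, by omega⟩
        · rw [e1]
          exact t3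
        · rw [e1]
          exact hn
      · obtain ⟨b', b1, b2, b3⟩ := not_noz hn
        have hib : b' + L ≤ i := by
          rcases bl b' b3 with h | h
          · exact h
          · exact (t4 b' (by omega) (by omega) b3).elim
        obtain ⟨s, s1, s2, s3, s4⟩ := exists_lend hL b3 hib bl
        exact tc s t s2 t2 s3 t3 (by omega) s4 t4

end Pool.MP_5a0708_an.Nil
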