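import Pool.Agent.Lib.MP_5a0708_an.Nil.SpecB

/-!
# MP_5a0708_an, package Nil, module FW : a weak form of the theorem of Fine and Wilf
-/

set_option autoImplicit false

namespace Pool.MP_5a0708_an.Nil

/-- a representative in `[a, a + n)` -/
theorem FW_rep (n : ℕ) (hn : 0 < n) (a i : ℤ) : ∃ k i0 : ℤ, a ≤ i0 ∧ i0 < a + n ∧ i = i0 + k * n := by
  refine ⟨(i - a) / n, a + (i - a) % n, ?_, ?_, ?_⟩
  · have := Int.emod_nonneg (i - a) (b := (n : ℤ)) (by omega)
    omega
  · have := Int.emod_lt_of_pos (i - a) (b := (n : ℤ)) (by omega)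
    omega
  · have := Int.emod_add_mul_ediv (i - a) n
    have h2 : (n : ℤ) * ((i - a) / n) = (i - a) / n * n := by ring
    omega

theorem tFW : SFW := by
  intro n n' p q a hn hn' hp hq hA
  have h1 : ∀ i : ℤ, a ≤ i → i < a + n' → q (i + n) = q i := by
    intro i h2 h3
    rw [← hA (i + n) (by omega) (by omega), hp i]
    exact hA i h2 (by omega)
  have h2 : Per n q := by
    intro i
    obtain ⟨k, i0, h3, h4, h5⟩ := FW_rep n' hn' a i
    have e : i + n = i0 + n + k * n' := by rw [h5]; ring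
    rw [e, hq.int_mul, h1 i0 h3 h4, h5, hq.int_mul]
  funext i
  obtain ⟨k, i0, h3, h4, h5⟩ := FW_rep n hn a i
  rw [h5, hp.int_mul, h2.int_mul]
  exact hA i0 h3 (by omega)

end Pool.MP_5a0708_an.Nil
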