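import Pool.Agent.Lib.MP_5a0708_an.Nil.SpecC

/-!
# MP_5a0708_an, package Nil : GA
-/

set_option autoImplicit false

namespace Pool.MP_5a0708_an.Nil

theorem tGA (h1 : SDEC) : SGA := by
  classical
  intro L P n w ρ κ Mk hκ hMk hw
  obtain ⟨d1, d2, d3, -, -, -⟩ := h1 L P n κ hκ
  have hn : P + 7 ≤ n := hκ.hPn
  -- sites are far from each other
  have g1 : ∀ (x : Pt) (c c' : ℤ), Sit L n w κ Mk x c → Sit L n w κ Mk x c' → c < c' →
      c + 2 * n ≤ c' := by
    intro x c c' h h' hcc
    have := hMk.sep _ c c' h.1 h'.1 hcc
    push_cast at this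
    omega
  have huniq : ∀ (x : Pt) (c c' i : ℤ), Sit L n w κ Mk x c → Sit L n w κ Mk x c' → c - n ≤ i →
      i < c + 2 * n → c' ≤ i → i < c' + n → c' = c := by
    intro x c c' i h h' h2 h3 h4 h5
    rcases lt_trichotomy c c' with h6 | h6 | h6
    · have := g1 x c c' h h' h6
      omega
    · exact h6.symm
    · have := g1 x c' c h' h h6
      omega
  have g2 : ∀ (x : Pt) (c e : ℤ) (u : ℕ → Bool), Sit L n w κ Mk x c → RdC L n κ x e u →
      c - n < e + n → e < c + 2 * n → e = c := by
    intro x c e u h hu h2 h3
    have hMe := h.2.1 e u hu (by omega) (by omega)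
    rcases lt_trichotomy c e with h6 | h6 | h6
    · have := hMk.sep _ c e h.1 hMe h6
      push_cast at this
      omega
    · exact h6.symm
    · have := hMk.sep _ e c hMe h.1 h6
      push_cast at this
      omega
  refine ⟨g1, g2, ?_, ?_, ?_, ?_, ?_⟩
  · intro x c i h h2 h3 h4
    apply d3
    rintro e u hu ⟨h5, h6⟩
    have h7 := g2 x c e u h hu (by omega) (by omega)
    subst h7
    rcases h4 with h4 | h4
    · exact h4 ⟨h5, h6⟩
    · exact h4 u hu
  · intro x c i h h2 h3 h4
    unfold gF
    rw [if_neg]
    rintro ⟨c', h', h5, h6⟩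
    have := huniq x c c' i h h' h2 h3 h5 h6
    subst this
    exact h4 ⟨h5, h6⟩
  · intro x c u h hu k hk
    unfold gF
    rw [if_pos ⟨c, h, by omega, by omega⟩, if_pos ⟨c, u, h, hu, by omega, by omega⟩]
  · intro x c h hno
    refine ⟨?_, ?_⟩
    · intro j hj
      obtain ⟨i, h2, h3, h4⟩ := h.2.2.one (i := c + j) (by omega) (by omega)
      refine ⟨(i - c).toNat, by omega, by omega, ?_⟩
      have e1 : c + (((i - c).toNat : ℕ) : ℤ) = i := by omega
      show dec L n κ x (c + (((i - c).toNat : ℕ) : ℤ)) = true
      rw [e1]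
      exact h4
    · intro k hk
      unfold gF
      rw [if_pos ⟨c, h, by omega, by omega⟩, if_neg]
      · have key : (∃ c' : ℤ, Sit L n w κ Mk x c' ∧ c' ≤ c + k ∧ c + k < c' + n ∧
            κ (fun k : ℕ => dec L n κ x (c' + k)) (c + k - c').toNat = true) ↔
            κ (fun k : ℕ => dec L n κ x (c + k)) k = true := by
          constructor
          · rintro ⟨c', h', h5, h6, h7⟩
            have := huniq x c c' (c + k) h h' (by omega) (by omega) h5 h6
            subst this
            have e1 : (c' + (k : ℤ) - c').toNat = k := by omega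
            rwa [e1] at h7
          · intro h7
            refine ⟨c, h, by omega, by omega, ?_⟩
            have e1 : (c + (k : ℤ) - c).toNat = k := by omega
            rw [e1]
            exact h7
        by_cases hv : κ (fun k : ℕ => dec L n κ x (c + k)) k = true
        · rw [hv]
          exact decide_eq_true (key.2 hv)
        · rw [Bool.eq_false_iff.2 hv]
          exact decide_eq_false (fun h => hv (key.1 h))
      · rintro ⟨c', u, h', hu, h5, h6⟩
        have := huniq x c c' (c + k) h h' (by omega) (by omega) h5 h6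
        subst this
        exact hno u hu
  · intro x i hne
    by_contra hc
    apply hne
    unfold gF
    rw [if_neg hc]

end Pool.MP_5a0708_an.Nil
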