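import Pool.Agent.Lib.MP_5a0708_an.Nil.SpecC

/-!
# MP_5a0708_an, package Nil : GB
-/

set_option autoImplicit false

namespace Pool.MP_5a0708_an.Nil

theorem tGB (h1 : SDEC) (h2 : SGA) : SGB := by
  classical
  intro L P n w ρ κ Mk hκ hMk hw x
  obtain ⟨d1, d2, d3, -, -, d6⟩ := h1 L P n κ hκ
  obtain ⟨g1, g2, g3, g4, g5, g6, g7⟩ := h2 L P n w ρ κ Mk hκ hMk hw
  have hn : P + 7 ≤ n := hκ.hPn
  have hLP : L ≤ P := hκ.hLP
  set z := gF L n w κ Mk x with hz
  set y := dec L n κ x with hy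
  -- a code word of `x` that is no site is unchanged
  have hkeep : ∀ (e : ℤ) (u : ℕ → Bool), RdC L n κ x e u → ¬ Sit L n w κ Mk x e →
      ∀ i : ℤ, e ≤ i → i < e + n → z i = x i := by
    intro e u hu hs i h3 h4
    by_contra hc
    obtain ⟨c, hc1, hc2, hc3⟩ := g7 x i hc
    have := g2 x c e u hc1 hu (by omega) (by omega)
    subst this
    exact hs hc1
  -- no site block
  have hout : ∀ i : ℤ, (∀ c : ℤ, Sit L n w κ Mk x c → ¬ (c ≤ i ∧ i < c + n)) → z i = x i := by
    intro i h3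
    by_contra hc
    obtain ⟨c, hc1, hc2, hc3⟩ := g7 x i hc
    exact h3 c hc1 ⟨hc2, hc3⟩
  -- Claim 1
  have cl1a : ∀ e : ℤ, (∃ u, RdC L n κ x e u) → ¬ Sit L n w κ Mk x e → ∃ u, RdC L n κ z e u := by
    rintro e ⟨u, hu⟩ hs
    refine ⟨u, hu.1, ?_⟩
    intro k hk
    rw [hkeep e u hu hs (e + k) (by omega) (by omega)]
    exact hu.2 k hk
  have cl1b : ∀ e : ℤ, Sit L n w κ Mk x e → (¬ ∃ u, RdC L n κ x e u) → ∃ u, RdC L n κ z e u := by
    intro e hs hno
    exact ⟨_, g6 x e hs (fun u hu => hno ⟨u, hu⟩)⟩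
  have cl1 : ∀ (e : ℤ) (v : ℕ → Bool), RdC L n κ z e v →
      ((RdC L n κ x e v ∧ ¬ Sit L n w κ Mk x e) ∨
        (Sit L n w κ Mk x e ∧ ¬ ∃ u, RdC L n κ x e u)) := by
    intro e v hv
    by_cases hA : ∀ c : ℤ, Sit L n w κ Mk x c → ¬ (c < e + n ∧ e < c + n)
    · left
      have hs : ¬ Sit L n w κ Mk x e := fun hs => hA e hs ⟨by omega, by omega⟩
      refine ⟨⟨hv.1, ?_⟩, hs⟩
      intro k hk
      rw [← hout (e + k) (fun c hc h3 => hA c hc ⟨by omega, by omega⟩)]
      exact hv.2 k hk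
    · push Not at hA
      obtain ⟨c, hc, hc1, hc2⟩ := hA
      by_cases hcd : ∃ u, RdC L n κ x c u
      · exfalso
        obtain ⟨u, hu⟩ := hcd
        have hzy : ∀ i : ℤ, c - n ≤ i → i < c + 2 * n → z i = y i := by
          intro i h3 h4
          by_cases h5 : c ≤ i ∧ i < c + n
          · have h6 := g5 x c u hc hu (i - c).toNat (by omega)
            have e1 : c + (((i - c).toNat : ℕ) : ℤ) = i := by omega
            rw [e1] at h6
            exact h6
          · have h6 := g4 x c i hc h3 h4 h5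
            have h7 := g3 x c i hc h3 h4 (Or.inl h5)
            exact h6.trans h7.symm
        have hzo := d6 z e v hv
        apply hc.2.2 (e + 2) (by omega) (by omega)
        intro i h3 h4
        have h5 : y i = false := by
          rw [← hzy i (by omega) (by omega)]
          exact hzo i h3 h4
        exact h5
      · right
        have h3 := g6 x c hc (fun u hu => hcd ⟨u, hu⟩)
        have h4 : e = c := by
          rcases lt_trichotomy e c with h5 | h5 | h5
          · have := d1 z e c v _ hv h3 h5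
            omega
          · exact h5
          · have := d1 z c e _ v h3 hv h5
            omega
        subst h4
        exact ⟨hc, hcd⟩
  -- Claim 2
  have cl2 : dec L n κ z = y := by
    funext i
    by_cases hI : ∃ (e : ℤ) (v : ℕ → Bool), RdC L n κ z e v ∧ e ≤ i ∧ i < e + n
    · obtain ⟨e, v, hv, he1, he2⟩ := hI
      have e1 : e + (((i - e).toNat : ℕ) : ℤ) = i := by omega
      have h3 := d2 z e v hv (i - e).toNat (by omega)
      rw [e1] at h3
      rcases cl1 e v hv with ⟨h4, h5⟩ | ⟨h4, h5⟩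
      · have h6 := d2 x e v h4 (i - e).toNat (by omega)
        rw [e1] at h6
        rw [h3]
        exact h6.symm
      · have h6 := g6 x e h4 (fun u hu => h5 ⟨u, hu⟩)
        have h7 := d2 z e _ h6 (i - e).toNat (by omega)
        rw [e1] at h7
        exact h7
    · have h3 : dec L n κ z i = z i := by
        apply d3
        intro e v hv h4
        exact hI ⟨e, v, hv, h4.1, h4.2⟩
      rw [h3]
      by_cases hS : ∃ c : ℤ, Sit L n w κ Mk x c ∧ c ≤ i ∧ i < c + n
      · obtain ⟨c, hc, hc1, hc2⟩ := hS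
        have hcd : ∃ u, RdC L n κ x c u := by
          by_contra hno
          obtain ⟨v, hv⟩ := cl1b c hc hno
          exact hI ⟨c, v, hv, hc1, hc2⟩
        obtain ⟨u, hu⟩ := hcd
        have h6 := g5 x c u hc hu (i - c).toNat (by omega)
        have e1 : c + (((i - c).toNat : ℕ) : ℤ) = i := by omega
        rw [e1] at h6
        exact h6
      · have h4 : z i = x i := hout i (fun c hc h5 => hS ⟨c, hc, h5.1, h5.2⟩)
        rw [h4]
        symm
        apply d3
        intro e u hu h5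
        have hs : ¬ Sit L n w κ Mk x e := fun hs => hS ⟨e, hs, h5.1, h5.2⟩
        obtain ⟨v, hv⟩ := cl1a e ⟨u, hu⟩ hs
        exact hI ⟨e, v, hv, h5.1, h5.2⟩
  -- Claim 3
  have cl3 : ∀ c : ℤ, Sit L n w κ Mk z c ↔ Sit L n w κ Mk x c := by
    intro c
    unfold Sit
    rw [cl2]
    constructor
    · rintro ⟨h3, h4, h5⟩
      refine ⟨h3, ?_, h5⟩
      intro e u hu h6 h7
      by_cases hs : Sit L n w κ Mk x e
      · exact hs.1
      · obtain ⟨v, hv⟩ := cl1a e ⟨u, hu⟩ hs
        exact h4 e v hv h6 h7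
    · rintro ⟨h3, h4, h5⟩
      refine ⟨h3, ?_, h5⟩
      intro e v hv h6 h7
      rcases cl1 e v hv with ⟨h8, -⟩ | ⟨h8, -⟩
      · exact h4 e v h8 h6 h7
      · exact h8.1
  -- Claim 4
  funext i
  by_cases hS : ∃ c : ℤ, Sit L n w κ Mk x c ∧ c ≤ i ∧ i < c + n
  · obtain ⟨c, hc, hc1, hc2⟩ := hS
    have hcz := (cl3 c).2 hc
    have e1 : c + (((i - c).toNat : ℕ) : ℤ) = i := by omega
    by_cases hcd : ∃ u, RdC L n κ x c u
    · obtain ⟨u, hu⟩ := hcd
      have hno : ∀ v : ℕ → Bool, ¬ RdC L n κ z c v := by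
        intro v hv
        rcases cl1 c v hv with ⟨-, h5⟩ | ⟨-, h5⟩
        · exact h5 hc
        · exact h5 ⟨u, hu⟩
      have h6 := g6 z c hcz hno
      have h7 := h6.2 (i - c).toNat (by omega)
      rw [e1] at h7
      rw [h7]
      have h8 := hu.2 (i - c).toNat (by omega)
      rw [e1] at h8
      rw [h8]
      apply hκ.ext _ _ _ _ (by omega)
      intro k hk
      rw [cl2]
      exact d2 x c u hu k hk
    · obtain ⟨v, hv⟩ := cl1b c hc hcd
      have h6 := g5 z c v hcz hv (i - c).toNat (by omega)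
      rw [e1] at h6
      rw [h6, cl2]
      exact g3 x c i hc (by omega) (by omega) (Or.inr (fun u hu => hcd ⟨u, hu⟩))
  · have h3 : gF L n w κ Mk z i = z i := by
      by_contra hc
      obtain ⟨c, hc1, hc2, hc3⟩ := g7 z i hc
      exact hS ⟨c, (cl3 c).1 hc1, hc2, hc3⟩
    rw [h3]
    exact hout i (fun c hc h5 => hS ⟨c, hc, h5.1, h5.2⟩)

end Pool.MP_5a0708_an.Nil
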