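import Pool.Agent.Lib.MP_5a0708_an.Nil.SpecC

/-! # MP_5a0708_an, package Nil : GC -/

set_option autoImplicit false

namespace Pool.MP_5a0708_an.Nil

theorem GC_rdc {L n : ℕ} {κ : (ℕ → Bool) → ℕ → Bool} {x y : Pt} {e : ℤ} {u : ℕ → Bool}
    (h : Agr x y e (e + n)) (hx : RdC L n κ x e u) : RdC L n κ y e u :=
  ⟨hx.1, fun k hk => by rw [← h (e + k) (by omega) (by omega)]; exact hx.2 k hk⟩

theorem GC_rdc_tr {L n : ℕ} {κ : (ℕ → Bool) → ℕ → Bool} {x : Pt} {e k : ℤ} {u : ℕ → Bool} :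
    RdC L n κ (tr k x) e u ↔ RdC L n κ x (e + k) u := by
  unfold RdC
  have key : ∀ j : ℕ, tr k x (e + j) = x (e + k + j) := by
    intro j
    rw [tr_apply]
    congr 1
    ring
  constructor
  · rintro ⟨h1, h2⟩
    exact ⟨h1, fun j hj => by rw [← key]; exact h2 j hj⟩
  · rintro ⟨h1, h2⟩
    exact ⟨h1, fun j hj => by rw [key]; exact h2 j hj⟩

theorem GC_sit {L n w ρ : ℕ} {κ : (ℕ → Bool) → ℕ → Bool} {Mk : Pt → ℤ → Prop}
    (hloc : Loc n (dec L n κ)) (hM : Mark (2 * n) ρ Mk) {x y : Pt} {c : ℤ}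
    (h : Agr x y (c - (w + 2 * n + ρ + 1 : ℕ)) (c + (w + 2 * n + ρ + 1 : ℕ)))
    (hx : Sit L n w κ Mk x c) : Sit L n w κ Mk y c := by
  obtain ⟨h1, h2, h3⟩ := hx
  have hd : Agr (dec L n κ x) (dec L n κ y) (c - (w + n + ρ + 1 : ℕ)) (c + (w + n + ρ + 1 : ℕ)) := by
    refine (h.image hloc).mono ?_ ?_ <;> push_cast <;> omega
  refine ⟨?_, ?_, ?_⟩
  · apply hM.loc _ _ _ _ h1
    intro j h4 h5
    exact hd j (by push_cast; omega) (by push_cast; omega)
  · intro e u he h4 h5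
    have h6 : RdC L n κ x e u := by
      apply GC_rdc _ he
      refine h.symm.mono ?_ ?_ <;> push_cast <;> omega
    apply hM.loc _ _ _ _ (h2 e u h6 h4 h5)
    intro j h7 h8
    exact hd j (by push_cast; omega) (by push_cast; omega)
  · apply h3.congr
    refine hd.mono ?_ ?_ <;> push_cast <;> omega

theorem GC_sit_tr {L n w ρ : ℕ} {κ : (ℕ → Bool) → ℕ → Bool} {Mk : Pt → ℤ → Prop}
    (hcov : ∀ (k : ℤ) (x : Pt), dec L n κ (tr k x) = tr k (dec L n κ x))
    (hM : Mark (2 * n) ρ Mk) {x : Pt} {c k : ℤ} :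
    Sit L n w κ Mk (tr k x) c ↔ Sit L n w κ Mk x (c + k) := by
  unfold Sit
  rw [hcov, hM.cov, noz_tr]
  have e1 : c - (w : ℤ) + k = c + k - w := by ring
  have e2 : c + (n : ℤ) + w + k = c + k + n + w := by ring
  rw [e1, e2]
  constructor
  · rintro ⟨h1, h2, h3⟩
    refine ⟨h1, ?_, h3⟩
    intro e u h4 h5 h6
    have h7 := h2 (e - k) u (by rw [GC_rdc_tr, sub_add_cancel]; exact h4) (by omega) (by omega)
    rw [hM.cov, sub_add_cancel] at h7
    exact h7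
  · rintro ⟨h1, h2, h3⟩
    refine ⟨h1, ?_, h3⟩
    intro e u h4 h5 h6
    rw [hM.cov]
    exact h2 (e + k) u (GC_rdc_tr.1 h4) (by omega) (by omega)

theorem tGC (h1 : SDEC) (_h2 : SGA) : SGC := by
  classical
  intro L P n w ρ κ Mk hκ hM hw
  obtain ⟨-, -, -, hloc, hcov, -⟩ := h1 L P n κ hκ
  constructor
  · refine ⟨w + 3 * n + ρ + 1, ?_⟩
    intro x y i hxy
    have hA : Agr x y (i - (w + 3 * n + ρ + 1 : ℕ)) (i + (w + 3 * n + ρ + 1 : ℕ) + 1) := by
      intro j h3 h4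
      exact hxy j h3 (by omega)
    have hd : ∀ j : ℤ, i - n < j → j < i + n → dec L n κ x j = dec L n κ y j := by
      intro j h3 h4
      apply hloc
      intro j' h5 h6
      exact hA j' (by push_cast; omega) (by push_cast; omega)
    have hS : ∀ c : ℤ, c ≤ i → i < c + n → (Sit L n w κ Mk x c ↔ Sit L n w κ Mk y c) := by
      intro c h3 h4
      have h5 : Agr x y (c - (w + 2 * n + ρ + 1 : ℕ)) (c + (w + 2 * n + ρ + 1 : ℕ)) := by
        refine hA.mono ?_ ?_ <;> push_cast <;> omega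
      exact ⟨GC_sit hloc hM h5, GC_sit hloc hM h5.symm⟩
    have hR : ∀ (c : ℤ) (u : ℕ → Bool), c ≤ i → i < c + n → (RdC L n κ x c u ↔ RdC L n κ y c u) := by
      intro c u h3 h4
      have h5 : Agr x y c (c + n) := by
        refine hA.mono ?_ ?_ <;> push_cast <;> omega
      exact ⟨GC_rdc h5, GC_rdc h5.symm⟩
    have hC1 : (∃ c : ℤ, Sit L n w κ Mk x c ∧ c ≤ i ∧ i < c + n) ↔
        (∃ c : ℤ, Sit L n w κ Mk y c ∧ c ≤ i ∧ i < c + n) := by
      constructor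
      · rintro ⟨c, h3, h4, h5⟩
        exact ⟨c, (hS c h4 h5).1 h3, h4, h5⟩
      · rintro ⟨c, h3, h4, h5⟩
        exact ⟨c, (hS c h4 h5).2 h3, h4, h5⟩
    have hC2 : (∃ (c : ℤ) (u : ℕ → Bool), Sit L n w κ Mk x c ∧ RdC L n κ x c u ∧ c ≤ i ∧ i < c + n) ↔
        (∃ (c : ℤ) (u : ℕ → Bool), Sit L n w κ Mk y c ∧ RdC L n κ y c u ∧ c ≤ i ∧ i < c + n) := by
      constructor
      · rintro ⟨c, u, h3, h3', h4, h5⟩
        exact ⟨c, u, (hS c h4 h5).1 h3, (hR c u h4 h5).1 h3', h4, h5⟩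
      · rintro ⟨c, u, h3, h3', h4, h5⟩
        exact ⟨c, u, (hS c h4 h5).2 h3, (hR c u h4 h5).2 h3', h4, h5⟩
    have hk : ∀ c : ℤ, Sit L n w κ Mk x c → c ≤ i → i < c + n →
        κ (fun k : ℕ => dec L n κ x (c + k)) (i - c).toNat =
          κ (fun k : ℕ => dec L n κ y (c + k)) (i - c).toNat := by
      intro c hc h4 h5
      apply hκ.ext _ _ _ _ (by omega)
      intro k hk
      have hA2 : Agr x y (c - n) (c + 2 * n + 1) := by
        refine hA.mono ?_ ?_ <;> push_cast <;> omega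
      apply hloc
      intro j' h6 h7
      exact hA2 j' (by omega) (by omega)
    have hC3 : (∃ c : ℤ, Sit L n w κ Mk x c ∧ c ≤ i ∧ i < c + n ∧
        κ (fun k : ℕ => dec L n κ x (c + k)) (i - c).toNat = true) ↔
        (∃ c : ℤ, Sit L n w κ Mk y c ∧ c ≤ i ∧ i < c + n ∧
        κ (fun k : ℕ => dec L n κ y (c + k)) (i - c).toNat = true) := by
      constructor
      · rintro ⟨c, h3, h4, h5, h6⟩
        exact ⟨c, (hS c h4 h5).1 h3, h4, h5, by rw [← hk c h3 h4 h5]; exact h6⟩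
      · rintro ⟨c, h3, h4, h5, h6⟩
        have h3' := (hS c h4 h5).2 h3
        exact ⟨c, h3', h4, h5, by rw [hk c h3' h4 h5]; exact h6⟩
    unfold gF
    by_cases hc1 : ∃ c : ℤ, Sit L n w κ Mk x c ∧ c ≤ i ∧ i < c + n
    · rw [if_pos hc1, if_pos (hC1.1 hc1)]
      obtain ⟨c, hc, h4, h5⟩ := hc1
      by_cases hc2 : ∃ (c : ℤ) (u : ℕ → Bool), Sit L n w κ Mk x c ∧ RdC L n κ x c u ∧ c ≤ i ∧ i < c + n
      · rw [if_pos hc2, if_pos (hC2.1 hc2)]
        exact hd i (by omega) (by omega)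
      · rw [if_neg hc2, if_neg (fun h => hc2 (hC2.2 h))]
        exact decide_eq_decide.2 hC3
    · rw [if_neg hc1, if_neg (fun h => hc1 (hC1.2 h))]
      exact hxy i (by omega) (by omega)
  · intro k x
    funext i
    rw [tr_apply]
    have hC1 : (∃ c : ℤ, Sit L n w κ Mk (tr k x) c ∧ c ≤ i ∧ i < c + n) ↔
        (∃ c : ℤ, Sit L n w κ Mk x c ∧ c ≤ i + k ∧ i + k < c + n) := by
      constructor
      · rintro ⟨c, h3, h4, h5⟩
        exact ⟨c + k, (GC_sit_tr hcov hM).1 h3, by omega, by omega⟩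
      · rintro ⟨c, h3, h4, h5⟩
        exact ⟨c - k, (GC_sit_tr hcov hM).2 (by rw [sub_add_cancel]; exact h3), by omega, by omega⟩
    have hC2 : (∃ (c : ℤ) (u : ℕ → Bool), Sit L n w κ Mk (tr k x) c ∧ RdC L n κ (tr k x) c u ∧
        c ≤ i ∧ i < c + n) ↔ (∃ (c : ℤ) (u : ℕ → Bool), Sit L n w κ Mk x c ∧ RdC L n κ x c u ∧
        c ≤ i + k ∧ i + k < c + n) := by
      constructor
      · rintro ⟨c, u, h3, h3', h4, h5⟩
        exact ⟨c + k, u, (GC_sit_tr hcov hM).1 h3, GC_rdc_tr.1 h3', by omega, by omega⟩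
      · rintro ⟨c, u, h3, h3', h4, h5⟩
        exact ⟨c - k, u, (GC_sit_tr hcov hM).2 (by rw [sub_add_cancel]; exact h3),
          GC_rdc_tr.2 (by rw [sub_add_cancel]; exact h3'), by omega, by omega⟩
    have hk : ∀ c : ℤ, κ (fun j : ℕ => dec L n κ (tr k x) (c + j)) (i - c).toNat =
          κ (fun j : ℕ => dec L n κ x (c + k + j)) (i + k - (c + k)).toNat := by
      intro c
      have e1 : (fun j : ℕ => dec L n κ (tr k x) (c + j)) =
          (fun j : ℕ => dec L n κ x (c + k + j)) := by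
        funext j
        rw [hcov, tr_apply]
        congr 1
        ring
      have e2 : i + k - (c + k) = i - c := by ring
      rw [e1, e2]
    have hC3 : (∃ c : ℤ, Sit L n w κ Mk (tr k x) c ∧ c ≤ i ∧ i < c + n ∧
        κ (fun j : ℕ => dec L n κ (tr k x) (c + j)) (i - c).toNat = true) ↔
        (∃ c : ℤ, Sit L n w κ Mk x c ∧ c ≤ i + k ∧ i + k < c + n ∧
        κ (fun j : ℕ => dec L n κ x (c + j)) (i + k - c).toNat = true) := by
      constructor
      · rintro ⟨c, h3, h4, h5, h6⟩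
        exact ⟨c + k, (GC_sit_tr hcov hM).1 h3, by omega, by omega, by rw [← hk c]; exact h6⟩
      · rintro ⟨c, h3, h4, h5, h6⟩
        refine ⟨c - k, (GC_sit_tr hcov hM).2 (by rw [sub_add_cancel]; exact h3), by omega,
          by omega, ?_⟩
        rw [hk (c - k), sub_add_cancel]
        exact h6
    unfold gF
    by_cases hc1 : ∃ c : ℤ, Sit L n w κ Mk (tr k x) c ∧ c ≤ i ∧ i < c + n
    · rw [if_pos hc1, if_pos (hC1.1 hc1)]
      by_cases hc2 : ∃ (c : ℤ) (u : ℕ → Bool), Sit L n w κ Mk (tr k x) c ∧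
          RdC L n κ (tr k x) c u ∧ c ≤ i ∧ i < c + n
      · rw [if_pos hc2, if_pos (hC2.1 hc2), hcov, tr_apply]
      · rw [if_neg hc2, if_neg (fun h => hc2 (hC2.2 h))]
        exact decide_eq_decide.2 hC3
    · rw [if_neg hc1, if_neg (fun h => hc1 (hC1.2 h)), tr_apply]

end Pool.MP_5a0708_an.Nil
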