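import Pool.Agent.Lib.MP_5a0708_an.Nil.SpecC

/-!
# MP_5a0708_an, package Nil : the involution `g`
-/

set_option autoImplicit false

namespace Pool.MP_5a0708_an.Nil

/-- **GK** -/
theorem tGK (h1 : SKM) (h2 : SCOD) (h3 : SDEC) (h4 : SGA) (h5 : SGB) (h6 : SGC) : SGK := by
  intro L hL
  obtain ⟨P, n, κ, hκ⟩ := h2 L hL
  have hn : L + 7 ≤ n := by
    have := hκ.hLP
    have := hκ.hPn
    omega
  refine ⟨2 * n, by omega, ?_⟩
  intro K
  obtain ⟨ρ, Mk, hM, hcov⟩ := h1 (2 * n) K (by omega)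
  obtain ⟨⟨r, hr⟩, hcomm⟩ := h6 L P n (2 * n) ρ κ Mk hκ hM le_rfl
  have hinv := h5 L P n (2 * n) ρ κ Mk hκ hM le_rfl
  obtain ⟨-, -, -, -, -, a6, a7⟩ := h4 L P n (2 * n) ρ κ Mk hκ hM le_rfl
  obtain ⟨-, -, d3, -, -, d6⟩ := h3 L P n κ hκ
  set g : Equiv.Perm Pt := ⟨gF L n (2 * n) κ Mk, gF L n (2 * n) κ Mk, hinv, hinv⟩ with hg
  have hgap : ∀ x : Pt, g x = gF L n (2 * n) κ Mk x := fun _ => rfl
  have haut : IsAut r g := ⟨hr, hr, hcomm⟩
  refine ⟨g, K + ρ + 20 * n + L + 20, haut.isInv hinv, ?_⟩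
  intro x j hx hz
  -- code words of `x` and `g x`
  have c1 : ∀ (e : ℤ) (u : ℕ → Bool), RdC L n κ x e u →
      e + 2 < j - (K + ρ + 20 * n + L + 20 : ℕ) ∨ j + (K + ρ + 20 * n + L + 20 : ℕ) < e + 2 + L :=
    fun e u h => hx.block (d6 x e u h)
  have c2 : ∀ (e : ℤ) (u : ℕ → Bool), RdC L n κ (g x) e u →
      e + 2 < j - (K + ρ + 20 * n + L + 20 : ℕ) ∨ j + (K + ρ + 20 * n + L + 20 : ℕ) < e + 2 + L :=
    fun e u h => hz.block (d6 (g x) e u h)
  have c3 : ∀ i : ℤ, j - (K + ρ + 19 * n + L + 20 : ℕ) ≤ i →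
      i < j + (K + ρ + 19 * n + L + 20 : ℕ) → dec L n κ x i = x i := by
    intro i hi1 hi2
    apply d3
    rintro e u he ⟨h7, h8⟩
    rcases c1 e u he with h9 | h9 <;> omega
  -- no marker near `j`
  have ha : ∀ m : ℤ, j - K - 4 * n ≤ m → m ≤ j + K + 4 * n → ¬ Mk x m := by
    intro m hm1 hm2 hm
    have hno : ∀ u : ℕ → Bool, ¬ RdC L n κ x m u := by
      intro u hu
      rcases c1 m u hu with h9 | h9 <;> omega
    have hsit : Sit L n (2 * n) κ Mk x m := by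
      refine ⟨hM.loc x _ m (fun i h7 h8 => (c3 i (by omega) (by omega)).symm) hm, ?_, ?_⟩
      · intro e u he h7 h8
        exfalso
        rcases c1 e u he with h9 | h9 <;> omega
      · apply NoZ.congr (x := x)
        · exact hx.mono (by omega) (by omega)
        · intro i h7 h8
          exact (c3 i (by omega) (by omega)).symm
    have h7 := a6 x m hsit hno
    rcases c2 m _ h7 with h9 | h9 <;> omega
  -- `g x = x` near `j`
  have hb : Agr x (g x) (j - K) (j + K + 1) := by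
    intro i h7 h8
    by_contra hne
    obtain ⟨c, hc, h9, h10⟩ := a7 x i (fun h => hne h.symm)
    apply ha c (by omega) (by omega)
    exact hM.loc _ x c (fun i h11 h12 => c3 i (by omega) (by omega)) hc.1
  refine Deep.congr ?_ hb
  by_contra hd
  obtain ⟨m, hm1, hm2, hm3⟩ := hcov x j hd
  exact ha m (by push_cast at hm2; omega) (by push_cast at hm3; omega) hm1

end Pool.MP_5a0708_an.Nil
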