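import Pool.Agent.Lib.MP_5a0708_an.Nil.SpecC

/-!
# MP_5a0708_an, package Nil : Krieger's marker lemma
-/

set_option autoImplicit false

namespace Pool.MP_5a0708_an.Nil

namespace KM

/-- `x` reads the word `w` on `[i - T, i + T]` -/
def Rd (T : ℕ) (w : Fin (2 * T + 1) → Bool) (x : Pt) (i : ℤ) : Prop :=
  ∀ k : Fin (2 * T + 1), x (i - T + (k.val : ℤ)) = w k

/-- the markers of a list of words -/
def MkL (N T : ℕ) : List (Fin (2 * T + 1) → Bool) → Pt → ℤ → Prop
  | [], _, _ => False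
  | w :: l, x, i => MkL N T l x i ∨ (Rd T w x i ∧ ¬ Deep N T x i ∧
      ∀ j : ℤ, i - N < j → j < i + N → ¬ MkL N T l x j)

theorem rd_congr {T : ℕ} {w : Fin (2 * T + 1) → Bool} {x y : Pt} {i : ℤ} (h : Rd T w x i)
    (hxy : ∀ j : ℤ, i - T ≤ j → j ≤ i + T → x j = y j) : Rd T w y i := by
  intro k
  have hk := k.isLt
  rw [← hxy _ (by omega) (by omega)]
  exact h k

theorem deep_congr {N T : ℕ} {x y : Pt} {i : ℤ} (h : Deep N T x i)
    (hxy : ∀ j : ℤ, i - T ≤ j → j ≤ i + T → x j = y j) : Deep N T y i :=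
  h.congr (fun j h1 h2 => hxy j h1 (by omega))

theorem loc (N T : ℕ) : ∀ l : List (Fin (2 * T + 1) → Bool), ∃ ρ : ℕ, ∀ (x y : Pt) (i : ℤ),
    (∀ j : ℤ, i - ρ ≤ j → j ≤ i + ρ → x j = y j) → MkL N T l x i → MkL N T l y i
  | [] => ⟨0, fun _ _ _ _ h => h⟩
  | w :: l => by
    obtain ⟨ρ, hρ⟩ := loc N T l
    refine ⟨ρ + N + T, ?_⟩
    intro x y i hxy h
    rcases h with h | ⟨h1, h2, h3⟩
    · exact Or.inl (hρ x y i (fun j h1 h2 => hxy j (by push_cast; omega) (by push_cast; omega)) h)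
    · refine Or.inr ⟨rd_congr h1 (fun j h4 h5 => hxy j (by push_cast; omega)
        (by push_cast; omega)), ?_, ?_⟩
      · intro h4
        exact h2 (deep_congr h4 (fun j h5 h6 => (hxy j (by push_cast; omega)
          (by push_cast; omega)).symm))
      · intro j h4 h5 h6
        exact h3 j h4 h5 (hρ y x j (fun k h7 h8 => (hxy k (by push_cast; omega)
          (by push_cast; omega)).symm) h6)

theorem rd_tr {T : ℕ} {w : Fin (2 * T + 1) → Bool} {x : Pt} {i k : ℤ} :
    Rd T w (tr k x) i ↔ Rd T w x (i + k) := by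
  have e : ∀ j : Fin (2 * T + 1), i - T + (j.val : ℤ) + k = i + k - T + (j.val : ℤ) := fun j => by
    ring
  constructor
  · intro h j
    have := h j
    rw [tr_apply, e] at this
    exact this
  · intro h j
    rw [tr_apply, e]
    exact h j

theorem deep_tr {N T : ℕ} {x : Pt} {i k : ℤ} : Deep N T (tr k x) i ↔ Deep N T x (i + k) := by
  constructor
  · rintro ⟨n, h1, h2, h3⟩
    refine ⟨n, h1, h2, fun j h4 h5 => ?_⟩
    have h6 := h3 (j - k) (by omega) (by omega)
    rw [tr_apply, tr_apply] at h6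
    have e1 : j - k + (n : ℤ) + k = j + n := by ring
    have e2 : j - k + k = j := by ring
    rwa [e1, e2] at h6
  · rintro ⟨n, h1, h2, h3⟩
    refine ⟨n, h1, h2, fun j h4 h5 => ?_⟩
    rw [tr_apply, tr_apply]
    have h6 := h3 (j + k) (by omega) (by omega)
    have e1 : j + k + (n : ℤ) = j + n + k := by ring
    rwa [e1] at h6

theorem cov (N T : ℕ) : ∀ (l : List (Fin (2 * T + 1) → Bool)) (x : Pt) (i k : ℤ),
    MkL N T l (tr k x) i ↔ MkL N T l x (i + k)
  | [], _, _, _ => Iff.rfl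
  | w :: l, x, i, k => by
    have ih := cov N T l x
    constructor
    · rintro (h | ⟨h1, h2, h3⟩)
      · exact Or.inl ((ih i k).1 h)
      · refine Or.inr ⟨rd_tr.1 h1, fun h => h2 (deep_tr.2 h), fun j h4 h5 h6 => ?_⟩
        apply h3 (j - k) (by omega) (by omega)
        rw [ih, sub_add_cancel]
        exact h6
    · rintro (h | ⟨h1, h2, h3⟩)
      · exact Or.inl ((ih i k).2 h)
      · refine Or.inr ⟨rd_tr.2 h1, fun h => h2 (deep_tr.1 h), fun j h4 h5 h6 => ?_⟩
        exact h3 (j + k) (by omega) (by omega) ((ih j k).1 h6)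

theorem sep (N T : ℕ) : ∀ (l : List (Fin (2 * T + 1) → Bool)) (x : Pt) (i j : ℤ),
    MkL N T l x i → MkL N T l x j → i < j → i + N ≤ j
  | [], _, _, _, h, _, _ => h.elim
  | w :: l, x, i, j, hi, hj, hij => by
    by_contra hc
    push Not at hc
    rcases hi with hi | ⟨i1, i2, i3⟩
    · rcases hj with hj | ⟨j1, j2, j3⟩
      · have := sep N T l x i j hi hj hij
        omega
      · exact j3 i (by omega) (by omega) hi
    · rcases hj with hj | ⟨j1, j2, j3⟩
      · exact i3 j (by omega) (by omega) hj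
      · apply i2
        refine ⟨(j - i).toNat, by omega, by omega, ?_⟩
        intro k h1 h2
        have e0 : (((j - i).toNat : ℕ) : ℤ) = j - i := by omega
        rw [e0] at h2 ⊢
        have hk : (k - (i - T)).toNat < 2 * T + 1 := by omega
        have a1 := i1 ⟨(k - (i - T)).toNat, hk⟩
        have a2 := j1 ⟨(k - (i - T)).toNat, hk⟩
        have e1 : i - T + (((k - (i - T)).toNat : ℕ) : ℤ) = k := by omega
        have e2 : j - T + (((k - (i - T)).toNat : ℕ) : ℤ) = k + (j - i) := by omega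
        simp only at a1 a2
        rw [e1] at a1
        rw [e2] at a2
        rw [a1, a2]

theorem cover {N T : ℕ} (hN : 1 ≤ N) {x : Pt} {i : ℤ} (hd : ¬ Deep N T x i)
    {w : Fin (2 * T + 1) → Bool} (hw : Rd T w x i) : ∀ l : List (Fin (2 * T + 1) → Bool),
    w ∈ l → ∃ m : ℤ, MkL N T l x m ∧ i - N < m ∧ m < i + N
  | [], h => absurd h List.not_mem_nil
  | w' :: l, h => by
    rcases List.mem_cons.1 h with rfl | h
    · by_cases hex : ∃ j : ℤ, MkL N T l x j ∧ i - N < j ∧ j < i + N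
      · obtain ⟨j, h1, h2⟩ := hex
        exact ⟨j, Or.inl h1, h2⟩
      · exact ⟨i, Or.inr ⟨hw, hd, fun j h1 h2 h3 => hex ⟨j, h3, h1, h2⟩⟩, by omega, by omega⟩
    · obtain ⟨m, h1, h2⟩ := cover hN hd hw l h
      exact ⟨m, Or.inl h1, h2⟩

end KM

/-- **KM** -/
theorem tKM : SKM := by
  classical
  intro N T hN
  obtain ⟨ρ, hρ⟩ := KM.loc N T (Finset.univ : Finset (Fin (2 * T + 1) → Bool)).toList
  refine ⟨ρ, KM.MkL N T (Finset.univ : Finset (Fin (2 * T + 1) → Bool)).toList,
    ⟨hρ, KM.cov N T _, KM.sep N T _⟩, ?_⟩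
  intro x i hd
  exact KM.cover hN hd (w := fun k => x (i - T + (k.val : ℤ))) (fun k => rfl) _
    (Finset.mem_toList.2 (Finset.mem_univ _))

end Pool.MP_5a0708_an.Nil
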