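import Pool.Agent.Lib.MP_5a0708_an.Nil.SpecB

/-!
# MP_5a0708_an, package Nil : LSW
-/

set_option autoImplicit false

namespace Pool.MP_5a0708_an.Nil

namespace LSW

/-- the hypotheses -/
structure HP (L M : ℕ) (p e : Pt) : Prop where
  hL : 1 ≤ L
  hM : 1 ≤ M
  nz : NZ L p
  p0 : p 0 = true
  e0 : e 0 = true
  eM : ∀ i : ℤ, M ≤ i → e i = p i
  eneg : ∀ i : ℤ, i < 0 → e i = false
  enz : ∀ i : ℤ, 0 ≤ i → ¬ ZOn e i (i + L)

section
variable {L M M' : ℕ} {p e : Pt}

/-- a site reads `p` or `e` on the whole interval -/
theorem site_read (H : HP L M p e) {x : Pt} {c : ℤ} (h : SLE L M M' p e x c) :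
    (∀ k : ℤ, 0 ≤ k → k < M + M' → x (c + k) = p k) ∨
    (∀ k : ℤ, 0 ≤ k → k < M + M' → x (c + k) = e k) := by
  rcases h.2.1 with h1 | h1
  · left
    intro k h2 h3
    rcases lt_or_ge k M with h4 | h4
    · exact h1 k h2 h4
    · exact h.2.2 k h4 h3
  · right
    intro k h2 h3
    rcases lt_or_ge k M with h4 | h4
    · exact h1 k h2 h4
    · rw [H.eM k h4]
      exact h.2.2 k h4 h3

theorem site_one (H : HP L M p e) {x : Pt} {c : ℤ} (h : SLE L M M' p e x c) : x c = true := by
  have hM := H.hM
  rcases site_read H h with h1 | h1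
  · have := h1 0 (le_refl _) (by omega)
    rw [add_zero] at this
    rw [this, H.p0]
  · have := h1 0 (le_refl _) (by omega)
    rw [add_zero] at this
    rw [this, H.e0]

theorem site_noz (H : HP L M p e) {x : Pt} {c i : ℤ} (h : SLE L M M' p e x c) (h1 : c ≤ i)
    (h2 : i + L ≤ c + M + M') : ¬ ZOn x i (i + L) := by
  intro hz
  rcases site_read H h with h3 | h3
  · apply H.nz (i - c)
    intro k h4 h5
    rw [← h3 k (by omega) (by omega)]
    exact hz _ (by omega) (by omega)
  · apply H.enz (i - c) (by omega)
    intro k h4 h5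
    rw [← h3 k (by omega) (by omega)]
    exact hz _ (by omega) (by omega)

/-- blocks near a site -/
theorem site_block (H : HP L M p e) {x : Pt} {c i : ℤ} (h : SLE L M M' p e x c)
    (hz : ZOn x i (i + L)) (h1 : c - L < i) : c + M + M' < i + L := by
  by_contra hc
  rcases le_or_gt i c with h2 | h2
  · have := hz c h2 (by omega)
    rw [site_one H h] at this
    cases this
  · exact site_noz H h h2.le (by omega) hz

theorem site_disj (H : HP L M p e) {x : Pt} {c c' : ℤ} (h : SLE L M M' p e x c)
    (h' : SLE L M M' p e x c') (hcc : c < c') : c + M + M' < c' := by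
  have hL := H.hL
  have hz : ZOn x (c' - L) (c' - L + L) := by rw [sub_add_cancel]; exact h'.1
  have h1 : c - L < c' - L := by omega
  have := site_block H h hz h1
  omega

theorem site_dep {x y : Pt} {c : ℤ} (hxy : Agr x y (c - L) (c + (M + M' : ℕ)))
    (h : SLE L M M' p e x c) : SLE L M M' p e y c := by
  refine ⟨?_, ?_, ?_⟩
  · intro i h1 h2
    rw [← hxy i h1 (by push_cast; omega)]
    exact h.1 i h1 h2
  · rcases h.2.1 with h1 | h1
    · left
      intro k h2 h3
      rw [← hxy (c + k) (by omega) (by push_cast; omega)]
      exact h1 k h2 h3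
    · right
      intro k h2 h3
      rw [← hxy (c + k) (by omega) (by push_cast; omega)]
      exact h1 k h2 h3
  · intro k h2 h3
    rw [← hxy (c + k) (by omega) (by push_cast; omega)]
    exact h.2.2 k h2 h3

theorem site_tr {x : Pt} {c k : ℤ} (h : SLE L M M' p e (tr k x) c) :
    SLE L M M' p e x (c + k) := by
  refine ⟨?_, ?_, ?_⟩
  · have h1 := h.1
    rw [zon_tr] at h1
    have e1 : c - (L : ℤ) + k = c + k - L := by ring
    rwa [e1] at h1
  · rcases h.2.1 with h1 | h1
    · left
      intro j h2 h3
      have := h1 j h2 h3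
      rw [tr_apply] at this
      rw [← this]
      congr 1
      ring
    · right
      intro j h2 h3
      have := h1 j h2 h3
      rw [tr_apply] at this
      rw [← this]
      congr 1
      ring
  · intro j h2 h3
    have := h.2.2 j h2 h3
    rw [tr_apply] at this
    rw [← this]
    congr 1
    ring

theorem site_cov (x : Pt) (c k : ℤ) :
    SLE L M M' p e (tr k x) c ↔ SLE L M M' p e x (c + k) := by
  constructor
  · exact site_tr
  · intro h
    have h1 : SLE L M M' p e (tr (-k) (tr k x)) (c + k) := by
      rw [tr_tr, neg_add_cancel, tr_zero]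
      exact h
    have h2 := site_tr h1
    rwa [add_neg_cancel_right] at h2

theorem swapData (H : HP L M p e) (hLM : L ≤ M') :
    SwapData M (M + M' + L) (fun k : ℕ => p k) (fun k : ℕ => e k) (SLE L M M' p e) := by
  refine ⟨?_, ?_, ?_, ?_, ?_⟩
  · intro x y c hxy h
    refine site_dep ?_ h
    intro i h1 h2
    push_cast at h2
    exact hxy i (by push_cast; omega) (by push_cast; omega)
  · intro x c k
    exact site_cov x c k
  · intro x c h
    rcases h.2.1 with h1 | h1
    · left
      intro k hk
      exact h1 k (by omega) (by omega)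
    · right
      intro k hk
      exact h1 k (by omega) (by omega)
  · intro x c c' h h' hcc
    have := site_disj H h h' hcc
    omega
  · intro x y hr hne c h
    have hout : ∀ i : ℤ, c - L ≤ i → i < c + M + M' → ¬ (c ≤ i ∧ i < c + M) → x i = y i := by
      intro i h1 h2 h3
      by_contra hc
      obtain ⟨c1, hc1, h4, h5⟩ := hne i hc
      rcases lt_trichotomy c1 c with h6 | h6 | h6
      · have := site_disj H hc1 h h6
        omega
      · subst h6
        exact h3 ⟨h4, h5⟩
      · have := site_disj H h hc1 h6
        omega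
    refine ⟨?_, ?_, ?_⟩
    · intro i h1 h2
      rw [← hout i h1 (by omega) (by omega)]
      exact h.1 i h1 h2
    · rcases hr c h with h1 | h1
      · left
        intro k h2 h3
        have h9 : y (c + ((k.toNat : ℕ) : ℤ)) = p ((k.toNat : ℕ) : ℤ) := h1 k.toNat (by omega)
        have e1 : ((k.toNat : ℕ) : ℤ) = k := by omega
        rw [e1] at h9
        exact h9
      · right
        intro k h2 h3
        have h9 : y (c + ((k.toNat : ℕ) : ℤ)) = e ((k.toNat : ℕ) : ℤ) := h1 k.toNat (by omega)
        have e1 : ((k.toNat : ℕ) : ℤ) = k := by omega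
        rw [e1] at h9
        exact h9
    · intro k h1 h2
      rw [← hout (c + k) (by omega) (by omega) (by omega)]
      exact h.2.2 k h1 h2

end

end LSW

open LSW in
theorem tLSW (h1 : SSCA) (h2 : SFW) : SLSW := by
  intro L N M n p e hL hM hn hnN hper hnz hp0 he0 heM heneg henz
  have H : HP L M p e := ⟨hL, hM, hnz, hp0, he0, heM, heneg, henz⟩
  obtain ⟨ι, hι, hca, hS, hAB, hBA, hch⟩ := h1 L M (M + (2 * N + L) + L) L (M + (2 * N + L))
    (fun k : ℕ => p k) (fun k : ℕ => e k) (SLE L M (2 * N + L) p e) hL (by omega) hp0 he0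
    (le_refl _) (by omega) (swapData H (by omega))
    (fun x y c hxy h => site_dep hxy h)
    (fun x c i h hz hi => by
      have := site_block H h hz hi
      push_cast at this ⊢
      omega)
  have hfix : ∀ x : Pt, (∀ c : ℤ, ¬ SLE L M (2 * N + L) p e x c) → ι x = x := by
    intro x hx
    funext i
    by_contra hc
    obtain ⟨c, hc1, -, -⟩ := hch x i hc
    exact hx c hc1
  refine ⟨ι, hι, hca, ?_, ?_, ?_, ?_⟩
  · -- `ι e`
    have hS0 : SLE L M (2 * N + L) p e e 0 := by
      refine ⟨?_, ?_, ?_⟩
      · intro i h3 h4
        exact heneg i h4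
      · right
        intro k _ _
        rw [zero_add]
      · intro k h3 _
        rw [zero_add]
        exact heM k h3
    have honly : ∀ c : ℤ, SLE L M (2 * N + L) p e e c → c = 0 := by
      intro c hc
      have h3 := site_one H hc
      have h4 : 0 ≤ c := by
        by_contra h5
        rw [heneg c (by omega)] at h3
        cases h3
      by_contra h5
      have hz := hc.1
      rcases le_or_gt 0 (c - L) with h6 | h6
      · exact henz (c - L) h6 (by rw [sub_add_cancel]; exact hz)
      · have := hz 0 h6.le (by omega)
        rw [he0] at this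
        cases this
    have hR : Reads e 0 M (fun k : ℕ => e k) := by
      intro k _
      rw [zero_add]
    have hR2 := hBA e 0 hS0 hR
    funext i
    rcases lt_or_ge i 0 with h3 | h3
    · rw [glue_lt h3]
      by_contra hc
      have h4 : ι e i ≠ e i := by
        rw [heneg i h3]
        exact hc
      obtain ⟨c, hc1, hc2, -⟩ := hch e i h4
      have := honly c hc1
      omega
    · rw [glue_ge h3]
      rcases lt_or_ge i M with h4 | h4
      · have h5 : ι e (0 + ((i.toNat : ℕ) : ℤ)) = p ((i.toNat : ℕ) : ℤ) :=
          hR2 i.toNat (by omega)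
        have e1 : ((i.toNat : ℕ) : ℤ) = i := by omega
        rw [zero_add, e1] at h5
        exact h5
      · by_contra hc
        have h5 : ι e i ≠ e i := by
          rw [heM i h4]
          exact hc
        obtain ⟨c, hc1, -, hc3⟩ := hch e i h5
        have := honly c hc1
        omega
  · intro m x hm hmN hx
    apply hfix
    intro c hc
    have h3 : tr c x = p := by
      apply h2 m n (tr c x) p M hm hn (hx.tr c) hper
      intro i h4 h5
      rw [tr_apply, add_comm]
      exact hc.2.2 i h4 (by push_cast; omega)
    apply hnz (-(L : ℤ))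
    rw [← h3, zon_tr]
    have h4 := hc.1
    have e1 : -(L : ℤ) + c = c - L := by ring
    have e2 : -(L : ℤ) + L + c = c := by ring
    rw [e1, e2]
    exact h4
  · intro m q hm hmN hq hqz hq0 hqp
    apply hfix
    intro c hc
    have h3 := site_one H hc
    have h4 : 0 ≤ c := by
      by_contra h5
      rw [glue_lt (by omega)] at h3
      exact absurd h3 (by simp [zpt])
    rcases eq_or_lt_of_le h4 with h5 | h5
    · subst h5
      apply hqp
      apply h2 m n q p M hm hn hq hper
      intro i h6 h7
      have h8 := hc.2.2 i h6 (by push_cast; omega)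
      rw [zero_add, glue_ge (by omega)] at h8
      exact h8
    · have hz := hc.1
      rcases le_or_gt 0 (c - L) with h6 | h6
      · apply hqz (c - L)
        rw [sub_add_cancel]
        intro i h7 h8
        have := hz i h7 h8
        rwa [glue_ge (by omega)] at this
      · have := hz 0 h6.le h5
        rw [glue_ge (le_refl _), hq0] at this
        cases this
  · intro q k hqz
    apply hfix
    intro c hc
    have h3 := site_one H hc
    have h4 : c < k := by
      by_contra h5
      rw [glue_ge (by omega)] at h3
      exact absurd h3 (by simp [zpt])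
    apply hqz (c - L)
    rw [sub_add_cancel]
    intro i h7 h8
    have := hc.1 i h7 h8
    rwa [glue_lt (by omega)] at this

end Pool.MP_5a0708_an.Nil
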