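import Pool.Agent.Lib.MP_5a0708_an.Nil.SpecB

/-!
# MP_5a0708_an, package Nil : a primitive word has an unbordered conjugate
-/

set_option autoImplicit false

namespace Pool.MP_5a0708_an.Nil

namespace LYN

/-- the number with the binary digits `p k, ..., p (k+m-1)` -/
def val (p : Pt) (k : ℤ) : ℕ → ℕ
  | 0 => 0
  | m + 1 => 2 * val p k m + (if p (k + m) = true then 1 else 0)

theorem val_succ (p : Pt) (k : ℤ) (m : ℕ) :
    val p k (m + 1) = 2 * val p k m + (if p (k + m) = true then 1 else 0) := rfl

theorem val_lt (p : Pt) (k : ℤ) (m : ℕ) : val p k m < 2 ^ m := by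
  induction m with
  | zero => simp [val]
  | succ m ih =>
    have e : (2 : ℕ) ^ (m + 1) = 2 * 2 ^ m := by ring
    rw [e, val_succ]
    split_ifs <;> omega

theorem val_add (p : Pt) (k : ℤ) (a b : ℕ) :
    val p k (a + b) = val p k a * 2 ^ b + val p (k + a) b := by
  induction b with
  | zero => simp [val]
  | succ b ih =>
    have e1 : a + (b + 1) = (a + b) + 1 := by ring
    have e2 : k + ((a + b : ℕ) : ℤ) = k + a + b := by push_cast; ring
    rw [e1, val_succ, val_succ, ih, e2, pow_succ]
    ring

theorem val_congr (p p' : Pt) (k k' : ℤ) (m : ℕ)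
    (h : ∀ j : ℕ, j < m → p (k + j) = p' (k' + j)) : val p k m = val p' k' m := by
  induction m with
  | zero => rfl
  | succ m ih =>
    rw [val_succ, val_succ, ih (fun j hj => h j (by omega)), h m (by omega)]

theorem val_inj (p : Pt) (k k' : ℤ) (m : ℕ) (h : val p k m = val p k' m) :
    ∀ j : ℕ, j < m → p (k + j) = p (k' + j) := by
  induction m with
  | zero => intro j hj; omega
  | succ m ih =>
    rw [val_succ, val_succ] at h
    have h1 : val p k m = val p k' m ∧ (p (k + m) = p (k' + m)) := by
      by_cases ha : p (k + m) = true <;> by_cases hb : p (k' + m) = true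
      · rw [if_pos ha, if_pos hb] at h
        exact ⟨by omega, by rw [ha, hb]⟩
      · rw [if_pos ha, if_neg hb] at h
        omega
      · rw [if_neg ha, if_pos hb] at h
        omega
      · rw [if_neg ha, if_neg hb] at h
        refine ⟨by omega, ?_⟩
        have ha' : p (k + m) = false := by simpa using ha
        have hb' : p (k' + m) = false := by simpa using hb
        rw [ha', hb']
    intro j hj
    by_cases hjm : j = m
    · rw [hjm]; exact h1.2
    · exact ih h1.1 j (by omega)

end LYN

open LYN in
/-- **LYN**. -/
theorem tLYN : SLYN := by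
  classical
  intro n p hp hone
  obtain ⟨hn, hper, hmin⟩ := hp
  -- a maximal value
  have hex : ∃ m : ℕ, ∃ k : ℤ, 2 ^ n - val p k n = m := ⟨_, 0, rfl⟩
  obtain ⟨k, hk⟩ := Nat.find_spec hex
  have hmax : ∀ k' : ℤ, val p k' n ≤ val p k n := by
    intro k'
    have h1 := Nat.find_min' hex ⟨k', rfl⟩
    have h2 := val_lt p k n
    have h3 := val_lt p k' n
    omega
  have hperv : ∀ (k' : ℤ) (m : ℕ), val p (k' + n) m = val p k' m := by
    intro k' m
    apply val_congr
    intro j _
    rw [show k' + (n : ℤ) + j = k' + j + n by ring]
    exact hper _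
  refine ⟨k, ?_, ?_⟩
  · by_contra hk0
    obtain ⟨i, hi⟩ := hone
    have e : n = 1 + (n - 1) := by omega
    have v1 : val p k n = val p (k + 1) (n - 1) := by
      rw [e, val_add]
      have : val p k 1 = 0 := by
        simp [val, hk0]
      rw [this]
      simp
    have v2 : 2 ^ (n - 1) ≤ val p i n := by
      rw [e, val_add]
      have : val p i 1 = 1 := by
        simp [val, hi]
      rw [this]
      have e3 : 1 + (n - 1) - 1 = n - 1 := by omega
      rw [e3]
      omega
    have v3 := val_lt p (k + 1) (n - 1)
    have v4 := hmax i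
    omega
  · intro d hd hdn
    by_contra hc
    push Not at hc
    -- `hc : ∀ j, j + d < n → (tr k p) j = (tr k p) (j + d)`
    obtain ⟨b, hb⟩ : ∃ b : ℕ, n = d + b := ⟨n - d, by omega⟩
    have w1 : val p k b = val p (k + d) b := by
      apply val_congr
      intro j hj
      have := hc j (by omega)
      rw [tr_apply, tr_apply] at this
      rw [show k + (j : ℤ) = j + k by ring, this]
      congr 1
      ring
    have a1 : val p (k + d) n = val p (k + d) b * 2 ^ d + val p k d := by
      have e : n = b + d := by omega
      rw [e, val_add, show k + (d : ℤ) + (b : ℤ) = k + ((d + b : ℕ) : ℤ) by push_cast; ring, ← hb,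
        hperv]
    have a2 : val p k n = val p k b * 2 ^ d + val p (k + b) d := by
      have e : n = b + d := by omega
      rw [e, val_add]
    have a3 : val p (k + b) n = val p (k + b) d * 2 ^ b + val p k b := by
      rw [hb, val_add, show k + (b : ℤ) + (d : ℤ) = k + ((d + b : ℕ) : ℤ) by push_cast; ring, ← hb,
        hperv]
    have a4 : val p k n = val p k d * 2 ^ b + val p (k + d) b := by
      rw [hb, val_add]
    have b1 : val p k d ≤ val p (k + b) d := by
      have := hmax (k + d)
      rw [a1, a2, ← w1] at this
      omega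
    have b2 : val p (k + b) d ≤ val p k d := by
      have h1 := hmax (k + b)
      rw [a3, a4, ← w1] at h1
      have h2 : val p (k + b) d * 2 ^ b ≤ val p k d * 2 ^ b := by omega
      exact Nat.le_of_mul_le_mul_right h2 (by positivity)
    have b3 : val p (k + d) n = val p k n := by
      rw [a1, a2, ← w1]
      omega
    have b4 := val_inj p (k + d) k n b3
    apply hmin d hd hdn
    intro i
    -- reduce `i` modulo `n`
    have hn' : (0 : ℤ) < n := by omega
    have hm0 := Int.emod_nonneg (i - k) (ne_of_gt hn')
    have hm1 := Int.emod_lt_of_pos (i - k) hn'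
    have hm2 := Int.emod_add_mul_ediv (i - k) n
    obtain ⟨j, hj⟩ := Int.eq_ofNat_of_zero_le hm0
    have h5 := b4 j (by omega)
    have e1 : i = k + j + (i - k) / n * n := by
      rw [hj] at hm2
      have : (n : ℤ) * ((i - k) / n) = (i - k) / n * n := by ring
      push_cast at hm2
      omega
    have e2 : i + d = k + d + j + (i - k) / n * n := by omega
    have e3 : p i = p (k + j + (i - k) / n * n) := congrArg p e1
    rw [e2, e3, hper.int_mul, hper.int_mul]
    exact h5

end Pool.MP_5a0708_an.Nil
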