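import Pool.Agent.Lib.MP_5a0708_an.Nil.SpecB

/-!
# MP_5a0708_an, package Nil : a periodic point is moved to another one
-/

set_option autoImplicit false

namespace Pool.MP_5a0708_an.Nil

namespace MOV

theorem ct_mul {L N : ℕ} (hL : 1 ≤ L) {θ ψ : Equiv.Perm Pt} (h' : CA L ψ)
    (hc : CT L N θ) (hc' : CT L N ψ) : CT L N ⇑(θ * ψ) := by
  intro x c ℓ hℓ hx k hk
  rw [Equiv.Perm.mul_apply, hc (ψ x) c ℓ hℓ ((cellAt_zeq hL h').2 hx) k hk]
  exact hc' x c ℓ hℓ hx k hk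

theorem ct_inv {L N : ℕ} (hL : 1 ≤ L) {θ : Equiv.Perm Pt} (h : CA L θ)
    (hc : CT L N θ) : CT L N ⇑(θ⁻¹) := by
  intro x c ℓ hℓ hx k hk
  have h1 := hc (θ⁻¹ x) c ℓ hℓ ((cellAt_zeq hL h.inv).2 hx) k hk
  rw [ap_inv] at h1
  exact h1.symm

/-- the group of the maps with all required properties, except for the value at one point -/
def K (L N : ℕ) (hL : 1 ≤ L) (X : Set Pt) : Subgroup (Equiv.Perm Pt) where
  carrier := {θ | θ ∈ G ∧ CA L θ ∧ CT L N θ ∧ ∀ x ∈ X, θ x = x}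
  mul_mem' := by
    rintro a b ⟨a1, a2, a3, a4⟩ ⟨b1, b2, b3, b4⟩
    refine ⟨G.mul_mem a1 b1, a2.mul b2, ct_mul hL b2 a3 b3, ?_⟩
    intro x hx
    rw [Equiv.Perm.mul_apply, b4 x hx, a4 x hx]
  one_mem' := ⟨G.one_mem, CA.one L, fun _ _ _ _ _ _ _ => rfl, fun _ _ => rfl⟩
  inv_mem' := by
    rintro a ⟨a1, a2, a3, a4⟩
    refine ⟨G.inv_mem a1, a2.inv, ct_inv hL a2 a3, ?_⟩
    intro x hx
    have h := a4 x hx
    rw [← h, inv_ap, h]

theorem zpow_orb {τ : Equiv.Perm Pt} {p : Pt} (h : ∀ b : ℤ, τ (tr b p) = tr (b + 1) p) (b e : ℤ) :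
    (τ ^ b) (tr e p) = tr (b + e) p := by
  induction b using Int.induction_on generalizing e with
  | zero => rw [zpow_zero, zero_add]; rfl
  | succ b ih =>
    rw [zpow_add_one, Equiv.Perm.mul_apply, h, ih]
    congr 1
    ring
  | pred b ih =>
    have h2 : τ⁻¹ (tr e p) = tr (e - 1) p := by
      have := h (e - 1)
      rw [sub_add_cancel] at this
      rw [← this, inv_ap]
    rw [zpow_sub_one, Equiv.Perm.mul_apply, h2, ih]
    congr 1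
    ring

theorem exists_one {L : ℕ} {p : Pt} (h : NZ L p) : ∃ i : ℤ, p i = true := by
  by_contra hc
  push Not at hc
  apply h 0
  intro i _ _
  simpa using hc i

end MOV

open MOV in
/-- **MOV**. -/
theorem tMOV (h1 : SPQS) (h2 : SLYN) (h3 : SRR) : SMOV := by
  intro L N n p q hL hn hp hq hzp hzq hrp hpq
  obtain ⟨r1, r2, r3, r4⟩ := h3
  have hr := r1 n (by omega)
  have hr0 := r2 n (by omega)
  have hr1 := r3 n hn
  have hzr := r4 n L (by omega) hL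
  have hL1 : 1 ≤ L := by omega
  obtain ⟨k, hk, hunb⟩ := h2 n p hp (exists_one hzp)
  have hp0 : tr k p 0 = true := by rw [tr_apply, zero_add]; exact hk
  have hzp' : NZ L (tr k p) := nz_tr hzp
  have horb : ∀ z : Pt, Orb (tr k p) z → Orb p z := fun z hz => (orb_tr p k).trans hz
  have ho1 : ¬ Orb (tr k p) (rr n) := fun h => hrp (horb _ h).symm
  have ho2 : ¬ Orb (tr k p) (tr 1 (rr n)) := fun h =>
    hrp ((orb_tr (rr n) 1).trans (horb _ h).symm)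
  have hPQ1 : PQ n (tr k p) (rr n) := ⟨hp.tr k, hr, hp0, hr0, hunb, ho1⟩
  have hPQ2 : PQ n (tr k p) (tr 1 (rr n)) :=
    ⟨hp.tr k, hr.tr 1, hp0, by rw [tr_apply, zero_add]; exact hr1, hunb, ho2⟩
  obtain ⟨ι1, i1a, i1b, i1c, i1d, i1e, i1f⟩ := h1 L N n (tr k p) (rr n) hL1 hPQ1 hzp' hzr
  obtain ⟨ι2, i2a, i2b, i2c, i2d, i2e, i2f⟩ := h1 L N n (tr k p) (tr 1 (rr n)) hL1 hPQ2 hzp'
    (nz_tr hzr)
  -- the points which must be fixed
  set X : Set Pt := {x | ∃ m : ℕ, 0 < m ∧ m ≤ n ∧ Per m x ∧ ¬ Orb p x ∧ ¬ Orb q x ∧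
    ¬ Orb (rr n) x} with hX
  have m1 : ι1 ∈ K L N hL1 X := by
    refine ⟨isInv_mem_G i1a, i1b, i1c, ?_⟩
    rintro x ⟨m, x1, x2, x3, x4, -, x6⟩
    exact i1f x m x1 x2 x3 (fun h => x4 (horb _ h)) x6
  have m2 : ι2 ∈ K L N hL1 X := by
    refine ⟨isInv_mem_G i2a, i2b, i2c, ?_⟩
    rintro x ⟨m, x1, x2, x3, x4, -, x6⟩
    exact i2f x m x1 x2 x3 (fun h => x4 (horb _ h)) (fun h => x6 ((orb_tr (rr n) 1).trans h))
  have mτ : ι1 * ι2 ∈ K L N hL1 X := (K L N hL1 X).mul_mem m1 m2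
  have hτ : ∀ b : ℤ, (ι1 * ι2) (tr b p) = tr (b + 1) p := by
    intro b
    have e1 : tr b p = tr (b - k) (tr k p) := by rw [tr_tr, sub_add_cancel]
    rw [e1, Equiv.Perm.mul_apply, i2b.comm, i2d, i1b.comm, i1b.comm, i1e, tr_tr, tr_tr]
    congr 1
    ring
  have hz := zpow_orb hτ
  by_cases hoq : Orb p q
  · obtain ⟨b, rfl⟩ := hoq
    have hm := (K L N hL1 X).zpow_mem mτ (-b)
    refine ⟨(ι1 * ι2) ^ (-b), hm.1, hm.2.1, hm.2.2.1, ?_, ?_⟩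
    · rw [hz, neg_add_cancel, tr_zero]
    · intro x m x1 x2 x3 x4 x5 x6
      exact hm.2.2.2 x ⟨m, x1, x2, x3, x4, x5, x6⟩
  · obtain ⟨j, hj⟩ := exists_one hzq
    have hPQ3 : PQ n (tr k p) (tr j q) := ⟨hp.tr k, hq.tr j, hp0, by
      rw [tr_apply, zero_add]; exact hj, hunb, fun h => hoq ((horb _ h).trans (orb_tr q j).symm)⟩
    obtain ⟨ι3, i3a, i3b, i3c, i3d, i3e, i3f⟩ := h1 L N n (tr k p) (tr j q) hL1 hPQ3 hzp'
      (nz_tr hzq)
    have m3 : ι3 ∈ K L N hL1 X := by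
      refine ⟨isInv_mem_G i3a, i3b, i3c, ?_⟩
      rintro x ⟨m, x1, x2, x3, x4, x5, -⟩
      exact i3f x m x1 x2 x3 (fun h => x4 (horb _ h)) (fun h => x5 ((orb_tr q j).trans h))
    have hm := (K L N hL1 X).mul_mem ((K L N hL1 X).zpow_mem mτ (j - k)) m3
    refine ⟨(ι1 * ι2) ^ (j - k) * ι3, hm.1, hm.2.1, hm.2.2.1, ?_, ?_⟩
    · have e1 : q = tr (-j) (tr j q) := by rw [tr_tr, neg_add_cancel, tr_zero]
      have e2 : ι3 q = tr (-j + k) p := by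
        rw [e1, i3b.comm, i3e, tr_tr]
      rw [Equiv.Perm.mul_apply, e2, hz]
      rw [show j - k + (-j + k) = 0 by ring, tr_zero]
    · intro x m x1 x2 x3 x4 x5 x6
      exact hm.2.2.2 x ⟨m, x1, x2, x3, x4, x5, x6⟩

end Pool.MP_5a0708_an.Nil
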