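import Pool.Agent.Lib.MP_5a0708_an.Nil.SpecA

/-!
# MP_5a0708_an, package Nil : module MidA

Facts on the middle parts of the clusters.
-/

set_option autoImplicit false

namespace Pool.MP_5a0708_an.Nil

theorem MidA_wide {L R : ℕ} {x : Pt} {k l : ℤ} (hL : L ≤ R) (hk : Gp L R x k) (hl : Gp L R x l)
    (h : NoZ L x k (l + 1)) : NoZ L x (k - R) (l + 1 + R) := by
  have h1 : NoZ L x (k - R) (l + 1) := NoZ.merge hk.2 h (by omega)
  exact NoZ.merge h1 hl.2 (by omega)

theorem MidA_gp_mir {L R : ℕ} {x : Pt} {k : ℤ} : Gp L R (mirE x) k ↔ Gp L R x (-k) := by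
  unfold Gp
  rw [mirE_apply, noz_mir]
  have h1 : 1 - (k + 1 + (R : ℤ)) = -k - R := by ring
  have h2 : 1 - (k - (R : ℤ)) = -k + 1 + R := by ring
  rw [h1, h2]

theorem MidA_mir_aux {L R : ℕ} {x : Pt} {i : ℤ} (h : Mid L R (mirE x) i) : Mid L R x (-i) := by
  obtain ⟨k, l, hk, hl, h1, h2, h3, h4⟩ := h
  refine ⟨-l, -k, MidA_gp_mir.1 hl, MidA_gp_mir.1 hk, by omega, by omega, by omega, ?_⟩
  rw [noz_mir] at h4
  have e1 : 1 - (l + 1) = -l := by ring
  have e2 : 1 - k = -k + 1 := by ring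
  rw [e1, e2] at h4
  exact h4

theorem MidA_mir {L R : ℕ} {x : Pt} {i : ℤ} : Mid L R (mirE x) i ↔ Mid L R x (-i) := by
  constructor
  · exact MidA_mir_aux
  · intro h
    have h1 : Mid L R (mirE (mirE x)) (-i) := by rw [mirE_mirE]; exact h
    have h2 := MidA_mir_aux h1
    rwa [neg_neg] at h2

/-- part (2) -/
theorem MidA_two {L R : ℕ} {x : Pt} {i : ℤ} (_hL1 : 1 ≤ L) (hL : L ≤ R) (h : Mid L R x i)
    (h' : ¬ Mid L R x (i - 1)) : Gp L R x i ∧
    (∀ j : ℤ, i ≤ j → j ≤ i + R → Mid L R x j) ∧ ∀ j : ℤ, i - R ≤ j → j < i → ¬ Mid L R x j := by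
  obtain ⟨k, l, hk, hl, h1, h2, h3, h4⟩ := h
  have hki : k = i := by
    by_contra hc
    exact h' ⟨k, l, hk, hl, by omega, by omega, h3, h4⟩
  subst hki
  refine ⟨hk, ?_, ?_⟩
  · intro j h5 h6
    exact ⟨k, l, hk, hl, h5, by omega, h3, h4⟩
  · rintro j h5 h6 ⟨k', l', hk', hl', h7, h8, h9, h10⟩
    have hl1 : l' < k - 1 := by
      by_contra hc
      exact h' ⟨k', l', hk', hl', by omega, by omega, h9, h10⟩
    have w1 := MidA_wide hL hk' hl' h10
    have w2 := MidA_wide hL hk hl h4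
    have w3 : NoZ L x (k' - R) (l + 1 + R) := NoZ.merge w1 w2 (by omega)
    exact h' ⟨k', l, hk', hl, by omega, by omega, by omega, w3.mono (by omega) (by omega)⟩

theorem tMidA : SMidA := by
  intro L R hL1 hL
  refine ⟨?_, ?_, ?_, ?_, ?_, ?_⟩
  · rintro x i ⟨k, l, hk, hl, h1, h2, h3, h4⟩
    exact (MidA_wide hL hk hl h4).mono (by omega) (by omega)
  · intro x i h h'
    exact MidA_two hL1 hL h h'
  · intro x i h h'
    have a1 : Mid L R (mirE x) (-i) := by rw [MidA_mir, neg_neg]; exact h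
    have a2 : ¬ Mid L R (mirE x) (-i - 1) := by
      rw [MidA_mir]
      have e : -(-i - 1) = i + 1 := by ring
      rw [e]
      exact h'
    obtain ⟨b1, b2, b3⟩ := MidA_two hL1 hL a1 a2
    refine ⟨?_, ?_, ?_⟩
    · rw [MidA_gp_mir, neg_neg] at b1
      exact b1
    · intro j h1 h2
      have := b2 (-j) (by omega) (by omega)
      rwa [MidA_mir, neg_neg] at this
    · intro j h1 h2
      have := b3 (-j) (by omega) (by omega)
      rwa [MidA_mir, neg_neg] at this
  · rintro x y i hxy ⟨k, l, hk, hl, h1, h2, h3, h4⟩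
    have w := MidA_wide hL hk hl h4
    have ag : ∀ a b : ℤ, i - (4 * R + 4 * L : ℕ) ≤ a → b ≤ i + (4 * R + 4 * L : ℕ) + 1 →
        Agr x y a b := fun a b ha hb j hj1 hj2 => hxy j (by omega) (by omega)
    have hk1 : ∃ k1 : ℤ, k ≤ k1 ∧ k1 ≤ i ∧ i - k1 ≤ R + L ∧ x k1 = true ∧
        (k1 = k ∨ k1 < i - R) := by
      by_cases hc : i - k ≤ R + L
      · exact ⟨k, le_refl _, h1, hc, hk.1, Or.inl rfl⟩
      · obtain ⟨j, j1, j2, j3⟩ := w.one (i := i - R - L) (by omega) (by omega)
        exact ⟨j, by omega, by omega, by omega, j3, Or.inr (by omega)⟩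
    have hl1 : ∃ l1 : ℤ, i ≤ l1 ∧ l1 ≤ l ∧ l1 - i ≤ 2 * R + 2 * L ∧ x l1 = true ∧
        (l1 = l ∨ i + R ≤ l1) := by
      by_cases hc : l - i ≤ 2 * R + 2 * L
      · exact ⟨l, h2, le_refl _, hc, hl.1, Or.inl rfl⟩
      · obtain ⟨j, j1, j2, j3⟩ := w.one (i := i + R) (by omega) (by omega)
        exact ⟨j, by omega, by omega, by omega, j3, Or.inr (by omega)⟩
    obtain ⟨k1, c1, c2, c3, c4, c5⟩ := hk1
    obtain ⟨l1, d1, d2, d3, d4, d5⟩ := hl1
    refine ⟨k1, l1, ⟨?_, ?_⟩, ⟨?_, ?_⟩, c2, d1, ?_, ?_⟩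
    · rw [← hxy k1 (by push_cast; omega) (by push_cast; omega)]; exact c4
    · exact (w.mono (by omega) (by omega)).congr (ag _ _ (by push_cast; omega) (by push_cast; omega))
    · rw [← hxy l1 (by push_cast; omega) (by push_cast; omega)]; exact d4
    · exact (w.mono (by omega) (by omega)).congr (ag _ _ (by push_cast; omega) (by push_cast; omega))
    · omega
    · exact (w.mono (by omega) (by omega)).congr (ag _ _ (by push_cast; omega) (by push_cast; omega))
  · intro x i k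
    have key : ∀ (x : Pt) (i k : ℤ), Mid L R (tr k x) i → Mid L R x (i + k) := by
      rintro x i k ⟨a, b, ha, hb, h1, h2, h3, h4⟩
      have gp : ∀ c : ℤ, Gp L R (tr k x) c → Gp L R x (c + k) := by
        intro c hc
        refine ⟨?_, ?_⟩
        · have := hc.1
          rwa [tr_apply] at this
        · have := hc.2
          rw [noz_tr] at this
          have e1 : c - (R : ℤ) + k = c + k - R := by ring
          have e2 : c + 1 + (R : ℤ) + k = c + k + 1 + R := by ring
          rwa [e1, e2] at this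
      refine ⟨a + k, b + k, gp a ha, gp b hb, by omega, by omega, by omega, ?_⟩
      rw [noz_tr] at h4
      have e : b + 1 + k = b + k + 1 := by ring
      rwa [e] at h4
    refine ⟨key x i k, ?_⟩
    intro h
    have h1 : Mid L R (tr (-k) (tr k x)) (i + k) := by
      rw [tr_tr]
      have e' : -k + k = 0 := by ring
      rw [e', tr_zero]
      exact h
    have h2 := key _ _ _ h1
    have e : i + k + -k = i := by ring
    rwa [e] at h2
  · intro x i h
    obtain ⟨k, k1, k2, k3⟩ := h.one (i := i - L + 1) (by push_cast; omega) (by push_cast; omega)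
    obtain ⟨l, l1, l2, l3⟩ := h.one (i := i + R) (by push_cast; omega) (by push_cast; omega)
    refine ⟨k, l, ⟨k3, h.mono (by push_cast; omega) (by push_cast; omega)⟩,
      ⟨l3, h.mono (by push_cast; omega) (by push_cast; omega)⟩, by omega, by omega, by omega,
      h.mono (by push_cast; omega) (by push_cast; omega)⟩

end Pool.MP_5a0708_an.Nil
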