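import Pool.Agent.Lib.MP_5a0708_an.Nil.SpecA

/-!
# MP_5a0708_an, package Nil : module MidB

The cut-off has the same blocks and the same middle parts.
-/

set_option autoImplicit false

namespace Pool.MP_5a0708_an.Nil

theorem MidB_mid_pos {L R : ℕ} {x : Pt} {i : ℤ} (h : Mid L R x i) : mid L R x i = x i := by
  unfold mid
  rw [if_pos h]

theorem MidB_mid_neg {L R : ℕ} {x : Pt} {i : ℤ} (h : ¬ Mid L R x i) : mid L R x i = false := by
  unfold mid
  rw [if_neg h]

theorem MidB_cut_pos {L R : ℕ} {θ : Pt → Pt} {x : Pt} {i : ℤ} (h : Mid L R x i) :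
    cutF L R θ x i = θ (mid L R x) i := by
  unfold cutF
  rw [if_pos h]

theorem MidB_cut_neg {L R : ℕ} {θ : Pt → Pt} {x : Pt} {i : ℤ} (h : ¬ Mid L R x i) :
    cutF L R θ x i = x i := by
  unfold cutF
  rw [if_neg h]

theorem tMidB (h1 : SMidA) : SMidB := by
  intro L R θ hL1 hL hθ
  obtain ⟨A1, A2, A3, A4, A5, A6⟩ := h1 L R hL1 hL
  -- (1)
  have F1 : ∀ (x : Pt) (i : ℤ), ¬ Mid L R x i → θ (mid L R x) i = false := by
    intro x i hi
    have key : ∀ b : ℤ, b ≤ i → i < b + L → (∀ j : ℤ, b ≤ j → j < b + L → ¬ Mid L R x j) →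
        θ (mid L R x) i = false := by
      intro b hb1 hb2 hb3
      have z1 : ZOn (mid L R x) b (b + L) := fun j hj1 hj2 => MidB_mid_neg (hb3 j hj1 hj2)
      exact (hθ.zp _ _).2 z1 i hb1 hb2
    by_cases hc : ∃ j : ℤ, i - L < j ∧ j ≤ i ∧ Mid L R x j
    · obtain ⟨j0, hj0⟩ := hc
      obtain ⟨j, ⟨hj1, hj2, hj3⟩, hj4⟩ := Int.exists_greatest_of_bdd
        (P := fun j : ℤ => i - L < j ∧ j ≤ i ∧ Mid L R x j) ⟨i, fun z hz => hz.2.1⟩ ⟨j0, hj0⟩
      have hji : j ≠ i := by
        rintro rfl
        exact hi hj3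
      have hn : ¬ Mid L R x (j + 1) := by
        intro hm
        have := hj4 (j + 1) ⟨by omega, by omega, hm⟩
        omega
      obtain ⟨-, -, h5⟩ := A3 x j hj3 hn
      exact key (j + 1) (by omega) (by omega) (fun m hm1 hm2 => h5 m (by omega) (by omega))
    · push Not at hc
      exact key (i - L + 1) (by omega) (by omega) (fun m hm1 hm2 => by
        by_cases hm3 : m ≤ i
        · exact hc m (by omega) hm3
        · omega)
  -- (2)
  have F2 : ∀ (x : Pt) (i : ℤ), Mid L R x i → ¬ Mid L R x (i - 1) →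
      θ (mid L R x) i = true := by
    intro x i hi hi'
    obtain ⟨g, -, h5⟩ := A2 x i hi hi'
    have le : LEnd L (mid L R x) i := by
      refine ⟨fun j hj1 hj2 => MidB_mid_neg (h5 j (by omega) hj2), ?_⟩
      rw [MidB_mid_pos hi]
      exact g.1
    exact (le.zeq hL1 (hθ.zeq _).symm).2
  -- (3)
  have F3 : ∀ (x : Pt) (i : ℤ), Mid L R x i → ¬ Mid L R x (i + 1) →
      θ (mid L R x) i = true := by
    intro x i hi hi'
    obtain ⟨g, -, h5⟩ := A3 x i hi hi'
    have re : REnd L (mid L R x) (i + 1) := by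
      refine ⟨fun j hj1 hj2 => MidB_mid_neg (h5 j (by omega) (by omega)), ?_⟩
      rw [add_sub_cancel_right, MidB_mid_pos hi]
      exact g.1
    have := (re.zeq hL1 (hθ.zeq _).symm).2
    rwa [add_sub_cancel_right] at this
  -- (4)
  have F4 : ∀ x : Pt, ZEq L (cutF L R θ x) x := by
    intro x b
    constructor
    · intro hz
      have nb : ∀ j : ℤ, b ≤ j → j + 1 < b + L → (Mid L R x (j + 1) ↔ Mid L R x j) := by
        intro j hj1 hj2
        constructor
        · intro hm
          by_contra hc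
          have e1 := F2 x (j + 1) hm (by rw [add_sub_cancel_right]; exact hc)
          have e2 := hz (j + 1) (by omega) hj2
          rw [MidB_cut_pos hm, e1] at e2
          cases e2
        · intro hm
          by_contra hc
          have e1 := F3 x j hm hc
          have e2 := hz j hj1 (by omega)
          rw [MidB_cut_pos hm, e1] at e2
          cases e2
      have all : ∀ n : ℕ, n < L → (Mid L R x (b + n) ↔ Mid L R x b) := by
        intro n
        induction n with
        | zero => intro _; simp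
        | succ n ih =>
          intro hn
          have e := nb (b + n) (by omega) (by omega)
          have e2 : b + ((n + 1 : ℕ) : ℤ) = b + n + 1 := by push_cast; ring
          rw [e2, e]
          exact ih (by omega)
      have all' : ∀ j : ℤ, b ≤ j → j < b + L → (Mid L R x j ↔ Mid L R x b) := by
        intro j hj1 hj2
        have e := all (j - b).toNat (by omega)
        have e2 : b + (((j - b).toNat : ℕ) : ℤ) = j := by omega
        rwa [e2] at e
      by_cases hb : Mid L R x b
      · have z1 : ZOn (θ (mid L R x)) b (b + L) := by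
          intro j hj1 hj2
          rw [← MidB_cut_pos (θ := θ) ((all' j hj1 hj2).2 hb)]
          exact hz j hj1 hj2
        have z2 := (hθ.zp _ _).1 z1
        intro j hj1 hj2
        rw [← MidB_mid_pos ((all' j hj1 hj2).2 hb)]
        exact z2 j hj1 hj2
      · intro j hj1 hj2
        have hj : ¬ Mid L R x j := fun hm => hb ((all' j hj1 hj2).1 hm)
        rw [← MidB_cut_neg (θ := θ) hj]
        exact hz j hj1 hj2
    · intro hz j hj1 hj2
      by_cases hm : Mid L R x j
      · exfalso
        exact A1 x j hm b (by omega) (by omega) hz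
      · rw [MidB_cut_neg hm]
        exact hz j hj1 hj2
  -- (5)
  have F5a : ∀ (x : Pt) (i : ℤ), Mid L R x i → Mid L R (cutF L R θ x) i := by
    rintro x i ⟨k, l, hk, hl, g1, g2, g3, g4⟩
    have w : NoZ L x (k - R) (l + 1 + R) := by
      have e1 : NoZ L x (k - R) (l + 1) := NoZ.merge hk.2 g4 (by omega)
      exact NoZ.merge e1 hl.2 (by omega)
    have w' : NoZ L (cutF L R θ x) (k - R) (l + 1 + R) := w.zeq (F4 x).symm
    have mk : Mid L R x k := ⟨k, l, hk, hl, le_refl _, by omega, g3, g4⟩
    have ml : Mid L R x l := ⟨k, l, hk, hl, by omega, le_refl _, g3, g4⟩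
    have ek : ∃ k2 : ℤ, k - L < k2 ∧ k2 ≤ k ∧ Gp L R (cutF L R θ x) k2 := by
      obtain ⟨k1, c1, c2, c3⟩ := w'.one (i := k - L + 1) (by omega) (by omega)
      by_cases hm : Mid L R x k1
      · exact ⟨k1, by omega, by omega, c3, (A1 x k1 hm).zeq (F4 x).symm⟩
      · obtain ⟨k2, ⟨d1, d2⟩, d3⟩ := Int.exists_least_of_bdd
          (P := fun j : ℤ => k1 < j ∧ Mid L R x j) ⟨k1, fun z hz => by omega⟩
          ⟨k, ⟨by
            rcases lt_or_ge k1 k with h | h
            · exact h
            · exfalso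
              have : k1 = k := by omega
              rw [this] at hm
              exact hm mk, mk⟩⟩
        have d4 : k2 ≤ k := by
          apply d3 k
          refine ⟨?_, mk⟩
          rcases lt_or_ge k1 k with h | h
          · exact h
          · exfalso
            have : k1 = k := by omega
            rw [this] at hm
            exact hm mk
        have d5 : ¬ Mid L R x (k2 - 1) := by
          intro hm2
          rcases lt_or_ge k1 (k2 - 1) with h | h
          · have := d3 (k2 - 1) ⟨h, hm2⟩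
            omega
          · have : k2 - 1 = k1 := by omega
            rw [this] at hm2
            exact hm hm2
        obtain ⟨gg, -, -⟩ := A2 x k2 d2 d5
        refine ⟨k2, by omega, d4, ?_, gg.2.zeq (F4 x).symm⟩
        rw [MidB_cut_pos d2]
        exact F2 x k2 d2 d5
    have el : ∃ l2 : ℤ, l ≤ l2 ∧ l2 < l + L ∧ Gp L R (cutF L R θ x) l2 := by
      obtain ⟨l1, c1, c2, c3⟩ := w'.one (i := l) (by omega) (by omega)
      by_cases hm : Mid L R x l1
      · exact ⟨l1, by omega, by omega, c3, (A1 x l1 hm).zeq (F4 x).symm⟩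
      · have hll : l < l1 := by
          rcases lt_or_ge l l1 with h | h
          · exact h
          · exfalso
            have : l1 = l := by omega
            rw [this] at hm
            exact hm ml
        obtain ⟨l2, ⟨d1, d2⟩, d3⟩ := Int.exists_greatest_of_bdd
          (P := fun j : ℤ => j < l1 ∧ Mid L R x j) ⟨l1, fun z hz => by omega⟩
          ⟨l, ⟨hll, ml⟩⟩
        have d4 : l ≤ l2 := d3 l ⟨hll, ml⟩
        have d5 : ¬ Mid L R x (l2 + 1) := by
          intro hm2
          rcases lt_or_ge (l2 + 1) l1 with h | h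
          · have := d3 (l2 + 1) ⟨h, hm2⟩
            omega
          · have : l2 + 1 = l1 := by omega
            rw [this] at hm2
            exact hm hm2
        obtain ⟨gg, -, -⟩ := A3 x l2 d2 d5
        refine ⟨l2, d4, by omega, ?_, gg.2.zeq (F4 x).symm⟩
        rw [MidB_cut_pos d2]
        exact F3 x l2 d2 d5
    obtain ⟨k2, c1, c2, c3⟩ := ek
    obtain ⟨l2, d1, d2, d3⟩ := el
    exact ⟨k2, l2, c3, d3, by omega, by omega, by omega, w'.mono (by omega) (by omega)⟩
  have F5b : ∀ (x : Pt) (i : ℤ), Mid L R (cutF L R θ x) i → Mid L R x i := by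
    rintro x i ⟨k, l, hk, hl, g1, g2, g3, g4⟩
    have w' : NoZ L (cutF L R θ x) (k - R) (l + 1 + R) := by
      have e1 : NoZ L (cutF L R θ x) (k - R) (l + 1) := NoZ.merge hk.2 g4 (by omega)
      exact NoZ.merge e1 hl.2 (by omega)
    have w : NoZ L x (k - R) (l + 1 + R) := w'.zeq (F4 x)
    have ek : ∃ k2 : ℤ, k2 ≤ k ∧ Gp L R x k2 ∧ NoZ L x k2 (k + 1) := by
      by_cases hm : Mid L R x k
      · obtain ⟨k2, l', e1, e2, e3, e4, e5, e6⟩ := hm
        exact ⟨k2, e3, e1, e6.mono (le_refl _) (by omega)⟩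
      · refine ⟨k, le_refl _, ⟨?_, hk.2.zeq (F4 x)⟩, w.mono (by omega) (by omega)⟩
        rw [← MidB_cut_neg (θ := θ) hm]
        exact hk.1
    have el : ∃ l2 : ℤ, l ≤ l2 ∧ Gp L R x l2 ∧ NoZ L x l (l2 + 1) := by
      by_cases hm : Mid L R x l
      · obtain ⟨k', l2, e1, e2, e3, e4, e5, e6⟩ := hm
        exact ⟨l2, e4, e2, e6.mono (by omega) (le_refl _)⟩
      · refine ⟨l, le_refl _, ⟨?_, hl.2.zeq (F4 x)⟩, w.mono (by omega) (by omega)⟩
        rw [← MidB_cut_neg (θ := θ) hm]
        exact hl.1
    obtain ⟨k2, c1, c2, c3⟩ := ek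
    obtain ⟨l2, d1, d2, d3⟩ := el
    have w1 : NoZ L x k2 (l + 1 + R) := NoZ.merge c3 w (by omega)
    have w2 : NoZ L x k2 (l2 + 1) := NoZ.merge w1 d3 (by omega)
    exact ⟨k2, l2, c2, d2, by omega, by omega, by omega, w2⟩
  refine ⟨F1, F4, fun x i => ⟨F5b x i, F5a x i⟩, ?_⟩
  intro x
  funext i
  by_cases hm : Mid L R x i
  · rw [MidB_mid_pos (F5a x i hm), MidB_cut_pos hm]
  · rw [MidB_mid_neg (fun h => hm (F5b x i h)), F1 x i hm]

end Pool.MP_5a0708_an.Nil
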