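import Pool.Agent.Lib.MP_5a0708_an.Nil.SpecA

/-!
# MP_5a0708_an, package Nil : module NRM

`G` is normalised by the group `Au` of all automorphisms of the 2-shift.
-/

set_option autoImplicit false

namespace Pool.MP_5a0708_an.Nil

theorem tNRM : SNRM := by
  intro θ g hθ hg
  have key : ∀ g : Equiv.Perm Pt, g ∈ G → θ * g * θ⁻¹ ∈ G := by
    intro g hg
    unfold G at hg
    induction hg using Subgroup.closure_induction with
    | mem ι hι =>
      have hGι : ι ∈ G := Subgroup.subset_closure hι
      have hAu : θ * ι * θ⁻¹ ∈ Au := Au.mul_mem (Au.mul_mem hθ (G_le_Au hGι)) (Au.inv_mem hθ)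
      rcases hι with hι | hι
      · have hι' : ι = trE 1 := hι
        obtain ⟨r, hr⟩ := hθ
        have e : θ * ι * θ⁻¹ = ι := by
          rw [hι']
          ext1 x
          simp only [Equiv.Perm.mul_apply]
          change θ (tr 1 (θ⁻¹ x)) = tr 1 x
          rw [hr.comm, ap_inv]
        rw [e]
        exact hGι
      · obtain ⟨r, hr⟩ := hAu
        apply isInv_mem_G
        apply hr.isInv
        intro x
        have h2 : ∀ y : Pt, ι (ι y) = y := by
          intro y
          exact hι.2.1 y
        simp only [Equiv.Perm.mul_apply]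
        rw [inv_ap, h2, ap_inv]
    | one => simp
    | mul a b ha hb iha ihb =>
      have e : θ * (a * b) * θ⁻¹ = (θ * a * θ⁻¹) * (θ * b * θ⁻¹) := by group
      rw [e]
      exact G.mul_mem iha ihb
    | inv a ha iha =>
      have e : θ * a⁻¹ * θ⁻¹ = (θ * a * θ⁻¹)⁻¹ := by group
      rw [e]
      exact G.inv_mem iha
  exact key g hg

end Pool.MP_5a0708_an.Nil
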