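import Pool.Agent.Lib.MP_5a0708_an.Nil.SpecB

/-!
# MP_5a0708_an, package Nil : PC

Correction at all periods smaller than `N`.
-/

set_option autoImplicit false

namespace Pool.MP_5a0708_an.Nil

/-- products of maps that are trivial on short cells -/
theorem PC_ct_mul {L N : ℕ} (hL : 1 ≤ L) {ρ α : Equiv.Perm Pt} (hα : CA L α)
    (h1 : CT L N ρ) (h2 : CT L N α) : CT L N ⇑(ρ * α) := by
  intro x c ℓ hℓ hx k hk
  rw [Equiv.Perm.mul_apply]
  have h3 : CellAt L (α x) c ℓ := (cellAt_zeq hL hα).2 hx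
  rw [h1 (α x) c ℓ hℓ h3 k hk, h2 x c ℓ hℓ hx k hk]

theorem PC_ind (h1 : SPCN) {L N : ℕ} {α : Equiv.Perm Pt} (hL : 2 ≤ L) (hα : CA L α)
    {ρ0 : Equiv.Perm Pt} (h0 : ρ0 ∈ G) (hc : CA L ρ0) (ht : CT L N ⇑(ρ0 * α)) (n : ℕ) :
    n < N → ∃ ρ : Equiv.Perm Pt, ρ ∈ G ∧ CA L ρ ∧ CT L N ⇑(ρ * α) ∧
      ∀ (x : Pt) (m : ℕ), LP m x → m ≤ n → Orb (rr m) x ∨ ρ (α x) = x := by
  induction n with
  | zero =>
    intro _
    refine ⟨ρ0, h0, hc, ht, ?_⟩
    intro x m hm hm'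
    have := hm.1
    omega
  | succ n ih =>
    intro hn
    obtain ⟨ρ, hρ, hρc, hρt, hρx⟩ := ih (by omega)
    obtain ⟨σ, hσ, hσc, hσt, hσf, hσx⟩ :=
      h1 L N (n + 1) (ρ * α) hL (by omega) hn (hρc.mul hα) hρt
    refine ⟨σ * ρ, G.mul_mem hσ hρ, hσc.mul hρc, ?_, ?_⟩
    · rw [mul_assoc]
      exact PC_ct_mul (by omega) (hρc.mul hα) hσt hρt
    · intro x m hm hm'
      rcases Nat.lt_or_ge m (n + 1) with h | h
      · rcases hρx x m hm (by omega) with h3 | h3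
        · exact Or.inl h3
        · right
          rw [Equiv.Perm.mul_apply, h3]
          exact hσf x m hm.1 h hm.2.1
      · have e : m = n + 1 := by omega
        subst e
        by_cases h3 : Orb (rr (n + 1)) x
        · exact Or.inl h3
        · right
          exact hσx x hm h3

theorem tPC (h1 : SPCN) (h2 : SCELLT) : SPC := by
  intro L N α hL hα
  obtain ⟨ρ0, h0, hc, ht⟩ := h2 L N α (by omega) hα
  rcases Nat.eq_zero_or_pos N with hN | hN
  · refine ⟨ρ0, h0, hc, ?_⟩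
    intro x n _ hn
    omega
  · obtain ⟨ρ, hρ, hρc, _, hρx⟩ := PC_ind h1 hL hα h0 hc ht (N - 1) (by omega)
    exact ⟨ρ, hρ, hρc, fun x n hn hn' => hρx x n hn (by omega)⟩

end Pool.MP_5a0708_an.Nil
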