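import Pool.Agent.Lib.MP_5a0708_an.Nil.SpecB

/-!
# MP_5a0708_an, package Nil : correction at the points of least period `n`
-/

set_option autoImplicit false

namespace Pool.MP_5a0708_an.Nil

namespace PCN

theorem ct_mul {L N : ℕ} (hL : 1 ≤ L) {θ ψ : Equiv.Perm Pt} (h' : CA L ψ)
    (hc : CT L N θ) (hc' : CT L N ψ) : CT L N ⇑(θ * ψ) := by
  intro x c ℓ hℓ hx k hk
  rw [Equiv.Perm.mul_apply, hc (ψ x) c ℓ hℓ ((cellAt_zeq hL h').2 hx) k hk]
  exact hc' x c ℓ hℓ hx k hk

theorem ct_one (L N : ℕ) : CT L N ⇑(1 : Equiv.Perm Pt) := fun _ _ _ _ _ _ _ => rfl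

/-- a periodic point is determined by one period -/
theorem per_ext {n : ℕ} {x y : Pt} (hn : 0 < n) (hx : Per n x) (hy : Per n y)
    (h : ∀ k : ℤ, 0 ≤ k → k < n → x k = y k) : x = y := by
  funext i
  have hn' : (0 : ℤ) < n := by omega
  have hm0 := Int.emod_nonneg i (ne_of_gt hn')
  have hm1 := Int.emod_lt_of_pos i hn'
  have hm2 := Int.emod_add_mul_ediv i n
  have e : i = i % n + i / n * n := by
    have : (n : ℤ) * (i / n) = i / n * n := by ring
    omega
  have ex : x i = x (i % n) := by
    have := hx.int_mul (i / n) (i % n)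
    rw [← e] at this
    exact this
  have ey : y i = y (i % n) := by
    have := hy.int_mul (i / n) (i % n)
    rw [← e] at this
    exact this
  rw [ex, ey]
  exact h _ hm0 hm1

/-- points of small period with blocks are fixed -/
theorem fix_block {L N n : ℕ} (hL : 1 ≤ L) (hn : 0 < n) (hnN : n < N) {α : Equiv.Perm Pt}
    (h : CA L α) (hc : CT L N α) {x : Pt} (hx : Per n x) (hz : ¬ NZ L x) : α x = x := by
  unfold NZ at hz
  push Not at hz
  obtain ⟨e0, he0⟩ := hz
  have htr : ∀ j : ℤ, ZOn x (e0 + j * n) (e0 + j * n + L) := by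
    intro j i h1 h2
    have h3 := he0 (i - j * n) (by linarith) (by linarith)
    have h4 := hx.int_mul j (i - j * n)
    rw [sub_add_cancel] at h4
    rw [h4]
    exact h3
  funext i
  by_cases hin : ∃ e : ℤ, ZOn x e (e + L) ∧ e ≤ i ∧ i < e + L
  · obtain ⟨e, he, h1, h2⟩ := hin
    rw [he i h1 h2]
    exact (h.zp x e).2 he i h1 h2
  · push Not at hin
    have hout : ∀ e : ℤ, ZOn x e (e + L) → e + L ≤ i ∨ i < e := by
      intro e he
      by_cases h1 : e ≤ i
      · left; exact hin e he h1
      · right; omega
    have hn' : (0 : ℤ) < n := by omega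
    -- the last translate that ends at or before `i`
    set a : ℤ := i - e0 - L with ha
    have hm0 := Int.emod_nonneg a (ne_of_gt hn')
    have hm1 := Int.emod_lt_of_pos a hn'
    have hm2 := Int.emod_add_mul_ediv a n
    have hm3 : (n : ℤ) * (a / n) = a / n * n := by ring
    rw [hm3] at hm2
    have hb1 : e0 + a / n * n + L ≤ i := by omega
    have hb2 : i < e0 + (a / n + 1) * n := by
      rcases hout _ (htr (a / n + 1)) with h1 | h1
      · exfalso
        have h2 : (a / n + 1) * (n : ℤ) = a / n * n + n := by ring
        rw [h2] at h1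
        omega
      · exact h1
    obtain ⟨s, s1, s2, s3, s4⟩ := exists_lend hL (htr (a / n)) hb1 hout
    obtain ⟨t, t1, t2, t3, t4⟩ := exists_rend hL (htr (a / n + 1)) hb2 hout
    have hnz : NoZ L x s t := (s4.merge t4 (by omega)).mono (by omega) (by omega)
    obtain ⟨ℓ, hℓ⟩ := Int.eq_ofNat_of_zero_le (show 0 ≤ t - s by omega)
    have h2 : (a / n + 1) * (n : ℤ) = a / n * n + n := by ring
    rw [h2] at t1
    have hcell : CellAt L x s ℓ := by
      refine ⟨s3.1, ?_, ?_, ?_, ?_, ?_⟩
      · rw [show s + (ℓ : ℤ) = t by omega]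
        exact t3.1
      · omega
      · show x (s + ((0 : ℕ) : ℤ)) = true
        rw [Nat.cast_zero, add_zero]
        exact s3.2
      · show x (s + ((ℓ - 1 : ℕ) : ℤ)) = true
        rw [show s + ((ℓ - 1 : ℕ) : ℤ) = t - 1 by omega]
        exact t3.2
      · intro j hj
        obtain ⟨m, hm1, hm2, hm3⟩ := hnz.one (i := s + j) (by omega) (by omega)
        refine ⟨(m - s).toNat, by omega, by omega, ?_⟩
        show x (s + (((m - s).toNat : ℕ) : ℤ)) = true
        rw [show s + (((m - s).toNat : ℕ) : ℤ) = m by omega]
        exact hm3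
    have := hc x s ℓ (by omega) hcell (i - s).toNat (by omega)
    rw [show s + (((i - s).toNat : ℕ) : ℤ) = i by omega] at this
    exact this

theorem finite_per {n : ℕ} (hn : 0 < n) : {x : Pt | Per n x}.Finite := by
  have hn' : (0 : ℤ) < n := by omega
  refine Set.Finite.subset (Set.finite_range
    (fun (f : Fin n → Bool) (i : ℤ) => f ⟨(i % n).toNat, by
      have h1 := Int.emod_nonneg i (ne_of_gt hn')
      have h2 := Int.emod_lt_of_pos i hn'
      omega⟩)) ?_
  intro x hx
  refine ⟨fun k => x ((k : ℕ) : ℤ), ?_⟩
  funext i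
  have hm0 := Int.emod_nonneg i (ne_of_gt hn')
  have hm2 := Int.emod_add_mul_ediv i n
  have e : i = i % n + i / n * n := by
    have : (n : ℤ) * (i / n) = i / n * n := by ring
    omega
  have ex : x i = x (i % n) := by
    have := Per.int_mul (n := n) hx (i / n) (i % n)
    rw [← e] at this
    exact this
  show x ((((i % n).toNat : ℕ)) : ℤ) = x i
  rw [ex, show (((i % n).toNat : ℕ) : ℤ) = i % n by omega]

/-- the bad points -/
def Bad (L n : ℕ) (α : Equiv.Perm Pt) : Set Pt :=
  {x | LP n x ∧ NZ L x ∧ ¬ Orb (rr n) x ∧ α x ≠ x}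

theorem main (h1 : SMOV) {L N n : ℕ} (hL : 2 ≤ L) (hn : 3 ≤ n) (hnN : n < N) :
    ∀ (c : ℕ) (α : Equiv.Perm Pt), (Bad L n α).ncard ≤ c → CA L α → CT L N α →
      ∃ ρ : Equiv.Perm Pt, ρ ∈ G ∧ CA L ρ ∧ CT L N ρ ∧
        (∀ (x : Pt) (m : ℕ), 0 < m → m < n → Per m x → ρ x = x) ∧
        ∀ x : Pt, LP n x → ¬ Orb (rr n) x → ρ (α x) = x := by
  have hfin : ∀ α : Equiv.Perm Pt, (Bad L n α).Finite := fun α =>
    (finite_per (n := n) (by omega)).subset (fun x hx => hx.1.2.1)
  have hzero : ∀ α : Equiv.Perm Pt, Bad L n α = ∅ → CA L α → CT L N α →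
      ∃ ρ : Equiv.Perm Pt, ρ ∈ G ∧ CA L ρ ∧ CT L N ρ ∧
        (∀ (x : Pt) (m : ℕ), 0 < m → m < n → Per m x → ρ x = x) ∧
        ∀ x : Pt, LP n x → ¬ Orb (rr n) x → ρ (α x) = x := by
    intro α hα h hc
    refine ⟨1, G.one_mem, CA.one L, ct_one L N, fun _ _ _ _ _ => rfl, ?_⟩
    intro x hx hxr
    show α x = x
    by_cases hz : NZ L x
    · by_contra hne
      have : x ∈ Bad L n α := ⟨hx, hz, hxr, hne⟩
      rw [hα] at this
      exact this
    · exact fix_block (by omega) (by omega) hnN h hc hx.2.1 hz
  intro c
  induction c with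
  | zero =>
    intro α hα h hc
    exact hzero α ((Set.ncard_eq_zero (hfin α)).1 (by omega)) h hc
  | succ c ih =>
    intro α hα h hc
    by_cases hemp : Bad L n α = ∅
    · exact hzero α hemp h hc
    · obtain ⟨p, hp⟩ := Set.nonempty_iff_ne_empty.2 hemp
      obtain ⟨hp1, hp2, hp3, hp4⟩ := hp
      have hq1 : LP n (α p) := hp1.image h.mem
      have hq2 : NZ L (α p) := hp2.zeq (h.zeq p).symm
      obtain ⟨ρ1, g1, g2, g3, g4, g5⟩ := h1 L N n p (α p) hL hn hp1 hq1 hp2 hq2 hp3
        (fun e => hp4 e.symm)
      have hsub : Bad L n (ρ1 * α) ⊂ Bad L n α := by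
        rw [Set.ssubset_iff_of_subset]
        · refine ⟨p, ⟨hp1, hp2, hp3, hp4⟩, ?_⟩
          rintro ⟨-, -, -, hne⟩
          exact hne g4
        · rintro x ⟨x1, x2, x3, x4⟩
          refine ⟨x1, x2, x3, ?_⟩
          intro hx
          apply x4
          rw [Equiv.Perm.mul_apply, hx]
          apply g5 x n (by omega) le_rfl x1.2.1 _ _ x3
          · rintro ⟨k, rfl⟩
            apply hp4
            rw [h.comm] at hx
            have := congrArg (tr (-k)) hx
            rwa [tr_tr, tr_tr, neg_add_cancel, tr_zero, tr_zero] at this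
          · rintro ⟨k, rfl⟩
            apply hp4
            rw [h.comm] at hx
            have := congrArg (tr (-k)) hx
            rw [tr_tr, tr_tr, neg_add_cancel, tr_zero, tr_zero] at this
            exact α.injective this
      have hlt := Set.ncard_lt_ncard hsub (hfin α)
      obtain ⟨ρ2, k1, k2, k3, k4, k5⟩ := ih (ρ1 * α) (by omega) (g2.mul h)
        (ct_mul (by omega) h g3 hc)
      refine ⟨ρ2 * ρ1, G.mul_mem k1 g1, k2.mul g2, ct_mul (by omega) g2 k3 g3, ?_, ?_⟩
      · intro x m m1 m2 m3
        have hno : ∀ z : Pt, LP n z → ¬ Orb z x := by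
          rintro z hz ⟨k, rfl⟩
          exact (hz.tr k).2.2 m m1 m2 m3
        have hrr : ¬ Orb (rr n) x := by
          intro ho
          by_cases hle : NZ L x
          · -- `rr n` has least period `n` as well; use the period of `x`
            obtain ⟨k, rfl⟩ := ho
            have h6 : Per m (rr n) := by
              have := m3.tr (-k)
              rwa [tr_tr, neg_add_cancel, tr_zero] at this
            have h7 : rr n (-1) = false := by simp [rr]
            have h8 : rr n (m - 1) = false := by
              have := h6 (-1)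
              rw [show (-1 : ℤ) + m = m - 1 by ring] at this
              rw [this]; exact h7
            have h9 : (n : ℤ) ∣ m := by
              have := h8
              simp only [rr, sub_add_cancel, Bool.not_eq_false', decide_eq_true_eq] at this
              exact this
            have h10 : n ∣ m := by exact_mod_cast h9
            have := Nat.le_of_dvd m1 h10
            omega
          · obtain ⟨k, rfl⟩ := ho
            have h6 : Per m (rr n) := by
              have := m3.tr (-k)
              rwa [tr_tr, neg_add_cancel, tr_zero] at this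
            have h7 : rr n (-1) = false := by simp [rr]
            have h8 : rr n (m - 1) = false := by
              have := h6 (-1)
              rw [show (-1 : ℤ) + m = m - 1 by ring] at this
              rw [this]; exact h7
            have h9 : (n : ℤ) ∣ m := by
              have := h8
              simp only [rr, sub_add_cancel, Bool.not_eq_false', decide_eq_true_eq] at this
              exact this
            have h10 : n ∣ m := by exact_mod_cast h9
            have := Nat.le_of_dvd m1 h10
            omega
        rw [Equiv.Perm.mul_apply, g5 x m m1 (by omega) m3 (hno p hp1) (hno _ hq1) hrr]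
        exact k4 x m m1 m2 m3
      · intro x x1 x2
        exact k5 x x1 x2

end PCN

open PCN in
/-- **PCN**. -/
theorem tPCN (h1 : SMOV) (h2 : SRR) : SPCN := by
  intro L N n α hL hn hnN h hc
  obtain ⟨r1, r2, r3, r4⟩ := h2
  rcases Nat.lt_or_ge 2 n with hge | hle
  · exact main h1 hL hge hnN _ α le_rfl h hc
  · refine ⟨1, G.one_mem, CA.one L, ct_one L N, fun _ _ _ _ _ => rfl, ?_⟩
    intro x hx hxr
    show α x = x
    have hrr : ∀ i : ℤ, rr n i = false ↔ (n : ℤ) ∣ i + 1 := by
      intro i
      simp [rr]
    have hrp := (r1 n hn).2.1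
    have hxp := hx.2.1
    obtain rfl | rfl : n = 1 ∨ n = 2 := by omega
    · -- constant points
      have hx0 : x 0 = true := by
        by_contra hx0
        apply hxr
        refine ⟨0, ?_⟩
        rw [tr_zero]
        apply per_ext hn hxp hrp
        intro k hk1 hk2
        have hk : k = 0 := by push_cast at hk2; omega
        subst hk
        rw [(hrr 0).2 (by norm_num)]
        simpa using hx0
      have hαx : Per 1 (α x) := hxp.image h.comm
      have hα0 : α x 0 = true := by
        by_contra hα0
        have hα0' : α x 0 = false := by simpa using hα0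
        have hz : ZOn (α x) 0 (0 + L) := by
          intro i _ _
          have := hαx.int_mul i 0
          rw [Nat.cast_one, mul_one, zero_add] at this
          rw [this, hα0']
        have := (h.zp x 0).1 hz 0 le_rfl (by omega)
        rw [hx0] at this
        cases this
      apply per_ext hn hαx hxp
      intro k hk1 hk2
      have hk : k = 0 := by push_cast at hk2; omega
      subst hk
      rw [hα0, hx0]
    · -- period two
      exfalso
      have hr0 : rr 2 0 = true := r2 2 le_rfl
      have hr1 : rr 2 1 = false := (hrr 1).2 (by norm_num)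
      have hne : x 0 ≠ x 1 := by
        intro he
        apply hx.2.2 1 (by omega) (by omega)
        rw [per_iff]
        apply per_ext hn (hxp.tr _) hxp
        intro k hk1 hk2
        have hk : k = 0 ∨ k = 1 := by push_cast at hk2; omega
        rcases hk with rfl | rfl
        · rw [tr_apply]
          simpa using he.symm
        · rw [tr_apply]
          have := hxp 0
          simp only [Nat.cast_one, Nat.cast_ofNat, zero_add] at this ⊢
          rw [show (1 : ℤ) + 1 = 2 by norm_num, this, he]
      apply hxr
      by_cases hx0 : x 0 = true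
      · have hx1 : x 1 = false := by
          by_contra hx1
          apply hne
          rw [hx0]
          simpa using (Eq.symm (by simpa using hx1 : x 1 = true))
        refine ⟨0, ?_⟩
        rw [tr_zero]
        apply per_ext hn hxp hrp
        intro k hk1 hk2
        have hk : k = 0 ∨ k = 1 := by push_cast at hk2; omega
        rcases hk with rfl | rfl
        · rw [hx0, hr0]
        · rw [hx1, hr1]
      · have hx0' : x 0 = false := by simpa using hx0
        have hx1 : x 1 = true := by
          by_contra hx1
          apply hne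
          rw [hx0']
          have : x 1 = false := by simpa using hx1
          rw [this]
        refine ⟨1, ?_⟩
        apply per_ext hn hxp (hrp.tr 1)
        intro k hk1 hk2
        have hk : k = 0 ∨ k = 1 := by push_cast at hk2; omega
        rcases hk with rfl | rfl
        · rw [tr_apply, hx0', zero_add, hr1]
        · rw [tr_apply, hx1]
          have := hrp 0
          simp only [Nat.cast_ofNat, zero_add] at this
          rw [show (1 : ℤ) + 1 = 2 by norm_num, this, hr0]

end Pool.MP_5a0708_an.Nil
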