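import Pool.Agent.Lib.MP_5a0708_an.Nil.SpecB

/-!
# MP_5a0708_an, package Nil : the swap of two periodic orbits is given by swap data
-/

set_option autoImplicit false

namespace Pool.MP_5a0708_an.Nil

namespace PQD

theorem uv_congr {n : ℕ} {p q x y : Pt} {c : ℤ} (h : Agr x y c (c + n)) (hx : UV n p q x c) :
    UV n p q y c := by
  rcases hx with hx | hx
  · left
    intro k h1 h2
    rw [← h (c + k) (by omega) (by omega)]
    exact hx k h1 h2
  · right
    intro k h1 h2
    rw [← h (c + k) (by omega) (by omega)]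
    exact hx k h1 h2

theorem uv_tr {n : ℕ} {p q x : Pt} {c k : ℤ} : UV n p q (tr k x) c ↔ UV n p q x (c + k) := by
  have key : ∀ i : ℤ, tr k x (c + i) = x (c + k + i) := by
    intro i
    rw [tr_apply]
    congr 1
    ring
  unfold UV
  simp only [key]

theorem uv_of_reads {n : ℕ} {p q y : Pt} {c : ℤ}
    (h : Reads y c n (fun k : ℕ => p k) ∨ Reads y c n (fun k : ℕ => q k)) : UV n p q y c := by
  rcases h with h | h
  · left
    intro k h1 h2
    obtain ⟨m, rfl⟩ := Int.eq_ofNat_of_zero_le h1
    exact h m (by omega)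
  · right
    intro k h1 h2
    obtain ⟨m, rfl⟩ := Int.eq_ofNat_of_zero_le h1
    exact h m (by omega)

theorem reads_of_uv {n : ℕ} {p q y : Pt} {c : ℤ} (h : UV n p q y c) :
    Reads y c n (fun k : ℕ => p k) ∨ Reads y c n (fun k : ℕ => q k) := by
  rcases h with h | h
  · left
    intro k hk
    exact h k (by omega) (by omega)
  · right
    intro k hk
    exact h k (by omega) (by omega)

/-- a site and a block of another phase -/
theorem phase (h1 : SUPH) {n D : ℕ} {p q : Pt} (hpq : PQ n p q) (hD : 2 ≤ D) {x : Pt} {e c1 : ℤ}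
    (hne : c1 ≠ e) (h2 : c1 < e + n) (h3 : e < c1 + n) (h4 : SPQ n D p q x c1)
    (he : (UV n p q x e ∧ UV n p q x (e + n) ∧ UV n p q x (e + 2 * n)) ∨
      (UV n p q x (e - 2 * n) ∧ UV n p q x (e - n) ∧ UV n p q x e)) : False := by
  have g : ∀ j : ℤ, -2 ≤ j → j ≤ 2 → UV n p q x (c1 + j * n) := fun j ha hb =>
    h4 j (by omega) (by omega)
  have g0 : UV n p q x c1 := by
    have := g 0 (by omega) (by omega)
    rwa [zero_mul, add_zero] at this
  have g1 : UV n p q x (c1 + n) := by
    have := g 1 (by omega) (by omega)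
    rwa [one_mul] at this
  have g2 : UV n p q x (c1 + 2 * n) := g 2 (by omega) (by omega)
  have gm1 : UV n p q x (c1 - n) := by
    have := g (-1) (by omega) (by omega)
    rwa [neg_one_mul, ← sub_eq_add_neg] at this
  have gm2 : UV n p q x (c1 - 2 * n) := by
    have := g (-2) (by omega) (by omega)
    rwa [neg_mul, ← sub_eq_add_neg] at this
  rcases lt_or_gt_of_ne hne with hlt | hgt
  · -- `c1 < e`, `d = c1 - e + n`
    obtain ⟨d, hd⟩ := Int.eq_ofNat_of_zero_le (show 0 ≤ c1 - e + n by omega)
    rcases he with ⟨e0, e1, e2⟩ | ⟨e0, e1, e2⟩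
    · refine h1 n p q hpq x e d (by omega) (by omega) e0 e1 e2 ?_ ?_
      · rw [show e + (d : ℤ) = c1 + n by omega]; exact g1
      · rw [show e + (d : ℤ) + n = c1 + 2 * n by omega]; exact g2
    · refine h1 n p q hpq x (e - 2 * n) d (by omega) (by omega) e0 ?_ ?_ ?_ ?_
      · rw [show e - 2 * (n : ℤ) + n = e - n by omega]; exact e1
      · rw [show e - 2 * (n : ℤ) + 2 * n = e by omega]; exact e2
      · rw [show e - 2 * (n : ℤ) + (d : ℤ) = c1 - n by omega]; exact gm1
      · rw [show e - 2 * (n : ℤ) + (d : ℤ) + n = c1 by omega]; exact g0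
  · obtain ⟨d, hd⟩ := Int.eq_ofNat_of_zero_le (show 0 ≤ c1 - e by omega)
    rcases he with ⟨e0, e1, e2⟩ | ⟨e0, e1, e2⟩
    · refine h1 n p q hpq x e d (by omega) (by omega) e0 e1 e2 ?_ ?_
      · rw [show e + (d : ℤ) = c1 by omega]; exact g0
      · rw [show e + (d : ℤ) + n = c1 + n by omega]; exact g1
    · refine h1 n p q hpq x (e - 2 * n) d (by omega) (by omega) e0 ?_ ?_ ?_ ?_
      · rw [show e - 2 * (n : ℤ) + n = e - n by omega]; exact e1
      · rw [show e - 2 * (n : ℤ) + 2 * n = e by omega]; exact e2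
      · rw [show e - 2 * (n : ℤ) + (d : ℤ) = c1 - 2 * n by omega]; exact gm2
      · rw [show e - 2 * (n : ℤ) + (d : ℤ) + n = c1 - n by omega]; exact gm1

/-- the blocks next to the block `j` of a site -/
theorem nbr {n D : ℕ} {p q x : Pt} {c j : ℤ} (hD : 2 ≤ D) (h : SPQ n D p q x c)
    (h1 : -(D : ℤ) ≤ j) (h2 : j ≤ D) :
    (UV n p q x (c + j * n) ∧ UV n p q x (c + j * n + n) ∧ UV n p q x (c + j * n + 2 * n)) ∨
      (UV n p q x (c + j * n - 2 * n) ∧ UV n p q x (c + j * n - n) ∧
        UV n p q x (c + j * n)) := by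
  by_cases h3 : -(D : ℤ) ≤ j - 2
  · right
    refine ⟨?_, ?_, h j h1 h2⟩
    · have := h (j - 2) h3 (by omega)
      rwa [show c + (j - 2) * (n : ℤ) = c + j * n - 2 * n by ring] at this
    · have := h (j - 1) (by omega) (by omega)
      rwa [show c + (j - 1) * (n : ℤ) = c + j * n - n by ring] at this
  · left
    refine ⟨h j h1 h2, ?_, ?_⟩
    · have := h (j + 1) (by omega) (by omega)
      rwa [show c + (j + 1) * (n : ℤ) = c + j * n + n by ring] at this
    · have := h (j + 2) (by omega) (by omega)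
      rwa [show c + (j + 2) * (n : ℤ) = c + j * n + 2 * n by ring] at this

theorem spq_congr {n D : ℕ} {p q x y : Pt} {c : ℤ}
    (h : Agr x y (c - D * n) (c + (D + 1) * n)) (hx : SPQ n D p q x c) : SPQ n D p q y c := by
  intro j h1 h2
  refine uv_congr ?_ (hx j h1 h2)
  have hn : (0 : ℤ) ≤ n := by omega
  have e1 : -(D : ℤ) * n ≤ j * n := mul_le_mul_of_nonneg_right h1 hn
  have e2 : j * n ≤ (D : ℤ) * n := mul_le_mul_of_nonneg_right h2 hn
  apply h.mono
  · linarith
  · linarith

end PQD

open PQD in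
/-- **PQD**. -/
theorem tPQD (h1 : SUPH) : SPQD := by
  intro n D p q hpq hD
  refine ⟨?_, ?_, ?_, ?_, ?_⟩
  · intro x y c hxy hx
    refine spq_congr ?_ hx
    intro j hj1 hj2
    have e : ((((D + 1) * n : ℕ) : ℤ)) = (D + 1) * n := by push_cast; ring
    apply hxy j
    · rw [e]
      have hn : (0 : ℤ) ≤ n := by omega
      linarith
    · rw [e]
      linarith
  · intro x c k
    constructor
    · intro h j hj1 hj2
      have := (uv_tr).1 (h j hj1 hj2)
      rwa [show c + j * (n : ℤ) + k = c + k + j * n by ring] at this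
    · intro h j hj1 hj2
      have := h j hj1 hj2
      rw [show c + k + j * (n : ℤ) = c + j * n + k by ring] at this
      exact (uv_tr).2 this
  · intro x c h
    have := h 0 (by omega) (by omega)
    rw [zero_mul, add_zero] at this
    exact reads_of_uv this
  · intro x c c' h h' hlt
    by_contra hc
    push Not at hc
    have hb := nbr hD h (j := 0) (by omega) (by omega)
    rw [zero_mul, add_zero] at hb
    exact phase h1 hpq hD (by omega) (by omega) (by omega) h' hb
  · intro x y hy hxy c h j hj1 hj2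
    by_cases hs : SPQ n D p q x (c + j * n)
    · exact uv_of_reads (hy _ hs)
    · refine uv_congr ?_ (h j hj1 hj2)
      intro i hi1 hi2
      by_contra hne
      obtain ⟨c1, hc1, hc2, hc3⟩ := hxy i hne
      have hne' : c1 ≠ c + j * n := by
        rintro rfl
        exact hs hc1
      exact phase h1 hpq hD hne' (by omega) (by omega) hc1 (nbr hD h hj1 hj2)

end Pool.MP_5a0708_an.Nil
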