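import Pool.Agent.Lib.MP_5a0708_an.Nil.SpecB

/-!
# MP_5a0708_an, package Nil : the swap of two periodic orbits
-/

set_option autoImplicit false

namespace Pool.MP_5a0708_an.Nil

namespace PQS

theorem uv_congr {n : ℕ} {p q x y : Pt} {c : ℤ} (h : Agr x y c (c + n)) (hx : UV n p q x c) :
    UV n p q y c := by
  rcases hx with hx | hx
  · left
    intro k h1 h2
    rw [← h (c + k) (by omega) (by omega)]
    exact hx k h1 h2
  · right
    intro k h1 h2
    rw [← h (c + k) (by omega) (by omega)]
    exact hx k h1 h2

theorem spq_congr {n D : ℕ} {p q x y : Pt} {c : ℤ}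
    (h : Agr x y (c - D * n) (c + (D + 1) * n)) (hx : SPQ n D p q x c) : SPQ n D p q y c := by
  intro j h1 h2
  refine uv_congr ?_ (hx j h1 h2)
  have hn : (0 : ℤ) ≤ n := by omega
  have e1 : -(D : ℤ) * n ≤ j * n := mul_le_mul_of_nonneg_right h1 hn
  have e2 : j * n ≤ (D : ℤ) * n := mul_le_mul_of_nonneg_right h2 hn
  apply h.mono
  · linarith
  · linarith

/-- no block inside a site -/
theorem noblock {L n D : ℕ} {p q x : Pt} {c i : ℤ} (hpq : PQ n p q)
    (hzp : NZ L p) (hzq : NZ L q) (h : SPQ n D p q x c) (hi : ZOn x i (i + L))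
    (h1 : c - D * n ≤ i) : c + (D + 1) * n < i + L := by
  by_contra hc
  push Not at hc
  have hn : (0 : ℤ) < n := by have := hpq.hp.1; omega
  -- the block of the site which contains `i`
  have hL0 : (0 : ℤ) ≤ L := by omega
  by_cases hend : i = c + (D + 1) * n
  · -- only possible when `L = 0`
    have hL : L = 0 := by
      have : (L : ℤ) ≤ 0 := by linarith
      omega
    subst hL
    exact hzp 0 (fun j h2 h3 => by push_cast at h3; omega)
  have hilt : i < c + (D + 1) * n := lt_of_le_of_ne (by linarith) hend
  set j : ℤ := (i - c) / n with hj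
  have hm0 := Int.emod_nonneg (i - c) (ne_of_gt hn)
  have hm1 := Int.emod_lt_of_pos (i - c) hn
  have hm2 := Int.emod_add_mul_ediv (i - c) n
  rw [← hj] at hm2
  have hm3 : (n : ℤ) * j = j * n := mul_comm _ _
  rw [hm3] at hm2
  have hi1 : c + j * n ≤ i := by linarith
  have hi2 : i < c + j * n + n := by linarith
  have hj1 : -(D : ℤ) ≤ j := by
    by_contra hlt
    push Not at hlt
    have : (j + 1) * n ≤ -(D : ℤ) * n := mul_le_mul_of_nonneg_right (by omega) hn.le
    linarith
  have hj2 : j ≤ D := by
    by_contra hlt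
    push Not at hlt
    have : ((D : ℤ) + 1) * n ≤ j * n := mul_le_mul_of_nonneg_right (by omega) hn.le
    linarith
  have hUV := h j hj1 hj2
  by_cases hcase : i + L ≤ c + j * n + n
  · rcases hUV with hu | hu
    · apply hzp (i - (c + j * n))
      intro k hk1 hk2
      rw [← hu k (by linarith) (by linarith)]
      exact hi _ (by linarith) (by linarith)
    · apply hzq (i - (c + j * n))
      intro k hk1 hk2
      rw [← hu k (by linarith) (by linarith)]
      exact hi _ (by linarith) (by linarith)
  · push Not at hcase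
    have hj3 : j + 1 ≤ D := by
      by_contra hlt
      push Not at hlt
      have : ((D : ℤ) + 1) * n ≤ (j + 1) * n := mul_le_mul_of_nonneg_right (by omega) hn.le
      linarith
    have hUV' := h (j + 1) (by omega) hj3
    have hone : x (c + (j + 1) * n) = true := by
      rcases hUV' with hu | hu
      · have := hu 0 le_rfl hn
        rw [add_zero] at this
        rw [this]
        exact hpq.p0
      · have := hu 0 le_rfl hn
        rw [add_zero] at this
        rw [this]
        exact hpq.q0
    have hz := hi (c + (j + 1) * n) (by linarith) (by linarith)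
    rw [hone] at hz
    cases hz

/-- a periodic point is determined by one period -/
theorem per_ext {n : ℕ} {x y : Pt} (hn : 0 < n) (hx : Per n x) (hy : Per n y)
    (h : ∀ k : ℤ, 0 ≤ k → k < n → x k = y k) : x = y := by
  funext i
  have hn' : (0 : ℤ) < n := by omega
  have hm0 := Int.emod_nonneg i (ne_of_gt hn')
  have hm1 := Int.emod_lt_of_pos i hn'
  have hm2 := Int.emod_add_mul_ediv i n
  have e : i = i % n + i / n * n := by
    have : (n : ℤ) * (i / n) = i / n * n := by ring
    omega
  have ex : x i = x (i % n) := by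
    have := hx.int_mul (i / n) (i % n)
    rw [← e] at this
    exact this
  have ey : y i = y (i % n) := by
    have := hy.int_mul (i / n) (i % n)
    rw [← e] at this
    exact this
  rw [ex, ey]
  exact h _ hm0 hm1

end PQS

open PQS in
/-- **PQS**. -/
theorem tPQS (h1 : SPQD) (h2 : SSCA) : SPQS := by
  intro L N n p q hL hpq hzp hzq
  have hn : 0 < n := hpq.hp.1
  obtain ⟨D, hD⟩ : ∃ D : ℕ, D = N + L + 2 := ⟨_, rfl⟩
  have hsw := h1 n D p q hpq (by omega)
  have hDn : D ≤ D * n := Nat.le_mul_of_pos_right D hn
  have hca : ((D * n : ℕ) : ℤ) = D * n := by push_cast; ring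
  have hcb : (((D + 1) * n : ℕ) : ℤ) = (D + 1) * n := by push_cast; ring
  have hDn' : (D : ℤ) ≤ D * n := by rw [← hca]; exact_mod_cast hDn
  have hnb : ∀ (x : Pt) (c i : ℤ), SPQ n D p q x c → ZOn x i (i + L) →
      c - ((D * n : ℕ) : ℤ) ≤ i → c + (((D + 1) * n : ℕ) : ℤ) < i + L := by
    intro x c i hx hi hci
    rw [hca] at hci
    rw [hcb]
    exact noblock hpq hzp hzq hx hi hci
  obtain ⟨ι, hinv, hCA, hS, hAB, hBA, hch⟩ := h2 L n ((D + 1) * n) (D * n) ((D + 1) * n)
    (fun k : ℕ => p k) (fun k : ℕ => q k) (SPQ n D p q) hL hn (by simpa using hpq.p0)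
    (by simpa using hpq.q0) (by omega) (by
      have : (D + 1) * n = D * n + n := by ring
      omega) hsw
    (fun x y c hxy hx => spq_congr (by rw [← hca, ← hcb]; exact hxy) hx)
    (fun x c i hx hi hci => hnb x c i hx hi (by omega))
  have hper : Per n p := hpq.hp.2.1
  have hqer : Per n q := hpq.hq.2.1
  have hι : ∀ x : Pt, ι (ι x) = x := hinv.2.1
  -- all multiples of `n` are sites of `p`
  have hsite : ∀ j : ℤ, SPQ n D p q p (j * n) := by
    intro j j' _ _
    left
    intro k _ _
    rw [show j * (n : ℤ) + j' * n + k = k + (j + j') * n by ring, hper.int_mul]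
  have hιp : ι p = q := by
    apply per_ext hn (hper.image hCA.comm) hqer
    intro k hk1 hk2
    obtain ⟨m, rfl⟩ := Int.eq_ofNat_of_zero_le hk1
    have h3 := hsite 0
    rw [zero_mul] at h3
    have h4 := hAB p 0 h3 (fun k _ => by rw [zero_add]) m (by omega)
    rw [zero_add] at h4
    exact h4
  refine ⟨ι, hinv, hCA, ?_, hιp, by rw [← hιp, hι], ?_⟩
  · -- short cells
    intro x c0 ℓ hℓ hcell k hk
    by_contra hne
    obtain ⟨c, hc, hc1, hc2⟩ := hch x _ hne
    obtain ⟨hz1, hz2, -⟩ := hcell
    have b1 : ¬ c - ((D * n : ℕ) : ℤ) ≤ c0 - L := by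
      intro hle
      have := hnb x c (c0 - L) hc (by rw [sub_add_cancel]; exact hz1) hle
      rw [hcb] at this
      have h3 : (D + 1 : ℤ) * n = D * n + n := by ring
      rw [h3] at this
      omega
    have b2 := hnb x c (c0 + ℓ) hc hz2 (by rw [hca]; omega)
    rw [hca] at b1
    rw [hcb] at b2
    have h3 : (D + 1 : ℤ) * n = D * n + n := by ring
    rw [h3] at b2
    omega
  · -- periodic points
    intro x m hm hmn hx hxp hxq
    by_contra hne
    obtain ⟨i, hi⟩ : ∃ i : ℤ, ι x i ≠ x i := by
      by_contra hc
      push Not at hc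
      exact hne (funext hc)
    obtain ⟨c, hc, -, -⟩ := hch x i hi
    have u0 : UV n p q x c := by
      have := hc 0 (by omega) (by omega)
      rwa [zero_mul, add_zero] at this
    have u1 : UV n p q x (c + n) := by
      have := hc 1 (by omega) (by omega)
      rwa [one_mul] at this
    rcases Nat.lt_or_ge m n with hlt | hge
    · -- `m < n`
      have hno : ∀ e : ℤ, ¬ ∀ k : ℤ, 0 ≤ k → k < n → x (e + k) = p k := by
        intro e he
        obtain ⟨k, hk1, hk2⟩ := hpq.unb m hm hlt
        apply hk2
        have a1 := he k (by omega) (by omega)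
        have a2 := he ((k : ℤ) + m) (by omega) (by omega)
        rw [← a1, ← a2, ← add_assoc, hx]
      have v0 : ∀ k : ℤ, 0 ≤ k → k < n → x (c + k) = q k := by
        rcases u0 with h | h
        · exact absurd h (hno c)
        · exact h
      have v1 : ∀ k : ℤ, 0 ≤ k → k < n → x (c + n + k) = q k := by
        rcases u1 with h | h
        · exact absurd h (hno (c + n))
        · exact h
      have v2 : ∀ k : ℤ, 0 ≤ k → k < 2 * n → x (c + k) = q k := by
        intro k hk1 hk2
        by_cases hkn : k < n
        · exact v0 k hk1 hkn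
        · have := v1 (k - n) (by omega) (by omega)
          rw [show c + (n : ℤ) + (k - n) = c + k by ring] at this
          rw [this]
          have h4 := hqer (k - n)
          rw [sub_add_cancel] at h4
          exact h4.symm
      apply hpq.hq.2.2 m hm hlt
      have h5 : tr m q = q := by
        apply per_ext hn (hqer.tr m) hqer
        intro k hk1 hk2
        rw [tr_apply, ← v2 (k + m) (by omega) (by omega), ← v2 k hk1 (by omega), ← add_assoc, hx]
      exact per_iff.2 h5
    · have hmn' : m = n := le_antisymm hmn hge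
      subst hmn'
      rcases u0 with h | h
      · apply hxp
        refine Orb.symm ⟨c, ?_⟩
        apply per_ext hn hper (hx.tr c)
        intro k hk1 hk2
        rw [tr_apply, add_comm k c, h k hk1 hk2]
      · apply hxq
        refine Orb.symm ⟨c, ?_⟩
        apply per_ext hn hqer (hx.tr c)
        intro k hk1 hk2
        rw [tr_apply, add_comm k c, h k hk1 hk2]

end Pool.MP_5a0708_an.Nil
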