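import Pool.Agent.Lib.MP_5a0708_an.Nil.SpecA

/-!
# MP_5a0708_an, package Nil : QUO
-/

set_option autoImplicit false

namespace Pool.MP_5a0708_an.Nil

theorem tQUO : SQUO := by
  intro Q _ h a b e
  set z : Q := a * b * a⁻¹ * b⁻¹ with hz
  have hc : ∀ d : Q, d * z = z * d := by
    intro d
    have h1 := h d a b
    rw [← hz] at h1
    have h2 : d * z * d⁻¹ = z := by
      have := mul_inv_eq_one.mp h1
      exact this
    calc d * z = d * z * d⁻¹ * d := by group
      _ = z * d := by rw [h2]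
  have hp : ∀ (n : ℕ) (d : Q), d * z ^ n = z ^ n * d := by
    intro n d
    exact ((show Commute d z from hc d).pow_right n).eq
  induction e with
  | zero => simp
  | succ n ih =>
    have e1 : a ^ (n + 1) * b * (a ^ (n + 1))⁻¹ * b⁻¹
        = a * (a ^ n * b * (a ^ n)⁻¹ * b⁻¹) * b * a⁻¹ * b⁻¹ := by
      rw [pow_succ' a n]
      group
    rw [e1, ih, hp n a]
    have e2 : z ^ n * a * b * a⁻¹ * b⁻¹ = z ^ n * z := by
      rw [hz]
      group
    rw [e2, pow_succ]

end Pool.MP_5a0708_an.Nil
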