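import Pool.Agent.Lib.MP_5a0708_an.Nil.SpecB

/-!
# MP_5a0708_an, package Nil : RR
-/

set_option autoImplicit false

namespace Pool.MP_5a0708_an.Nil

theorem RR_false {n : ℕ} {i : ℤ} : rr n i = false ↔ (n : ℤ) ∣ i + 1 := by
  unfold rr
  simp

theorem RR_true {n : ℕ} {i : ℤ} : rr n i = true ↔ ¬ (n : ℤ) ∣ i + 1 := by
  unfold rr
  simp

theorem RR_small {n : ℕ} {k : ℤ} (h0 : 0 < k) (h1 : k < n) : ¬ (n : ℤ) ∣ k := by
  intro h
  have := Int.le_of_dvd h0 h
  omega

theorem tRR : SRR := by
  refine ⟨?_, ?_, ?_, ?_⟩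
  · intro n hn
    refine ⟨hn, ?_, ?_⟩
    · intro i
      have h : ((n : ℤ) ∣ i + n + 1) ↔ ((n : ℤ) ∣ i + 1) := by
        have e : i + (n : ℤ) + 1 = (i + 1) + n := by ring
        rw [e, dvd_add_self_right]
      unfold rr
      simp only [h]
    · intro m h1 h2 h3
      have h4 := h3 (-1)
      have h5 : rr n (-1) = false := RR_false.2 (by simp)
      rw [h5] at h4
      have h6 := RR_false.1 h4
      have e : -1 + (m : ℤ) + 1 = m := by ring
      rw [e] at h6
      exact RR_small (by omega) (by omega) h6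
  · intro n hn
    exact RR_true.2 (RR_small (by norm_num) (by omega))
  · intro n hn
    exact RR_true.2 (RR_small (by norm_num) (by omega))
  · intro n L hn hL i hi
    have h1 := RR_false.1 (hi i le_rfl (by omega))
    have h2 := RR_false.1 (hi (i + 1) (by omega) (by omega))
    have h3 := dvd_sub h2 h1
    have e : i + 1 + 1 - (i + 1) = 1 := by ring
    rw [e] at h3
    exact RR_small (by norm_num) (by omega) h3

end Pool.MP_5a0708_an.Nil
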