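import Pool.Agent.Lib.MP_5a0708_an.Nil.SpecB

/-!
# MP_5a0708_an, package Nil : swaps that are cluster automorphisms
-/

set_option autoImplicit false

namespace Pool.MP_5a0708_an.Nil

namespace SCA

variable {L h R a b : ℕ} {A B : ℕ → Bool} {S : Pt → ℤ → Prop} {ι : Equiv.Perm Pt}

theorem same (hS : SwapData h R A B S)
    (h4 : ∀ (x : Pt) (c : ℤ), S x c → Reads x c h A → Reads (ι x) c h B)
    (h5 : ∀ (x : Pt) (c : ℤ), S x c → Reads x c h B → Reads (ι x) c h A)
    {x y : Pt} {c i : ℤ} (hx : S x c) (hy : S y c) (hxy : ∀ j : ℤ, c ≤ j → j < c + h → x j = y j)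
    (hc : c ≤ i) (hi : i < c + h) : ι x i = ι y i := by
  have e : c + (((i - c).toNat : ℕ) : ℤ) = i := by omega
  have hk : (i - c).toNat < h := by omega
  have hr : ∀ w : ℕ → Bool, Reads x c h w → Reads y c h w := by
    intro w hw k hk
    rw [← hxy (c + k) (by omega) (by omega), hw k hk]
  rcases hS.core x c hx with hA | hB
  · have e1 := h4 x c hx hA _ hk
    have e2 := h4 y c hy (hr A hA) _ hk
    rw [e] at e1 e2
    rw [e1, e2]
  · have e1 := h5 x c hx hB _ hk
    have e2 := h5 y c hy (hr B hB) _ hk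
    rw [e] at e1 e2
    rw [e1, e2]

theorem one (hS : SwapData h R A B S) (hh : 0 < h) (hA : A 0 = true) (hB : B 0 = true)
    {x : Pt} {c : ℤ} (hx : S x c) : x c = true := by
  rcases hS.core x c hx with h1 | h1
  · have := h1 0 hh
    rwa [Nat.cast_zero, add_zero, hA] at this
  · have := h1 0 hh
    rwa [Nat.cast_zero, add_zero, hB] at this

end SCA

theorem tSCA : SSCA := by
  intro L h R a b A B S hL hh hA hB ha hb hS hdep hZ
  obtain ⟨ι, h1, h2, h3, h4, h5, h6⟩ := swap h R A B S hS
  have hinv : ∀ x, ι (ι x) = x := h1.2.1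
  have hone : ∀ (x : Pt) (c : ℤ), S x c → x c = true := fun x c hx => SCA.one hS hh hA hB hx
  have hout : ∀ (x : Pt) (i : ℤ), (∀ c : ℤ, S x c → c ≤ i → ¬ i < c + h) → ι x i = x i := by
    intro x i hn
    by_contra hc
    obtain ⟨c, hc1, hc2, hc3⟩ := h6 x i hc
    exact hn c hc1 hc2 hc3
  have hsame : ∀ (x y : Pt) (c i : ℤ), S x c → S y c →
      (∀ j : ℤ, c ≤ j → j < c + h → x j = y j) → c ≤ i → i < c + h → ι x i = ι y i :=
    fun x y c i hx hy hxy hc hi => SCA.same hS h4 h5 hx hy hxy hc hi
  have hblk : ∀ (x : Pt) (i : ℤ), ZOn x i (i + L) → ZOn (ι x) i (i + L) := by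
    intro x i hx j hj1 hj2
    rw [hout x j, hx j hj1 hj2]
    intro c hc hc1 hc2
    have := hZ x c i hc hx (by omega)
    omega
  refine ⟨ι, h1, ⟨⟨R + h, h2⟩, ?_, ?_, ?_⟩, h3, h4, h5, h6⟩
  · intro x i
    refine ⟨fun hx => ?_, hblk x i⟩
    have := hblk (ι x) i hx
    rwa [hinv] at this
  · intro x s hs
    have hy0 : ∀ j : ℤ, j < s → glue zpt x s j = false := fun j hj => glue_lt hj
    have hyx : ∀ j : ℤ, s - L ≤ j → glue zpt x s j = x j := by
      intro j hj
      by_cases hjs : j < s
      · rw [hy0 j hjs, hs j hj hjs]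
      · exact glue_ge (by omega)
    have hyz : ZOn (glue zpt x s) (s - L) (s - L + L) := fun j _ hj => hy0 j (by omega)
    have hxz : ZOn x (s - L) (s - L + L) := fun j hj1 hj2 => hs j hj1 (by omega)
    have hB' : ∀ c : ℤ, S (glue zpt x s) c → s - L ≤ c - a ∧ S x c := by
      intro c hc
      have hc1 := hone _ _ hc
      have hcs : s ≤ c := by
        by_contra hn
        rw [hy0 c (by omega)] at hc1
        cases hc1
      have hca : s - L ≤ c - a := by
        by_contra hn
        have := hZ _ c (s - L) hc hyz (by omega)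
        omega
      exact ⟨hca, hdep _ _ c (fun j hj1 _ => hyx j (by omega)) hc⟩
    funext i
    by_cases his : i < s
    · rw [glue_lt his, hout, hy0 i his]
      · rfl
      · intro c hc hc1
        have := hB' c hc
        omega
    · rw [glue_ge (by omega)]
      by_cases hx : ∃ c : ℤ, S x c ∧ c ≤ i ∧ i < c + h
      · obtain ⟨c, hc, hc1, hc2⟩ := hx
        have hca : s - L ≤ c - a := by
          by_contra hn
          have := hZ _ c (s - L) hc hxz (by omega)
          omega
        have hcy : S (glue zpt x s) c :=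
          hdep _ _ c (fun j hj1 _ => (hyx j (by omega)).symm) hc
        exact hsame _ _ c i hcy hc (fun j hj1 _ => hyx j (by omega)) hc1 hc2
      · rw [hout x i (fun c hc hc1 hc2 => hx ⟨c, hc, hc1, hc2⟩), hout _ i
          (fun c hc hc1 hc2 => hx ⟨c, (hB' c hc).2, hc1, hc2⟩), hyx i (by omega)]
  · intro x t ht
    have hy0 : ∀ j : ℤ, t ≤ j → glue x zpt t j = false := fun j hj => glue_ge hj
    have hyx : ∀ j : ℤ, j < t + L → glue x zpt t j = x j := by
      intro j hj
      by_cases hjs : j < t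
      · exact glue_lt hjs
      · rw [hy0 j (by omega), ht j (by omega) hj]
    have hyz : ZOn (glue x zpt t) t (t + L) := fun j hj _ => hy0 j hj
    have hB' : ∀ c : ℤ, S (glue x zpt t) c → c + b < t + L ∧ S x c := by
      intro c hc
      have hc1 := hone _ _ hc
      have hcs : c < t := by
        by_contra hn
        rw [hy0 c (by omega)] at hc1
        cases hc1
      have hca := hZ _ c t hc hyz (by omega)
      exact ⟨hca, hdep _ _ c (fun j _ hj2 => hyx j (by omega)) hc⟩
    funext i
    by_cases his : t ≤ i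
    · rw [glue_ge his, hout, hy0 i his]
      · rfl
      · intro c hc hc1
        have := hB' c hc
        omega
    · rw [glue_lt (by omega)]
      by_cases hx : ∃ c : ℤ, S x c ∧ c ≤ i ∧ i < c + h
      · obtain ⟨c, hc, hc1, hc2⟩ := hx
        have hca := hZ _ c t hc ht (by omega)
        have hcy : S (glue x zpt t) c :=
          hdep _ _ c (fun j _ hj2 => (hyx j (by omega)).symm) hc
        exact hsame _ _ c i hcy hc (fun j _ hj2 => hyx j (by omega)) hc1 hc2
      · rw [hout x i (fun c hc hc1 hc2 => hx ⟨c, hc, hc1, hc2⟩), hout _ i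
          (fun c hc hc1 hc2 => hx ⟨c, (hB' c hc).2, hc1, hc2⟩), hyx i (by omega)]

end Pool.MP_5a0708_an.Nil
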