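import Pool.Agent.Lib.MP_5a0708_an.Nil.SpecD

/-!
# MP_5a0708_an, package Nil : the core theorem (module THT)
-/

set_option autoImplicit false

namespace Pool.MP_5a0708_an.Nil

theorem THT_cut (hCUT : SCUT) (hQ : SCutQ) (hE : SENDT) {L r R : ℕ} {θ : Equiv.Perm Pt}
    (hL : 1 ≤ L) (hLR : L ≤ R) (hrR : 2 * r + 1 ≤ R) (hθ : CA L θ) (hr : IsAut r θ) :
    ∃ α : Equiv.Perm Pt, CA L α ∧ α * θ⁻¹ ∈ G ∧
      (∀ (x : Pt) (i : ℤ), α x i ≠ x i → NoZ L x (i - R) (i + 1 + R)) ∧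
      (∀ (x : Pt) (i : ℤ), α.symm x i ≠ x i → NoZ L x (i - R) (i + 1 + R)) ∧
      (∀ (x : Pt) (i : ℤ), NoZ L x (i - (2 * R + 2 * L + r : ℕ)) (i + 1 + (2 * R + 2 * L + r : ℕ)) →
        α x i = θ x i) ∧
      (∀ (x : Pt) (i : ℤ), NoZ L x (i - (2 * R + 2 * L + r : ℕ)) (i + 1 + (2 * R + 2 * L + r : ℕ)) →
        α.symm x i = θ.symm x i) := by
  obtain ⟨α, hα, hα1, hα2⟩ := hCUT L R θ hL hLR hθ
  obtain ⟨q1, q2, -⟩ := hQ L R r θ hL hLR hrR hr.loc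
  obtain ⟨q1', q2', -⟩ := hQ L R r θ.symm hL hLR hrR hr.locSymm
  have e2 : ∀ (x : Pt) (i : ℤ),
      NoZ L x (i - (2 * R + 2 * L + r : ℕ)) (i + (2 * R + 2 * L + r : ℕ)) → α x i = θ x i := by
    intro x i h
    rw [hα1]
    exact q2 x i h
  refine ⟨α, hα, ?_, ?_, ?_, ?_, ?_⟩
  · apply hE L (2 * R + 2 * L + r) (α * θ⁻¹) hL (hα.mul hθ.inv)
    intro x i h
    have h1 : NoZ L (θ⁻¹ x) (i - (2 * R + 2 * L + r : ℕ)) (i + (2 * R + 2 * L + r : ℕ)) :=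
      h.zeq (hθ.inv.zeq x).symm
    have h2 := e2 (θ⁻¹ x) i h1
    rw [Equiv.Perm.mul_apply, h2, ap_inv]
  · intro x i h
    apply q1 x i
    rw [← hα1]
    exact h
  · intro x i h
    apply q1' x i
    rw [← hα2]
    exact h
  · intro x i h
    exact e2 x i (h.mono (by omega) (by omega))
  · intro x i h
    rw [hα2]
    exact q2' x i (h.mono (by omega) (by omega))

theorem tTHT (hGK : SGK) (hEF : SEF) (hBET : SBET) (hCLA : SCLA) (hCUT : SCUT) (hQ : SCutQ)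
    (hE : SENDT) (hEPS : SEPS) (hC : SCNG) (hN : SNRM) : STHT := by
  intro L hL
  obtain ⟨N, -, hGK⟩ := hGK L hL
  refine ⟨N, ?_⟩
  intro δ c hδ hc hper
  obtain ⟨ρ0, hρ0, hρ0c, h1, h2, h3⟩ := hEF L N c hL hc hper
  have hc' : CA L (ρ0 * c) := hρ0c.mul hc
  obtain ⟨r, hr⟩ := hc'.aut
  obtain ⟨g, W, hg, hgk⟩ := hGK (r + 2 * N + L + 1)
  have hgG : g ∈ G := isInv_mem_G hg
  have hgi : ∀ x, g.symm x = g x := by
    intro x
    rw [Equiv.symm_apply_eq]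
    exact (hg.2.1 x).symm
  obtain ⟨ρg, hρg⟩ := G_le_Au hgG
  obtain ⟨β, hβ, hβG, hβ1, hβ2⟩ := hBET L N (r + 2 * N + L + 1)
    ((r + 2 * N + L + 1) + L + W + 2 * r + 2) r (ρ0 * c) hL (by omega) (by omega) (by omega)
    (by omega) hc' hr h1 h2 h3
  have hWR : W ≤ (r + 2 * N + L + 1) + L + W + 2 * r + 2 := by omega
  have hγ1 := hCLA L N (r + 2 * N + L + 1) W _ ρg g β hg hρg.loc hWR hgk hβ1
  have hγ2 := hCLA L N (r + 2 * N + L + 1) W _ ρg g β.symm hg hρg.loc hWR hgk hβ2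
  have hγA : g * β * g⁻¹ ∈ Au := Au.mul_mem (Au.mul_mem (G_le_Au hgG) hβ.mem) (Au.inv_mem (G_le_Au hgG))
  obtain ⟨rγ, hrγ⟩ := hγA
  obtain ⟨rδ, hrδ⟩ := hδ.aut
  obtain ⟨α, hα, hαG, a1, a1', a2, a2'⟩ := THT_cut hCUT hQ hE
    (R := 2 * rγ + 2 * (W + ρg) + 3 * L + 2 + 2 * rδ + 1) hL (by omega) (by omega) hδ hrδ
  obtain ⟨rα, hrα⟩ := hα.aut
  have hED : ED L (2 * rγ + 2 * (W + ρg) + 3 * L + 2 + 2 * rδ + 1)
      (2 * (2 * rγ + 2 * (W + ρg) + 3 * L + 2 + 2 * rδ + 1) + 2 * L + rδ) (W + ρg) rα rγ rδ α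
      (g * β * g⁻¹) δ := by
    refine ⟨hL, hα, hrα, hrγ, hrδ, a1, a1', a2, a2', ?_, ?_, by omega⟩
    · intro x i h
      have h4 := hγ1 x i (h.mono (by omega) (by omega))
      have e : (g * β * g⁻¹) x = g (β (g x)) := by
        rw [Equiv.Perm.mul_apply, Equiv.Perm.mul_apply]
        have : g⁻¹ x = g x := hgi x
        rw [this]
      rw [e]
      exact h4
    · intro x i h
      have h4 := hγ2 x i (h.mono (by omega) (by omega))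
      have e : (g * β * g⁻¹).symm x = g (β.symm (g x)) := by
        rw [Equiv.symm_apply_eq, Equiv.Perm.mul_apply, Equiv.Perm.mul_apply]
        have h5 : g⁻¹ (g (β.symm (g x))) = β.symm (g x) := g.symm_apply_apply _
        rw [h5, Equiv.apply_symm_apply]
        exact (hg.2.1 x).symm
      rw [e]
      exact h4
  have hεG := hEPS _ _ _ _ _ _ _ _ _ _ hED
  have hγc : g * β * g⁻¹ * c⁻¹ ∈ G := by
    have e : g * β * g⁻¹ * c⁻¹ = g * (β * g⁻¹ * β⁻¹) * (β * (ρ0 * c)⁻¹) * ρ0 := by group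
    rw [e]
    exact G.mul_mem (G.mul_mem (G.mul_mem hgG (hN _ _ hβ.mem (G.inv_mem hgG))) hβG) hρ0
  have h5 := hC δ α c (g * β * g⁻¹) hδ.mem hα.mem hc.mem ⟨rγ, hrγ⟩ hαG hγc
  have h6 : cm δ c = (cm α (g * β * g⁻¹) * (cm δ c)⁻¹)⁻¹ * cm α (g * β * g⁻¹) := by group
  rw [h6]
  exact G.mul_mem (G.inv_mem h5) hεG

end Pool.MP_5a0708_an.Nil
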