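import Pool.Agent.Lib.MP_5a0708_an.Nil.SpecA

/-!
# MP_5a0708_an, package Nil : the end windows are window data
-/

set_option autoImplicit false

namespace Pool.MP_5a0708_an.Nil

namespace TWD

theorem lend_congr {L : ℕ} {x y : Pt} {s : ℤ} (h : LEnd L x s) (hxy : Agr x y (s - L) (s + 1)) :
    LEnd L y s :=
  ⟨(zon_congr (hxy.mono le_rfl (by omega))).1 h.1, by
    rw [← hxy s (by omega) (by omega)]; exact h.2⟩

theorem rend_congr {L : ℕ} {x y : Pt} {t : ℤ} (h : REnd L x t)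
    (hxy : Agr x y (t - 1) (t + L + 1)) : REnd L y t :=
  ⟨(zon_congr (hxy.mono (by omega) (by omega))).1 h.1, by
    rw [← hxy (t - 1) (by omega) (by omega)]; exact h.2⟩

theorem lend_block {L : ℕ} {x : Pt} {s : ℤ} (h : LEnd L x s) :
    ZOn x (s - L) (s - L + L) := by
  rw [sub_add_cancel]; exact h.1

theorem loc (L A B H : ℕ) : ∃ R : ℕ, ∀ (x y : Pt) (c : ℤ) (h : ℕ),
    (∀ j : ℤ, c - R ≤ j → j ≤ c + R → x j = y j) → TW L A B H x c h → TW L A B H y c h := by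
  refine ⟨2 * H + 2 * A + 2 * B + 2 * L + 4, ?_⟩
  intro x y c h hxy hT
  have hA : ∀ a b : ℤ, c - (2 * H + 2 * A + 2 * B + 2 * L + 4 : ℕ) ≤ a →
      b ≤ c + (2 * H + 2 * A + 2 * B + 2 * L + 4 : ℕ) → Agr x y a b :=
    fun a b h1 h2 i h3 h4 => hxy i (by omega) (by omega)
  rcases hT with ⟨h1, h2, h3⟩ | ⟨h1, h2, h3⟩ | ⟨h1, h2, h3⟩
  · refine Or.inl ⟨h1, lend_congr h2 (hA _ _ ?_ ?_), h3.congr (hA _ _ ?_ ?_)⟩ <;>
      push_cast <;> omega
  · refine Or.inr (Or.inl ⟨h1, rend_congr h2 (hA _ _ ?_ ?_), h3.congr (hA _ _ ?_ ?_)⟩) <;>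
      push_cast <;> omega
  · refine Or.inr (Or.inr ⟨h1, h2, lend_congr h3.1 (hA _ _ ?_ ?_),
      rend_congr h3.2.1 (hA _ _ ?_ ?_), h3.2.2.1, h3.2.2.2.congr (hA _ _ ?_ ?_)⟩) <;>
      push_cast <;> omega

theorem cov (L A B H : ℕ) (x : Pt) (c k : ℤ) (h : ℕ) :
    TW L A B H (tr k x) c h ↔ TW L A B H x (c + k) h := by
  unfold TW
  rw [lend_tr, noz_tr, rend_tr, noz_tr, clu_tr]
  have e1 : c - (A : ℤ) + k = c + k - A := by ring
  have e2 : c - (A : ℤ) + H + k = c + k - A + H := by ring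
  have e3 : c + (h : ℤ) + A + k = c + k + h + A := by ring
  have e4 : c + (h : ℤ) + A - H + k = c + k + h + A - H := by ring
  rw [e1, e2, e3, e4]

theorem zeq (L A B H : ℕ) (hL : 1 ≤ L) (x y : Pt) (c : ℤ) (h : ℕ) (hxy : ZEq L x y)
    (hT : TW L A B H x c h) : TW L A B H y c h := by
  rcases hT with ⟨h1, h2, h3⟩ | ⟨h1, h2, h3⟩ | ⟨h1, h2, h3⟩
  · exact Or.inl ⟨h1, h2.zeq hL hxy, h3.zeq hxy⟩
  · exact Or.inr (Or.inl ⟨h1, h2.zeq hL hxy, h3.zeq hxy⟩)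
  · exact Or.inr (Or.inr ⟨h1, h2, h3.zeq hL hxy⟩)

/-- types (a) and (c) -/
theorem uniq_ac {L A H : ℕ} {x : Pt} {c : ℤ} {h' : ℕ}
    (h3 : NoZ L x (c - A) (c - A + H)) (k2 : h' + 2 * A + L ≤ H)
    (k3 : Clu L x (c - A) (c + h' + A)) : False := by
  have := h3.block k3.2.1.1
  omega

/-- types (b) and (c) -/
theorem uniq_bc {L A B H : ℕ} (hH : B + A + L ≤ H) {x : Pt} {c : ℤ} {h h' : ℕ}
    (h1 : (h : ℤ) = B - A)
    (h3 : NoZ L x (c + h + A - H) (c + h + A))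
    (k3 : Clu L x (c - A) (c + h' + A)) : False := by
  have := h3.block (lend_block k3.1)
  omega

theorem uniq (L A B H : ℕ) (hH : B + A + L ≤ H) (x : Pt) (c : ℤ) (h h' : ℕ)
    (hT : TW L A B H x c h) (hT' : TW L A B H x c h') : h = h' := by
  rcases hT with ⟨h1, h2, h3⟩ | ⟨h1, h2, h3⟩ | ⟨h1, h2, h3⟩ <;>
    rcases hT' with ⟨k1, k2, k3⟩ | ⟨k1, k2, k3⟩ | ⟨k1, k2, k3⟩
  · omega
  · omega
  · exact (uniq_ac h3 k2 k3).elim
  · omega
  · omega
  · exact (uniq_bc hH h1 h3 k3).elim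
  · exact (uniq_ac k3 h2 h3).elim
  · exact (uniq_bc hH k1 k3 h3).elim
  · have e1 := h3.start k3.2.1.1 (by have := k3.2.2.1; omega)
    have e2 := k3.start h3.2.1.1 (by have := h3.2.2.1; omega)
    omega

theorem sep (L A B Co H : ℕ) (hL : 1 ≤ L) (hCo : L ≤ Co) (hCA : Co ≤ A + L) (hAB : A < B)
    (hH : 2 * B + A + Co + L ≤ H) (x : Pt) (c c' : ℤ) (h h' : ℕ)
    (hT : TW L A B H x c h) (hT' : TW L A B H x c' h') (hcc : c < c') :
    c + h + (A + Co : ℕ) ≤ c' := by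
  push_cast
  rcases hT with ⟨h1, h2, h3⟩ | ⟨h1, h2, h3⟩ | ⟨h1, h2, h3⟩ <;>
    rcases hT' with ⟨k1, k2, k3⟩ | ⟨k1, k2, k3⟩ | ⟨k1, k2, k3⟩
  · have e1 := zon_one k2.1 h2.2
    have e2 := h3.block (lend_block k2)
    omega
  · have e1 := h3.block k2.1
    omega
  · have e1 := zon_one k3.1.1 h2.2
    have e2 := h3.block (lend_block k3.1)
    omega
  · have e1 := zon_one h2.1 k2.2
    have e2 := h3.block (lend_block k2)
    omega
  · have e1 := zon_one h2.1 k2.2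
    have e2 := k3.block h2.1
    omega
  · have e1 := zon_one h2.1 k3.1.2
    have e2 := h3.block (lend_block k3.1)
    omega
  · have e1 := h3.start (lend_block k2) (by omega)
    omega
  · have e1 := h3.start k2.1 (by omega)
    have e2 := zon_one h3.2.1.1 k2.2
    have e3 := k3.block h3.2.1.1
    have e4 := k3.block (lend_block h3.1)
    omega
  · have e1 := h3.start (lend_block k3.1) (by omega)
    omega

end TWD

/-- the end windows form window data -/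
theorem tTWD : STWD := by
  intro L A B Co H hL hCo hCA hAB hH
  refine ⟨TWD.loc L A B H, TWD.cov L A B H, TWD.zeq L A B H hL, ?_,
    TWD.uniq L A B H (by omega), TWD.sep L A B Co H hL hCo hCA hAB hH⟩
  intro x c h hT
  rcases hT with ⟨h1, -⟩ | ⟨h1, -⟩ | ⟨-, h1, -⟩ <;> omega

end Pool.MP_5a0708_an.Nil
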