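import Pool.Agent.Lib.MP_5a0708_an.Nil.SpecA

/-!
# MP_5a0708_an, package Nil : the module WSwap

The involution exchanging two windows.
-/

set_option autoImplicit false

namespace Pool.MP_5a0708_an.Nil

namespace WSwap

/-- the sites -/
def Si (C h : ℕ) (T : Pt → ℤ → ℕ → Prop) (z z' x : Pt) (c : ℤ) : Prop :=
  T x c h ∧ (RP C h z x c ∨ RP C h z' x c)

variable {L C M h : ℕ} {T : Pt → ℤ → ℕ → Prop} {z z' : Pt}

theorem rp_tr {u x : Pt} {c k : ℤ} : RP C h u (tr k x) c ↔ RP C h u x (c + k) := by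
  constructor
  · intro hx j h1 h2
    have := hx j h1 h2
    rw [tr_apply] at this
    rw [← this]
    congr 1
    ring
  · intro hx j h1 h2
    have := hx j h1 h2
    rw [tr_apply, ← this]
    congr 1
    ring

theorem rp_zon {u x : Pt} {c : ℤ} (hx : RP C h u x c) {i : ℤ} (h1 : c - C ≤ i)
    (h2 : i + L ≤ c + h + C) : ZOn x i (i + L) ↔ ZOn u (i - c) (i - c + L) := by
  constructor
  · intro hz j h3 h4
    have h5 := hx j (by omega) (by omega)
    rw [← h5]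
    exact hz (c + j) (by omega) (by omega)
  · intro hz j h3 h4
    have h5 := hx (j - c) (by omega) (by omega)
    have e : c + (j - c) = j := by ring
    rw [e] at h5
    rw [h5]
    exact hz (j - c) (by omega) (by omega)

theorem rp_reads {u x : Pt} {c : ℤ} (hx : RP C h u x c) :
    Reads x c h (fun k : ℕ => u (k : ℤ)) := by
  intro k hk
  exact hx (k : ℤ) (by omega) (by omega)

/-- outside the core of a site nothing is changed near the site -/
theorem ctx (hT : WinData L C M T) {x y : Pt}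
    (hb : ∀ i : ℤ, x i ≠ y i → ∃ c : ℤ, Si C h T z z' x c ∧ c ≤ i ∧ i < c + h) {c : ℤ}
    (hc : Si C h T z z' x c) {j : ℤ} (h1 : -(C : ℤ) ≤ j) (h2 : j < h + C)
    (h3 : ¬ (0 ≤ j ∧ j < h)) : y (c + j) = x (c + j) := by
  by_contra hne
  obtain ⟨c1, hc1, h4, h5⟩ := hb (c + j) (fun he => hne he.symm)
  rcases lt_trichotomy c c1 with h6 | h6 | h6
  · have := hT.sep x c c1 h h hc.1 hc1.1 h6
    omega
  · subst h6
    exact h3 ⟨by omega, by omega⟩
  · have := hT.sep x c1 c h h hc1.1 hc.1 h6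
    omega

/-- the new pattern around a site -/
theorem rp_new (hT : WinData L C M T)
    (hzz : ∀ j : ℤ, -(C : ℤ) ≤ j → j < h + C → ¬ (0 ≤ j ∧ j < h) → z j = z' j) {x y : Pt}
    (hb : ∀ i : ℤ, x i ≠ y i → ∃ c : ℤ, Si C h T z z' x c ∧ c ≤ i ∧ i < c + h) {c : ℤ}
    (hc : Si C h T z z' x c) {u : Pt} (hu : u = z ∨ u = z')
    (hr : Reads y c h (fun k : ℕ => u (k : ℤ))) : RP C h u y c := by
  intro j h1 h2
  by_cases h3 : 0 ≤ j ∧ j < h
  · have h4 := hr j.toNat (by omega)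
    have e : ((j.toNat : ℕ) : ℤ) = j := by omega
    rw [e] at h4
    have h5 : (fun k : ℕ => u (k : ℤ)) j.toNat = u j := congrArg u e
    exact h4.trans h5
  · rw [ctx hT hb hc h1 h2 h3]
    have h5 := hzz j h1 h2 h3
    rcases hc.2 with h6 | h6
    · rw [h6 j h1 h2]
      rcases hu with h7 | h7
      · rw [h7]
      · rw [h7, h5]
    · rw [h6 j h1 h2]
      rcases hu with h7 | h7
      · rw [h7, h5]
      · rw [h7]

theorem rp_or (hT : WinData L C M T)
    (hzz : ∀ j : ℤ, -(C : ℤ) ≤ j → j < h + C → ¬ (0 ≤ j ∧ j < h) → z j = z' j) {x y : Pt}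
    (ha : ∀ c : ℤ, Si C h T z z' x c → Reads y c h (fun k : ℕ => z (k : ℤ)) ∨
      Reads y c h (fun k : ℕ => z' (k : ℤ)))
    (hb : ∀ i : ℤ, x i ≠ y i → ∃ c : ℤ, Si C h T z z' x c ∧ c ≤ i ∧ i < c + h) {c : ℤ}
    (hc : Si C h T z z' x c) : RP C h z y c ∨ RP C h z' y c := by
  rcases ha c hc with h1 | h1
  · exact Or.inl (rp_new hT hzz hb hc (Or.inl rfl) h1)
  · exact Or.inr (rp_new hT hzz hb hc (Or.inr rfl) h1)

/-- the blocks are not changed -/
theorem zeq_new (hL : 1 ≤ L) (hLC : L ≤ C) (hT : WinData L C M T) (hz : ZEq L z z')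
    (hzz : ∀ j : ℤ, -(C : ℤ) ≤ j → j < h + C → ¬ (0 ≤ j ∧ j < h) → z j = z' j) {x y : Pt}
    (ha : ∀ c : ℤ, Si C h T z z' x c → Reads y c h (fun k : ℕ => z (k : ℤ)) ∨
      Reads y c h (fun k : ℕ => z' (k : ℤ)))
    (hb : ∀ i : ℤ, x i ≠ y i → ∃ c : ℤ, Si C h T z z' x c ∧ c ≤ i ∧ i < c + h) :
    ZEq L x y := by
  intro i
  by_cases hm : ∃ c : ℤ, Si C h T z z' x c ∧ ∃ j : ℤ, i ≤ j ∧ j < i + L ∧ c ≤ j ∧ j < c + h
  · obtain ⟨c, hc, j, h1, h2, h3, h4⟩ := hm
    have h5 : c - C ≤ i := by omega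
    have h6 : i + L ≤ c + h + C := by omega
    have hx : ZOn x i (i + L) ↔ ZOn z (i - c) (i - c + L) := by
      rcases hc.2 with h7 | h7
      · exact rp_zon h7 h5 h6
      · exact (rp_zon h7 h5 h6).trans (hz (i - c)).symm
    have hy : ZOn y i (i + L) ↔ ZOn z (i - c) (i - c + L) := by
      rcases rp_or hT hzz ha hb hc with h7 | h7
      · exact rp_zon h7 h5 h6
      · exact (rp_zon h7 h5 h6).trans (hz (i - c)).symm
    exact hx.trans hy.symm
  · apply zon_congr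
    intro j h1 h2
    by_contra hne
    obtain ⟨c, hc, h3, h4⟩ := hb j hne
    exact hm ⟨c, hc, j, h1, h2, h3, h4⟩

/-- the data for the swap -/
theorem data (hL : 1 ≤ L) (hLC : L ≤ C) (hT : WinData L C M T) (hz : ZEq L z z')
    (hzz : ∀ j : ℤ, -(C : ℤ) ≤ j → j < h + C → ¬ (0 ≤ j ∧ j < h) → z j = z' j) :
    ∃ R : ℕ, SwapData h R (fun k : ℕ => z (k : ℤ)) (fun k : ℕ => z' (k : ℤ))
      (Si C h T z z') := by
  obtain ⟨R, hR⟩ := hT.loc
  refine ⟨R + C + h, ?_, ?_, ?_, ?_, ?_⟩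
  · intro x y c hxy hc
    have hrp : ∀ u : Pt, RP C h u x c → RP C h u y c := by
      intro u hu j h1 h2
      rw [← hxy (c + j) (by push_cast; omega) (by push_cast; omega)]
      exact hu j h1 h2
    exact ⟨hR x y c h (fun j h1 h2 => hxy j (by push_cast; omega) (by push_cast; omega)) hc.1,
      hc.2.imp (hrp z) (hrp z')⟩
  · intro x c k
    exact and_congr (hT.cov x c k h) (or_congr rp_tr rp_tr)
  · intro x c hc
    exact hc.2.imp rp_reads rp_reads
  · intro x c c' hc hc' hlt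
    have := hT.sep x c c' h h hc.1 hc'.1 hlt
    omega
  · intro x y ha hb c hc
    exact ⟨hT.zeq x y c h (zeq_new hL hLC hT hz hzz ha hb) hc.1, rp_or hT hzz ha hb hc⟩

end WSwap

open WSwap in
theorem tWSwap : SWSwap := by
  intro L C M h T z z' hL hLC hT _ _ hz hzz
  obtain ⟨R, hR⟩ := data hL hLC hT hz hzz
  obtain ⟨ι, hι, haut, -, hAB, hBA, hch⟩ := swap h R _ _ _ hR
  have ha : ∀ x : Pt, ∀ c : ℤ, Si C h T z z' x c → Reads (ι x) c h (fun k : ℕ => z (k : ℤ)) ∨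
      Reads (ι x) c h (fun k : ℕ => z' (k : ℤ)) := by
    intro x c hc
    rcases hR.core x c hc with h1 | h1
    · exact Or.inr (hAB x c hc h1)
    · exact Or.inl (hBA x c hc h1)
  have hb : ∀ x : Pt, ∀ i : ℤ, x i ≠ ι x i →
      ∃ c : ℤ, Si C h T z z' x c ∧ c ≤ i ∧ i < c + h := fun x i hi => hch x i (Ne.symm hi)
  refine ⟨ι, hι, ⟨R + h, haut⟩, ?_, ?_, ?_, ?_⟩
  · intro x
    exact (zeq_new hL hLC hT hz hzz (ha x) (hb x)).symm
  · intro x c h1 h2
    have hc : Si C h T z z' x c := ⟨h1, Or.inl h2⟩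
    exact rp_new hT hzz (hb x) hc (Or.inr rfl) (hAB x c hc (rp_reads h2))
  · intro x c h1 h2
    have hc : Si C h T z z' x c := ⟨h1, Or.inr h2⟩
    exact rp_new hT hzz (hb x) hc (Or.inl rfl) (hBA x c hc (rp_reads h2))
  · intro x i hi
    obtain ⟨c, hc, h1, h2⟩ := hch x i hi
    exact ⟨c, hc.1, hc.2, h1, h2⟩

end Pool.MP_5a0708_an.Nil
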