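import Pool.Agent.Lib.MP_5a0708_an.Nil.BET
import Pool.Agent.Lib.MP_5a0708_an.Nil.CAOF
import Pool.Agent.Lib.MP_5a0708_an.Nil.CELLT
import Pool.Agent.Lib.MP_5a0708_an.Nil.CLA
import Pool.Agent.Lib.MP_5a0708_an.Nil.CNG
import Pool.Agent.Lib.MP_5a0708_an.Nil.CNT
import Pool.Agent.Lib.MP_5a0708_an.Nil.COD
import Pool.Agent.Lib.MP_5a0708_an.Nil.CUT
import Pool.Agent.Lib.MP_5a0708_an.Nil.CutQ
import Pool.Agent.Lib.MP_5a0708_an.Nil.DEC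
import Pool.Agent.Lib.MP_5a0708_an.Nil.EF
import Pool.Agent.Lib.MP_5a0708_an.Nil.EFL
import Pool.Agent.Lib.MP_5a0708_an.Nil.ENDT
import Pool.Agent.Lib.MP_5a0708_an.Nil.EPS
import Pool.Agent.Lib.MP_5a0708_an.Nil.ETA
import Pool.Agent.Lib.MP_5a0708_an.Nil.ETB
import Pool.Agent.Lib.MP_5a0708_an.Nil.ETC
import Pool.Agent.Lib.MP_5a0708_an.Nil.ETD
import Pool.Agent.Lib.MP_5a0708_an.Nil.ETE
import Pool.Agent.Lib.MP_5a0708_an.Nil.EW
import Pool.Agent.Lib.MP_5a0708_an.Nil.FIN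
import Pool.Agent.Lib.MP_5a0708_an.Nil.FW
import Pool.Agent.Lib.MP_5a0708_an.Nil.GA
import Pool.Agent.Lib.MP_5a0708_an.Nil.GB
import Pool.Agent.Lib.MP_5a0708_an.Nil.GC
import Pool.Agent.Lib.MP_5a0708_an.Nil.GK
import Pool.Agent.Lib.MP_5a0708_an.Nil.KM
import Pool.Agent.Lib.MP_5a0708_an.Nil.LSW
import Pool.Agent.Lib.MP_5a0708_an.Nil.LYN
import Pool.Agent.Lib.MP_5a0708_an.Nil.MOV
import Pool.Agent.Lib.MP_5a0708_an.Nil.MidA
import Pool.Agent.Lib.MP_5a0708_an.Nil.MidB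
import Pool.Agent.Lib.MP_5a0708_an.Nil.NRM
import Pool.Agent.Lib.MP_5a0708_an.Nil.PC
import Pool.Agent.Lib.MP_5a0708_an.Nil.PCN
import Pool.Agent.Lib.MP_5a0708_an.Nil.PQD
import Pool.Agent.Lib.MP_5a0708_an.Nil.PQS
import Pool.Agent.Lib.MP_5a0708_an.Nil.QUO
import Pool.Agent.Lib.MP_5a0708_an.Nil.RR
import Pool.Agent.Lib.MP_5a0708_an.Nil.SCA
import Pool.Agent.Lib.MP_5a0708_an.Nil.THT
import Pool.Agent.Lib.MP_5a0708_an.Nil.TWD
import Pool.Agent.Lib.MP_5a0708_an.Nil.UPH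
import Pool.Agent.Lib.MP_5a0708_an.Nil.WSwap

/-!
# MP_5a0708_an, package Nil : assembly up to the window lemma
-/

set_option autoImplicit false

namespace Pool.MP_5a0708_an.Nil

theorem pre_ew (hW : SWIN) : SEW := tEW hW tTWD

theorem pre_endt (hW : SWIN) : SENDT := tENDT (pre_ew hW)

theorem all_cut : SCUT := tCUT tMidA (tMidB tMidA)

theorem all_cutQ : SCutQ := tCutQ tMidA

theorem all_ga : SGA := tGA tDEC

theorem all_gk : SGK := tGK tKM (tCOD tCNT) tDEC all_ga (tGB tDEC all_ga) (tGC tDEC all_ga)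

theorem all_pqs : SPQS := tPQS (tPQD tUPH) tSCA

theorem pre_fin (hW : SWIN) : SFIN :=
  tFIN tCAOF (tPC (tPCN (tMOV all_pqs tLYN tRR) tRR) (tCELLT all_cut all_cutQ (pre_endt hW))) tRR
    (tTHT all_gk (tEF (tEFL (tLSW tSCA tFW))) (tBET all_cut all_cutQ (pre_endt hW)) tCLA all_cut
      all_cutQ (pre_endt hW)
      (tEPS (pre_ew hW) (tETB tETA) (tETC tETA) (tETD (tETC tETA)) (tETE tETA)) (tCNG tNRM) tNRM)
    (tCNG tNRM) tNRM tQUO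

end Pool.MP_5a0708_an.Nil
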