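import Pool.Agent.Lib.MP_5a0708_an.Nil.Base

/-!
# MP_5a0708_an, package Nil : the modules, part A (windows, cut-off)

Every `def S... : Prop` is a module.  A module file `Nil/<Name>.lean` proves
`theorem t<Name> : S<Name>` (or `theorem t<Name> (h1 : SXxx) ... : S<Name>` when the docstring says
that `SXxx` may be used).  Use `Nil/Base.lean` (Agr, NoZ, ZEq, LEnd, REnd, Clu, CA, ...) and the
library `Pool.Agent.Lib.MP_5a0708_an.*` (`swap : Swap`, `chl : CHL`, `mir_mem_G chl`, ...).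
-/

set_option autoImplicit false

namespace Pool.MP_5a0708_an.Nil

/-! ## 1. Normality -/

/-- **NRM**.  `G` is normalised by the group `Au` of all automorphisms.
Proof: `Subgroup.closure_induction` for `g`.  Products and inverses: clear.  `g = trE 1`:
`θ * trE 1 * θ⁻¹ = trE 1` because `θ` commutes with `tr 1` (`IsAut.comm`).  `g = ι` an involution:
`θ ι θ⁻¹` is an automorphism (`G_le_Au`, `Au` is a subgroup) and squares to `1`; apply
`IsAut.isInv` and `isInv_mem_G`. -/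
def SNRM : Prop := ∀ θ g : Equiv.Perm Pt, θ ∈ Au → g ∈ G → θ * g * θ⁻¹ ∈ G

/-- **CNG** (uses `SNRM`).  Congruence of commutators mod `G`.  Proof: work in the quotient
of `Au` by the normal subgroup `G.subgroupOf Au`, or directly: write `a' = g a`, `b' = h b` with
`g, h ∈ G`; then `cm a' b' = g a h b a⁻¹ g⁻¹ b⁻¹ h⁻¹`, move the elements of `G` to the left
using normality (conjugates of elements of `G` by `a`, `b`, `a b a⁻¹`, ... are in `G`). -/
def SCNG : Prop := ∀ a a' b b' : Equiv.Perm Pt, a ∈ Au → a' ∈ Au → b ∈ Au → b' ∈ Au →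
  a' * a⁻¹ ∈ G → b' * b⁻¹ ∈ G → cm a' b' * (cm a b)⁻¹ ∈ G

/-- **QUO**.  An abstract fact on groups: if all triple commutators are trivial then
`[a^e, b] = [a, b]^e`.  Proof: `z = [a, b]` commutes with everything.  Induction on `e`:
`[a^(e+1), b] = a^(e+1) b a^(-e-1) b⁻¹ = a (a^e b a^(-e) b⁻¹) b a⁻¹ b⁻¹ = a z^e b a⁻¹ b⁻¹ =
z^e [a, b]`. -/
def SQUO : Prop := ∀ (Q : Type) [Group Q], (∀ d a b : Q,
    d * (a * b * a⁻¹ * b⁻¹) * d⁻¹ * (a * b * a⁻¹ * b⁻¹)⁻¹ = 1) →
  ∀ (a b : Q) (e : ℕ), a ^ e * b * (a ^ e)⁻¹ * b⁻¹ = (a * b * a⁻¹ * b⁻¹) ^ e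

/-- **CAOF** (uses `main_both` of `Main.lean`).  Every automorphism is a cluster automorphism
modulo `G`.  Proof: `main_both` gives `ψ ∈ G` and `L0` such that `ψ * θ` preserves the blocks `0^L`
exactly for all `L ≥ L0`.  Let `r` be a radius of `ψ * θ` (`G_le_Au`, `Au.mul_mem`),
`L1 = max L0 (max r 1)`, `L ≥ L1`, `φ = ψ * θ`.  `cl`: let `ZOn x (s - L) s`, `y = glue zpt x s`.
For `i < s`: `y` vanishes on `[i + 1 - L, i + 1)`, so `φ y i = false` by `zp` (here `1 ≤ L`).  For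
`i ≥ s`: `x` and `y` agree on `[s - L, ∞)`, which contains `[i - r, i + r]`, so `φ y i = φ x i`.
`cr`: symmetric. -/
def SCAOF : Prop := ∀ θ : Equiv.Perm Pt, θ ∈ Au → ∃ ψ : Equiv.Perm Pt, ψ ∈ G ∧ ∃ L0 : ℕ,
  ∀ L : ℕ, L0 ≤ L → CA L (ψ * θ)

/-! ## 2. The window lemma -/

/-- `T x c h` : `[c, c+h)` is a window of `x`. -/
structure WinData (L C M : ℕ) (T : Pt → ℤ → ℕ → Prop) : Prop where
  loc : ∃ R : ℕ, ∀ (x y : Pt) (c : ℤ) (h : ℕ), (∀ j : ℤ, c - R ≤ j → j ≤ c + R → x j = y j) →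
    T x c h → T y c h
  cov : ∀ (x : Pt) (c k : ℤ) (h : ℕ), T (tr k x) c h ↔ T x (c + k) h
  zeq : ∀ (x y : Pt) (c : ℤ) (h : ℕ), ZEq L x y → T x c h → T y c h
  bd : ∀ (x : Pt) (c : ℤ) (h : ℕ), T x c h → h ≤ M
  uniq : ∀ (x : Pt) (c : ℤ) (h h' : ℕ), T x c h → T x c h' → h = h'
  sep : ∀ (x : Pt) (c c' : ℤ) (h h' : ℕ), T x c h → T x c' h' → c < c' → c + h + C ≤ c'

/-- `x` reads `z` on the window `[c, c+h)` and on its two contexts of length `C` -/
def RP (C h : ℕ) (z x : Pt) (c : ℤ) : Prop :=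
  ∀ j : ℤ, -(C : ℤ) ≤ j → j < h + C → x (c + j) = z j

/-- **WSwap** (uses `swap`).  `z`, `z'` have the same blocks `0^L`, the window `[0,h)`, and
agree on the contexts.  Apply `swap` to `A k = z k`, `B k = z' k` (`k : ℕ`) and the sites
`S x c := T x c h ∧ (RP C h z x c ∨ RP C h z' x c)`; `SwapData h (R + C + h) A B S`:
`loc`, `cov`, `core` clear; `disj` by `sep`.  `mono`: let `y` read `A` or `B` at all sites of `x` and
`x = y` outside the cores of the sites of `x`.  For a site `c` of `x`: by `sep` (and `uniq`) no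
core of another site meets `[c - C, c + h + C)`, so `y = x` on the two contexts of `c`, and `y`
reads `z` or `z'` on `[c, c+h)`; as `z`, `z'` agree on the contexts, `RP C h z y c ∨ RP C h z' y c`.
`ZEq L x y`: let `[i, i+L)` be given.  If it meets no core, `x = y` there.  Otherwise it meets the
core of a site `c`, so it lies in `[c - L, c + h + L)`, inside `[c - C, c + h + C)`; there `x` reads
`z` or `z'` and `y` reads `z` or `z'` (translated by `c`), and `z`, `z'` have the same blocks.  So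
`T y c h` by `zeq`.
The involution `ι` from `swap` has the required properties: `ZEq L (ι x) x` by the same argument
(`ι x` reads `z` or `z'` at the sites of `x` and is unchanged elsewhere). -/
def SWSwap : Prop := ∀ (L C M h : ℕ) (T : Pt → ℤ → ℕ → Prop) (z z' : Pt), 1 ≤ L → L ≤ C →
  WinData L C M T → T z 0 h → T z' 0 h → ZEq L z z' →
  (∀ j : ℤ, -(C : ℤ) ≤ j → j < h + C → ¬ (0 ≤ j ∧ j < h) → z j = z' j) →
  ∃ ι : Equiv.Perm Pt, IsInv ι ∧ (∃ r : ℕ, IsAut r ι) ∧ (∀ x : Pt, ZEq L (ι x) x) ∧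
    (∀ (x : Pt) (c : ℤ), T x c h → RP C h z x c → RP C h z' (ι x) c) ∧
    (∀ (x : Pt) (c : ℤ), T x c h → RP C h z' x c → RP C h z (ι x) c) ∧
    (∀ (x : Pt) (i : ℤ), ι x i ≠ x i →
      ∃ c : ℤ, T x c h ∧ (RP C h z x c ∨ RP C h z' x c) ∧ c ≤ i ∧ i < c + h)

/-- **WIN** (uses `SWSwap`).  An automorphism that preserves the blocks `0^L`, changes only
letters in windows, and whose action on a window depends only on the window with its contexts of
length `C`, is in `G`.  Model: `cellFix` in `CellFix.lean`.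
Write `(W)` for the third hypothesis (dependence) and `(E)` for the last one.
(0) If `T x c h` then `ε x = x` on `[c - C, c)` and on `[c+h, c+h+C)` (by `(E)`, `sep`, `uniq`).
Hence if `T x c h`, `T y c h` and `Agr x y (c-C) (c+h+C)` then also `Agr (ε x) (ε y) (c-C) (c+h+C)`.
(1) For `x`, `c`, `h` let `pat x c h : List Bool` be the word of `x` on `[c - C, c + h + C)` (length
`h + 2C ≤ M + 2C`, so it is in `Std (M + 2C + 1)`; the length determines `h`).  A word `u` is bad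
for `ε` if there are `x`, `h` with `T x 0 h`, `pat x 0 h = u` and `ε x k ≠ x k` for some
`0 ≤ k < h`.  By `(W)` and covariance: if `T x c h` and `pat x c h` is not bad then `ε x = x` on
`[c, c+h)`.  Induction on the number of bad words (`Finset.filter` of `Std (M+2C+1)`), for all `ε`
(with any radius) satisfying the hypotheses.
(2) No bad word: `ε x = x` for all `x` by `(E)`, `ε = 1 ∈ G`.
(3) Otherwise let `u` be bad, `x0`, `h` as in the definition, `z = x0`, `z' = ε x0`.  `T z' 0 h` by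
`zeq`; the contexts agree by (0); let `ι` be the involution of `SWSwap`, `ε' = ι * ε`.
`ε'` satisfies the hypotheses: `ZEq` clear, `(E)`: a changed letter is changed by `ε` at `x` or by
`ι` at `ε x`; windows of `ε x` are windows of `x` by `zeq`.  `(W)`: if `T x c h1`, `T y c h1`,
`Agr x y (c-C) (c+h1+C)` then by (0) `ε x`, `ε y` agree on `[c-C, c+h1+C)`; for
`i ∈ [c, c+h1)`: if `ι (ε x) i ≠ ε x i` there is a window `c2` of length `h` of `ε x` with `i` inside,
so `c2 = c`, `h = h1` (by `sep`, `uniq`), `ε x` reads `z` or `z'` around `c`, so does `ε y`, and both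
images read `z'` (or `z`) there.  The same with `x`, `y` exchanged.
(4) `u` is not bad for `ε'`: let `T x 0 h'`, `pat x 0 h' = u`; then `h' = h` and `x` reads `z` around
0; `ε x` reads `z'` around 0 (by `(W)` and (0)); `ι (ε x)` reads `z`, so equals `x` on `[0,h)`.
(5) If `v` is not bad for `ε` it is not bad for `ε'`: let `T x 0 h'`, `pat x 0 h' = v` and
`ι (ε x) k ≠ x k`, `0 ≤ k < h'`.  `ε x = x` on `[0, h')` (not bad), so on `[-C, h'+C)` by (0).
`ι (ε x) k ≠ ε x k` gives a window `c2` of length `h` containing `k`, so `c2 = 0`, `h' = h`, and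
`ε x` reads `z` or `z'` around 0, hence `x` does.  If `x` reads `z`: then by `(W)` `ε x = ε x0 = z'` on
`[0,h)`, and `ε x = x = z`; so `z = z'` on `[0,h)`, against the choice of `x0`.  If `x` reads `z'`:
let `w` be `x` with the letters on `[0,h)` replaced by those of `z`.  `w` reads `z` around 0;
`ZEq L w x` (a block meeting `[0,h)` lies in `[-L, h+L)`, where `w = z`, `x = z'`), so `w` and `x` have
the same windows.  `ε w = ε x`: on `[0,h)`: `ε w = ε x0 = z' = x = ε x`.  On another window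
`[c1, c1+h1)`: `w = x` on `[c1-C, c1+h1+C)` by `sep`, use `(W)`.  Outside all windows:
`ε w = w = x = ε x` by `(E)`.  So `w = x`, `z = z'` on `[0,h)`, a contradiction. -/
def SWIN : Prop := ∀ (L C M r : ℕ) (T : Pt → ℤ → ℕ → Prop) (ε : Equiv.Perm Pt), 1 ≤ L → L ≤ C →
  WinData L C M T → IsAut r ε → (∀ x : Pt, ZEq L (ε x) x) →
  (∀ (x y : Pt) (c : ℤ) (h : ℕ), T x c h → T y c h → Agr x y (c - C) (c + h + C) →
    Agr (ε x) (ε y) c (c + h)) →
  (∀ (x : Pt) (i : ℤ), ε x i ≠ x i → ∃ (c : ℤ) (h : ℕ), T x c h ∧ c ≤ i ∧ i < c + h) → ε ∈ G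

/-- The end windows: `[s+A, s+B)` for a left end `s` of a long cluster, `[t-B, t-A)` for a right
end `t` of a long cluster, `[s+A, t-A)` for a cluster `[s,t)` with `t + L ≤ s + H`. -/
def TW (L A B H : ℕ) (x : Pt) (c : ℤ) (h : ℕ) : Prop :=
  ((h : ℤ) = B - A ∧ LEnd L x (c - A) ∧ NoZ L x (c - A) (c - A + H)) ∨
  ((h : ℤ) = B - A ∧ REnd L x (c + h + A) ∧ NoZ L x (c + h + A - H) (c + h + A)) ∨
  (0 < h ∧ h + 2 * A + L ≤ H ∧ Clu L x (c - A) (c + h + A))

/-- **TWD**.  The end windows form window data with context `C = A + Co`.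
`loc`: everything is determined on `[c - A - H - L, c + 2 H + 2 A + L]`; `cov`: `lend_tr`,
`rend_tr`, `clu_tr`, `noz_tr`; `zeq`: `LEnd.zeq`, `REnd.zeq`, `Clu.zeq`, `NoZ.zeq`; `bd`: clear.
`uniq`: types (a), (b) have the same `h`.  (a) and (c) at the same `c`: `s = c - A` is the same;
the cluster has a block at `t` with `t + L ≤ s + H`, `t > s`, against `NoZ x s (s+H)`.
(b) and (c) at the same `c`, with `t' = c + (B-A) + A` and a cluster `[s,t)`, `s = c - A`: the block
`[s-L, s)` has `s - L ≥ t' - H`, `s ≤ t'`, against `NoZ x (t'-H) t'`.  (c), (c): the same `s`, and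
`t = t'` by `Clu.start`.
`sep`: let `c < c'` be windows, `C = A + Co`.  Facts: (i) a block `[b, b+L)` with `b + L > s` where
`x s = 1` has `b > s` (it does not contain `s`).
(a),(a) and (a),(c): `s = c - A < s' = c' - A`; the block `[s'-L, s')` begins after `s` and is not
inside `[s, s+H)`, so `s' > s + H`, and `c' = s' + A > s + H + A ≥ s + B + A + Co = c + h + C`.
(a),(b): `s = c - A`, `t' = c' + h' + A`, `c' = t' - B > s + A`, so `t' > s`, and the block at `t'` is
not in `[s, s+H)`: `t' + L > s + H`, `c' = t' - B > s + H - L - B ≥ s + B + A + Co`.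
(b),(a) and (b),(c): `t = c + h + A`, `s' = c' - A`; `c + h + C = t + Co` and it is enough to have
`s' ≥ t + L` (then `c' = s' + A ≥ t + L + A ≥ t + Co`).  `s' ≠ t` as `x s' = 1`, `x t = 0`.  If
`s' > t`: the zeros `[t, t+L)` do not contain `s'`, so `s' ≥ t + L`.  If `s' < t`: the block
`[s'-L, s')` is inside `[t-H, t)`, impossible, or `s' - L < t - H`, then
`c' = s' + A < t - H + L + A ≤ t - B = c`, impossible.
(b),(b): `t < t'`: the block `[t, t+L)` does not contain `t'-1` (`x (t'-1) = 1`), so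
`t + L ≤ t' - 1`, it is inside `[t'-H, t')` unless `t < t' - H`; so `c' = t' - B > t + H - B ≥ t + Co`.
(c),(a) and (c),(c): `s < s'`: the block `[s'-L, s')` begins after `s`, so by `Clu.start` it begins at
or after `t`: `s' ≥ t + L`, `c' = s' + A ≥ t + L + A ≥ t + Co = c + h + C`.
(c),(b): `t' > s` and the block at `t'` begins after `s`, so `t' ≥ t` by `Clu.start`.  `t' = t`: the
block `[s-L, s)` is inside `[t-H, t)` because `t + L ≤ s + H`, impossible.  `t' > t`: as in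
(b),(b): `t < t' - H`. -/
def STWD : Prop := ∀ (L A B Co H : ℕ), 1 ≤ L → L ≤ Co → Co ≤ A + L → A < B →
  2 * B + A + Co + L ≤ H → WinData L (A + Co) H (TW L A B H)

/-- **EW** (uses `SWIN`, `STWD`).  Apply `SWIN` with `C = A + Co`, `M = H`, `T = TW L A B H`.
`(E)`: let `ε x i ≠ x i`.  `i` is in no block `0^L` of `x` (it would be a block of `ε x` too,
and both values would be `false`); so for every block `[e, e+L)`: `e + L ≤ i ∨ i < e`.
The first hypothesis gives `NoZ x (i-A-L+1) (i+A+L)` and a block `[b, b+L)` inside `[i-B, i+B)`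
(`not_noz`).  Case `b + L ≤ i`: `exists_lend` gives `s` with `b + L ≤ s ≤ i`, `LEnd x s`,
`NoZ x (s-L+1) (i+L)`.  `i < s + B` as `s ≥ b + L ≥ i - B + L`.  `s ≤ i - A`, since the block
`[s-L, s)` is not inside `[i-A-L+1, i+A+L)`.  If `NoZ x s (s+H)`: a window of type (a), `c = s + A`,
`h = B - A`.  Otherwise there is a block `[b', b'+L)` inside `[s, s+H)` (`not_noz`); it is not left
of `i` by `NoZ x (s-L+1) (i+L)`, so `i < b'`; `exists_rend` gives `t ≤ b'`, `i < t`, `REnd x t`,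
`NoZ x (i-L+1) (t+L-1)`; merge: `NoZ x s t`, so `Clu x s t`, `t + L ≤ s + H`; `i < t - A` since the
block `[t, t+L)` is not inside `[i-A-L+1, i+A+L)`.  So a window of type (c).
Case `i < b`: symmetric: `exists_rend` gives `t`; `i ≥ t - B`, `i < t - A`; type (b) or, with
`exists_lend` from a block inside `[t-H, t)`, type (c) (`s ≥ b' + L`, `b' ≥ t - H`, so
`t + L ≤ s + H`).
`(W)`: let `TW x c h`, `TW y c h`, `Agr x y (c-C) (c+h+C)`.  If `x` has type (a), `s = c - A`: the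
block `[s-L, s)` and the one at `s` lie in `[c-C, c+h+C)` (`Co ≥ L`), so `LEnd y s`.  `y` has not type
(b): `t' = c + h + A = s + B + A`, `s - L ≥ t' - H`, against `NoZ y (t'-H) t'`; not type (c): `y` would
have a block at `t' = c + h + A`, `t' + L ≤ c + h + C`, so `x` has it too, and
`t' + L = s + A + B + L ≤ s + H`, against `NoZ x s (s+H)`.  So both have type (a): use the second
hypothesis (`s - Co = c - C`, `s + A = c`, `s + B = c + h`).  If `x` has type (b),
`t = c + h + A`: symmetric (`y` has not type (a): exchange `x` and `y` in the above; not type (c):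
`y` has a block `[s'-L, s')` with `s' = c - A`, in the region of agreement, so `x` has it, and
`s' - L = t - B - A - L ≥ t - H`, against `NoZ x (t-H) t`).  If `x` has type (c): `y` has not type (a),
(b) by the above with `x`, `y` exchanged, so `y` has type (c) with the same `s`, `t`: use the last
hypothesis. -/
def SEW : Prop := ∀ (L A B Co H r : ℕ) (ε : Equiv.Perm Pt), 1 ≤ L → L ≤ Co → Co ≤ A + L →
  A < B → 2 * B + A + Co + L ≤ H → IsAut r ε → (∀ x : Pt, ZEq L (ε x) x) →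
  (∀ (x : Pt) (i : ℤ), ε x i ≠ x i →
    NoZ L x (i - A - L + 1) (i + A + L) ∧ ¬ NoZ L x (i - B) (i + B)) →
  (∀ (x y : Pt) (s : ℤ), LEnd L x s → LEnd L y s → NoZ L x s (s + H) → NoZ L y s (s + H) →
    Agr x y (s - Co) (s + B) → Agr (ε x) (ε y) (s + A) (s + B)) →
  (∀ (x y : Pt) (t : ℤ), REnd L x t → REnd L y t → NoZ L x (t - H) t → NoZ L y (t - H) t →
    Agr x y (t - B) (t + Co) → Agr (ε x) (ε y) (t - B) (t - A)) →
  (∀ (x y : Pt) (s t : ℤ), Clu L x s t → Clu L y s t → t + L ≤ s + H →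
    Agr x y (s - Co) (t + Co) → Agr (ε x) (ε y) (s + A) (t - A)) → ε ∈ G

/-- **ENDT** (uses `SEW`).  A cluster automorphism that is trivial far from all blocks is in
`G`.  Let `r` be a radius of `ε`.  Apply `SEW` with `A = 0`, `Co = L`, `B = H0 + r + 1`,
`H = 2 B + 2 L + H0`.  First hypothesis: if `ε x i ≠ x i` then `i` is in no block of `x` (`zp`), which is
`NoZ x (i-L+1) (i+L)` (a block inside this interval contains `i`); and not
`NoZ x (i-B) (i+B)` since it would imply `NoZ x (i-H0) (i+H0)`.  Second: `CA.agrL` with `b = s + B`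
gives `ε x = ε y` on `[s, s + B - r)`; for `i ∈ [s + B - r, s + B)` the interval
`[i - H0, i + H0)` lies in `[s, s+H)`, so `ε x i = x i`, `ε y i = y i`.  Third: the same with
`CA.agrR`.  Fourth: `CA.agrLR`. -/
def SENDT : Prop := ∀ (L H0 : ℕ) (ε : Equiv.Perm Pt), 1 ≤ L → CA L ε →
  (∀ (x : Pt) (i : ℤ), NoZ L x (i - H0) (i + H0) → ε x i = x i) → ε ∈ G

/-! ## 3. The cut-off -/

/-- a one at distance more than `R` from all blocks -/
def Gp (L R : ℕ) (x : Pt) (k : ℤ) : Prop := x k = true ∧ NoZ L x (k - R) (k + 1 + R)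

/-- the middle parts of the clusters -/
def Mid (L R : ℕ) (x : Pt) (i : ℤ) : Prop := ∃ k l : ℤ, Gp L R x k ∧ Gp L R x l ∧ k ≤ i ∧
  i ≤ l ∧ k + R ≤ l ∧ NoZ L x k (l + 1)

open Classical in
/-- `x` with zeros outside the middle parts -/
noncomputable def mid (L R : ℕ) (x : Pt) : Pt := fun i => if Mid L R x i then x i else false

open Classical in
/-- the cut-off of `θ` -/
noncomputable def cutF (L R : ℕ) (θ : Pt → Pt) (x : Pt) : Pt := fun i =>
  if Mid L R x i then θ (mid L R x) i else x i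

/-- **MidA**.  Facts on `Mid` (`1 ≤ L ≤ R`).
(1) Let `k, l` be as in `Mid x i`; merging `NoZ x (k-R) (k+1+R)`, `NoZ x k (l+1)`,
`NoZ x (l-R) (l+1+R)` (`NoZ.merge`, `L ≤ R + 1`) gives `NoZ x (k-R) (l+1+R)`.
(2) Let `Mid x i`, not `Mid x (i-1)`.  In a pair `k ≤ i ≤ l` for `i` one has `k = i` (otherwise the
same pair works for `i - 1`).  So `Gp x i`, and `Mid x j` for `i ≤ j ≤ i + R` (the same pair, `i + R ≤ l`).
Suppose `Mid x j` with `i - R ≤ j < i`, so `j < i - 1`.  Let `k' ≤ j ≤ l'` be a pair for `j`; `l' < i - 1`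
(otherwise the pair works for `i - 1`).  `NoZ x (l'-R) (l'+1+R)` contains `[l', i+1)`.  Merging
`NoZ x (k'-R) (l'+1+R)` (from (1)) and `NoZ x (i-R) (l+1+R)` gives `NoZ x k' (l+1)`, so `k', l` is a
pair for `i - 1`, a contradiction.  (3) the mirror image of (2).
(4) `Mid x i` depends only on `x` on `[i - ρ, i + ρ]`, `ρ = 4R + 4L`: let `k ≤ i ≤ l` be a pair.
There is a pair `k1 ≤ i ≤ l1` with `i - k1 ≤ R + L`, `l1 - i ≤ 2R + 2L`: if `i - k ≤ R + L` let
`k1 = k`, otherwise let `k1` be a one in `[i - R - L, i - R)` (exists by `NoZ.one`).  If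
`l - i ≤ 2R + 2L` let `l1 = l`, otherwise let `l1` be a one in `[i + R, i + R + L)`.  All four combinations
satisfy `k1 + R ≤ l1`, except that for `k1 = k` and `l1 = l` this is given; `Gp` holds for ones in
`[k, l]` because `NoZ x (k-R) (l+1+R)`.  All data of the pair `k1, l1` are in `[i - ρ, i + ρ]`.
(5) covariance: translate `k`, `l`.  (6) if `NoZ x (i - (2R+2L)) (i + (2R+2L))` then `Mid x i`: take a
one `k ∈ (i - L, i]` and a one `l ∈ [i + R, i + R + L)`. -/
def SMidA : Prop := ∀ (L R : ℕ), 1 ≤ L → L ≤ R →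
  (∀ (x : Pt) (i : ℤ), Mid L R x i → NoZ L x (i - R) (i + 1 + R)) ∧
  (∀ (x : Pt) (i : ℤ), Mid L R x i → ¬ Mid L R x (i - 1) → Gp L R x i ∧
    (∀ j : ℤ, i ≤ j → j ≤ i + R → Mid L R x j) ∧ ∀ j : ℤ, i - R ≤ j → j < i → ¬ Mid L R x j) ∧
  (∀ (x : Pt) (i : ℤ), Mid L R x i → ¬ Mid L R x (i + 1) → Gp L R x i ∧
    (∀ j : ℤ, i - R ≤ j → j ≤ i → Mid L R x j) ∧ ∀ j : ℤ, i < j → j ≤ i + R → ¬ Mid L R x j) ∧
  (∀ (x y : Pt) (i : ℤ), (∀ j : ℤ, i - (4 * R + 4 * L : ℕ) ≤ j → j ≤ i + (4 * R + 4 * L : ℕ) →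
    x j = y j) → Mid L R x i → Mid L R y i) ∧
  (∀ (x : Pt) (i k : ℤ), Mid L R (tr k x) i ↔ Mid L R x (i + k)) ∧
  (∀ (x : Pt) (i : ℤ), NoZ L x (i - (2 * R + 2 * L : ℕ)) (i + (2 * R + 2 * L : ℕ)) → Mid L R x i)

/-- **MidB** (uses `SMidA`).  `u = mid x`, `x' = cutF θ x`.
(1) `¬ Mid x i → θ u i = false`: it is enough to find `b` with `b ≤ i < b + L` and no `Mid` in
`[b, b+L)`: then `ZOn u b (b+L)`, so `ZOn (θ u) b (b+L)`.  If there is no `Mid` in `(i-L, i]` take
`b = i - L + 1`.  Otherwise let `j < i` be the largest element of `Mid` below `i` (`i - j < L`); `j + 1`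
is not `Mid`; by (3) of `SMidA` there is no `Mid` in `(j, j+R]`, take `b = j + 1`.
(2) `Mid x i`, `¬ Mid x (i-1)` imply `θ u i = true`: by (2) of `SMidA` there is no `Mid` in
`[i-R, i)`, so `ZOn u (i-L) i`, `u i = x i = true` (`Gp`); so `LEnd L u i`, and `LEnd L (θ u) i` by
`LEnd.zeq`.  (3) the mirror image.
(4) `ZEq x' x`: (→) let `ZOn x' b (b+L)`.  If no `Mid x j` with `j ∈ [b, b+L)` then `x = x'` there.
If all of `[b, b+L)` is `Mid` then `x' = θ u` and `u = x` there, so `ZOn x b (b+L)` by `zp`.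
Otherwise there are neighbours `j`, `j ± 1` in `[b, b+L)`, the first in `Mid`, the second not, and
`x' j = θ u j = true` by (2), (3); impossible.  (←) let `ZOn x b (b+L)`.  A `j ∈ [b,b+L)` with
`Mid x j` is impossible because `NoZ x (j-R) (j+1+R)` contains the block (`L ≤ R`).  So `x = x'`.
(5) `Mid x' i ↔ Mid x i`.  Blocks are the same by (4), so `NoZ` is the same.
(←) let `k ≤ i ≤ l` be a pair for `x`.  Find `k2 ∈ (k - L, k]` with `Gp x' k2`: by `NoZ.one` for `x'`
(`NoZ x' (k-R) (k+1+R)`) there is `k1 ∈ (k-L, k]` with `x' k1 = true`.  If `Mid x k1`, then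
`NoZ x (k1-R) (k1+1+R)` and `k2 = k1` works.  If not, there is a smallest `k2 > k1` such that
`Mid x k2` (`k2 ≤ k`, as `Mid x k`); `¬ Mid x (k2 - 1)`, so `Gp x k2` and `x' k2 = θ u k2 = true` by (2).
Similarly `l2 ∈ [l, l+L)` with `Gp x' l2`.  `k2 + R ≤ l2`, `NoZ x' k2 (l2+1)` because
`NoZ x (k-R) (l+1+R)`.  (→) let `k ≤ i ≤ l` be a pair for `x'`.  If `¬ Mid x k` then `x k = x' k = true`,
`Gp x k`, `k2 = k`; otherwise `k` is in a pair `[k2, l']` of `x`, `k2 ≤ k`.  The same for `l`.  Merge: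
`NoZ x k2 (l2 + 1)`.  So `k2, l2` is a pair for `x` containing `i`.
(6) `mid x' = θ u`: at `i` with `Mid x i`: `x' i = θ u i`; otherwise both are `false` by (1). -/
def SMidB : Prop := ∀ (L R : ℕ) (θ : Equiv.Perm Pt), 1 ≤ L → L ≤ R → CA L θ →
  (∀ (x : Pt) (i : ℤ), ¬ Mid L R x i → θ (mid L R x) i = false) ∧
  (∀ x : Pt, ZEq L (cutF L R θ x) x) ∧
  (∀ (x : Pt) (i : ℤ), Mid L R (cutF L R θ x) i ↔ Mid L R x i) ∧
  (∀ x : Pt, mid L R (cutF L R θ x) = θ (mid L R x))

/-- **CUT** (uses `SMidA`, `SMidB`).  `θ' x = cutF θ x`, inverse `cutF θ.symm`: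
for `i` with `Mid x i`: `cutF θ.symm (cutF θ x) i = θ.symm (mid (cutF θ x)) i = θ.symm (θ (mid x)) i
= mid x i = x i`; for the other `i`: `cutF θ x i = x i`.  The other composition: the same for
`θ.symm` (`CA.symm`).  `IsAut`: radius `r + 4R + 4L` (`SMidA` (4), (5); `mid (tr k x) = tr k (mid x)`).
`zp`: `SMidB`.  `cl`: let `ZOn x (s-L) s`, `y = glue zpt x s`.  (i) `Mid y i ↔ (s ≤ i ∧ Mid x i)`: for
a pair `k ≤ i ≤ l` of `y`: `y k = true`, so `k ≥ s`, `x k = true`; `NoZ y (k-R) (k+1+R)` with the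
block `[s-L, s)` of `y` gives `k - R > s - L`, so `NoZ x (k-R) (l+1+R)` as `x = y` on `[s-L, ∞)`.
For a pair `k ≤ i ≤ l` of `x` with `s ≤ i`: `k < s` is impossible: then `k < s - L` (`x k = true`)
and the block `[s-L, s)` is inside `[k, l+1)`; so `k ≥ s` and `k - R > s - L`.  (ii) So
`mid y = glue zpt (mid x) s`, and `ZOn (mid x) (s-L) s`; by `cl` for `θ`:
`θ (mid y) = glue zpt (θ (mid x)) s`.  (iii) `cutF θ y i`: for `i < s` it is `y i = false`; for
`i ≥ s` it is `cutF θ x i`.  `cr`: the mirror image. -/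
def SCUT : Prop := ∀ (L R : ℕ) (θ : Equiv.Perm Pt), 1 ≤ L → L ≤ R → CA L θ →
  ∃ θ' : Equiv.Perm Pt, CA L θ' ∧ (∀ x : Pt, θ' x = cutF L R θ x) ∧
    ∀ x : Pt, θ'.symm x = cutF L R θ.symm x

/-- **CutQ** (uses `SMidA`).  Properties of the cut-off.
(q1) if `cutF θ x i ≠ x i` then `Mid x i`; use (1) of `SMidA`.
(q2) for `j ∈ [i-r, i+r]`: `NoZ x (j - (2R+2L)) (j + (2R+2L))`, so `Mid x j` by (6); so `mid x = x` on
`[i-r, i+r]` and `cutF θ x i = θ (mid x) i = θ x i`.
(q3) if `¬ Mid x i`: `cutF θ x i = x i`.  Let `Mid x i`.  If all `j ∈ [i-r, i+r]` are `Mid`, then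
`mid x = x` there, second alternative.  Suppose some `j ∈ [i-r, i)` is not `Mid`; let `k` be the
smallest element with `j < k ≤ i` such that `[k, i]` is contained in `Mid` (the left end of the run
of `i`): `Mid x k`, `¬ Mid x (k-1)`, `i - r ≤ k - 1`.  By (2) of `SMidA`: `Gp x k`, no `Mid` in `[k-R, k)`, which
contains `[i-r, k)` (`2r + 1 ≤ R`), and `Mid` on `[k, k+R]`, which contains `[k, i+r]`.  So on
`[i-r, i+r]` `mid x = glue zpt x k`: third alternative.  If some `j ∈ (i, i+r]` is not `Mid`: the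
mirror image, fourth alternative. -/
def SCutQ : Prop := ∀ (L R r : ℕ) (θ : Pt → Pt), 1 ≤ L → L ≤ R → 2 * r + 1 ≤ R → Loc r θ →
  (∀ (x : Pt) (i : ℤ), cutF L R θ x i ≠ x i → NoZ L x (i - R) (i + 1 + R)) ∧
  (∀ (x : Pt) (i : ℤ), NoZ L x (i - (2 * R + 2 * L + r : ℕ)) (i + (2 * R + 2 * L + r : ℕ)) →
    cutF L R θ x i = θ x i) ∧
  (∀ (x : Pt) (i : ℤ), cutF L R θ x i = x i ∨ cutF L R θ x i = θ x i ∨
    (∃ k : ℤ, i - r ≤ k ∧ k ≤ i ∧ x k = true ∧ NoZ L x (k - R) (k + 1 + R) ∧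
      cutF L R θ x i = θ (glue zpt x k) i) ∨
    (∃ l : ℤ, i ≤ l ∧ l ≤ i + r ∧ x l = true ∧ NoZ L x (l - R) (l + 1 + R) ∧
      cutF L R θ x i = θ (glue x zpt (l + 1)) i))

/-- **CELLT** (uses `SCUT`, `SCutQ`, `SENDT`).  Let `r` be a radius of `θ`, `R = m + L + 2r + 1`,
`θ'` the cut-off (`SCUT`), `ρ = θ' * θ⁻¹`.  `ρ ∈ G` by `SENDT`: `CA L ρ`, and if
`NoZ x (i-H0) (i+H0)` with `H0 = 2R + 2L + r` then with `y = θ⁻¹ x` (same blocks):
`ρ x i = θ' y i = θ y i = x i` by (q2).  `ρ * θ = θ'`, and `θ' x i ≠ x i` implies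
`NoZ x (i-R) (i+1+R)` by (q1), impossible for `i` in a cell of length `≤ m` (the block in front of
the cell is inside this interval). -/
def SCELLT : Prop := ∀ (L m : ℕ) (θ : Equiv.Perm Pt), 1 ≤ L → CA L θ →
  ∃ ρ : Equiv.Perm Pt, ρ ∈ G ∧ CA L ρ ∧ CT L m ⇑(ρ * θ)

end Pool.MP_5a0708_an.Nil
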