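import Pool.Agent.Lib.MP_5a0708_an.Nil.SpecA

/-!
# MP_5a0708_an, package Nil : the modules, part B (periodic points, ends of periodic stretches)
-/

set_option autoImplicit false

namespace Pool.MP_5a0708_an.Nil

/-! ## 4. Swaps that are cluster automorphisms -/

/-- **SCA** (uses `swap`).  A swap whose sites do not look across a block is a cluster
automorphism.  Let `ι` be the involution from `swap`.  Only `CA L ι` is to be shown.
(i) If `S x c` then `x c = true` (`core`, `A 0 = B 0 = true`).  Two points that have a site at `c` and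
agree on `[c, c+h)` have images that agree there (both read `B` or both read `A`).
(ii) A block `[i, i+L)` of `x` does not meet the core `[c, c+h)` of a site: otherwise
`i + L > c ≥ c - a + L`, so `i > c - a`, and by the last hypothesis `i + L > c + b ≥ c + h + L`, `i ≥ c + h`.
(iii) `zp`: `S (ι x) c ↔ S x c`; by (ii) for `x` and for `ι x` a block of `x` or of `ι x` meets no
core of a site, so `x` and `ι x` agree on it.
(iv) `cl`: let `ZOn x (s-L) s`, `y = glue zpt x s` (so `ZOn y (s-L) s`, `y = x` on `[s-L, ∞)`).  For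
`z = x` or `z = y`: if `S z c` and `c - a < s - L` then by the last hypothesis for the block
`[s-L, s)`: `c + b < s`.  For `y` this is impossible (`y c = true` gives `c ≥ s`).  If
`c - a ≥ s - L` then `S x c ↔ S y c` (dependence).  So the sites of `y` are exactly the sites of `x`
with `c - a ≥ s - L`, and their cores are in `[s, ∞)` (`c ≥ s - L + a ≥ s`); all other cores of `x` are
in `(-∞, s)`.  Hence `ι y = glue zpt (ι x) s`.
(v) `cr`: let `ZOn x t (t+L)`, `y = glue x zpt t` (so `y = x` on `(-∞, t+L)`).  For `z = x` or `y`: if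
`S z c` and `c - a < t` then `c + b < t + L` (block at `t`).  If `c + b ≤ t + L` then
`S x c ↔ S y c`.  If `S y c` then `y c = true`, `c < t`, so `c - a < t`.  So the sites of `y` are the
sites of `x` with `c - a < t`; their cores satisfy `c + h ≤ c + b - L < t`; the other sites of `x` have
`c ≥ t + a`, cores in `[t, ∞)`.  Hence `ι y = glue (ι x) zpt t`. -/
def SSCA : Prop := ∀ (L h R a b : ℕ) (A B : ℕ → Bool) (S : Pt → ℤ → Prop), 1 ≤ L → 0 < h →
  A 0 = true → B 0 = true → L ≤ a → h + L ≤ b → SwapData h R A B S →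
  (∀ (x y : Pt) (c : ℤ), Agr x y (c - a) (c + b) → S x c → S y c) →
  (∀ (x : Pt) (c i : ℤ), S x c → ZOn x i (i + L) → c - a < i → c + b < i + L) →
  ∃ ι : Equiv.Perm Pt, IsInv ι ∧ CA L ι ∧ (∀ (x : Pt) (c : ℤ), S (ι x) c ↔ S x c) ∧
    (∀ (x : Pt) (c : ℤ), S x c → Reads x c h A → Reads (ι x) c h B) ∧
    (∀ (x : Pt) (c : ℤ), S x c → Reads x c h B → Reads (ι x) c h A) ∧
    (∀ (x : Pt) (i : ℤ), ι x i ≠ x i → ∃ c : ℤ, S x c ∧ c ≤ i ∧ i < c + h)

/-! ## 5. Swaps of periodic orbits -/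

/-- the word of `p` on `[0,n)` has no border (no period `d < n`) -/
def Unb (n : ℕ) (p : Pt) : Prop := ∀ d : ℕ, 0 < d → d < n →
  ∃ k : ℕ, k + d < n ∧ p (k : ℤ) ≠ p ((k : ℤ) + d)

/-- the data for a swap of two orbits of period `n`: `u = p` on `[0,n)`, `v = q` on `[0,n)` -/
structure PQ (n : ℕ) (p q : Pt) : Prop where
  hp : LP n p
  hq : LP n q
  p0 : p 0 = true
  q0 : q 0 = true
  unb : Unb n p
  orb : ¬ Orb p q

/-- the block of `x` at `c` is `u` or `v` -/
def UV (n : ℕ) (p q x : Pt) (c : ℤ) : Prop :=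
  (∀ k : ℤ, 0 ≤ k → k < n → x (c + k) = p k) ∨ (∀ k : ℤ, 0 ≤ k → k < n → x (c + k) = q k)

/-- the site: the block at `c` and the `D` blocks on each side are `u` or `v` -/
def SPQ (n D : ℕ) (p q x : Pt) (c : ℤ) : Prop :=
  ∀ j : ℤ, -(D : ℤ) ≤ j → j ≤ D → UV n p q x (c + j * n)

/-- **UPH** (unique phase).  Write `u`, `v` for the words of `p`, `q` on `[0,n)`.
Claim: if the blocks at `c`, `c+n` are in `{u, v}` and `0 < d < n` then `x` does not read `u` at
`c + d`.  Cases: `u u`: `x (c+k) = p k` for `0 ≤ k < 2n` (`p` is `n`-periodic), reading `u` at `c + d`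
gives `p (d+k) = p k` for `0 ≤ k < n`, against `unb` (`d`).  `u v`: `p (d+k) = p k` for `0 ≤ k`,
`d + k < n`, against `unb`.  `v u`: with `d' = n - d`: for `0 ≤ j < n - d'` take `k = j + d'`:
`x (c+d+k) = x (c+n+j) = p j` and `= p k = p (j + d')`, against `unb` for `d'`.  `v v`: `x (c+k) = q k` for
`0 ≤ k < 2n`, so `q (d+k) = p k` for `0 ≤ k < n`, and by periodicity `p = tr d q`, against `orb`.
Now the lemma: by the claim for `c, c+n` and for `c+n, c+2n` the blocks at `c+d`, `c+d+n` are `v v`.  The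
claim for the blocks at `c' = c + d`, `c' + n` and the shift `d' = n - d` says that the block at
`c' + d' = c + n` is not `u`, so it is `v`.  So for `0 ≤ k < n`: `x (c+n+k) = q k`, and
`x (c+n+k) = x (c' + (n - d + k)) = q (n - d + k)` (`n - d + k < 2n`).  So `Per (n-d) q`
(by `n`-periodicity of `q` it is enough to have it for `0 ≤ k < n`), against the least period `n`. -/
def SUPH : Prop := ∀ (n : ℕ) (p q : Pt), PQ n p q → ∀ (x : Pt) (c : ℤ) (d : ℕ), 0 < d → d < n →
  UV n p q x c → UV n p q x (c + n) → UV n p q x (c + 2 * n) → UV n p q x (c + d) →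
  UV n p q x (c + d + n) → False

/-- **PQD** (uses `SUPH`).  `loc`: the site at `c` depends on `[c - Dn, c + (D+1)n)`.
`cov`, `core` (`j = 0`) clear.  `disj`: let `c < c' < c + n` be sites, `d = c' - c`: the blocks at
`c - n, c, c + n` and at `c' - n = (c - n) + d`, `c'` contradict `SUPH`.
`mono`: let `y` read `u` or `v` at all sites of `x`, `y = x` outside the cores, `S x c`, `|j| ≤ D`,
`e = c + j n`.  If `e` is a site of `x` fine.  Otherwise suppose `y i ≠ x i` for some `i ∈ [e, e+n)`;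
then `i` is in the core of a site `c1 ≠ e` of `x`, `|c1 - e| < n`.  There is `e' ∈ {e - 2n, e - n, e}`
such that `e', e'+n, e'+2n` are all of the form `c + j' n`, `|j'| ≤ D` (`D ≥ 1`).  Let
`d = (c1 - e) mod n ∈ (0, n)`; the blocks at `e' + d`, `e' + d + n` are of the form `c1 + j'' n` with
`|j''| ≤ 2 ≤ D`.  Contradiction to `SUPH`.  So `y = x` on `[e, e+n)` and `UV y e`. -/
def SPQD : Prop := ∀ (n D : ℕ) (p q : Pt), PQ n p q → 2 ≤ D →
  SwapData n ((D + 1) * n) (fun k : ℕ => p k) (fun k : ℕ => q k) (SPQ n D p q)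

/-- **PQS** (uses `SPQD`, `SSCA`).  `D = N + L + 2`, `a = D n`, `b = (D+1) n` (`n ≥ 1` by `LP`);
`L ≤ a`, `n + L ≤ b`.  Last hypothesis of `SSCA`: let `S x c` and let `[i, i+L)` be a block with
`c - a < i`, `i + L ≤ c + b`.  `i` is in a block `[e, e+n)`, `e = c + j n`, `|j| ≤ D`, reading `p`
or `q`.  If `i + L ≤ e + n` then `p` or `q` has a block `0^L`, against `NZ`.  Otherwise
`e + n < i + L ≤ c + b`, so `e + n = c + (j+1) n` with `j + 1 ≤ D`, `x (e+n) = true`
(`p0`, `q0`) and `e + n ∈ [i, i+L)`, impossible.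
`ι p = q`: all multiples of `n` are sites of `p` reading `u` (`Per.int_mul`); so `ι p` reads `v` at
all multiples of `n`, `ι p = q`.  `ι q = p`: `ι` is an involution.
`CT`: let `CellAt L x c0 ℓ`, `ℓ ≤ N`, and suppose `ι x i ≠ x i`, `i ∈ [c0, c0+ℓ)`; there is a site `c`
with `i ∈ [c, c+n)`.  By the argument above there is no block inside `[c-a, c+b)` (also for
`i = c - a`).  So `c - a > c0 - L` and `c + b < c0 + ℓ + L` (the zero blocks next to the cell are not
inside, but `i` is), so `(2D+1) n < N + 2L`, impossible.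
Fixed points: let `Per m x`, `0 < m ≤ n`, `x` not in the orbits of `p`, `q`; `x` has no sites: let
`S x c`.  Case `m < n`: if `x` reads `u` at `c` then `p (k+m) = p k` for `0 ≤ k`, `k + m < n`, against
`unb`.  So (the same at `c + n`) `x` reads `v` at `c`, `c + n`; then `x (c+k) = q k` for
`0 ≤ k < 2n`, so `q (k+m) = q k` for `0 ≤ k < n` and `Per m q`, against the least period.  Case `m = n`:
`x` reads `u` (or `v`) at `c`, so by periodicity `tr c x = p` (or `q`), `x` is in the orbit. -/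
def SPQS : Prop := ∀ (L N n : ℕ) (p q : Pt), 1 ≤ L → PQ n p q → NZ L p → NZ L q →
  ∃ ι : Equiv.Perm Pt, IsInv ι ∧ CA L ι ∧ CT L N ι ∧ ι p = q ∧ ι q = p ∧
    ∀ (x : Pt) (m : ℕ), 0 < m → m ≤ n → Per m x → ¬ Orb p x → ¬ Orb q x → ι x = x

/-- **LYN**.  A primitive word has an unbordered conjugate beginning with a one.
Proof: for `k : ℤ` let `V k = ∑ j < n, 2^(n-1-j) * [p (k+j) = 1]` (a number `< 2^n`).  Choose `k`
with `V k` maximal (`V` takes finitely many values).  `p k = true`: some `p i = true` and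
`V i ≥ 2^(n-1)`, so `V k ≥ 2^(n-1)`, which forces the first letter to be one (otherwise
`V k < 2^(n-1)`).  Let `w j = p (k+j)`.  Suppose `0 < d < n` and `w j = w (j+d)` for all `j + d < n`; put
`β = n - d`.  For words write `val`.  `V (k+d) = val(w_d..w_{n-1}) 2^d + val(w_0..w_{d-1})` and
`w_d..w_{n-1} = w_0..w_{β-1}`, `V k = val(w_0..w_{β-1}) 2^d + val(w_β..w_{n-1})`; so `V (k+d) ≤ V k` gives
`val(w_0..w_{d-1}) ≤ val(w_β..w_{n-1})`.  `V (k+β) = val(w_β..w_{n-1}) 2^β + val(w_0..w_{β-1})`,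
`V k = val(w_0..w_{d-1}) 2^β + val(w_d..w_{n-1})`; so `V (k+β) ≤ V k` gives
`val(w_β..w_{n-1}) ≤ val(w_0..w_{d-1})`.  So equality, `V (k+d) = V k`, hence (binary expansions)
`p (k+d+j) = p (k+j)` for `0 ≤ j < n`, so `Per d p` by `n`-periodicity, against the least period.
(Any other proof is fine, e.g. with the lexicographic order on `Fin n → Bool`.) -/
def SLYN : Prop := ∀ (n : ℕ) (p : Pt), LP n p → (∃ i : ℤ, p i = true) →
  ∃ k : ℤ, p k = true ∧ Unb n (tr k p)

/-- the point `(1^(n-1) 0)^∞` -/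
def rr (n : ℕ) : Pt := fun i => !decide ((n : ℤ) ∣ i + 1)

/-- **RR**.  `rr n i = false ↔ n ∣ i + 1`.  Least period: if `Per m (rr n)`, `0 < m < n`, then
`rr n (-1) = false` gives `rr n (m-1) = false`, `n ∣ m`.  `NZ`: of two neighbours at least one is a
one (`n ≥ 2`), and `L ≥ 2`. -/
def SRR : Prop := (∀ n : ℕ, 1 ≤ n → LP n (rr n)) ∧ (∀ n : ℕ, 2 ≤ n → rr n 0 = true) ∧
  (∀ n : ℕ, 3 ≤ n → rr n 1 = true) ∧ ∀ n L : ℕ, 2 ≤ n → 2 ≤ L → NZ L (rr n)

/-- **MOV** (uses `SPQS`, `SLYN`, `SRR`).  Write `r = rr n`.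
By `SLYN` choose `k` with `p' = tr k p`, `p' 0 = true`, `Unb n p'` (`p` has a one since `NZ L p`).
`ι1`, `ι2` = the involutions of `SPQS` for `(p', r)` and `(p', tr 1 r)` (`(tr 1 r) 0 = r 1 = true`; the
orbits are different because `p` is not in the orbit of `r`).  `τ = ι1 * ι2`:
`τ p' = ι1 (tr 1 r) = tr 1 (ι1 r) = tr 1 p'`, so `τ (tr b p) = tr (b+1) p` for all `b`, and
`τ^b (tr e p) = tr (b+e) p` (`b : ℤ`).  All `τ^b` are in `G`, `CA L`, `CT L N` (products and inverses of
`CT` cluster automorphisms are `CT`: `cellAt_zeq`), and fix all `x` with `Per m x`, `0 < m ≤ n`, not in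
the orbits of `p`, `r`.
Case `q` in the orbit of `p`: `q = tr b p`: `ρ = τ^(-b)`.  Case `q` not in the orbit of `p`: choose
`j` with `q j = true` (`NZ L q`), `q' = tr j q`, `ι3` the involution for `(p', q')`: `ι3 q' = p'`, so
`ι3 q = tr (k-j) p`; `ρ = τ^(j-k) * ι3`. -/
def SMOV : Prop := ∀ (L N n : ℕ) (p q : Pt), 2 ≤ L → 3 ≤ n → LP n p → LP n q → NZ L p → NZ L q →
  ¬ Orb (rr n) p → p ≠ q → ∃ ρ : Equiv.Perm Pt, ρ ∈ G ∧ CA L ρ ∧ CT L N ρ ∧ ρ q = p ∧
    ∀ (x : Pt) (m : ℕ), 0 < m → m ≤ n → Per m x → ¬ Orb p x → ¬ Orb q x → ¬ Orb (rr n) x →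
      ρ x = x

/-- **PCN** (uses `SMOV`, `SRR`, `cellAgree` of the library).  Correction at period `n`.
(0) If `CA L α`, `CT L N α`, `Per n x`, `0 < n < N`, `¬ NZ L x` then `α x = x`: `x` has blocks at
arbitrary places (translate by multiples of `n`); apply `cellAgree` to `α` and `id` (both `Good L`),
with consecutive translates `p`, `q = p + n k`: for `i` in a block both are zero (`zp`); otherwise
there is a block ending at `≤ i` and one beginning after `i` at distance `≤ n` from each other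
(the translates of one block by multiples of `n`: the last one ending at `≤ i`, and the next one, which
begins at most `n` later, after `i` or containing `i`).
(1) `n = 1`: `LP 1 x` means `x` constant; `rr 1 = 0^∞`.  If `x` is not in the orbit of `rr 1`,
`x = 1^∞`, `NZ L x`, so `α x` is constant without block: `α x = x`; `ρ = 1`.
`n = 2`: `LP 2 x` implies `x = rr 2` or `x = tr 1 (rr 2)`, nothing to prove; `ρ = 1`.
(2) `n ≥ 3`: let `F = {x | LP n x, NZ L x}`, a finite set (`x` is determined by its letters on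
`[0,n)`), mapped to itself by every `CA` map (`LP.image`, `NZ.zeq`).  Induction on the number of
elements of `Bad α = {x ∈ F | x not in the orbit of rr n, α x ≠ x}`, for all `α` with `CA L α`, `CT L N α`.
Empty: `ρ = 1` (points with `¬ NZ` are fixed by (0)).  Otherwise let `p ∈ Bad α`, `q = α p`, `ρ1` from
`SMOV` (`ρ1 q = p`), `α' = ρ1 * α` (`CA`, `CT`).  `α' p = p`.  If `x ∈ F`, `x` not in the orbit of `rr n`,
`α x = x`: `x` is not in the orbit of `p` (otherwise `α p = p`, as `α` commutes with `tr`), not in the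
orbit of `q` (otherwise `α q = q = α p`, `q = p`); so `α' x = ρ1 x = x`.  So
`Bad α' ⊂ Bad α` strictly.  Take `ρ = ρ2 * ρ1` with `ρ2` from the induction.  The points of period
`m < n` are fixed by `ρ1` since they are not in the orbits of points of least period `n`. -/
def SPCN : Prop := ∀ (L N n : ℕ) (α : Equiv.Perm Pt), 2 ≤ L → 0 < n → n < N → CA L α →
  CT L N α → ∃ ρ : Equiv.Perm Pt, ρ ∈ G ∧ CA L ρ ∧ CT L N ρ ∧
    (∀ (x : Pt) (m : ℕ), 0 < m → m < n → Per m x → ρ x = x) ∧
    ∀ x : Pt, LP n x → ¬ Orb (rr n) x → ρ (α x) = x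

/-- **PC** (uses `SPCN`, `SCELLT`).  First `SCELLT` with `m = N`: `ρ0 ∈ G`, `CA L ρ0`,
`α0 = ρ0 * α` is `CA L` and `CT L N`.  Induction on `n < N` (`n` steps): there is `ρ ∈ G`, `CA L ρ`,
`CT L N (ρ * α0)`, such that `ρ (α0 x) = x` for all `x` with `LP m x`, `0 < m ≤ n`, `x` not in the orbit of
`rr m`.  Step: apply `SPCN` to `ρ * α0` at `n + 1`: the new factor fixes the points of period
`≤ n`, so `ρ' (ρ (α0 x)) = ρ' x = x` for the old ones. -/
def SPC : Prop := ∀ (L N : ℕ) (α : Equiv.Perm Pt), 2 ≤ L → CA L α →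
  ∃ ρ : Equiv.Perm Pt, ρ ∈ G ∧ CA L ρ ∧
    ∀ (x : Pt) (n : ℕ), LP n x → n < N → Orb (rr n) x ∨ ρ (α x) = x

/-! ## 6. The ends of periodic stretches -/

/-- **FW** (Fine and Wilf, weak form).  For `i ∈ [a, a + n')`:
`q (i+n) = p (i+n) = p i = q i`.  Both sides are `n'`-periodic functions of `i`, so `Per n q`
(`Per.int_mul`).  Now `p` and `q` are both `n`-periodic and agree on `[a, a+n)`. -/
def SFW : Prop := ∀ (n n' : ℕ) (p q : Pt) (a : ℤ), 0 < n → 0 < n' → Per n p → Per n' q →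
  Agr p q a (a + n + n') → p = q

/-- the site of the swap of the beginnings `p` and `e` of clusters, followed by `p` -/
def SLE (L M M' : ℕ) (p e x : Pt) (c : ℤ) : Prop := ZOn x (c - L) c ∧
  ((∀ k : ℤ, 0 ≤ k → k < M → x (c + k) = p k) ∨ (∀ k : ℤ, 0 ≤ k → k < M → x (c + k) = e k)) ∧
  ∀ k : ℤ, M ≤ k → k < M + M' → x (c + k) = p k

/-- **LSW** (uses `SSCA`, `SFW`).  `M' = 2N + L`, `S = SLE L M M' p e`, `h = M`, `a = L`,
`b = M + M'`, `A k = p k`, `B k = e k`.
(i) A site `c` of `x` reads `p` or `e` on `[c, c+b)` (as `e = p` on `[M, ∞)`), so `x c = true` and no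
block is inside `[c, c+b)` (`NZ L p`, the hypothesis on `e`).  A block `[i, i+L)` with `i > c - L`
does not contain `c`, so `i > c` and `i + L > c + b`: last hypothesis of `SSCA`.
(ii) `SwapData`: `loc`, `cov`, `core` clear.  `disj`: for sites `c < c'` the block `[c'-L, c')` has
`c' > c`, so by (i) (`c' - L > c - L`) `c' > c + b`.  `mono`: cores of other sites are in
`[c+b+1, ∞)` or end before `c - b + M ≤ c - L` (apply `disj` estimate `c > c1 + b`), so they do not meet
`[c-L, c)` nor `[c, c+b)`.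
(iii) `ι e = glue zpt p 0`: the only site of `e` is `0`: `S e 0` clear; if `S e c` then `e c = true`,
so `c ≥ 0`; if `c > 0` the block `[c-L, c)` begins at `≥ 0` (impossible) or contains 0 (`e 0 = true`).
`ι e` reads `p` at 0 on `[0,M)`, is unchanged elsewhere.
(iv) `Per m x`, `m < N`: no sites: at a site `c`, `tr c x = p` on `[M, M+M')`, `M' ≥ m + n`, so
`tr c x = p` by `SFW`, and `p` has the block `[-L, 0)`.
(v) `glue zpt q 0` (`q 0 = true`, `NZ L q`): a site can only be at `0` (as in (iii)); then `q = p` on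
`[M, M+M')`, so `q = p` by `SFW`.
(vi) `glue q zpt k` with `NZ L q`: a site `c` has `c < k` (`x c = true`), and the block `[c-L, c)` is a
block of `q`. -/
def SLSW : Prop := ∀ (L N M n : ℕ) (p e : Pt), 1 ≤ L → 1 ≤ M → 0 < n → n < N → Per n p →
  NZ L p → p 0 = true → e 0 = true → (∀ i : ℤ, M ≤ i → e i = p i) → (∀ i : ℤ, i < 0 → e i = false) →
  (∀ i : ℤ, 0 ≤ i → ¬ ZOn e i (i + L)) →
  ∃ ι : Equiv.Perm Pt, IsInv ι ∧ CA L ι ∧ ι e = glue zpt p 0 ∧
    (∀ (m : ℕ) (x : Pt), 0 < m → m < N → Per m x → ι x = x) ∧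
    (∀ (m : ℕ) (q : Pt), 0 < m → m < N → Per m q → NZ L q → q 0 = true → q ≠ p →
      ι (glue zpt q 0) = glue zpt q 0) ∧
    ∀ (q : Pt) (k : ℤ), NZ L q → ι (glue q zpt k) = glue q zpt k

/-- **EFL** (uses `SLSW`).  The set `Π` of all `p` with `Per n p` for some `0 < n < N`, `NZ L p`,
`p 0 = true` is finite.  Induction on the number of bad `p ∈ Π` (`c (glue zpt p 0) ≠ glue zpt p 0`),
for all `c` with `CA L c` fixing the points of period `< N`.  None: `ρ = 1`; for general `k` use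
`tr k p` and `tr_glue_l`.  Otherwise let `p` be bad, `y = glue zpt p 0`, `e = c y`.  `LEnd L y 0`, so
`LEnd L e 0`, `e 0 = true`; `e i = false` for `i < 0` (`zp`, the blocks left of 0); no blocks in
`[0, ∞)` (`zp`); for `i ≥ M = r + 1` (`r` a radius of `c`): `e i = c p i = p i`.  Let `ι` be the
involution of `SLSW`, `c' = ι * c`: it fixes the points of period `< N`, `c' y = y`, and if
`q ∈ Π` is not bad for `c` then `q ≠ p` and `c' (glue zpt q 0) = ι (glue zpt q 0) = glue zpt q 0`.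
Take `ρ = ρ' * ι`. -/
def SEFL : Prop := ∀ (L N : ℕ) (c : Equiv.Perm Pt), 1 ≤ L → CA L c →
  (∀ (n : ℕ) (x : Pt), 0 < n → n < N → Per n x → c x = x) →
  ∃ ρ : Equiv.Perm Pt, ρ ∈ G ∧ CA L ρ ∧ (∀ (n : ℕ) (x : Pt), 0 < n → n < N → Per n x → ρ x = x) ∧
    (∀ (q : Pt) (k : ℤ), NZ L q → ρ (glue q zpt k) = glue q zpt k) ∧
    ∀ (n : ℕ) (p : Pt) (k : ℤ), 0 < n → n < N → Per n p → NZ L p → p k = true →
      ρ (c (glue zpt p k)) = glue zpt p k

/-- **EF** (uses `SEFL`).  Apply `SEFL` to `c`: `ρ1`, `c1 = ρ1 * c`.  Apply `SEFL` to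
`mirE * c1 * mirE` (`CA.mir`; it fixes the points of period `< N`, `Per` is invariant under the
mirror): `ρ'`, put `ρ2 = mirE * ρ' * mirE` (in `G` by `mir_mem_G chl`), `ρ = ρ2 * ρ1`.
Points of period `< N`: fixed.  `ρ2` fixes `glue zpt p k` for `NZ L p` (mirror of the fourth property,
`mir_glue_l`), so `ρ2 (ρ1 (c (glue zpt p k))) = glue zpt p k`.  For `glue p zpt (k+1)`, `p k = true`: its
mirror image is `glue zpt (mirE p) (-k)`, `(mirE p) (-k) = p k = true`; so
`ρ2 (c1 (glue p zpt (k+1))) = glue p zpt (k+1)` by the last property for the mirror image. -/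
def SEF : Prop := ∀ (L N : ℕ) (c : Equiv.Perm Pt), 1 ≤ L → CA L c →
  (∀ (n : ℕ) (x : Pt), 0 < n → n < N → Per n x → c x = x) →
  ∃ ρ : Equiv.Perm Pt, ρ ∈ G ∧ CA L ρ ∧
    (∀ (n : ℕ) (x : Pt), 0 < n → n < N → Per n x → ρ (c x) = x) ∧
    (∀ (n : ℕ) (p : Pt) (k : ℤ), 0 < n → n < N → Per n p → NZ L p → p k = true →
      ρ (c (glue zpt p k)) = glue zpt p k) ∧
    ∀ (n : ℕ) (p : Pt) (k : ℤ), 0 < n → n < N → Per n p → NZ L p → p k = true →
      ρ (c (glue p zpt (k + 1))) = glue p zpt (k + 1)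

/-- **BET** (uses `SCUT`, `SCutQ`, `SENDT`).  `β` = the cut-off of `c` at `R` (`SCUT`).
`β * c⁻¹ ∈ G` by `SENDT` (`H0 = 2R + 2L + r`, (q2) for the point `c⁻¹ x`, which has the same
blocks).  First part of the properties: (q1).  Second part: let `Deep N K x j`: there is `0 < n < N` with
`x (i+n) = x i` for `j - K ≤ i`, `i + n ≤ j + K`.  Let `p` be the point of period `n` with `p = x` on
`[j-K, j+K]` (`p i = x (j - K + (i - (j-K)) % n)`; `n ≤ K`).  By (q3) there are four cases for `β x j`: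
`x j`; or `c x j = c p j = p j = x j` (`r ≤ K`); or `c (glue zpt x k) j` with `j - r ≤ k ≤ j`,
`x k = true`, `NoZ x (k-R) (k+1+R)`: `NZ L p`, because a block of `p` has a translate by a multiple of
`n` that begins in `[k, k+n)` and ends before `k + n + L ≤ j + K + 1` and `≤ k + 1 + R`, a block of `x`,
impossible; so `c (glue zpt x k) j = c (glue zpt p k) j = (glue zpt p k) j = p j = x j` (`x = p` on
`[j - r, j + r]`).  The fourth case is the mirror image (`j ≤ l ≤ j + r`, blocks ending in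
`(l + 1 - n, l + 1]`).  For `β.symm` (= cut-off of `c.symm`) the same: `c.symm` has radius `r` and the
same fixed points. -/
def SBET : Prop := ∀ (L N K R r : ℕ) (c : Equiv.Perm Pt), 1 ≤ L → L ≤ R → 2 * r + 1 ≤ R →
  r + 2 * N + L + 1 ≤ K → K + L + 1 ≤ R → CA L c → IsAut r c →
  (∀ (n : ℕ) (x : Pt), 0 < n → n < N → Per n x → c x = x) →
  (∀ (n : ℕ) (p : Pt) (k : ℤ), 0 < n → n < N → Per n p → NZ L p → p k = true →
    c (glue zpt p k) = glue zpt p k) →
  (∀ (n : ℕ) (p : Pt) (k : ℤ), 0 < n → n < N → Per n p → NZ L p → p k = true →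
    c (glue p zpt (k + 1)) = glue p zpt (k + 1)) →
  ∃ β : Equiv.Perm Pt, CA L β ∧ β * c⁻¹ ∈ G ∧
    (∀ (x : Pt) (j : ℤ), β x j ≠ x j → NoZ L x (j - R) (j + 1 + R) ∧ ¬ Deep N K x j) ∧
    (∀ (x : Pt) (j : ℤ), β.symm x j ≠ x j → NoZ L x (j - R) (j + 1 + R) ∧ ¬ Deep N K x j)

end Pool.MP_5a0708_an.Nil
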