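import Pool.Agent.Lib.MP_5a0708_an.Nil.SpecB

/-!
# MP_5a0708_an, package Nil : the modules, part C (markers, codes, the involution `g`)
-/

set_option autoImplicit false

namespace Pool.MP_5a0708_an.Nil

/-! ## 7. Krieger markers -/

/-- a marker rule of radius `ρ` with distance at least `N` -/
structure Mark (N ρ : ℕ) (Mk : Pt → ℤ → Prop) : Prop where
  loc : ∀ (x y : Pt) (i : ℤ), (∀ j : ℤ, i - ρ ≤ j → j ≤ i + ρ → x j = y j) → Mk x i → Mk y i
  cov : ∀ (x : Pt) (i k : ℤ), Mk (tr k x) i ↔ Mk x (i + k)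
  sep : ∀ (x : Pt) (i j : ℤ), Mk x i → Mk x j → i < j → i + N ≤ j

/-- **KM** (Krieger's marker lemma).  For a list `l` of words `w : Fin (2T+1) → Bool` define
`Mk_l x i` by recursion: `Mk_[] = False`, `Mk_(w::l) x i ↔ Mk_l x i ∨ (x reads w on [i-T, i+T] ∧
¬ Deep N T x i ∧ ∀ j, i - N < j → j < i + N → ¬ Mk_l x j)`.  Each `Mk_l` has a radius and is covariant
(induction).  `sep` (induction): two old ones: hypothesis; old and new: by definition; two new ones
`i < j < i + N`: both read `w`, so with `n = j - i` and `k ∈ [i-T, i+T]`: `x (k+n) = x k`, hence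
`Deep N T x i`, excluded.  Take `l` = all words.  Covering: let `¬ Deep N T x i`, and let `w` be the
word of `x` on `[i-T, i+T]`, `l = l1 ++ w :: l2`.  For the sublist `w :: l2`: either `i` is a marker or
there is a marker of `l2` at distance `< N`; markers of a sublist are markers of `l` (induction). -/
def SKM : Prop := ∀ N T : ℕ, 1 ≤ N → ∃ (ρ : ℕ) (Mk : Pt → ℤ → Prop), Mark N ρ Mk ∧
  ∀ (x : Pt) (i : ℤ), ¬ Deep N T x i → ∃ m : ℤ, Mk x m ∧ i - N < m ∧ m < i + N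

/-! ## 8. Codes -/

/-- the word `u 0, ..., u (n-1)` has no block `0^L` -/
def Raw (L n : ℕ) (u : ℕ → Bool) : Prop :=
  ∀ j : ℕ, j + L ≤ n → ∃ i : ℕ, j ≤ i ∧ i < j + L ∧ u i = true

/-- **CNT**.  With `M = 2^L`, `n = L * M * m`: a word of length `n` without `0^L` is a sequence
of `M * m` words of length `L` different from `0^L` (the blocks `[jL, (j+1)L)`), so there are at most
`(M-1)^(M m)` of them.  `2 (M-1)^M ≤ M^M` (Bernoulli: `(M/(M-1))^M ≥ 1 + M/(M-1) ≥ 2` for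
`M ≥ 2`; or `(1 - 1/M)^M ≤ 1/2` by `Real.one_sub_div_pow_le_exp_neg`), so
`(M-1)^(M m) ≤ (M^M / 2)^m = 2^((L M - 1) m) = 2^(n - m)`. -/
def SCNT : Prop := ∀ L m : ℕ, 1 ≤ L →
  Nat.card {v : Fin (L * 2 ^ L * m) → Bool //
    Raw L (L * 2 ^ L * m) (fun k => if h : k < L * 2 ^ L * m then v ⟨k, h⟩ else false)} ≤
  2 ^ (L * 2 ^ L * m - m)

/-- a code word `1 1 0^P 1 1 ... 0 1 0` with `0^P` only at place 2 -/
def CodeW (P n : ℕ) (v : ℕ → Bool) : Prop :=
  v 0 = true ∧ v 1 = true ∧ (∀ j : ℕ, 2 ≤ j → j < P + 2 → v j = false) ∧ v (P + 2) = true ∧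
  v (P + 3) = true ∧ (∀ j : ℕ, j + P ≤ n → (∀ i : ℕ, j ≤ i → i < j + P → v i = false) → j = 2) ∧
  v (n - 3) = false ∧ v (n - 2) = true ∧ v (n - 1) = false

/-- `κ` codes the words of length `n` without `0^L` injectively by code words -/
structure IsCode (L P n : ℕ) (κ : (ℕ → Bool) → ℕ → Bool) : Prop where
  hLP : L ≤ P
  hPn : P + 7 ≤ n
  word : ∀ u : ℕ → Bool, Raw L n u → CodeW P n (κ u)
  inj : ∀ u u' : ℕ → Bool, Raw L n u → Raw L n u' → (∀ k : ℕ, k < n → κ u k = κ u' k) →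
    ∀ k : ℕ, k < n → u k = u' k
  ext : ∀ u u' : ℕ → Bool, (∀ k : ℕ, k < n → u k = u' k) → ∀ k : ℕ, k < n → κ u k = κ u' k

/-- **COD** (uses `SCNT`).  `A = L * 2^L`, `Q = 2A`, `P = Q + 1`, `m = 2 (P + 8)`, `n = A m`,
`ℓ = n - P - 7`.  The free places are `F = {j < ℓ | ¬ Q ∣ j}`; `#F ≥ ℓ - (ℓ / Q + 1) ≥ n - m`, because
`P + 7 + ℓ/Q + 1 ≤ P + 8 + m/2 = m` (`ℓ / Q ≤ n / Q = m / 2`).  By `SCNT` there is an injection `f` of
the set of words of length `n` without `0^L` (as functions on `Fin n`) into `F → Bool`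
(`Function.Embedding.nonempty_of_card_le`).  For `u` let `w j = f(u) j` for `j ∈ F` and `w j = true` for
the other `j`, and `κ u = 1 1 0^P 1 1 w_0 ... w_(ℓ-1) 0 1 0` (for `u` that is not `Raw` anything
depending only on `u` on `[0,n)`).  `0^P` only at place 2: let `[j, j+P)` be zero, `j + P ≤ n`.
`j ≤ 1`: contains place 1.  `2 < j ≤ P + 1`: contains place `P + 2`.  `j ∈ {P+2, P+3}`: contains `j`.
`j ≥ P + 4`: it does not contain the place `n - 2` (a one), so `j + P ≤ n - 2`, and its first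
`P - 1 = Q` places are places `≥ P + 4` and `< n - 3`, i.e. `Q` consecutive places of `w`; one of them
is divisible by `Q`, a one.  `inj`: `κ u` determines `w` on `F`, so `f(u)`, so `u` on `[0,n)`. -/
def SCOD : Prop := ∀ L : ℕ, 1 ≤ L → ∃ (P n : ℕ) (κ : (ℕ → Bool) → ℕ → Bool), IsCode L P n κ

/-- `x` reads at `e` the code word of `u` -/
def RdC (L n : ℕ) (κ : (ℕ → Bool) → ℕ → Bool) (x : Pt) (e : ℤ) (u : ℕ → Bool) : Prop :=
  Raw L n u ∧ ∀ k : ℕ, k < n → x (e + k) = κ u k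

open Classical in
/-- all code words are decoded -/
noncomputable def dec (L n : ℕ) (κ : (ℕ → Bool) → ℕ → Bool) (x : Pt) : Pt := fun i =>
  if ∃ (e : ℤ) (u : ℕ → Bool), RdC L n κ x e u ∧ e ≤ i ∧ i < e + n then
    decide (∃ (e : ℤ) (u : ℕ → Bool), RdC L n κ x e u ∧ e ≤ i ∧ i < e + n ∧ u (i - e).toNat = true)
  else x i

/-- **DEC**.  (1) Code words do not overlap: let code words be read at `e < e' < e + n`, the
first one `v`, the second `v'`.  The zeros of `v'` at places `2..P+1` are at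
`[e'+2, e'+2+P)`.  If `e' + 2 + P ≤ e + n` then `v` has `0^P` at place `e' + 2 - e ≠ 2`, impossible.
Otherwise `e' + 2 + P > e + n`; `x (e+n-2) = true` and `e + n - 2 < e' + 2 + P`, so `e + n - 2 < e' + 2`,
`e' ≥ e + n - 3`.  `x e' = x (e'+1) = true`, but `x (e+n-3) = x (e+n-1) = false`: `e' = e+n-3` and
`e' = e+n-1` contradict `x e' = true`, `e' = e+n-2` contradicts `x (e'+1) = true`.
(2) If `RdC x e u` then `dec x (e+k) = u k` for `k < n`: the only code word that contains `e + k` is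
the one at `e` by (1), and it determines `u` on `[0,n)` by `inj`.  (3) Outside the code words
`dec x i = x i`.  (4) `dec` has radius `n` and commutes with `tr`.  (5) a code word contains the block
`[e+2, e+2+L)`. -/
def SDEC : Prop := ∀ (L P n : ℕ) (κ : (ℕ → Bool) → ℕ → Bool), IsCode L P n κ →
  (∀ (x : Pt) (e e' : ℤ) (u u' : ℕ → Bool), RdC L n κ x e u → RdC L n κ x e' u' → e < e' →
    e + n ≤ e') ∧
  (∀ (x : Pt) (e : ℤ) (u : ℕ → Bool), RdC L n κ x e u → ∀ k : ℕ, k < n →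
    dec L n κ x (e + k) = u k) ∧
  (∀ (x : Pt) (i : ℤ), (∀ (e : ℤ) (u : ℕ → Bool), RdC L n κ x e u → ¬ (e ≤ i ∧ i < e + n)) →
    dec L n κ x i = x i) ∧
  Loc n (dec L n κ) ∧ (∀ (k : ℤ) (x : Pt), dec L n κ (tr k x) = tr k (dec L n κ x)) ∧
  (∀ (x : Pt) (e : ℤ) (u : ℕ → Bool), RdC L n κ x e u → ZOn x (e + 2) (e + 2 + L))

/-- the sites of `g`: `c` is a marker of the decoded point, all code words near `c` are
aligned with the markers, and the decoded point has no block near `c` -/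
def Sit (L n w : ℕ) (κ : (ℕ → Bool) → ℕ → Bool) (Mk : Pt → ℤ → Prop) (x : Pt) (c : ℤ) : Prop :=
  Mk (dec L n κ x) c ∧
  (∀ (e : ℤ) (u : ℕ → Bool), RdC L n κ x e u → c - w < e + n → e < c + n + w →
    Mk (dec L n κ x) e) ∧
  NoZ L (dec L n κ x) (c - w) (c + n + w)

open Classical in
/-- at every site the code word is decoded, or the word is coded -/
noncomputable def gF (L n w : ℕ) (κ : (ℕ → Bool) → ℕ → Bool) (Mk : Pt → ℤ → Prop) (x : Pt) : Pt :=
  fun i =>
  if ∃ c : ℤ, Sit L n w κ Mk x c ∧ c ≤ i ∧ i < c + n then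
    (if ∃ (c : ℤ) (u : ℕ → Bool), Sit L n w κ Mk x c ∧ RdC L n κ x c u ∧ c ≤ i ∧ i < c + n then
      dec L n κ x i
    else decide (∃ c : ℤ, Sit L n w κ Mk x c ∧ c ≤ i ∧ i < c + n ∧
      κ (fun k : ℕ => dec L n κ x (c + k)) (i - c).toNat = true))
  else x i

/-- **GA** (uses `SDEC`).  First facts on the sites (`N = 2n`, `w ≥ N`), `y = dec x`, `z = gF x`.
(1) Two sites are at distance `≥ N = 2n` (markers).  (2) If `Sit x c`, `RdC x e u`, `c - n < e + n` and
`e < c + 2n` then `e = c`: the code word is near `c`, so `e` is a marker of `y`, `|e - c| < N`.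
(3) So `y = x` on `[c-n, c)` and on `[c+n, c+2n)`, and if `x` has no code word at `c` also on
`[c, c+n)`.  (4) `z = x` on `[c-n, c)` and `[c+n, c+2n)` (no other site block meets them by (1)).
(5) If `RdC x c u` then `z (c+k) = y (c+k) = u k`; otherwise `z (c+k) = κ (fun k => y (c+k)) k`
(`k < n`), and `fun k => y (c+k)` is `Raw` by `NoZ`, so `RdC z c (fun k => y (c+k))`.
(6) If `z i ≠ x i` then `i` is in a site block. -/
def SGA : Prop := ∀ (L P n w ρ : ℕ) (κ : (ℕ → Bool) → ℕ → Bool) (Mk : Pt → ℤ → Prop),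
  IsCode L P n κ → Mark (2 * n) ρ Mk → 2 * n ≤ w →
  (∀ (x : Pt) (c c' : ℤ), Sit L n w κ Mk x c → Sit L n w κ Mk x c' → c < c' → c + 2 * n ≤ c') ∧
  (∀ (x : Pt) (c e : ℤ) (u : ℕ → Bool), Sit L n w κ Mk x c → RdC L n κ x e u → c - n < e + n →
    e < c + 2 * n → e = c) ∧
  (∀ (x : Pt) (c i : ℤ), Sit L n w κ Mk x c → c - n ≤ i → i < c + 2 * n →
    ((¬ (c ≤ i ∧ i < c + n) ∨ ∀ u : ℕ → Bool, ¬ RdC L n κ x c u) → dec L n κ x i = x i)) ∧
  (∀ (x : Pt) (c i : ℤ), Sit L n w κ Mk x c → c - n ≤ i → i < c + 2 * n → ¬ (c ≤ i ∧ i < c + n) →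
    gF L n w κ Mk x i = x i) ∧
  (∀ (x : Pt) (c : ℤ) (u : ℕ → Bool), Sit L n w κ Mk x c → RdC L n κ x c u → ∀ k : ℕ, k < n →
    gF L n w κ Mk x (c + k) = dec L n κ x (c + k)) ∧
  (∀ (x : Pt) (c : ℤ), Sit L n w κ Mk x c → (∀ u : ℕ → Bool, ¬ RdC L n κ x c u) →
    RdC L n κ (gF L n w κ Mk x) c (fun k : ℕ => dec L n κ x (c + k))) ∧
  (∀ (x : Pt) (i : ℤ), gF L n w κ Mk x i ≠ x i → ∃ c : ℤ, Sit L n w κ Mk x c ∧ c ≤ i ∧ i < c + n)

/-- **GB** (uses `SDEC`, `SGA`).  The code words of `z = gF x`: `Cd x e` means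
`∃ u, RdC x e u`, `y = dec x`.  Claim 1: `Cd z e ↔ (Cd x e ∧ ¬ Sit x e) ∨ (Sit x e ∧ ¬ Cd x e)`.
(←) `Cd x e`, `¬ Sit x e`: `z = x` on `[e, e+n)`: otherwise `[e, e+n)` meets a site block
`[c, c+n)`, so `e = c` by (2) of `SGA`.  `Sit x e`, `¬ Cd x e`: (6) of `SGA`.
(→) Let `Cd z e`.  If no site block of `x` meets `[e, e+n)`, then `x = z` there, `Cd x e` and `e` is no
site (`n > 0`).  Otherwise let `[c, c+n)` be a site block meeting it, `|e - c| < n`.  If `Cd x c`: by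
`SGA` and `SDEC` `z = y` on `[c-n, c+2n)`, which contains `[e, e+n)`, and `y` has no block in there
(`w ≥ 2n`), against the block `[e+2, e+2+L)` of the code word.  So `¬ Cd x c` and `Cd z c`; two code words
of `z` do not overlap, so `e = c`.
Claim 2: `dec z = y`.  Let `i` be given.  If `i` is in a code word `[e, e+n)` of `z`: in the first case
of Claim 1 `z = x` on `[e,e+n)` and both decode to the same `u`; in the second case
`z` reads at `e` the code of `fun k => y (e+k)`, so `dec z (e+k) = y (e+k)`.  If `i` is in no code word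
of `z`: `dec z i = z i`.  If `i` is in a site block `[c,c+n)`: `c` is no code word of `z`, so `Cd x c`
and `z i = y i`.  If `i` is in no site block: `z i = x i`, and `i` is in no code word of `x` (by
Claim 1 it would be one of `z`, or at a site), so `x i = y i`.
Claim 3: `Sit z c ↔ Sit x c`: `dec z = dec x`; if all code words of `x` near `c` are at markers then
those of `z` are (Claim 1: they are code words of `x` or at sites), and conversely.
Claim 4: `gF z = x`.  Let `i` be in a site block `[c, c+n)`.  If `Cd x c`: `¬ Cd z c` (Claim 1), so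
`z` at `c` is coded: `gF z (c+k) = κ (fun k => y (c+k)) k`, and `x (c+k) = κ u k` with `u k = y (c+k)` for
`k < n`, so they agree (`ext`).  If `¬ Cd x c`: `Cd z c`, `gF z i = dec z i = y i = x i` by (3) of
`SGA`.  Outside the site blocks `gF z i = z i = x i`. -/
def SGB : Prop := ∀ (L P n w ρ : ℕ) (κ : (ℕ → Bool) → ℕ → Bool) (Mk : Pt → ℤ → Prop),
  IsCode L P n κ → Mark (2 * n) ρ Mk → 2 * n ≤ w →
  ∀ x : Pt, gF L n w κ Mk (gF L n w κ Mk x) = x

/-- **GC** (uses `SDEC`, `SGA`).  `gF` has a radius and commutes with `tr`, e.g. radius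
`w + 3 n + ρ`.  `Sit x c` depends on `dec x` on `[c-w-n-ρ, c+n+w+ρ]` and on the code words of `x` near
`c`, i.e. on `x` on `[c - w - 2n - ρ, c + 2n + w + ρ]` (`Loc n dec`); covariance of `RdC`, `dec`, `Mk`,
`NoZ`. -/
def SGC : Prop := ∀ (L P n w ρ : ℕ) (κ : (ℕ → Bool) → ℕ → Bool) (Mk : Pt → ℤ → Prop),
  IsCode L P n κ → Mark (2 * n) ρ Mk → 2 * n ≤ w →
  (∃ r : ℕ, Loc r (gF L n w κ Mk)) ∧
  ∀ (k : ℤ) (x : Pt), gF L n w κ Mk (tr k x) = tr k (gF L n w κ Mk x)

/-- **GK** (uses `SKM`, `SCOD`, `SDEC`, `SGA`, `SGB`, `SGC`).  There is an involution `g` such that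
wherever `x` and `g x` have no block `0^L`, `g x` is periodic with a small period.
`P, n, κ` from `SCOD`, `N = w = 2n`, `ρ, Mk` from `SKM` with `T = K`, `g = gF` (an involution by `SGB`,
`IsAut` by `SGC`, then `IsAut.isInv`), `W = K + ρ + 20 n + L + 20`.
Let `NoZ x (j-W) (j+W)`, `NoZ (g x) (j-W) (j+W)`.  Code words contain blocks, so no code word of `x` is
inside `[j-W, j+W)`, and `dec x = x` on `[j-W+n, j+W-n)`.
(a) If `Mk x m` with `|m - j| ≤ K + 4n` then `Sit x m`: `Mk (dec x) m` by `loc`; no code word is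
near `m`; `NoZ (dec x)` near `m`.  As `x` has no code word at `m`, `g x` has one (`SGA`), which
contains a block inside `[j-W, j+W)`, against the hypothesis.  So there is no such `m`.
(b) `g x = x` on `[j-K, j+K]`: a changed letter is in a site block `[c, c+n)`; `Mk (dec x) c`, so
`Mk x c` by `loc`, against (a).  (c) By (a) there is no marker `m` with `|m - j| < N`, so
`Deep N K x j` by the covering property; by (b) `Deep N K (g x) j` (`Deep.congr`). -/
def SGK : Prop := ∀ L : ℕ, 1 ≤ L → ∃ N : ℕ, 1 ≤ N ∧ ∀ K : ℕ, ∃ (g : Equiv.Perm Pt) (W : ℕ),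
  IsInv g ∧ ∀ (x : Pt) (j : ℤ), NoZ L x (j - W) (j + W) → NoZ L (g x) (j - W) (j + W) →
    Deep N K (g x) j

/-- **CLA**.  `γ = g β g` is trivial far from the blocks.  Let `NoZ x (i - (W+ρ)) (i + (W+ρ))`,
`z = g x`.  For `j ∈ [i-ρ, i+ρ]`: `NoZ x (j-W) (j+W)`.  If `β z j ≠ z j` then `NoZ z (j-R) (j+1+R)`,
so `NoZ z (j-W) (j+W)`, so `Deep N K z j` by the property of `g`, against the property of `β`.  So
`β z = z` on `[i-ρ, i+ρ]`, and `g (β z) i = g z i = x i`. -/
def SCLA : Prop := ∀ (L N K W R ρ : ℕ) (g : Equiv.Perm Pt) (β : Pt → Pt), IsInv g → Loc ρ g →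
  W ≤ R →
  (∀ (x : Pt) (j : ℤ), NoZ L x (j - W) (j + W) → NoZ L (g x) (j - W) (j + W) →
    Deep N K (g x) j) →
  (∀ (x : Pt) (j : ℤ), β x j ≠ x j → NoZ L x (j - R) (j + 1 + R) ∧ ¬ Deep N K x j) →
  ∀ (x : Pt) (i : ℤ), NoZ L x (i - (W + ρ : ℕ)) (i + (W + ρ : ℕ)) → g (β (g x)) i = x i

end Pool.MP_5a0708_an.Nil
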