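import Pool.Agent.Lib.MP_5a0708_an.Nil.SpecB

/-!
# MP_5a0708_an, package Nil, module UPH : unique phase
-/

set_option autoImplicit false

namespace Pool.MP_5a0708_an.Nil

/-- two points of period `n` which agree on `[0, n)` are equal -/
private theorem UPH_ext {n : ℕ} (hn : 0 < n) {f g : Pt} (hf : Per n f) (hg : Per n g)
    (h : ∀ k : ℤ, 0 ≤ k → k < n → f k = g k) : f = g := by
  funext i
  have hn' : (0 : ℤ) < n := by exact_mod_cast hn
  have h1 := hf.int_mul (i / n) (i % n)
  have h2 := hg.int_mul (i / n) (i % n)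
  have e : i % n + i / n * n = i := by
    have := Int.emod_add_mul_ediv i n
    linarith [mul_comm (n : ℤ) (i / n)]
  rw [e] at h1 h2
  rw [h1, h2]
  exact h _ (Int.emod_nonneg _ hn'.ne') (Int.emod_lt_of_pos _ hn')

/-- the claim -/
private theorem UPH_claim {n : ℕ} {p q : Pt} (h : PQ n p q) (x : Pt) (c : ℤ) (d : ℕ)
    (hd : 0 < d) (hdn : d < n) (h1 : UV n p q x c) (h2 : UV n p q x (c + n))
    (h3 : ∀ k : ℤ, 0 ≤ k → k < n → x (c + d + k) = p k) : False := by
  rcases h1 with h1 | h1
  · -- `u` at `c`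
    obtain ⟨k, hk, hne⟩ := h.unb d hd hdn
    apply hne
    have e1 := h3 k (by omega) (by omega)
    have e2 := h1 (k + d) (by omega) (by omega)
    rw [← e1, ← e2]
    congr 1
    ring
  · rcases h2 with h2 | h2
    · -- `v` at `c`, `u` at `c + n`
      obtain ⟨k, hk, hne⟩ := h.unb (n - d) (by omega) (by omega)
      apply hne
      have e1 := h2 k (by omega) (by omega)
      have e2 := h3 (k + (n - d : ℕ)) (by omega) (by omega)
      rw [← e1, ← e2]
      congr 1
      push_cast [Nat.cast_sub hdn.le]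
      ring
    · -- `v`, `v`
      have h4 : ∀ k : ℤ, 0 ≤ k → k < 2 * n → x (c + k) = q k := by
        intro k hk hk'
        by_cases hkn : k < n
        · exact h1 k hk hkn
        · have e1 := h2 (k - n) (by omega) (by omega)
          have e2 := h.hq.2.1 (k - n)
          rw [sub_add_cancel] at e2
          rw [e2, ← e1]
          congr 1
          ring
      have h5 : p = tr d q := by
        refine UPH_ext h.hp.1 h.hp.2.1 (h.hq.2.1.tr _) ?_
        intro k hk hk'
        rw [tr_apply, ← h3 k hk hk', ← h4 (k + d) (by omega) (by omega)]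
        congr 1
        ring
      exact h.orb (Orb.symm ⟨d, h5⟩)

/-- **UPH** -/
theorem tUPH : SUPH := by
  intro n p q h x c d hd hdn u0 u1 u2 w0 w1
  have hn : 0 < n := h.hp.1
  -- the blocks at `c + d`, `c + d + n`, `c + n` read `q`
  have v0 : ∀ k : ℤ, 0 ≤ k → k < n → x (c + d + k) = q k :=
    w0.resolve_left fun h3 => UPH_claim h x c d hd hdn u0 u1 h3
  have v1 : ∀ k : ℤ, 0 ≤ k → k < n → x (c + d + n + k) = q k := by
    refine w1.resolve_left fun h3 => UPH_claim h x (c + n) d hd hdn u1 ?_ ?_
    · have e : c + n + n = c + 2 * n := by ring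
      rw [e]
      exact u2
    · intro k hk hk'
      rw [← h3 k hk hk']
      congr 1
      ring
  have v2 : ∀ k : ℤ, 0 ≤ k → k < n → x (c + n + k) = q k := by
    refine u1.resolve_left fun h3 =>
      UPH_claim h x (c + d) (n - d) (by omega) (by omega) w0 w1 ?_
    intro k hk hk'
    rw [← h3 k hk hk']
    congr 1
    push_cast [Nat.cast_sub hdn.le]
    ring
  have h4 : ∀ k : ℤ, 0 ≤ k → k < 2 * n → x (c + d + k) = q k := by
    intro k hk hk'
    by_cases hkn : k < n
    · exact v0 k hk hkn
    · have e1 := v1 (k - n) (by omega) (by omega)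
      have e2 := h.hq.2.1 (k - n)
      rw [sub_add_cancel] at e2
      rw [e2, ← e1]
      congr 1
      ring
  have h5 : tr ((n - d : ℕ) : ℤ) q = q := by
    refine UPH_ext hn (h.hq.2.1.tr _) h.hq.2.1 ?_
    intro k hk hk'
    rw [tr_apply, ← v2 k hk hk', ← h4 (k + (n - d : ℕ)) (by omega) (by omega)]
    congr 1
    push_cast [Nat.cast_sub hdn.le]
    ring
  exact h.hq.2.2 (n - d) (by omega) (by omega) (per_iff.2 h5)

end Pool.MP_5a0708_an.Nil
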